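import Pool.Agent.H24.Cut5

set_option autoImplicit false
set_option linter.unusedSectionVars false
set_option linter.unusedVariables false
set_option maxRecDepth 100000

namespace Pool.Agent.H24

open Finset Equiv.Perm

variable {V : Type} [Fintype V] [DecidableEq V]
variable {M M' : CMap V}

/-- the set of all faces -/
theorem face_count (hpl : M.Pl) (hne : M.A.Nonempty) :
    ∃ K : Finset (Finset (V × Fin 3)), M.A.card + 4 ≤ 2 * K.card ∧ ∑ f ∈ K, f.card = 3 * M.A.card ∧
      ∀ f, f ∈ K ↔ ∃ d : V × Fin 3, d.1 ∈ M.A ∧ M.fc d = f := by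
  classical
  set I : Finset (V × Fin 3) := univ.filter (fun d => d.1 ∈ M.A) with hI
  have mI : ∀ d, d ∈ I ↔ d.1 ∈ M.A := by intro d; simp [hI]
  have mK : ∀ f, f ∈ I.image M.fc ↔ ∃ d : V × Fin 3, d.1 ∈ M.A ∧ M.fc d = f := by intro f; simp [mI]
  refine ⟨I.image M.fc, ?_, ?_, mK⟩
  · obtain ⟨v, hv⟩ := hne
    have h1 := M.patch_whole hpl (d0 := (v, 0)) hv
    have h2 : M.KF M.A (v, 0) ⊆ (I.image M.fc).erase (M.fc (v, 0)) := by
      intro f hf
      obtain ⟨d, ⟨hd1, hd2, hd3⟩, rfl⟩ := M.mem_KF.1 hf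
      rw [Finset.mem_erase]
      exact ⟨fun q => hd3 (M.fc_eq.1 q), (mK _).2 ⟨d, hd1, rfl⟩⟩
    have h3 := Finset.card_le_card h2
    have h4 : M.fc (v, 0) ∈ I.image M.fc := (mK _).2 ⟨_, hv, rfl⟩
    have h5 : 0 < (I.image M.fc).card := Finset.card_pos.2 ⟨_, h4⟩
    rw [Finset.card_erase_of_mem h4] at h3
    omega
  · rw [← CMap.card_darts, ← hI]
    have : (I.image M.fc).biUnion id = I := by
      ext d
      simp only [Finset.mem_biUnion, id]
      constructor
      · rintro ⟨f, hf, hdf⟩
        obtain ⟨e, he1, rfl⟩ := (mK f).1 hf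
        exact (mI d).2 ((M.SC_act (M.mem_fc.1 hdf)).1 he1)
      · intro h1
        exact ⟨M.fc d, (mK _).2 ⟨d, (mI d).1 h1, rfl⟩, M.mem_fc.2 (CMap.SC.refl M d)⟩
    conv_rhs => rw [← this]
    rw [Finset.card_biUnion]
    · rfl
    · intro f hf g hg hfg
      obtain ⟨a, ha, rfl⟩ := (mK f).1 hf
      obtain ⟨b, hb, rfl⟩ := (mK g).1 hg
      show Disjoint (M.fc a) (M.fc b)
      rw [Finset.disjoint_left]
      intro x hx hx2
      exact hfg (M.fc_eq.2 ((M.mem_fc.1 hx).trans (M.mem_fc.1 hx2).symm))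

theorem card20 (h : Std5 M) : 20 ≤ M.A.card := by
  have hA := h.card
  obtain ⟨K, h1, h2, h3⟩ := face_count h.pl (Finset.card_pos.1 (by omega))
  have h4 := Finset.card_nsmul_le_sum K (fun f => f.card) 5 (by
    intro f hf
    obtain ⟨d, hd, rfl⟩ := (h3 f).1 hf
    show 5 ≤ (M.fc d).card
    rw [M.card_fc]; exact h.ln5 d hd)
  rw [smul_eq_mul] at h4
  omega

theorem all_len (hpl : M.Pl) {g : ℕ} (hne : M.A.Nonempty) (hg : ∀ d : V × Fin 3, d.1 ∈ M.A → g ≤ M.ln d)
    (hc : 6 * M.A.card ≤ g * (M.A.card + 4)) : ∀ d : V × Fin 3, d.1 ∈ M.A → M.ln d = g := by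
  classical
  obtain ⟨K, h1, h2, h3⟩ := face_count hpl hne
  intro d hd
  by_contra hcon
  have hgd := hg d hd
  have hdK : M.fc d ∈ K := (h3 _).2 ⟨d, hd, rfl⟩
  have h4 : K.card * g < ∑ f ∈ K, f.card := by
    rw [← smul_eq_mul, ← Finset.sum_const]
    apply Finset.sum_lt_sum
    · intro f hf
      obtain ⟨e, he, rfl⟩ := (h3 f).1 hf
      rw [M.card_fc]; exact hg e he
    · refine ⟨M.fc d, hdK, ?_⟩
      rw [M.card_fc]; omega
  have h5 : g * (M.A.card + 4) ≤ g * (2 * K.card) := Nat.mul_le_mul_left _ h1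
  have h6 : g * (2 * K.card) = 2 * (K.card * g) := by ring
  omega

def gTh : Gd := ⟨2, 0, [3, 5, 4, 0, 2, 1], [], [], List.replicate 6 6⟩
theorem gTh_ok : gTh.Ok :=
  ⟨by decide +kernel, by decide +kernel, by decide +kernel, by decide +kernel, by decide +kernel, by decide +kernel⟩

def gK4 : Gd := ⟨4, 0, [5, 10, 6, 8, 11, 0, 2, 9, 3, 7, 1, 4], [], [], List.replicate 12 12⟩
theorem gK4_ok : gK4.Ok :=
  ⟨by decide +kernel, by decide +kernel, by decide +kernel, by decide +kernel, by decide +kernel, by decide +kernel⟩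

theorem base2 (h3 : M.C3) (hpl : M.Pl) (hA : M.A.card = 2) : IsExc M := by
  have hne : M.A.Nonempty := Finset.card_pos.1 (by omega)
  have hln : ∀ d : V × Fin 3, d.1 ∈ M.A → M.ln d = 2 := by
    apply all_len hpl hne
    · intro d hd
      have h1 := M.ln_pos d
      by_contra hc
      have h2 : M.ln d = 1 := by omega
      have h3' := M.ph_ln d
      rw [h2, Function.iterate_one, M.ph_apply] at h3'
      have := M.no_loop h3 (by omega) hd
      apply this
      have h4 := congrArg Prod.fst h3'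
      exact h4
    · omega
  have h2' : ∀ d : V × Fin 3, d.1 ∈ M.A → M.ph (M.ph d) = d := by
    intro d hd
    have := M.ph_ln d
    rw [hln d hd] at this
    exact this
  obtain ⟨v, hv⟩ := hne
  set d : V × Fin 3 := (v, 0) with hd
  have hdA : d.1 ∈ M.A := hv
  have key : ∀ e : V × Fin 3, e.1 ∈ M.A → M.al (sg (M.al e)) = sg (sg e) := by
    intro e he
    have := h2' e he
    rw [M.ph_apply, M.ph_apply] at this
    have h4 : sg (M.al (sg (M.al e))) = sg (sg (sg e)) := by rw [sg3]; exact this
    exact sg_inj h4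
  have k1 := key d hdA
  have k2 := key (sg (sg d)) hdA
  rw [sg3] at k2
  have k3 : M.al (sg (sg d)) = sg (M.al d) := by rw [← k1, M.inv]
  rw [k3] at k2
  have k4 : M.al (sg d) = sg (sg (M.al d)) := by rw [← k2, M.inv]
  left
  let D : ℕ → V × Fin 3 := fun x => if x = 0 then d else M.al d
  have hnl := M.no_loop h3 (by omega) hdA
  have hE := mkEmb M gTh gTh_ok D
    (by
      intro x hx
      have hx' : x < 2 := hx
      interval_cases x
      · exact hdA
      · exact M.act _ hdA)
    (by
      intro x hx y hy he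
      have hx' : x < 2 := hx
      have hy' : y < 2 := hy
      interval_cases x <;> interval_cases y
      · rfl
      · exact absurd he.symm hnl
      · exact absurd he hnl
      · rfl)
    (by
      intro k hk q1 q2
      have hk' : k < 6 := hk
      interval_cases k <;> first | (exfalso; revert q1 q2; decide) | skip
      · rfl
      · exact k4
      · exact k3)
    (by
      intro j hj hj2
      exfalso
      have : gTh.N = 6 := rfl
      have : gTh.m = 2 := rfl
      omega)
  exact iso_of_iso (iso_of_emb hE gTh_ok rfl hA) (dg 5 172066848) (dg 5 172066848) (by decide +kernel)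

theorem base4 (h3 : M.C3) (hpl : M.Pl) (hA : M.A.card = 4) : IsExc M := by
  have hne : M.A.Nonempty := Finset.card_pos.1 (by omega)
  have hln : ∀ d : V × Fin 3, d.1 ∈ M.A → M.ln d = 3 := by
    apply all_len hpl hne
    · intro d hd
      exact M.ln_ge3 h3 (by omega) hd
    · omega
  obtain ⟨v, hv⟩ := hne
  set d : V × Fin 3 := (v, 0) with hd'
  have hd : d.1 ∈ M.A := hv
  have hl := hln d hd
  have i3 := iter3 hl
  have hd1 : (M.ph d).1 ∈ M.A := (M.ph_act d).2 hd
  have hd2 : (M.ph (M.ph d)).1 ∈ M.A := (M.ph_act _).2 hd1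
  have n01 : d.1 ≠ (M.ph d).1 := face_vert_ne h3 hpl hd hl (i := 0) (j := 1) (by omega) (by omega) (by omega)
  have n02 : d.1 ≠ (M.ph (M.ph d)).1 :=
    face_vert_ne h3 hpl hd hl (i := 0) (j := 2) (by omega) (by omega) (by omega)
  have n12 : (M.ph d).1 ≠ (M.ph (M.ph d)).1 :=
    face_vert_ne h3 hpl hd hl (i := 1) (j := 2) (by omega) (by omega) (by omega)
  have a0 : M.al d = sg (sg (M.ph d)) := M.al_ph d
  have a1 : M.al (M.ph d) = sg (sg (M.ph (M.ph d))) := M.al_ph _
  have a2 : M.al (M.ph (M.ph d)) = sg (sg d) := by rw [M.al_ph, i3]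
  have a1' : M.al (sg (sg (M.ph (M.ph d)))) = M.ph d := by rw [← a1, M.inv]
  have a2' : M.al (sg (sg d)) = M.ph (M.ph d) := by rw [← a2, M.inv]
  have n3 : ∀ e : V × Fin 3, e.1 = d.1 ∨ e.1 = (M.ph d).1 ∨ e.1 = (M.ph (M.ph d)).1 →
      (M.al (sg (M.ph (M.ph d)))).1 ≠ e.1 := by
    intro e he q
    rcases he with he | he | he
    · have := M.no_par h3 (by omega) (d := sg (M.ph (M.ph d))) (e := M.ph (M.ph d)) hd2 rfl
        (by rw [q, he, a2]; rfl)
      exact sg_ne _ this
    · have := M.no_par h3 (by omega) (d := sg (M.ph (M.ph d))) (e := sg (sg (M.ph (M.ph d)))) hd2 rfl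
        (by rw [q, he, a1'])
      exact sg_ne _ (sg_inj this).symm
    · exact M.no_loop h3 (by omega) (d := sg (M.ph (M.ph d))) hd2 (by rw [q, he]; rfl)
  set z := M.al (sg (M.ph (M.ph d))) with hz
  have hzA : z.1 ∈ M.A := M.act _ hd2
  have a3 : M.al (sg (M.ph (M.ph d))) = z := rfl
  -- face through code 7
  have b1 : M.al (sg z) = sg d := by
    have hh := iter3 (hln (sg (M.ph (M.ph d))) hd2)
    have e2 : M.ph (sg (sg d)) = sg (M.ph (M.ph d)) := by rw [M.ph_apply, a2']
    have e3 : M.ph (M.ph (sg (M.ph (M.ph d)))) = sg (sg d) := by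
      apply M.ph.injective
      rw [hh, e2]
    have e4 : M.ph (sg (M.ph (M.ph d))) = sg z := M.ph_apply _
    rw [e4, M.ph_apply] at e3
    exact sg_inj e3
  have b1' : M.al (sg d) = sg z := by rw [← b1, M.inv]
  have b2 : M.al (sg (sg z)) = sg (M.ph d) := by
    have hh := iter3 (hln (sg d) hd)
    have e2 : M.ph (sg (sg (M.ph d))) = sg d := by rw [M.ph_apply, ← a0, M.inv]
    have e3 : M.ph (M.ph (sg d)) = sg (sg (M.ph d)) := by
      apply M.ph.injective
      rw [hh, e2]
    have e4 : M.ph (sg d) = sg (sg z) := by rw [M.ph_apply, b1']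
    rw [e4, M.ph_apply] at e3
    exact sg_inj e3
  have b2' : M.al (sg (M.ph d)) = sg (sg z) := by rw [← b2, M.inv]
  right; left
  have hE := mkEmb M gK4 gK4_ok (triD M d)
    (by
      intro x hx
      have hx' : x < 4 := hx
      interval_cases x
      · exact hd
      · exact hd1
      · exact hd2
      · exact hzA)
    (by
      intro x hx y hy he
      have hx' : x < 4 := hx
      have hy' : y < 4 := hy
      have m0 := n3 d (by simp)
      have m1 := n3 (M.ph d) (by simp)
      have m2 := n3 (M.ph (M.ph d)) (by simp)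
      interval_cases x <;> interval_cases y <;> first | rfl | (exfalso; simp [triD] at he) <;>
        first | exact n01 he | exact n01 he.symm | exact n02 he | exact n02 he.symm | exact n12 he |
          exact n12 he.symm | exact m0 he | exact m0 he.symm | exact m1 he | exact m1 he.symm |
          exact m2 he | exact m2 he.symm)
    (by
      intro k hk q1 q2
      have hk' : k < 12 := hk
      interval_cases k <;> first | (exfalso; revert q1 q2; decide) | skip
      · exact a0
      · exact b1'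
      · exact a2'
      · exact a1
      · exact b2'
      · rfl)
    (by
      intro j hj hj2
      exfalso
      have : gK4.N = 12 := rfl
      have : gK4.m = 4 := rfl
      omega)
  exact iso_of_iso (iso_of_emb hE gK4_ok rfl hA) (dg 5 296333066168862752) (dg 5 259250901545519136)
    (by decide +kernel)

theorem exc_card (h : IsExc M) : M.A.card ≤ 8 := by
  rcases h with ⟨ψ, h⟩ | ⟨ψ, h⟩ | ⟨ψ, h⟩ | ⟨ψ, h⟩ <;> have := h.card <;> omega

/-- the last reduction -/
theorem step5 (h : Std5 M) : Step M := by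
  obtain ⟨S, hS⟩ := exists_side h
  obtain ⟨d, h1, h2, h3, h4⟩ := exists_pair h hS
  have hd : d.1 ∈ M.A := hS.sub h1.self
  have h20 := card20 h
  have hpS : ∀ x, (pD M d x).1 ∈ S := by
    intro x
    unfold pD
    split_ifs
    · exact (h1.sc (M.SC_iter d _)).self
    · exact (h2.sc (M.SC_iter _ _)).self
  rcases h4 with h4 | h4
  · have hE := emb55 h.toStd hd h3 h4
    obtain ⟨M', hr⟩ := exists_red M g55 _ hE g55_ok
    have hc := red_card hE hr
    have f1 : ((Finset.range g55.m).filter (fun x => g55.isK (3 * x) = false)).card = 8 := by decide +kernel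
    rw [f1] at hc
    have hin : ∀ k < 24, (mk M g55 (pD M d) k).1 ∈ S := by
      intro k hk
      unfold mk
      rw [if_pos (show k < 3 * g55.m from hk), sgi_fst]
      exact hpS _
    exact ⟨M', c3_55 h.toStd hS hE hin hr, red_planar hE g55_ok hr h.pl 100 g55_pl, by omega, by omega,
      ext_55 hE hr, fun q => by have := exc_card q; omega⟩
  · have hE := emb56 h.toStd hd h3 h4
    obtain ⟨M', hr⟩ := exists_red M g56 _ hE g56_ok
    have hc := red_card hE hr
    have f1 : ((Finset.range g56.m).filter (fun x => g56.isK (3 * x) = false)).card = 8 := by decide +kernel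
    rw [f1] at hc
    have hin : ∀ k < 27, (mk M g56 (pD M d) k).1 ∈ S := by
      intro k hk
      unfold mk
      rw [if_pos (show k < 3 * g56.m from hk), sgi_fst]
      exact hpS _
    exact ⟨M', c3_56 h.toStd hS hE hin hr, red_planar hE g56_ok hr h.pl 100 g56_pl, by omega, by omega,
      ext_56 hE hr, fun q => by have := exc_card q; omega⟩

/-- the main theorem on maps -/
theorem main_maps : ∀ (n : ℕ) (M : CMap V), M.A.card = n → M.C3 → M.Pl → 2 ≤ M.A.card →
    Col M ∨ IsExc M := by
  intro n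
  induction n using Nat.strong_induction_on with
  | _ n ihn =>
    intro M hn h3 hpl h2
    have ih : IH M := fun M' q1 q2 q3 q4 => ihn _ (by omega) M' rfl q1 q2 q3
    have useStep : Step M → Col M ∨ IsExc M := by
      rintro ⟨M', q1, q2, q3, q4, q5, q6⟩
      rcases ih M' q1 q2 q3 q4 with q | q
      · exact Or.inl (q5 q)
      · exact q6 q
    obtain ⟨k, hk⟩ := M.even_A
    by_cases c2 : M.A.card = 2
    · exact Or.inr (base2 h3 hpl c2)
    by_cases c4 : M.A.card = 4
    · exact Or.inr (base4 h3 hpl c4)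
    have hA : 6 ≤ M.A.card := by omega
    by_cases hNB : M.NB
    swap
    · exact Or.inl (big_step h3 hpl ih hNB)
    by_cases hT : ∃ d : V × Fin 3, d.1 ∈ M.A ∧ M.ln d = 3
    · obtain ⟨d, hd, hl⟩ := hT
      exact useStep (tri_step h3 hpl hNB hA hd hl)
    push Not at hT
    have hS := std_of h3 hpl hNB hA hT
    by_cases hQ : ∃ d : V × Fin 3, d.1 ∈ M.A ∧ M.ln d = 4
    · obtain ⟨d, hd, hl⟩ := hQ
      rcases sq_step hS hd hl with q | q
      · exact useStep q
      · exact Or.inr q
    push Not at hQ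
    have h5 : Std5 M := ⟨hS, fun d hd => by
      have q1 := hS.ln4 d hd
      have q2 := hQ d hd
      omega⟩
    exact useStep (step5 h5)

end Pool.Agent.H24
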