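import Mathlib

set_option autoImplicit false

namespace Pool.Agent.H24

open Finset

/-- rotation at a vertex -/
def sg {V : Type} (d : V × Fin 3) : V × Fin 3 := (d.1, d.2 + 1)

/-- A cubic map on a set `A` of active vertices of an ambient type `V`. -/
structure CMap (V : Type) [Fintype V] [DecidableEq V] where
  A : Finset V
  al : V × Fin 3 → V × Fin 3
  inv : ∀ d, al (al d) = d
  act : ∀ d, d.1 ∈ A → (al d).1 ∈ A
  nofix : ∀ d, d.1 ∈ A → al d ≠ d
  out : ∀ d, d.1 ∉ A → al d = d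

variable {V : Type}

@[simp] theorem sg_fst (d : V × Fin 3) : (sg d).1 = d.1 := rfl

theorem sg3 (d : V × Fin 3) : sg (sg (sg d)) = d := by
  obtain ⟨v, i⟩ := d
  simp only [sg]
  fin_cases i <;> rfl

theorem sg_inj {d e : V × Fin 3} (h : sg d = sg e) : d = e := by
  have := congrArg (fun x => sg (sg x)) h
  simpa [sg3] using this

theorem sg_ne (d : V × Fin 3) : sg d ≠ d := by
  obtain ⟨v, i⟩ := d
  simp only [sg]
  fin_cases i <;> simp

theorem sg2_ne (d : V × Fin 3) : sg (sg d) ≠ d := by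
  obtain ⟨v, i⟩ := d
  simp only [sg]
  fin_cases i <;> simp

/-- any dart at the vertex of `d` is one of the three rotations of `d` -/
theorem dart_cases {d e : V × Fin 3} (h : e.1 = d.1) : e = d ∨ e = sg d ∨ e = sg (sg d) := by
  obtain ⟨v, i⟩ := d
  obtain ⟨w, j⟩ := e
  simp only [sg, Prod.mk.injEq] at *
  subst h
  fin_cases i <;> fin_cases j <;> simp

theorem sum3 {M : Type} [AddCommMonoid M] (Z : V × Fin 3 → M) (d : V × Fin 3) :
    Z d + Z (sg d) + Z (sg (sg d)) = ∑ i : Fin 3, Z (d.1, i) := by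
  obtain ⟨v, i⟩ := d
  simp only [sg, Fin.sum_univ_three]
  fin_cases i
  · simp
  · simp only [Fin.mk_one, Fin.isValue, Fin.reduceAdd]; abel
  · simp only [Fin.reduceFinMk, Fin.isValue, Fin.reduceAdd]; abel

variable [Fintype V] [DecidableEq V]

namespace CMap

variable (M : CMap V)

theorem al_inj {d e : V × Fin 3} (h : M.al d = M.al e) : d = e := by
  rw [← M.inv d, h, M.inv]

theorem act_iff (d : V × Fin 3) : (M.al d).1 ∈ M.A ↔ d.1 ∈ M.A := by
  constructor
  · intro h
    have := M.act _ h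
    rwa [M.inv] at this
  · exact M.act d

/-- number of darts leaving `B` -/
def b (B : Finset V) : ℕ := (univ.filter (fun d : V × Fin 3 => d.1 ∈ B ∧ (M.al d).1 ∉ B)).card

theorem b_eq_sum (B : Finset V) :
    M.b B = ∑ d : V × Fin 3, if d.1 ∈ B ∧ (M.al d).1 ∉ B then 1 else 0 := by
  unfold b; rw [Finset.card_filter]

/-- three edge connectivity -/
def C3 : Prop := ∀ B ⊆ M.A, B.Nonempty → B ≠ M.A → 3 ≤ M.b B

theorem b_empty : M.b ∅ = 0 := by simp [b]

theorem b_compl {B : Finset V} (hB : B ⊆ M.A) : M.b (M.A \ B) = M.b B := by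
  unfold b
  apply Finset.card_bij' (fun d _ => M.al d) (fun d _ => M.al d)
  · intro d hd
    simp only [mem_filter, mem_univ, true_and, mem_sdiff, M.inv] at *
    have := M.act _ hd.1.1
    tauto
  · intro d hd
    simp only [mem_filter, mem_univ, true_and, mem_sdiff, M.inv] at *
    have h1 := hB hd.1
    have h2 := M.act _ h1
    tauto
  · intro d _; exact M.inv d
  · intro d _; exact M.inv d

theorem b_submod (B C : Finset V) : M.b (B ∩ C) + M.b (B ∪ C) ≤ M.b B + M.b C := by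
  simp only [b_eq_sum, ← Finset.sum_add_distrib]
  apply Finset.sum_le_sum
  intro d _
  simp only [mem_inter, mem_union]
  by_cases h1 : d.1 ∈ B <;> by_cases h2 : d.1 ∈ C <;> by_cases h3 : (M.al d).1 ∈ B <;>
    by_cases h4 : (M.al d).1 ∈ C <;> simp [h1, h2, h3, h4]

theorem b_posi (B C : Finset V) :
    M.b (B \ C) + M.b (C \ B) ≤ M.b B + M.b C := by
  simp only [b_eq_sum, ← Finset.sum_add_distrib]
  have key : ∑ d : V × Fin 3, ((if d.1 ∈ B \ C ∧ (M.al d).1 ∉ B \ C then 1 else 0) +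
      (if (M.al d).1 ∈ C \ B ∧ d.1 ∉ C \ B then 1 else 0)) ≤
      ∑ d : V × Fin 3, ((if d.1 ∈ B ∧ (M.al d).1 ∉ B then 1 else 0) +
      (if (M.al d).1 ∈ C ∧ d.1 ∉ C then 1 else 0)) := by
    apply Finset.sum_le_sum
    intro d _
    simp only [mem_sdiff]
    by_cases h1 : d.1 ∈ B <;> by_cases h2 : d.1 ∈ C <;> by_cases h3 : (M.al d).1 ∈ B <;>
      by_cases h4 : (M.al d).1 ∈ C <;> simp [h1, h2, h3, h4]
  have e : ∀ D : Finset V, ∑ d : V × Fin 3, (if (M.al d).1 ∈ D ∧ d.1 ∉ D then 1 else 0) =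
      ∑ d : V × Fin 3, (if d.1 ∈ D ∧ (M.al d).1 ∉ D then 1 else 0) := by
    intro D
    apply Finset.sum_bij' (fun d _ => M.al d) (fun d _ => M.al d) <;> simp [M.inv]
  simp only [Finset.sum_add_distrib] at key ⊢
  rw [e, e] at key
  exact key

theorem card_darts (B : Finset V) :
    (univ.filter (fun d : V × Fin 3 => d.1 ∈ B)).card = 3 * B.card := by
  have : (univ.filter (fun d : V × Fin 3 => d.1 ∈ B)) = B ×ˢ (univ : Finset (Fin 3)) := by
    ext d; simp
  rw [this, Finset.card_product]; simp [mul_comm]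

/-- inner darts -/
def ins (B : Finset V) : Finset (V × Fin 3) :=
  univ.filter (fun d : V × Fin 3 => d.1 ∈ B ∧ (M.al d).1 ∈ B)

theorem mem_ins {B : Finset V} {d : V × Fin 3} : d ∈ M.ins B ↔ d.1 ∈ B ∧ (M.al d).1 ∈ B := by
  simp [ins]

theorem card_ins_add (B : Finset V) : (M.ins B).card + M.b B = 3 * B.card := by
  rw [← card_darts B]
  unfold ins b
  rw [← Finset.card_union_of_disjoint]
  · congr 1
    ext d
    simp only [mem_union, mem_filter, mem_univ, true_and]
    tauto
  · rw [Finset.disjoint_filter]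
    tauto

theorem even_ins {B : Finset V} (hB : B ⊆ M.A) : Even (M.ins B).card := by
  have h : ∑ d ∈ M.ins B, (1 : ZMod 2) = 0 := by
    apply Finset.sum_involution (fun d _ => M.al d)
    · intro d _; decide
    · intro d hd _
      exact M.nofix d (hB (M.mem_ins.1 hd).1)
    · intro d hd
      rw [mem_ins] at *
      rw [M.inv]; exact ⟨hd.2, hd.1⟩
    · intro d _; exact M.inv d
  simp only [sum_const, nsmul_eq_mul, mul_one] at h
  exact (ZMod.natCast_eq_zero_iff_even).1 h

theorem parity {B : Finset V} (hB : B ⊆ M.A) : M.b B % 2 = B.card % 2 := by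
  have h1 := M.card_ins_add B
  obtain ⟨k, hk⟩ := M.even_ins hB
  omega

theorem b_A : M.b M.A = 0 := by
  unfold b
  rw [Finset.card_eq_zero, Finset.filter_eq_empty_iff]
  intro d _ h
  exact h.2 (M.act _ h.1)

theorem even_A : Even M.A.card := by
  have := M.parity (Finset.Subset.refl M.A)
  rw [M.b_A] at this
  rw [Nat.even_iff]; omega

/-- cycle vectors -/
structure Cyc (Z : V × Fin 3 → ZMod 2) : Prop where
  sym : ∀ d, Z (M.al d) = Z d
  sum : ∀ v, ∑ i : Fin 3, Z (v, i) = 0
  out : ∀ d, d.1 ∉ M.A → Z d = 0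

/-- functions constant on faces -/
def Inv (H : V × Fin 3 → ZMod 2) : Prop := ∀ d, d.1 ∈ M.A → H (M.al d) = H (sg d)

/-- planarity -/
def Pl : Prop := ∀ Z, M.Cyc Z → ∃ H, M.Inv H ∧ ∀ d, d.1 ∈ M.A → Z d = H d + H (sg d)

end CMap

end Pool.Agent.H24
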