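import Pool.Agent.H24.Glue

set_option autoImplicit false
set_option linter.unusedSectionVars false
set_option linter.unusedVariables false
set_option maxRecDepth 100000

namespace Pool.Agent.H24

open Finset Equiv.Perm

variable {V : Type} [Fintype V] [DecidableEq V]

/-- induction hypothesis -/
def IH (M : CMap V) : Prop := ∀ M' : CMap V, M'.C3 → M'.Pl → 2 ≤ M'.A.card → M'.A.card < M.A.card →
  Col M' ∨ IsExc M'

def SideCol (M : CMap V) (S : Finset V) (xs : Fin 3 → V × Fin 3) : Prop :=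
  ∃ c γ, Weak M S c ∧ (∀ p, p ≠ γ → Strong M S c p) ∧ ∀ i, c (xs i).1 ≠ γ

def SideOdd (M : CMap V) (S : Finset V) (xs : Fin 3 → V × Fin 3) : Prop :=
  ∃ ca cb ja jb, ja ≠ jb ∧ Weak M S ca ∧ OddAt ca xs ja ∧ Weak M S cb ∧ OddAt cb xs jb

section
variable {M : CMap V} {S : Finset V} {xs : Fin 3 → V × Fin 3}

theorem side_cases (h3 : M.C3) (hpl : M.Pl) (hS : S ⊆ M.A) (hb : M.b S = 3) (h5 : 5 ≤ S.card)
    (h5' : 5 ≤ (M.A \ S).card) (ih : IH M) (h : Cross M S xs) : SideCol M S xs ∨ SideOdd M S xs := by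
  have ht := h.out_ 0
  obtain ⟨Mc, hc⟩ := exists_contr h hS ht
  have hcard := contr_card hc ht
  have hcd := Finset.card_sdiff_of_subset hS
  have hle := Finset.card_le_card hS
  have hne : S ≠ M.A := by
    intro q
    rw [q, Finset.sdiff_self, Finset.card_empty] at h5'
    omega
  rcases ih Mc (contr_c3 h3 h hc hS hne ht) (contr_pl h3 hpl h hc hS hb ht) (by omega) (by omega) with hC | hE
  · left
    obtain ⟨c, hg⟩ := hC
    refine ⟨c, c (M.al (xs 0)).1, weak_of_good hS h hc ht hg, fun p hp => strong_of_good hS h hc ht hg hp, ?_⟩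
    intro i
    have := hg.proper (xs i) (by rw [hc.A_]; exact Finset.mem_insert_of_mem (h.in_ i))
    rw [hc.X_] at this
    exact this
  · right
    exact odd_exc hS h hc ht h5 hE

theorem combine (hS : S ⊆ M.A) (h : Cross M S xs) {cS cT : V → Fin 3} (w1 : Weak M S cS)
    (w2 : Weak M (M.A \ S) cT) (hx : ∀ i, cS (xs i).1 ≠ cT (M.al (xs i)).1)
    (hp : ∀ p, Strong M S cS p ∨ Strong M (M.A \ S) cT p ∨ ∃ i j, i ≠ j ∧
      (cS (xs i).1 = p ∨ cT (M.al (xs i)).1 = p) ∧ (cS (xs j).1 = p ∨ cT (M.al (xs j)).1 = p)) : Col M := by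
  obtain ⟨cc, hcc⟩ : ∃ cc : V → Fin 3, ∀ v, cc v = if v ∈ S then cS v else cT v := ⟨_, fun _ => rfl⟩
  have eS : ∀ v ∈ S, cS v = cc v := by
    intro v hv
    rw [hcc]
    simp only [hv, if_true]
  have eT' : ∀ v, v ∉ S → cT v = cc v := by
    intro v hv
    rw [hcc]
    simp only [hv, if_false]
  have eT : ∀ v ∈ M.A \ S, cT v = cc v :=
    fun v hv => eT' v (Finset.mem_sdiff.1 hv).2
  refine ⟨cc, glue hS h (w1.congr eS) (w2.congr eT) ?_ ?_⟩
  · intro i
    rw [← eS _ (h.in_ i), ← eT' _ (h.out_ i)]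
    exact hx i
  · intro p
    rcases hp p with q | q | ⟨i, j, hij, hi, hj⟩
    · exact Or.inl (q.congr eS)
    · exact Or.inr (Or.inl (q.congr eT))
    · refine Or.inr (Or.inr ⟨i, j, hij, ?_, ?_⟩)
      · rw [← eS _ (h.in_ i), ← eT' _ (h.out_ i)]
        exact hi
      · rw [← eS _ (h.in_ j), ← eT' _ (h.out_ j)]
        exact hj

theorem pm1 : ∀ a b g u : Fin 3, a ≠ b → u ≠ g → ∃ π : Equiv.Perm (Fin 3), π a = g ∧ π b ≠ u := by
  decide +kernel

theorem pm2 : ∀ a b x y : Fin 3, a ≠ b → x ≠ y → ∃ π : Equiv.Perm (Fin 3), π a = x ∧ π b = y := by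
  decide +kernel

theorem pm3 : ∀ s0 : Fin 3, s0 ≠ 0 → ∀ s1 : Fin 3, s1 ≠ 0 → ∀ s2 : Fin 3, s2 ≠ 0 → ∀ t0 : Fin 3, t0 ≠ 0 →
    ∀ t1 : Fin 3, t1 ≠ 0 → ∀ t2 : Fin 3, t2 ≠ 0 → ∃ π : Equiv.Perm (Fin 3), π 0 ≠ 0 ∧ π t0 ≠ s0 ∧
    π t1 ≠ s1 ∧ π t2 ≠ s2 := by
  decide +kernel

theorem f3_a : ∀ j : Fin 3, j + 1 ≠ j ∧ j + 2 ≠ j ∧ j + 1 ≠ j + 2 := by decide

theorem f3_b : ∀ p a b : Fin 3, p ≠ a → p ≠ b → a ≠ b → ∀ q, q ≠ p → q = a ∨ q = b := by decide

theorem neg_ne {i j : Fin 3} (h : -i ≠ j) : i ≠ -j := fun q => h (by rw [q, neg_neg])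

/-- T ends in the complementary order -/
theorem odd_neg {c : V → Fin 3} {j : Fin 3} (h : OddAt c (fun i => M.al (xs (-i))) j) :
    ∃ a b, a ≠ b ∧ (∀ i, i ≠ -j → c (M.al (xs i)).1 = a) ∧ c (M.al (xs (-j))).1 = b := by
  obtain ⟨a, b, hab, h1, h2⟩ := h
  refine ⟨a, b, hab, ?_, h2⟩
  intro i hi
  have := h1 (-i) (fun q => hi (by rw [← q, neg_neg]))
  simp only [neg_neg] at this
  exact this

theorem comb_cc (hS : S ⊆ M.A) (h : Cross M S xs) (hs : SideCol M S xs)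
    (ht : SideCol M (M.A \ S) (fun i => M.al (xs (-i)))) : Col M := by
  obtain ⟨c1, g1, w1, st1, p1⟩ := hs
  obtain ⟨c2, g2, w2, st2, p2⟩ := ht
  have p2' : ∀ i, c2 (M.al (xs i)).1 ≠ g2 := by
    intro i
    have := p2 (-i)
    simp only [neg_neg] at this
    exact this
  obtain ⟨π1, e1, -⟩ := pm2 g1 (g1 + 1) 0 1 (f3_a g1).1.symm (by decide)
  obtain ⟨π2, e2, -⟩ := pm2 g2 (g2 + 1) 0 1 (f3_a g2).1.symm (by decide)
  have q1 : ∀ i, π1 (c1 (xs i).1) ≠ 0 := by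
    intro i q
    rw [← e1] at q
    exact p1 i (π1.injective q)
  have q2 : ∀ i, π2 (c2 (M.al (xs i)).1) ≠ 0 := by
    intro i q
    rw [← e2] at q
    exact p2' i (π2.injective q)
  obtain ⟨π, z, z0, z1, z2⟩ := pm3 _ (q1 0) _ (q1 1) _ (q1 2) _ (q2 0) _ (q2 1) _ (q2 2)
  apply combine hS h (w1.perm π1) ((w2.perm π2).perm π)
  · intro i
    fin_cases i
    · exact z0.symm
    · exact z1.symm
    · exact z2.symm
  · intro p
    by_cases hp : p = 0
    · right; left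
      have h1 : π2.symm (π.symm p) ≠ g2 := by
        intro q
        have : π (π2 g2) = p := by rw [← q]; simp
        rw [e2, hp] at this
        exact z this
      have h2 := ((st2 _ h1).perm π2).perm π
      simp only [Equiv.apply_symm_apply] at h2
      exact h2
    · left
      have h1 : π1.symm p ≠ g1 := by
        intro q
        have : π1 g1 = p := by rw [← q]; simp
        rw [e1] at this
        exact hp this.symm
      have h2 := (st1 _ h1).perm π1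
      simp only [Equiv.apply_symm_apply] at h2
      exact h2

theorem comb_oc (hS : S ⊆ M.A) (h : Cross M S xs) (hs : SideOdd M S xs)
    (ht : SideCol M (M.A \ S) (fun i => M.al (xs (-i)))) : Col M := by
  obtain ⟨c1, -, j, -, -, w1, ⟨a, b, hab, o1, o2⟩, -, -⟩ := hs
  obtain ⟨c2, g2, w2, st2, p2⟩ := ht
  have p2' : ∀ i, c2 (M.al (xs i)).1 ≠ g2 := by
    intro i
    have := p2 (-i)
    simp only [neg_neg] at this
    exact this
  obtain ⟨π, e1, e2⟩ := pm1 a b g2 _ hab (p2' j)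
  apply combine hS h (w1.perm π) w2
  · intro i
    by_cases hi : i = j
    · rw [hi]
      show π (c1 (xs j).1) ≠ _
      rw [o2]; exact e2
    · show π (c1 (xs i).1) ≠ _
      rw [o1 i hi, e1]
      exact (p2' i).symm
  · intro p
    by_cases hp : p = g2
    · right; right
      refine ⟨j + 1, j + 2, (f3_a j).2.2, Or.inl ?_, Or.inl ?_⟩
      · show π (c1 _) = p
        rw [o1 _ (f3_a j).1, e1, hp]
      · show π (c1 _) = p
        rw [o1 _ (f3_a j).2.1, e1, hp]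
    · exact Or.inr (Or.inl (st2 p hp))

theorem comb_co (hS : S ⊆ M.A) (h : Cross M S xs) (hs : SideCol M S xs)
    (ht : SideOdd M (M.A \ S) (fun i => M.al (xs (-i)))) : Col M := by
  obtain ⟨c1, -, j', -, -, w1, ho, -, -⟩ := ht
  obtain ⟨c2, g2, w2, st2, p2'⟩ := hs
  obtain ⟨a, b, hab, o1, o2⟩ := odd_neg ho
  obtain ⟨π, e1, e2⟩ := pm1 a b g2 _ hab (p2' (-j'))
  apply combine hS h w2 (w1.perm π)
  · intro i
    by_cases hi : i = -j'
    · rw [hi]
      show _ ≠ π (c1 (M.al (xs (-j'))).1)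
      rw [o2]; exact e2.symm
    · show _ ≠ π (c1 (M.al (xs i)).1)
      rw [o1 i hi, e1]
      exact p2' i
  · intro p
    by_cases hp : p = g2
    · right; right
      refine ⟨-j' + 1, -j' + 2, (f3_a _).2.2, Or.inr ?_, Or.inr ?_⟩
      · show π (c1 _) = p
        rw [o1 _ (f3_a _).1, e1, hp]
      · show π (c1 _) = p
        rw [o1 _ (f3_a _).2.1, e1, hp]
    · exact Or.inl (st2 p hp)

theorem comb_oo' (hS : S ⊆ M.A) (h : Cross M S xs) {c1 c2 : V → Fin 3} (w1 : Weak M S c1)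
    (w2 : Weak M (M.A \ S) c2) {j j' : Fin 3} (hj : j ≠ -j') (ho1 : OddAt c1 xs j)
    (ho2 : OddAt c2 (fun i => M.al (xs (-i))) j') : Col M := by
  obtain ⟨a, b, hab, o1, o2⟩ := ho1
  obtain ⟨a', b', hab', o1', o2'⟩ := odd_neg ho2
  obtain ⟨π, e1, e2⟩ := pm2 a b 0 1 hab (by decide)
  obtain ⟨π', e1', e2'⟩ := pm2 a' b' 2 1 hab' (by decide)
  have s1 : ∀ i, i ≠ j → π (c1 (xs i).1) = 0 := fun i hi => by rw [o1 i hi, e1]
  have s2 : π (c1 (xs j).1) = 1 := by rw [o2, e2]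
  have s1' : ∀ i, i ≠ -j' → π' (c2 (M.al (xs i)).1) = 2 := fun i hi => by rw [o1' i hi, e1']
  have s2' : π' (c2 (M.al (xs (-j'))).1) = 1 := by rw [o2', e2']
  apply combine hS h (w1.perm π) (w2.perm π')
  · intro i
    show π (c1 (xs i).1) ≠ π' (c2 (M.al (xs i)).1)
    by_cases hi : i = j
    · rw [hi, s2, s1' j hj]; decide
    · rw [s1 i hi]
      by_cases hi2 : i = -j'
      · rw [hi2, s2']; decide
      · rw [s1' i hi2]; decide
  · intro p
    right; right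
    have : p = 0 ∨ p = 1 ∨ p = 2 := by revert p; decide
    rcases this with rfl | rfl | rfl
    · exact ⟨j + 1, j + 2, (f3_a _).2.2, Or.inl (s1 _ (f3_a j).1), Or.inl (s1 _ (f3_a j).2.1)⟩
    · exact ⟨j, -j', hj, Or.inl s2, Or.inr s2'⟩
    · exact ⟨-j' + 1, -j' + 2, (f3_a _).2.2, Or.inr (s1' _ (f3_a _).1), Or.inr (s1' _ (f3_a _).2.1)⟩

theorem comb_oo (hS : S ⊆ M.A) (h : Cross M S xs) (hs : SideOdd M S xs)
    (ht : SideOdd M (M.A \ S) (fun i => M.al (xs (-i)))) : Col M := by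
  obtain ⟨c1, c2, j1, j2, hj, w1, o1, w2, o2⟩ := hs
  obtain ⟨c3, -, j3, -, -, w3, o3, -, -⟩ := ht
  by_cases q : j1 = -j3
  · exact comb_oo' hS h w2 w3 (fun q2 => hj (by rw [q, q2])) o2 o3
  · exact comb_oo' hS h w1 w3 q o1 o3

/-- a big three-edge cut -/
theorem big_step (h3 : M.C3) (hpl : M.Pl) (ih : IH M) (hB : ¬ M.NB) : Col M := by
  unfold CMap.NB at hB
  push Not at hB
  obtain ⟨S, hS, hb, h5, h5'⟩ := hB
  obtain ⟨xs, h⟩ := exists_cross M h3 hpl hS hb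
  have h' := h.compl hS
  have hT : M.A \ S ⊆ M.A := Finset.sdiff_subset
  have hbT : M.b (M.A \ S) = 3 := by rw [M.b_compl hS, hb]
  have hTT : M.A \ (M.A \ S) = S := by
    rw [Finset.sdiff_sdiff_eq_self hS]
  rcases side_cases h3 hpl hS hb (by omega) (by omega) ih h with q | q <;>
    rcases side_cases h3 hpl hT hbT (by omega) (by rw [hTT]; omega) ih h' with q' | q'
  · exact comb_cc hS h q q'
  · exact comb_co hS h q q'
  · exact comb_oc hS h q q'
  · exact comb_oo hS h q q'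

end

end Pool.Agent.H24
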