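import Pool.Agent.H24.Two

set_option autoImplicit false
set_option linter.unusedSectionVars false
set_option linter.unusedVariables false

namespace Pool.Agent.H24

open Finset Equiv.Perm

variable {V : Type} [Fintype V] [DecidableEq V]

/-- crossing darts of `S` listed in cyclic order -/
structure Cross (M : CMap V) (S : Finset V) (xs : Fin 3 → V × Fin 3) : Prop where
  in_ : ∀ i, (xs i).1 ∈ S
  out_ : ∀ i, (M.al (xs i)).1 ∉ S
  inj : ∀ i j, xs i = xs j → i = j
  all : ∀ d, d.1 ∈ S → (M.al d).1 ∉ S → ∃ i, xs i = d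
  ord : ∀ i, M.SC (xs i) (sg (xs (i + 1)))

section
variable (M : CMap V)

theorem ph_fst (d : V × Fin 3) : (M.ph d).1 = (M.al d).1 := rfl

theorem exit_ex {S : Finset V} {x : V × Fin 3} (hx : x.1 ∈ S) :
    ∃ n, 0 < n ∧ (M.ph^[n] x).1 ∈ S := ⟨M.ln x, M.ln_pos x, by rw [M.ph_ln]; exact hx⟩

open Classical in
/-- first return time to `S` -/
noncomputable def ret (S : Finset V) (x : V × Fin 3) (hx : x.1 ∈ S) : ℕ := Nat.find (exit_ex M hx)

theorem ret_spec {S : Finset V} {x : V × Fin 3} (hx : x.1 ∈ S) :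
    0 < ret M S x hx ∧ (M.ph^[ret M S x hx] x).1 ∈ S := by
  classical
  exact Nat.find_spec (exit_ex M hx)

theorem ret_min {S : Finset V} {x : V × Fin 3} (hx : x.1 ∈ S) {n : ℕ} (h0 : 0 < n)
    (hn : n < ret M S x hx) : (M.ph^[n] x).1 ∉ S := by
  classical
  intro h
  exact Nat.find_min (exit_ex M hx) hn ⟨h0, h⟩

/-- the exit dart -/
theorem exit_dart {S : Finset V} {x : V × Fin 3} (hx : x.1 ∈ S) (hx2 : (M.al x).1 ∉ S) :
    ∃ x' : V × Fin 3, x'.1 ∈ S ∧ (M.al x').1 ∉ S ∧ M.ph^[ret M S x hx] x = sg x' := by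
  obtain ⟨h0, h1⟩ := ret_spec M hx
  have hne1 : ret M S x hx ≠ 1 := by
    intro q
    rw [q, Function.iterate_one, ph_fst] at h1
    exact hx2 h1
  obtain ⟨n, hn⟩ : ∃ n, ret M S x hx = n + 1 := ⟨ret M S x hx - 1, by omega⟩
  have h2 := ret_min M hx (n := n) (by omega) (by omega)
  rw [hn, Function.iterate_succ_apply'] at h1
  refine ⟨M.al (M.ph^[n] x), h1, by rw [M.inv]; exact h2, ?_⟩
  rw [hn, Function.iterate_succ_apply']
  rfl

theorem exit_inj {S : Finset V} {x z : V × Fin 3} (hx : x.1 ∈ S) (hz : z.1 ∈ S)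
    (h : M.ph^[ret M S x hx] x = M.ph^[ret M S z hz] z) : x = z := by
  have main : ∀ (x z : V × Fin 3) (hx : x.1 ∈ S) (hz : z.1 ∈ S), ret M S x hx ≤ ret M S z hz →
      M.ph^[ret M S x hx] x = M.ph^[ret M S z hz] z → x = z := by
    intro x z hx hz hle h
    have h1 : M.ph^[ret M S z hz] z = M.ph^[ret M S x hx] (M.ph^[ret M S z hz - ret M S x hx] z) := by
      rw [← Function.iterate_add_apply]
      congr 1
      omega
    rw [h1] at h
    have h2 := (Function.Injective.iterate M.ph.injective _) h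
    by_cases c : ret M S z hz - ret M S x hx = 0
    · rw [c] at h2; exact h2
    · exfalso
      have := ret_min M hz (n := ret M S z hz - ret M S x hx) (by omega)
        (by have := (ret_spec M hx).1; omega)
      rw [← h2] at this
      exact this hx
  rcases le_total (ret M S x hx) (ret M S z hz) with q | q
  · exact main x z hx hz q h
  · exact (main z x hz hx q h.symm).symm

theorem exists_cross (h3 : M.C3) (hpl : M.Pl) {S : Finset V} (hS : S ⊆ M.A) (hb : M.b S = 3) :
    ∃ xs, Cross M S xs := by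
  classical
  set X : Finset (V × Fin 3) := univ.filter (fun d : V × Fin 3 => d.1 ∈ S ∧ (M.al d).1 ∉ S) with hX
  have hXc : X.card = 3 := hb
  have memX : ∀ d, d ∈ X ↔ d.1 ∈ S ∧ (M.al d).1 ∉ S := by intro d; simp [hX]
  have hex : ∀ x : V × Fin 3, ∃ x' : V × Fin 3, x ∈ X → x' ∈ X ∧ M.SC x (sg x') ∧
      ∀ hx : x.1 ∈ S, M.ph^[ret M S x hx] x = sg x' := by
    intro x
    by_cases hx : x ∈ X
    · have hx' := (memX x).1 hx
      obtain ⟨x', h1, h2, h3⟩ := exit_dart M hx'.1 hx'.2
      refine ⟨x', fun _ => ⟨(memX x').2 ⟨h1, h2⟩, ?_, fun _ => h3⟩⟩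
      rw [← h3]
      exact M.SC_iter x _
    · exact ⟨x, fun h => absurd h hx⟩
  choose e he using hex
  have einj : ∀ x ∈ X, ∀ z ∈ X, e x = e z → x = z := by
    intro x hx z hz hxz
    have hx' := (memX x).1 hx
    have hz' := (memX z).1 hz
    apply exit_inj M hx'.1 hz'.1
    rw [(he x hx).2.2 hx'.1, (he z hz).2.2 hz'.1, hxz]
  have enf : ∀ x ∈ X, e x ≠ x := by
    intro x hx h
    have h1 := (he x hx).2.1
    rw [h] at h1
    exact M.no_bridge h3 hpl (hS ((memX x).1 hx).1) h1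
  obtain ⟨a, ha⟩ : X.Nonempty := by
    rw [← Finset.card_pos]; omega
  set x1 := e a with hx1
  set x2 := e x1 with hx2
  have h1 : x1 ∈ X := (he a ha).1
  have h2 : x2 ∈ X := (he x1 h1).1
  have n01 : a ≠ x1 := fun q => enf a ha (by rw [← hx1, ← q])
  have n12 : x1 ≠ x2 := fun q => enf x1 h1 (by rw [← hx2, ← q])
  have n02 : a ≠ x2 := by
    intro q
    -- a third element
    have : ∃ z ∈ X, z ≠ a ∧ z ≠ x1 := by
      by_contra hc
      push Not at hc
      have hsub : X ⊆ {a, x1} := by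
        intro z hz
        simp only [mem_insert, mem_singleton]
        by_cases c : z = a
        · exact Or.inl c
        · exact Or.inr (hc z hz c)
      have := Finset.card_le_card hsub
      have := Finset.card_le_two (a := a) (b := x1)
      omega
    obtain ⟨z, hz, z1, z2⟩ := this
    have hez := (he z hz).1
    have k1 : e z ≠ z := enf z hz
    have k2 : e z ≠ x1 := fun q2 => z1 (einj z hz a ha q2)
    have k3 : e z ≠ a := fun q2 => z2 (einj z hz x1 h1 (by rw [q2, ← hx2, q]))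
    have hsub : ({a, x1, z, e z} : Finset (V × Fin 3)) ⊆ X := by
      intro w hw
      simp only [mem_insert, mem_singleton] at hw
      rcases hw with rfl | rfl | rfl | rfl <;> assumption
    have hc4 : ({a, x1, z, e z} : Finset (V × Fin 3)).card = 4 := by
      rw [Finset.card_insert_of_notMem, Finset.card_insert_of_notMem, Finset.card_pair k1.symm]
      · simp [z2.symm, k2.symm]
      · simp [n01, z1.symm, k3.symm]
    have := Finset.card_le_card hsub
    omega
  have hXe : X = {a, x1, x2} := by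
    symm
    apply Finset.eq_of_subset_of_card_le
    · intro w hw
      simp only [mem_insert, mem_singleton] at hw
      rcases hw with rfl | rfl | rfl <;> assumption
    · rw [hXc, Finset.card_insert_of_notMem, Finset.card_pair n12]
      simp [n01, n02]
  have he2 : e x2 = a := by
    have h4 := (he x2 h2).1
    rw [hXe] at h4
    simp only [mem_insert, mem_singleton] at h4
    rcases h4 with q | q | q
    · exact q
    · exact absurd (einj x2 h2 a ha q) n02.symm
    · exact absurd q (enf x2 h2)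
  refine ⟨![a, x1, x2], ?_, ?_, ?_, ?_, ?_⟩
  · intro i
    fin_cases i
    · exact ((memX a).1 ha).1
    · exact ((memX x1).1 h1).1
    · exact ((memX x2).1 h2).1
  · intro i
    fin_cases i
    · exact ((memX a).1 ha).2
    · exact ((memX x1).1 h1).2
    · exact ((memX x2).1 h2).2
  · intro i j hij
    fin_cases i <;> fin_cases j <;> first | rfl | (exfalso; simp at hij) <;>
      first | exact n01 hij | exact n01 hij.symm | exact n02 hij | exact n02 hij.symm | exact n12 hij |
        exact n12 hij.symm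
  · intro d hd1 hd2
    have : d ∈ X := (memX d).2 ⟨hd1, hd2⟩
    rw [hXe] at this
    simp only [mem_insert, mem_singleton] at this
    rcases this with q | q | q
    · exact ⟨0, q.symm⟩
    · exact ⟨1, q.symm⟩
    · exact ⟨2, q.symm⟩
  · intro i
    fin_cases i
    · exact (he a ha).2.1
    · exact (he x1 h1).2.1
    · have := (he x2 h2).2.1
      rw [he2] at this
      exact this

end

theorem neg_succ_aux : ∀ i : Fin 3, -(i + 1) + 1 = -i := by decide

/-- reversal: the crossing darts of the complement -/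
theorem Cross.compl {M : CMap V} {S : Finset V} {xs : Fin 3 → V × Fin 3} (hS : S ⊆ M.A)
    (h : Cross M S xs) : Cross M (M.A \ S) (fun i => M.al (xs (-i))) := by
  refine ⟨?_, ?_, ?_, ?_, ?_⟩
  · intro i
    rw [Finset.mem_sdiff]
    exact ⟨M.act _ (hS (h.in_ _)), h.out_ _⟩
  · intro i
    rw [M.inv, Finset.mem_sdiff]
    intro q
    exact q.2 (h.in_ _)
  · intro i j hij
    have := h.inj _ _ (M.al_inj hij)
    exact neg_injective this
  · intro d hd1 hd2
    rw [Finset.mem_sdiff] at hd1 hd2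
    have h1 : (M.al d).1 ∈ S := by
      by_contra c
      exact hd2 ⟨M.act _ hd1.1, c⟩
    obtain ⟨i, hi⟩ := h.all (M.al d) h1 (by rw [M.inv]; exact hd1.2)
    refine ⟨-i, ?_⟩
    rw [neg_neg, hi, M.inv]
  · intro i
    -- al (x (-i)) ~ sg (x (-i));  sg (al (x (-(i+1)))) ~ x (-(i+1)) ~ sg (x (-i))
    have h1 := M.SC_al (xs (-i))
    have h2 := M.SC_sgal (xs (-(i + 1)))
    have h3 := h.ord (-(i + 1))
    have e : -(i + 1) + 1 = -i := neg_succ_aux i
    rw [e] at h3
    exact h1.trans (h3.symm.trans h2)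

/-- contraction of the complement of `S` to the vertex `t` -/
structure Contr (M : CMap V) (S : Finset V) (xs : Fin 3 → V × Fin 3) (t : V) (Mc : CMap V) : Prop where
  A_ : Mc.A = insert t S
  X_ : ∀ i, Mc.al (xs i) = (t, i)
  T_ : ∀ i, Mc.al (t, i) = xs i
  O_ : ∀ d, d.1 ∈ S → (M.al d).1 ∈ S → Mc.al d = M.al d

theorem exists_contr {M : CMap V} {S : Finset V} {xs : Fin 3 → V × Fin 3} (h : Cross M S xs)
    (hS : S ⊆ M.A) {t : V} (ht : t ∉ S) : ∃ Mc, Contr M S xs t Mc := by
  classical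
  let al' : V × Fin 3 → V × Fin 3 := fun d =>
    if d.1 = t then xs d.2 else if d.1 ∈ S then
      (if hh : ∃ i, xs i = d then (t, hh.choose) else M.al d) else d
  have aT : ∀ i, al' (t, i) = xs i := by intro i; simp [al']
  have aX : ∀ i, al' (xs i) = (t, i) := by
    intro i
    have h1 : (xs i).1 ≠ t := fun q => ht (by rw [← q]; exact h.in_ i)
    have hh : ∃ j, xs j = xs i := ⟨i, rfl⟩
    simp only [al', h1, if_neg, h.in_ i, if_pos, hh, dif_pos, not_false_eq_true]
    rw [h.inj _ _ hh.choose_spec]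
  have nX : ∀ d, d.1 ∈ S → (M.al d).1 ∈ S → ¬ ∃ i, xs i = d := by
    rintro d hd hd2 ⟨i, rfl⟩
    exact h.out_ i hd2
  have aO : ∀ d, d.1 ∈ S → (M.al d).1 ∈ S → al' d = M.al d := by
    intro d hd hd2
    have h1 : d.1 ≠ t := fun q => ht (by rw [← q]; exact hd)
    simp only [al', h1, if_neg, hd, if_pos, nX d hd hd2, dif_neg, not_false_eq_true]
  have aE : ∀ d, d.1 ≠ t → d.1 ∉ S → al' d = d := by
    intro d h1 h2
    simp only [al', h1, h2, if_neg, not_false_eq_true]
  have cs : ∀ d : V × Fin 3, (∃ i, d = (t, i)) ∨ (∃ i, d = xs i) ∨ (d.1 ∈ S ∧ (M.al d).1 ∈ S) ∨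
      (d.1 ≠ t ∧ d.1 ∉ S) := by
    intro d
    by_cases c1 : d.1 = t
    · exact Or.inl ⟨d.2, by rw [← c1]⟩
    · by_cases c2 : d.1 ∈ S
      · by_cases c3 : (M.al d).1 ∈ S
        · exact Or.inr (Or.inr (Or.inl ⟨c2, c3⟩))
        · obtain ⟨i, hi⟩ := h.all d c2 c3
          exact Or.inr (Or.inl ⟨i, hi.symm⟩)
      · exact Or.inr (Or.inr (Or.inr ⟨c1, c2⟩))
  refine ⟨⟨insert t S, al', ?_, ?_, ?_, ?_⟩, rfl, aX, aT, aO⟩
  · intro d
    rcases cs d with ⟨i, rfl⟩ | ⟨i, rfl⟩ | ⟨c1, c2⟩ | ⟨c1, c2⟩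
    · rw [aT, aX]
    · rw [aX, aT]
    · rw [aO d c1 c2, aO _ c2 (by rw [M.inv]; exact c1), M.inv]
    · rw [aE d c1 c2, aE d c1 c2]
  · intro d hd
    rcases cs d with ⟨i, rfl⟩ | ⟨i, rfl⟩ | ⟨c1, c2⟩ | ⟨c1, c2⟩
    · rw [aT]; exact Finset.mem_insert_of_mem (h.in_ i)
    · rw [aX]; exact Finset.mem_insert_self _ _
    · rw [aO d c1 c2]; exact Finset.mem_insert_of_mem c2
    · rw [Finset.mem_insert] at hd; tauto
  · intro d hd
    rcases cs d with ⟨i, rfl⟩ | ⟨i, rfl⟩ | ⟨c1, c2⟩ | ⟨c1, c2⟩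
    · rw [aT]
      intro q
      have := congrArg Prod.fst q
      exact ht (by rw [← show (xs i).1 = t from this]; exact h.in_ i)
    · rw [aX]
      intro q
      have := congrArg Prod.fst q
      exact ht (by rw [show t = (xs i).1 from this]; exact h.in_ i)
    · rw [aO d c1 c2]; exact M.nofix d (hS c1)
    · rw [Finset.mem_insert] at hd; tauto
  · intro d hd
    rw [Finset.mem_insert, not_or] at hd
    exact aE d hd.1 hd.2

section
variable {M Mc : CMap V} {S : Finset V} {xs : Fin 3 → V × Fin 3} {t : V}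

theorem contr_cases (h : Cross M S xs) (hc : Contr M S xs t Mc) (d : V × Fin 3) (hd : d.1 ∈ Mc.A) :
    (∃ i, d = (t, i)) ∨ (∃ i, d = xs i) ∨ (d.1 ∈ S ∧ (M.al d).1 ∈ S) := by
  rw [hc.A_, Finset.mem_insert] at hd
  rcases hd with hd | hd
  · exact Or.inl ⟨d.2, by rw [← hd]⟩
  · by_cases c3 : (M.al d).1 ∈ S
    · exact Or.inr (Or.inr ⟨hd, c3⟩)
    · obtain ⟨i, hi⟩ := h.all d hd c3
      exact Or.inr (Or.inl ⟨i, hi.symm⟩)

theorem contr_b (h : Cross M S xs) (hc : Contr M S xs t Mc) (hS : S ⊆ M.A) (ht : t ∉ S)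
    {B : Finset V} (hB : B ⊆ S) : Mc.b B = M.b B := by
  unfold CMap.b
  congr 1
  ext d
  simp only [mem_filter, mem_univ, true_and]
  constructor
  · rintro ⟨h1, h2⟩
    refine ⟨h1, ?_⟩
    by_cases c : (M.al d).1 ∈ S
    · rw [← hc.O_ d (hB h1) c]; exact h2
    · exact fun q => c (hB q)
  · rintro ⟨h1, h2⟩
    refine ⟨h1, ?_⟩
    by_cases c : (M.al d).1 ∈ S
    · rw [hc.O_ d (hB h1) c]; exact h2
    · obtain ⟨i, rfl⟩ := h.all d (hB h1) c
      rw [hc.X_]
      exact fun q => ht (hB q)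

theorem contr_c3 (h3 : M.C3) (h : Cross M S xs) (hc : Contr M S xs t Mc) (hS : S ⊆ M.A) (hSA : S ≠ M.A)
    (ht : t ∉ S) : Mc.C3 := by
  have main : ∀ B ⊆ S, B.Nonempty → 3 ≤ Mc.b B := by
    intro B hB hne
    rw [contr_b h hc hS ht hB]
    apply h3 B (hB.trans hS) hne
    rintro rfl
    exact hSA (Finset.Subset.antisymm hS hB)
  intro B hB hne hne2
  by_cases c : t ∈ B
  · rw [← Mc.b_compl hB]
    apply main
    · intro v hv
      rw [Finset.mem_sdiff, hc.A_, Finset.mem_insert] at hv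
      rcases hv.1 with q | q
      · rw [q] at hv; exact absurd c hv.2
      · exact q
    · rw [Finset.sdiff_nonempty]
      intro q
      exact hne2 (Finset.Subset.antisymm hB q)
  · apply main _ _ hne
    intro v hv
    have := hB hv
    rw [hc.A_, Finset.mem_insert] at this
    rcases this with q | q
    · rw [q] at hv; exact absurd hv c
    · exact q

theorem contr_pl (h3 : M.C3) (hpl : M.Pl) (h : Cross M S xs) (hc : Contr M S xs t Mc) (hS : S ⊆ M.A)
    (hb : M.b S = 3) (ht : t ∉ S) : Mc.Pl := by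
  classical
  intro Z1 hZ1
  have hcn : M.Conn (M.A \ S) :=
    M.conn_of_b h3 Finset.sdiff_subset (by rw [M.b_compl hS, hb]; omega)
  have hu : ∀ i, (M.al (xs i)).1 ∈ M.A \ S := by
    intro i
    rw [Finset.mem_sdiff]
    exact ⟨M.act _ (hS (h.in_ i)), h.out_ i⟩
  obtain ⟨J1, j1a, j1b, j1c⟩ := M.tjoin hcn (hu 0) (hu 1)
  obtain ⟨J2, j2a, j2b, j2c⟩ := M.tjoin hcn (hu 0) (hu 2)
  have hz : Z1 (xs 0) + Z1 (xs 1) + Z1 (xs 2) = 0 := by
    have := hZ1.sum t
    rw [Fin.sum_univ_three] at this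
    rw [← hc.T_ 0, ← hc.T_ 1, ← hc.T_ 2, hZ1.sym, hZ1.sym, hZ1.sym]
    exact this
  let W : V × Fin 3 → ZMod 2 := fun d => Z1 (xs 1) * J1 d + Z1 (xs 2) * J2 d
  let F : V × Fin 3 → ZMod 2 := fun d => ∑ i : Fin 3, Z1 (xs i) * (if d = M.al (xs i) then 1 else 0)
  have Wsym : ∀ d, W (M.al d) = W d := by intro d; simp only [W, j1a, j2a]
  have Wsupp : ∀ d, d ∉ M.ins (M.A \ S) → W d = 0 := by
    intro d hd
    have e1 : J1 d = 0 := by by_contra q; exact hd (j1b d q)
    have e2 : J2 d = 0 := by by_contra q; exact hd (j2b d q)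
    simp only [W, e1, e2, mul_zero, add_zero]
  have Wsum : ∀ w, ∑ i : Fin 3, W (w, i) = ∑ i : Fin 3, Z1 (xs i) * vi (M.al (xs i)).1 w := by
    intro w
    simp only [W]
    rw [Finset.sum_add_distrib, ← Finset.mul_sum, ← Finset.mul_sum, j1c, j2c, Fin.sum_univ_three]
    linear_combination (vi (M.al (xs 0)).1 w) * hz - z2_add_self (Z1 (xs 0) * vi (M.al (xs 0)).1 w)
  have Fx : ∀ i, F (M.al (xs i)) = Z1 (xs i) := by
    intro i
    simp only [F]
    rw [Finset.sum_eq_single i]
    · simp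
    · intro j _ hj
      have : M.al (xs i) ≠ M.al (xs j) := fun q => hj (h.inj _ _ (M.al_inj q)).symm
      simp [this]
    · simp
  have Fn : ∀ d, (∀ i, d ≠ M.al (xs i)) → F d = 0 := by
    intro d hd
    simp only [F]
    apply Finset.sum_eq_zero
    intro i _
    simp [hd i]
  have Fsum : ∀ w, ∑ i : Fin 3, F (w, i) = ∑ i : Fin 3, Z1 (xs i) * vi (M.al (xs i)).1 w := by
    intro w
    simp only [F]
    rw [Finset.sum_comm]
    apply Finset.sum_congr rfl
    intro i _
    rw [← Finset.mul_sum, CMap.sum_ind]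
  let Z : V × Fin 3 → ZMod 2 := fun d => if d.1 ∈ S then Z1 d else if d.1 ∈ M.A then W d + F d else 0
  have ZS : ∀ d, d.1 ∈ S → Z d = Z1 d := by intro d hd; simp only [Z, hd, if_pos]
  have ZT : ∀ d, d.1 ∈ M.A → d.1 ∉ S → Z d = W d + F d := by
    intro d hd hd2; simp only [Z, hd, hd2, if_pos, if_neg, not_false_eq_true]
  have hZ : M.Cyc Z := by
    refine ⟨?_, ?_, ?_⟩
    · intro d
      by_cases hd : d.1 ∈ M.A
      swap
      · rw [M.out d hd]
      by_cases c1 : d.1 ∈ S <;> by_cases c2 : (M.al d).1 ∈ S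
      · rw [ZS _ c1, ZS _ c2, ← hc.O_ d c1 c2, hZ1.sym]
      · obtain ⟨i, rfl⟩ := h.all d c1 c2
        rw [ZS _ c1, ZT _ (M.act _ hd) c2, Fx i, Wsupp, zero_add]
        rw [CMap.mem_ins, M.inv]
        intro q
        exact (Finset.mem_sdiff.1 q.2).2 c1
      · obtain ⟨i, hi⟩ := h.all (M.al d) c2 (by rw [M.inv]; exact c1)
        have hd' : d = M.al (xs i) := by rw [hi, M.inv]
        rw [ZS _ c2, ZT _ hd c1, Wsupp, zero_add, ← hi]
        · rw [hd', Fx i]
        · rw [CMap.mem_ins]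
          intro q
          exact (Finset.mem_sdiff.1 q.2).2 c2
      · rw [ZT _ hd c1, ZT _ (M.act _ hd) c2, Wsym, Fn, Fn]
        · intro i q
          rw [q, M.inv] at c2
          exact c2 (h.in_ i)
        · intro i q
          have := M.al_inj q
          rw [this] at c1
          exact c1 (h.in_ i)
    · intro v
      by_cases hv : v ∈ M.A
      · by_cases c1 : v ∈ S
        · rw [← hZ1.sum v]
          apply Finset.sum_congr rfl
          intro i _
          exact ZS _ c1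
        · have : ∑ i : Fin 3, Z (v, i) = ∑ i : Fin 3, (W (v, i) + F (v, i)) := by
            apply Finset.sum_congr rfl
            intro i _
            exact ZT _ hv c1
          rw [this, Finset.sum_add_distrib, Wsum, Fsum]
          exact z2_add_self _
      · apply Finset.sum_eq_zero
        intro i _
        have : v ∉ S := fun q => hv (hS q)
        simp only [Z, this, hv, if_neg, not_false_eq_true]
    · intro d hd
      have : d.1 ∉ S := fun q => hd (hS q)
      simp only [Z, this, hd, if_neg, not_false_eq_true]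
  obtain ⟨H, hH, hHZ⟩ := hpl Z hZ
  have ord' : ∀ i, H (xs i) = H (sg (xs (i + 1))) := fun i => M.inv_SC hH (hS (h.in_ i)) (h.ord i)
  let H1 : V × Fin 3 → ZMod 2 := fun d => if d.1 = t then H (sg (xs d.2)) else H d
  have H1S : ∀ d, d.1 ∈ S → H1 d = H d := by
    intro d hd
    have : d.1 ≠ t := fun q => ht (by rw [← q]; exact hd)
    simp only [H1, this, if_neg, not_false_eq_true]
  have H1T : ∀ i, H1 (t, i) = H (sg (xs i)) := by intro i; simp [H1]
  refine ⟨H1, ?_, ?_⟩
  · intro d hd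
    rcases contr_cases h hc d hd with ⟨i, rfl⟩ | ⟨i, rfl⟩ | ⟨c1, c2⟩
    · rw [hc.T_, H1S _ (h.in_ i)]
      show H (xs i) = H1 (t, i + 1)
      rw [H1T, ord']
    · rw [hc.X_, H1T]
      exact (H1S (sg (xs i)) (h.in_ i)).symm
    · rw [hc.O_ d c1 c2, H1S _ c2]
      exact (hH d (hS c1)).trans (H1S (sg d) c1).symm
  · intro d hd
    rcases contr_cases h hc d hd with ⟨i, rfl⟩ | hor
    · show Z1 (t, i) = H1 (t, i) + H1 (t, i + 1)
      rw [← hc.X_ i, hZ1.sym, ← ZS _ (h.in_ i), hHZ _ (hS (h.in_ i)), hc.X_, H1T, H1T, ← ord']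
      ring
    · have c1 : d.1 ∈ S := by
        rcases hor with ⟨i, rfl⟩ | ⟨c1, c2⟩
        · exact h.in_ i
        · exact c1
      rw [← ZS _ c1, hHZ _ (hS c1), H1S _ c1, H1S _ (by exact c1)]

theorem contr_card (hc : Contr M S xs t Mc) (ht : t ∉ S) : Mc.A.card = S.card + 1 := by
  rw [hc.A_, Finset.card_insert_of_notMem ht]

end

end Pool.Agent.H24
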