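import Pool.Agent.H24.Square

set_option autoImplicit false
set_option linter.unusedSectionVars false
set_option linter.unusedVariables false
set_option maxRecDepth 100000

namespace Pool.Agent.H24

open Finset Equiv.Perm

variable {V : Type} [Fintype V] [DecidableEq V]
variable {M M' : CMap V}

/-- the bad cut of a square -/
def Bad (M : CMap V) (d : V × Fin 3) : Prop := ∃ Z ⊆ M.A, M.b Z = 4 ∧ d.1 ∈ Z ∧ (M.ph d).1 ∈ Z ∧
  (M.al (sg d)).1 ∈ Z ∧ (M.al (sg (M.ph d))).1 ∈ Z ∧ (M.ph (M.ph d)).1 ∉ Z ∧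
  (M.ph (M.ph (M.ph d))).1 ∉ Z ∧ (M.al (sg (M.ph (M.ph d)))).1 ∉ Z ∧
  (M.al (sg (M.ph (M.ph (M.ph d))))).1 ∉ Z

theorem sq_step_or_bad (h : Std M) {d : V × Fin 3} (hd : d.1 ∈ M.A) (hl : M.ln d = 4) :
    Step M ∨ Bad M d := by
  have hE := sq_emb h hd hl
  obtain ⟨M', hr⟩ := exists_red M gSq _ hE gSq_ok
  have hc := red_card hE hr
  have f1 : ((Finset.range gSq.m).filter (fun x => gSq.isK (3 * x) = false)).card = 4 := by decide +kernel
  rw [f1] at hc
  have hA := h.card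
  have hpl' := red_planar hE gSq_ok hr h.pl 100 gSq_pl
  rcases sq_c3 hE hr h with hc3 | ⟨Z, h1, h2, h3, h4, h5, h6, h7, h8, h9, h10⟩
  · left
    have hneA : 2 ≤ M'.A.card := by omega
    exact ⟨M', hc3, hpl', hneA, by omega, ext_sq hE hr, exc_sq hE hr h.pl (conn_of_C3 hc3)⟩
  · right
    exact ⟨Z, h1, h2, h3, h4, h5, h6, h7, h8, h9, h10⟩

theorem quad2 (h : Std M) {Q : Finset V} (hQ : Q ⊆ M.A) (hb : M.b Q ≤ 4) {e : V × Fin 3}
    (he : e.1 ∈ Q) (he0 : (M.al e).1 ∈ Q) (he1 : (M.al (sg e)).1 ∉ Q) (he2 : (M.al (sg (sg e))).1 ∉ Q) :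
    Q.card = 2 := by
  classical
  have hA := h.card
  have hnl : (M.al e).1 ≠ e.1 := M.no_loop h.c3 (by omega) (hQ he)
  set X : Finset (V × Fin 3) := univ.filter (fun d : V × Fin 3 => d.1 ∈ Q ∧ (M.al d).1 ∉ Q) with hX
  have hXc : X.card ≤ 4 := hb
  have s1 : sg e ∈ X := by rw [hX]; simp [he, he1]
  have s2 : sg (sg e) ∈ X.erase (sg e) := by
    rw [Finset.mem_erase]
    refine ⟨sg_ne _, ?_⟩
    rw [hX]; simp [he, he2]
  have hc2 : ((X.erase (sg e)).erase (sg (sg e))).card ≤ 2 := by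
    rw [Finset.card_erase_of_mem s2, Finset.card_erase_of_mem s1]
    omega
  have hb3 : M.b (Q.erase e.1) ≤ 3 := by
    have hsub : (univ.filter (fun d : V × Fin 3 => d.1 ∈ Q.erase e.1 ∧ (M.al d).1 ∉ Q.erase e.1)) ⊆
        insert (M.al e) ((X.erase (sg e)).erase (sg (sg e))) := by
      intro d hd
      simp only [mem_filter, mem_univ, true_and, Finset.mem_erase] at hd
      obtain ⟨⟨hd1, hd2⟩, hd3⟩ := hd
      rw [Finset.mem_insert]
      by_cases c : (M.al d).1 ∈ Q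
      · left
        have c2 : (M.al d).1 = e.1 := by
          by_contra q
          exact hd3 ⟨q, c⟩
        rcases dart_cases c2 with q | q | q
        · rw [← q, M.inv]
        · exfalso
          rw [← q, M.inv] at he1
          exact he1 hd2
        · exfalso
          rw [← q, M.inv] at he2
          exact he2 hd2
      · right
        rw [Finset.mem_erase, Finset.mem_erase]
        refine ⟨fun q => hd1 (by rw [q]; rfl), fun q => hd1 (by rw [q]; rfl), ?_⟩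
        rw [hX]; simp [hd2, c]
    have := Finset.card_le_card hsub
    have h2 := Finset.card_insert_le (M.al e) ((X.erase (sg e)).erase (sg (sg e)))
    unfold CMap.b
    omega
  have hsub : Q.erase e.1 ⊆ M.A := (Finset.erase_subset _ _).trans hQ
  have hne : (Q.erase e.1).Nonempty := ⟨(M.al e).1, Finset.mem_erase.2 ⟨hnl, he0⟩⟩
  have oA : (M.al (sg e)).1 ∈ M.A := M.act _ (hQ he)
  have hcc : 2 ≤ (M.A \ Q.erase e.1).card := by
    apply two_le_card (a := e.1) (b := (M.al (sg e)).1)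
    · rw [Finset.mem_sdiff, Finset.mem_erase]
      exact ⟨hQ he, fun q => q.1 rfl⟩
    · rw [Finset.mem_sdiff]
      exact ⟨oA, fun q => he1 (Finset.mem_erase.1 q).2⟩
    · intro q
      rw [← q] at he1
      exact he1 he
  have hb3' := h.c3 _ hsub hne (by
    intro q
    rw [q, Finset.sdiff_self, Finset.card_empty] at hcc
    omega)
  have h7 := h.n3 _ hsub (by omega)
  have h8 := Finset.card_erase_of_mem he
  have h9 : 2 ≤ Q.card := two_le_card he0 he hnl
  omega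

theorem sq_side (h : Std M) {W : Finset V} (hW : W ⊆ M.A) (hb : M.b W = 4) (hc : W.card = 4)
    {e : V × Fin 3} (he : e.1 ∈ W) (h1 : ∃ f, M.SC e f ∧ f.1 ∉ W) (h2 : (M.al (sg (sg e))).1 ∉ W) :
    M.ln (sg e) = 4 := by
  classical
  have hA := h.card
  have hWA : W ≠ M.A := by
    intro q; rw [q] at hc; omega
  obtain ⟨d, hd1, hd2⟩ := M.small_face h.c3 h.pl hW hWA (by omega) (by omega) ⟨_, he⟩
  have hdW : d.1 ∈ W := hd1 d (CMap.SC.refl M d)
  have hdA : d.1 ∈ M.A := hW hdW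
  have h4 := h.ln4 d hdA
  have hl : M.ln d = 4 := by omega
  have himg : (M.fc d).image Prod.fst = W := by
    apply Finset.eq_of_subset_of_card_le
    · intro v hv
      rw [Finset.mem_image] at hv
      obtain ⟨f, hf, rfl⟩ := hv
      exact hd1 f (M.mem_fc.1 hf)
    · rw [Finset.card_image_of_injOn, M.card_fc, hl, hc]
      intro a ha b hb hab
      have ha' := M.mem_fc.1 ha
      have hb' := M.mem_fc.1 hb
      exact M.fc_vertex h.c3 h.pl ((M.SC_act ha').1 hdA) hab (ha'.symm.trans hb')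
  rw [← himg, Finset.mem_image] at he
  obtain ⟨f, hf, hf1⟩ := he
  have hf' := M.mem_fc.1 hf
  rcases dart_cases hf1 with q | q | q
  · exfalso
    rw [q] at hf'
    obtain ⟨g, hg1, hg2⟩ := h1
    exact hg2 (hd1 g (hf'.trans hg1))
  · rw [← q, ← M.ln_SC hf', hl]
  · exfalso
    apply h2
    have := hd1 (M.ph f) (hf'.trans (CMap.SC_ph M f))
    rw [q] at this
    exact this

/-- the cube configuration -/
def gCu : Gd := ⟨8, 0, [5, 12, 9, 8, 15, 0, 11, 18, 3, 2, 21, 6, 1, 17, 22, 4, 20, 13, 7, 23, 16, 10, 14, 19],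
  [], [], List.replicate 24 24⟩
theorem gCu_ok : gCu.Ok :=
  ⟨by decide +kernel, by decide +kernel, by decide +kernel, by decide +kernel, by decide +kernel, by decide +kernel⟩

theorem iso_of_emb {G : Gd} {ε : ℕ → V × Fin 3} (hE : Emb M G ε) (hG : G.Ok) (ht : G.t = 0)
    (hc : M.A.card = G.m) : IsoTo M G.m G.p := by
  have hN : G.N = 3 * G.m + G.t := rfl
  refine ⟨ε, hE.sg_, fun k hk => hE.al_ k (by omega), hE.inj, fun k hk => hE.act k (by omega), hc, ?_⟩
  intro k hk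
  have := (hG.h1 k (by omega)).1
  omega

theorem cube_iso (hi : IsoTo M 8 gCu.p) : IsoTo M 8 fQ3 :=
  iso_of_iso hi (dg 5 813433314044369698233979210805970976) (dg 5 813433314203982029329313708037507104)
    (by decide +kernel)

theorem side_ph {d : V × Fin 3} (hl : M.ln (sg d) = 4) :
    M.al (sg (M.al (sg d))) = sg (sg (M.al (sg (M.ph d)))) := by
  have i4 : M.ph (M.ph (M.ph (M.ph (sg d)))) = sg d := by
    have := M.ph_ln (sg d)
    rw [hl] at this
    exact this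
  have b1 : M.ph (sg (sg (M.ph d))) = sg d := by
    rw [M.ph_apply, ← M.al_ph, M.inv]
  have h1 : M.ph (M.ph (M.ph (sg d))) = sg (sg (M.ph d)) := by
    apply M.ph.injective
    rw [i4, b1]
  have h2 : M.ph (M.ph (sg d)) = M.al (sg (M.ph d)) := by
    have h3 := M.al_ph (M.ph (M.ph (sg d)))
    rw [h1, sg3] at h3
    rw [← h3, M.inv]
  have h3 : M.ph (sg d) = sg (M.al (sg d)) := M.ph_apply _
  rw [← h3, ← h2, M.al_ph]

theorem sq_final (h : Std M) {d : V × Fin 3} (hd : d.1 ∈ M.A) (hl : M.ln d = 4) (b1 : Bad M d)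
    (b2 : Bad M (M.ph d)) : IsoTo M 8 fQ3 := by
  classical
  have hA := h.card
  have i4 : M.ph (M.ph (M.ph (M.ph d))) = d := by
    have := M.ph_ln d
    rw [hl] at this
    exact this
  obtain ⟨Z, hZ, hb, z1, z2, z3, z4, z5, z6, z7, z8⟩ := b1
  obtain ⟨Z', hZ', hb', w1, w2, w3, w4, w5, w6, w7, w8⟩ := b2
  rw [i4] at w6 w8
  set a0 := d with ha0
  set a1 := M.ph d with ha1
  set a2 := M.ph a1 with ha2
  set a3 := M.ph a2 with ha3
  have A0 : a0.1 ∈ M.A := hd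
  have A1 : a1.1 ∈ M.A := (M.ph_act _).2 A0
  have A2 : a2.1 ∈ M.A := (M.ph_act _).2 A1
  have A3 : a3.1 ∈ M.A := (M.ph_act _).2 A2
  have T : ∀ e : V × Fin 3, e.1 ∈ M.A → (M.al (sg e)).1 ∈ M.A := fun e he => M.act _ he
  have al0 : M.al a0 = sg (sg a1) := M.al_ph _
  have al1 : M.al a1 = sg (sg a2) := M.al_ph _
  have al2 : M.al a2 = sg (sg a3) := M.al_ph _
  have al3 : M.al a3 = sg (sg a0) := by rw [M.al_ph, i4]
  have be0 : M.al (sg (sg a0)) = a3 := by rw [← al3, M.inv]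
  have be1 : M.al (sg (sg a1)) = a0 := by rw [← al0, M.inv]
  have be2 : M.al (sg (sg a2)) = a1 := by rw [← al1, M.inv]
  have be3 : M.al (sg (sg a3)) = a2 := by rw [← al2, M.inv]
  -- quadrants
  have q1s : Z ∩ Z' ⊆ M.A := Finset.inter_subset_left.trans hZ
  have q0s : Z \ Z' ⊆ M.A := Finset.sdiff_subset.trans hZ
  have q2s : Z' \ Z ⊆ M.A := Finset.sdiff_subset.trans hZ'
  have q3s : M.A \ (Z ∪ Z') ⊆ M.A := Finset.sdiff_subset
  have us : Z ∪ Z' ⊆ M.A := Finset.union_subset hZ hZ'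
  have m1 : a1.1 ∈ Z ∩ Z' ∧ (M.al (sg a1)).1 ∈ Z ∩ Z' :=
    ⟨Finset.mem_inter.2 ⟨z2, w1⟩, Finset.mem_inter.2 ⟨z4, w3⟩⟩
  have m0 : a0.1 ∈ Z \ Z' ∧ (M.al (sg a0)).1 ∈ Z \ Z' :=
    ⟨Finset.mem_sdiff.2 ⟨z1, w6⟩, Finset.mem_sdiff.2 ⟨z3, w8⟩⟩
  have m2 : a2.1 ∈ Z' \ Z ∧ (M.al (sg a2)).1 ∈ Z' \ Z :=
    ⟨Finset.mem_sdiff.2 ⟨w2, z5⟩, Finset.mem_sdiff.2 ⟨w4, z7⟩⟩
  have m3 : a3.1 ∈ M.A \ (Z ∪ Z') ∧ (M.al (sg a3)).1 ∈ M.A \ (Z ∪ Z') := by
    constructor
    · rw [Finset.mem_sdiff, Finset.mem_union]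
      exact ⟨A3, fun q => q.elim z6 w5⟩
    · rw [Finset.mem_sdiff, Finset.mem_union]
      exact ⟨T _ A3, fun q => q.elim z8 w7⟩
  have nl : ∀ e : V × Fin 3, e.1 ∈ M.A → e.1 ≠ (M.al (sg e)).1 := fun e he q =>
    M.no_loop h.c3 (by omega) (d := sg e) he q.symm
  have c1 := two_le_card m1.1 m1.2 (nl _ A1)
  have c0 := two_le_card m0.1 m0.2 (nl _ A0)
  have c2 := two_le_card m2.1 m2.2 (nl _ A2)
  have c3 := two_le_card m3.1 m3.2 (nl _ A3)
  have cZ : (Z ∩ Z').card + (Z \ Z').card = Z.card := by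
    have := Finset.card_sdiff_add_card_inter Z Z'
    omega
  have cZ' : (Z ∩ Z').card + (Z' \ Z).card = Z'.card := by
    have := Finset.card_sdiff_add_card_inter Z' Z
    rw [Finset.inter_comm] at this
    omega
  have cU : (Z ∪ Z').card + (Z ∩ Z').card = Z.card + Z'.card := Finset.card_union_add_card_inter _ _
  have cA : (M.A \ (Z ∪ Z')).card + (Z ∪ Z').card = M.A.card := by
    rw [Finset.card_sdiff_of_subset us]
    have := Finset.card_le_card us
    omega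
  have compc : ∀ Q ⊆ M.A, (M.A \ Q).card = M.A.card - Q.card := fun Q hQ =>
    Finset.card_sdiff_of_subset hQ
  have f1 := h.four q1s c1 (by rw [compc _ q1s]; omega)
  have f0 := h.four q0s c0 (by rw [compc _ q0s]; omega)
  have f2 := h.four q2s c2 (by rw [compc _ q2s]; omega)
  have f3 := h.four q3s c3 (by rw [compc _ q3s]; omega)
  have sm := M.b_submod Z Z'
  have ps := M.b_posi Z Z'
  rw [M.b_compl us] at f3
  have k1 := quad2 h q1s (by omega) (e := sg a1) m1.1 m1.2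
    (by rw [be1]; intro q; exact w6 (Finset.mem_inter.1 q).2)
    (by rw [sg3, al1]; intro q; exact z5 (Finset.mem_inter.1 q).1)
  have k0 := quad2 h q0s (by omega) (e := sg a0) m0.1 m0.2
    (by rw [be0]; intro q; exact z6 (Finset.mem_sdiff.1 q).1)
    (by rw [sg3, al0]; intro q; exact (Finset.mem_sdiff.1 q).2 w1)
  have k2 := quad2 h q2s (by omega) (e := sg a2) m2.1 m2.2
    (by rw [be2]; intro q; exact (Finset.mem_sdiff.1 q).2 z2)
    (by rw [sg3, al2]; intro q; exact w5 (Finset.mem_sdiff.1 q).1)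
  have k3 := quad2 h q3s (by rw [M.b_compl us]; omega) (e := sg a3) m3.1 m3.2
    (by rw [be3]; intro q; exact (Finset.mem_sdiff.1 q).2 (Finset.mem_union_right _ w2))
    (by rw [sg3, al3]; intro q; exact (Finset.mem_sdiff.1 q).2 (Finset.mem_union_left _ z1))
  have hA8 : M.A.card = 8 := by omega
  have s01 : M.SC a0 a1 := M.SC_ph _
  have s12 : M.SC a1 a2 := M.SC_ph _
  have s23 : M.SC a2 a3 := M.SC_ph _
  have nZ : ∀ v, v ∈ Z → v ∉ M.A \ Z := fun v hv q => (Finset.mem_sdiff.1 q).2 hv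
  have nZ' : ∀ v, v ∈ Z' → v ∉ M.A \ Z' := fun v hv q => (Finset.mem_sdiff.1 q).2 hv
  have l0 : M.ln (sg a0) = 4 := sq_side h hZ hb (by omega) z1 ⟨a2, s01.trans s12, z5⟩ (by rw [be0]; exact z6)
  have l1 : M.ln (sg a1) = 4 := sq_side h hZ' hb' (by omega) w1 ⟨a3, s12.trans s23, w5⟩ (by rw [be1]; exact w6)
  have l2 : M.ln (sg a2) = 4 := sq_side h (W := M.A \ Z) Finset.sdiff_subset (by rw [M.b_compl hZ, hb])
    (by rw [compc _ hZ]; omega) (Finset.mem_sdiff.2 ⟨A2, z5⟩)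
    ⟨a0, (s01.trans s12).symm, nZ _ z1⟩ (by rw [be2]; exact nZ _ z2)
  have l3 : M.ln (sg a3) = 4 := sq_side h (W := M.A \ Z') Finset.sdiff_subset (by rw [M.b_compl hZ', hb'])
    (by rw [compc _ hZ']; omega) (Finset.mem_sdiff.2 ⟨A3, w5⟩)
    ⟨a1, (s12.trans s23).symm, nZ' _ w1⟩ (by rw [be3]; exact nZ' _ w2)
  have g0 := side_ph l0
  have g1 := side_ph l1
  have g2 := side_ph l2
  have g3 := side_ph l3
  rw [show M.ph a3 = a0 from i4] at g3
  rw [← ha1] at g0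
  rw [← ha2] at g1
  rw [← ha3] at g2
  -- distinctness
  set t0 := M.al (sg a0) with ht0
  set t1 := M.al (sg a1) with ht1
  set t2 := M.al (sg a2) with ht2
  set t3 := M.al (sg a3) with ht3
  have sep : ∀ (W : Finset V) (x y : V), x ∈ W → y ∉ W → x ≠ y := by
    intro W x y hx hy q
    rw [q] at hx
    exact hy hx
  let D : ℕ → V × Fin 3 := fun x => if x = 0 then a0 else if x = 1 then a1 else if x = 2 then a2 else
    if x = 3 then a3 else if x = 4 then t0 else if x = 5 then t1 else if x = 6 then t2 else t3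
  have e01 : a0.1 ≠ a1.1 := (sep Z' _ _ w1 w6).symm
  have e02 : a0.1 ≠ a2.1 := sep Z _ _ z1 z5
  have e03 : a0.1 ≠ a3.1 := sep Z _ _ z1 z6
  have e12 : a1.1 ≠ a2.1 := sep Z _ _ z2 z5
  have e13 : a1.1 ≠ a3.1 := sep Z _ _ z2 z6
  have e23 : a2.1 ≠ a3.1 := sep Z' _ _ w2 w5
  have g01 : t0.1 ≠ t1.1 := (sep Z' _ _ w3 w8).symm
  have g02 : t0.1 ≠ t2.1 := sep Z _ _ z3 z7
  have g03 : t0.1 ≠ t3.1 := sep Z _ _ z3 z8
  have g12 : t1.1 ≠ t2.1 := sep Z _ _ z4 z7
  have g13 : t1.1 ≠ t3.1 := sep Z _ _ z4 z8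
  have g23 : t2.1 ≠ t3.1 := sep Z' _ _ w4 w7
  have h00 : a0.1 ≠ t0.1 := nl _ A0
  have h01 : a0.1 ≠ t1.1 := (sep Z' _ _ w3 w6).symm
  have h02 : a0.1 ≠ t2.1 := sep Z _ _ z1 z7
  have h03 : a0.1 ≠ t3.1 := sep Z _ _ z1 z8
  have h10 : a1.1 ≠ t0.1 := sep Z' _ _ w1 w8
  have h11 : a1.1 ≠ t1.1 := nl _ A1
  have h12 : a1.1 ≠ t2.1 := sep Z _ _ z2 z7
  have h13 : a1.1 ≠ t3.1 := sep Z _ _ z2 z8
  have h20 : a2.1 ≠ t0.1 := (sep Z _ _ z3 z5).symm
  have h21 : a2.1 ≠ t1.1 := (sep Z _ _ z4 z5).symm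
  have h22 : a2.1 ≠ t2.1 := nl _ A2
  have h23 : a2.1 ≠ t3.1 := sep Z' _ _ w2 w7
  have h30 : a3.1 ≠ t0.1 := (sep Z _ _ z3 z6).symm
  have h31 : a3.1 ≠ t1.1 := (sep Z _ _ z4 z6).symm
  have h32 : a3.1 ≠ t2.1 := (sep Z' _ _ w4 w5).symm
  have h33 : a3.1 ≠ t3.1 := nl _ A3
  have cc1 : ∀ x < gCu.m, (D x).1 ∈ M.A := by
    intro x hx
    have hx' : x < 8 := hx
    interval_cases x
    · exact A0
    · exact A1
    · exact A2
    · exact A3
    · exact T _ A0
    · exact T _ A1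
    · exact T _ A2
    · exact T _ A3
  have cc2 : ∀ x < gCu.m, ∀ y < gCu.m, (D x).1 = (D y).1 → x = y := by
    have key : ∀ x < 8, ∀ y < 8, x < y → (D x).1 ≠ (D y).1 := by
      intro x hx y hy hxy
      interval_cases y <;> interval_cases x <;> assumption
    intro x hx y hy he
    rcases lt_trichotomy x y with q | q | q
    · exact absurd he (key x hx y hy q)
    · exact q
    · exact absurd he.symm (key y hy x hx q)
  have cc3 : ∀ k < 3 * gCu.m, gCu.p k < 3 * gCu.m → k < gCu.p k →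
      M.al (mk M gCu D k) = mk M gCu D (gCu.p k) := by
    intro k hk q1 q2
    have hk' : k < 24 := hk
    interval_cases k <;> first | (exfalso; revert q1 q2; decide) | skip
    · exact al0
    · rfl
    · exact be0
    · exact al1
    · rfl
    · exact al2
    · rfl
    · rfl
    · exact g0
    · show M.al (sg (sg t0)) = sg t3
      rw [← g3, M.inv]
    · exact g1
    · exact g2
  have hE := mkEmb M gCu gCu_ok D cc1 cc2 cc3 (by
    intro j hj hj2
    exfalso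
    have : gCu.N = 24 := rfl
    have : gCu.m = 8 := rfl
    omega)
  exact cube_iso (iso_of_emb hE gCu_ok rfl hA8)

/-- a facial square gives a step or the cube -/
theorem sq_step (h : Std M) {d : V × Fin 3} (hd : d.1 ∈ M.A) (hl : M.ln d = 4) : Step M ∨ IsExc M := by
  rcases sq_step_or_bad h hd hl with q | q
  · exact Or.inl q
  · have hd1 : (M.ph d).1 ∈ M.A := (M.ph_act _).2 hd
    have hl1 : M.ln (M.ph d) = 4 := by rw [← M.ln_SC (M.SC_ph d), hl]
    rcases sq_step_or_bad h hd1 hl1 with q1 | q1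
    · exact Or.inl q1
    · exact Or.inr (Or.inr (Or.inr (Or.inl (sq_final h hd hl q q1))))

end Pool.Agent.H24
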