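import Pool.Agent.H24.Fin6

set_option autoImplicit false
set_option linter.unusedSectionVars false
set_option linter.unusedVariables false
set_option maxRecDepth 100000

namespace Pool.Agent.H24

open Finset Equiv.Perm

variable {V : Type} [Fintype V] [DecidableEq V]
variable {M M' : CMap V} {ε : ℕ → V × Fin 3}

def gU (G : Gd) (X : ℕ → Bool) : Bool :=
  decide (2 ≤ ((range G.m).filter (fun x => X (3 * x) = true)).card) &&
  decide (2 ≤ ((range G.m).filter (fun x => X (3 * x) = false)).card) &&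
  (decide (3 ≤ ((range G.m).filter (fun x => X (3 * x) = true)).card) ||
    (List.range G.N).any (fun j => decide (3 * G.m ≤ j) && X j)) &&
  (decide (3 ≤ ((range G.m).filter (fun x => X (3 * x) = false)).card) ||
    (List.range G.N).any (fun j => decide (3 * G.m ≤ j) && !X j))

theorem side_count {G : Gd} (hG : G.Ok) (h : Emb M G ε) {W : Finset V} {b : Bool} {X : ℕ → Bool}
    (hX : ∀ k < G.N, X k = b → (ε k).1 ∈ W)
    (h1 : 3 ≤ ((range G.m).filter (fun x => X (3 * x) = b)).card ∨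
      (2 ≤ ((range G.m).filter (fun x => X (3 * x) = b)).card ∧ ∃ j < G.N, 3 * G.m ≤ j ∧ X j = b)) :
    3 ≤ W.card := by
  classical
  have hN : G.N = 3 * G.m + G.t := rfl
  set T := ((range G.m).filter (fun x => X (3 * x) = b)).image (fun x => (ε (3 * x)).1) with hT
  have hTc : T.card = ((range G.m).filter (fun x => X (3 * x) = b)).card := by
    rw [hT, Finset.card_image_of_injOn]
    intro a ha c hc hac
    replace ha := Finset.mem_range.1 (Finset.mem_filter.1 (Finset.mem_coe.1 ha)).1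
    replace hc := Finset.mem_range.1 (Finset.mem_filter.1 (Finset.mem_coe.1 hc)).1
    have := h.vert (by omega) (by omega) hac
    omega
  have hTW : T ⊆ W := by
    intro v hv
    rw [hT, mem_image] at hv
    obtain ⟨x, hx, rfl⟩ := hv
    rw [mem_filter, mem_range] at hx
    exact hX _ (by omega) hx.2
  rcases h1 with h1 | ⟨h1, j, hj, hj2, hj3⟩
  · have := Finset.card_le_card hTW
    omega
  · have h2 : insert (ε j).1 T ⊆ W := by
      intro v hv
      rw [mem_insert] at hv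
      rcases hv with rfl | hv
      · exact hX j hj hj3
      · exact hTW hv
    have h3 : (ε j).1 ∉ T := by
      intro q
      rw [hT, mem_image] at q
      obtain ⟨x, hx, he⟩ := q
      rw [mem_filter, mem_range] at hx
      exact h.term j hj hj2 (3 * x) (by omega) he.symm
    have h4 := Finset.card_le_card h2
    rw [Finset.card_insert_of_notMem h3] at h4
    omega

theorem side_count2 {G : Gd} (h : Emb M G ε) {W : Finset V} {b : Bool} {X : ℕ → Bool}
    (hX : ∀ x < G.m, X (3 * x) = b → (ε (3 * x)).1 ∈ W) :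
    ((range G.m).filter (fun x => X (3 * x) = b)).card ≤ W.card := by
  classical
  rw [← Finset.card_image_of_injOn (s := (range G.m).filter (fun x => X (3 * x) = b)) (f := fun x => (ε (3 * x)).1)]
  · apply Finset.card_le_card
    intro v hv
    rw [mem_image] at hv
    obtain ⟨x, hx, rfl⟩ := hv
    rw [mem_filter, mem_range] at hx
    exact hX _ hx.1 hx.2
  · intro a ha c hc hac
    replace ha := Finset.mem_range.1 (Finset.mem_filter.1 (Finset.mem_coe.1 ha)).1
    replace hc := Finset.mem_range.1 (Finset.mem_filter.1 (Finset.mem_coe.1 hc)).1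
    have := h.vert (by omega) (by omega) hac
    omega

theorem gU_contra {G : Gd} (hG : G.Ok) (h : Emb M G ε) {S : Finset V} (hSS : SideS M S)
    (hin : ∀ k < 3 * G.m, (ε k).1 ∈ S) {C : Finset V} (hC : C ⊆ M.A) (hb : M.b C ≤ 4) {X : ℕ → Bool}
    (hX : ∀ k < G.N, ((ε k).1 ∈ C ↔ X k = true)) (hg : gU G X = true) : False := by
  classical
  have hN : G.N = 3 * G.m + G.t := rfl
  unfold gU at hg
  rw [Bool.and_eq_true, Bool.and_eq_true, Bool.and_eq_true, Bool.or_eq_true, Bool.or_eq_true,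
    decide_eq_true_eq, decide_eq_true_eq, decide_eq_true_eq, decide_eq_true_eq] at hg
  obtain ⟨⟨⟨g1, g2⟩, g3⟩, g4⟩ := hg
  have hXf : ∀ k < G.N, X k = false → (ε k).1 ∉ C := by
    intro k hk hf q
    rw [(hX k hk).1 q] at hf
    exact absurd hf (by decide)
  have c1 : 2 ≤ (S ∩ C).card := g1.trans (side_count2 h (fun x hx hxb =>
    Finset.mem_inter.2 ⟨hin _ (by omega), (hX _ (by omega)).2 hxb⟩))
  have c2 : 2 ≤ (S \ C).card := g2.trans (side_count2 h (fun x hx hxb =>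
    Finset.mem_sdiff.2 ⟨hin _ (by omega), hXf _ (by omega) hxb⟩))
  have c3 : 3 ≤ C.card := side_count hG h (b := true) (fun k hk hkb => (hX k hk).2 hkb) (by
    rcases g3 with q | q
    · exact Or.inl q
    · right
      rw [List.any_eq_true] at q
      obtain ⟨j, hj, q⟩ := q
      rw [Bool.and_eq_true, decide_eq_true_eq] at q
      exact ⟨g1, j, List.mem_range.1 hj, q.1, q.2⟩)
  have c4 : 3 ≤ (M.A \ C).card := side_count hG h (b := false)
    (fun k hk hkb => Finset.mem_sdiff.2 ⟨h.act k hk, hXf k hk hkb⟩) (by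
    rcases g4 with q | q
    · exact Or.inl q
    · right
      rw [List.any_eq_true] at q
      obtain ⟨j, hj, q⟩ := q
      rw [Bool.and_eq_true, decide_eq_true_eq] at q
      exact ⟨g2, j, List.mem_range.1 hj, q.1, by simpa using q.2⟩)
  have := hSS.U C hC hb c1 c2
  omega

/-- membership choice for the first configuration -/
def y55 (t0 t1 t2 t3 t4 t5 : Bool) (x : ℕ) : Bool :=
  ((13407807911212103449262153400148227663276627053604026698371903595032091449512869844534739160070239221826072631515785077076573122321656551611001573249908736 : ℕ) >>>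
    (8 * (t0.toNat + 2 * t1.toNat + 4 * t2.toNat + 8 * t3.toNat + 16 * t4.toNat + 32 * t5.toNat))).testBit x

theorem loc55 : ∀ t0 t1 t2 t3 t4 t5 : Bool,
    (g55.loc (Xt g55 (tf 24 [t0, t1, t2, t3, t4, t5]) (y55 t0 t1 t2 t3 t4 t5)) ≤
      g55.loc' (Xt g55 (tf 24 [t0, t1, t2, t3, t4, t5]) (y55 t0 t1 t2 t3 t4 t5))) ∨
    (g55.loc (Xt g55 (tf 24 [t0, t1, t2, t3, t4, t5]) (y55 t0 t1 t2 t3 t4 t5)) ≤
      g55.loc' (Xt g55 (tf 24 [t0, t1, t2, t3, t4, t5]) (y55 t0 t1 t2 t3 t4 t5)) + 2 ∧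
      gU g55 (Xt g55 (tf 24 [t0, t1, t2, t3, t4, t5]) (y55 t0 t1 t2 t3 t4 t5)) = true) ∨
    (g55.loc (Xt g55 (tf 24 [t0, t1, t2, t3, t4, t5]) (y55 t0 t1 t2 t3 t4 t5)) =
      g55.loc' (Xt g55 (tf 24 [t0, t1, t2, t3, t4, t5]) (y55 t0 t1 t2 t3 t4 t5)) + 4 ∧
      (t2 = t5 ∧ y55 t0 t1 t2 t3 t4 t5 0 = t2 ∧ y55 t0 t1 t2 t3 t4 t5 3 = t2 ∧
       y55 t0 t1 t2 t3 t4 t5 4 = t2 ∧ y55 t0 t1 t2 t3 t4 t5 7 = t2 ∧
       y55 t0 t1 t2 t3 t4 t5 1 = !t2 ∧ y55 t0 t1 t2 t3 t4 t5 2 = !t2 ∧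
       y55 t0 t1 t2 t3 t4 t5 5 = !t2 ∧ y55 t0 t1 t2 t3 t4 t5 6 = !t2)) := by decide +kernel

theorem Xp_tf55 (B : Finset V) (y : ℕ → Bool) :
    ∀ k < g55.N, Xp g55 ε B y k = Xt g55 (tf 24 [decide ((ε 24).1 ∈ B), decide ((ε 25).1 ∈ B),
      decide ((ε 26).1 ∈ B), decide ((ε 27).1 ∈ B), decide ((ε 28).1 ∈ B), decide ((ε 29).1 ∈ B)]) y k := by
  intro k hkN
  have hN : g55.N = 30 := rfl
  rw [Xp_eq]
  unfold Xt
  by_cases hK : g55.isK k = true
  · rw [if_pos hK, if_pos hK]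
    have hk3 : 24 ≤ k := by
      by_contra hc
      have : ∀ k < 24, g55.isK k = false := by decide +kernel
      rw [this k (by omega)] at hK
      exact absurd hK (by decide)
    have : k = 24 ∨ k = 25 ∨ k = 26 ∨ k = 27 ∨ k = 28 ∨ k = 29 := by omega
    rcases this with rfl | rfl | rfl | rfl | rfl | rfl <;> rfl
  · rw [if_neg hK, if_neg hK]

theorem c3_55 (hS : Std M) {S : Finset V} (hSS : SideS M S) (h : Emb M g55 ε)
    (hin : ∀ k < 24, (ε k).1 ∈ S) (hr : Red M M' g55 ε) : M'.C3 := by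
  by_contra hnc
  unfold CMap.C3 at hnc
  push Not at hnc
  obtain ⟨B, hB, hne, hne2, hb⟩ := hnc
  set t0 := decide ((ε 24).1 ∈ B) with ht0
  set t1 := decide ((ε 25).1 ∈ B) with ht1
  set t2 := decide ((ε 26).1 ∈ B) with ht2
  set t3 := decide ((ε 27).1 ∈ B) with ht3
  set t4 := decide ((ε 28).1 ∈ B) with ht4
  set t5 := decide ((ε 29).1 ∈ B) with ht5
  set y := y55 t0 t1 t2 t3 t4 t5 with hy
  have hXX := Xp_tf55 (ε := ε) B y
  rw [← ht0, ← ht1, ← ht2, ← ht3, ← ht4, ← ht5] at hXX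
  have hct := cut_transfer h g55_ok hr hB y
  rw [loc_congr g55_ok hXX, loc'_congr g55_ok hXX] at hct
  have hs := Bext_sub (M := M) (G := g55) (ε := ε) B y
  have hn1 := Bext_nonempty h hr hB y hne
  have hn2 := Bext_ne h hr hB y hne2
  set C := Bext M g55 ε B y with hC
  have hmem : ∀ k < g55.N, ((ε k).1 ∈ C ↔ Xt g55 (tf 24 [t0, t1, t2, t3, t4, t5]) y k = true) := by
    intro k hk
    rw [hC, Bext_mem h hr hB y hk, hXX k hk]
  have hloc := loc55 t0 t1 t2 t3 t4 t5
  rw [← hy] at hloc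
  rcases hloc with q | ⟨q, q2⟩ | ⟨q, q2, q3, q4, q5, q6, q7, q8, q9, q10⟩
  · exact C3_lt hS.c3 hs hn1 hn2 (by omega)
  · exact gU_contra g55_ok h hSS (fun k hk => hin k hk) hs (by omega) hmem q2
  · have hN : g55.N = 30 := rfl
    have isKf : ∀ k < 24, g55.isK k = false := by decide +kernel
    have mi : ∀ k < 24, ((ε k).1 ∈ C ↔ y (k / 3) = true) := by
      intro k hk
      rw [hmem k (by omega)]
      unfold Xt
      rw [isKf k hk]
      simp
    have m29 : ((ε 29).1 ∈ C ↔ t5 = true) := hmem 29 (by omega)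
    have m0 := mi 0 (by norm_num)
    have m3 := mi 3 (by norm_num)
    have m6 := mi 6 (by norm_num)
    have m9 := mi 9 (by norm_num)
    have m12 := mi 12 (by norm_num)
    have m15 := mi 15 (by norm_num)
    have m18 := mi 18 (by norm_num)
    have m21 := mi 21 (by norm_num)
    norm_num at m0 m3 m6 m9 m12 m15 m18 m21
    rw [q3] at m0
    rw [q7] at m3
    rw [q8] at m6
    rw [q4] at m9
    rw [q5] at m12
    rw [q9] at m15
    rw [q10] at m18
    rw [q6] at m21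
    rw [← q2] at m29
    cases hc : t2 with
    | true =>
      rw [hc] at m0 m3 m6 m9 m12 m15 m18 m21 m29
      simp only [Bool.not_true, Bool.false_eq_true, iff_false, iff_true] at m0 m3 m6 m9 m12 m15 m18 m21 m29
      exact final55 hS h hs (by omega) m0 m3 m6 m9 m12 m15 m18 m21 m29
    | false =>
      rw [hc] at m0 m3 m6 m9 m12 m15 m18 m21 m29
      simp only [Bool.not_false, Bool.false_eq_true, iff_false, iff_true] at m0 m3 m6 m9 m12 m15 m18 m21 m29
      have f : ∀ k < 30, (ε k).1 ∉ C → (ε k).1 ∈ M.A \ C := fun k hk z =>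
        Finset.mem_sdiff.2 ⟨h.act k hk, z⟩
      have f' : ∀ k, (ε k).1 ∈ C → (ε k).1 ∉ M.A \ C := fun k z w => (Finset.mem_sdiff.1 w).2 z
      exact final55 hS h (B := M.A \ C) Finset.sdiff_subset (by rw [M.b_compl hs]; omega)
        (f 0 (by norm_num) m0) (f' 3 m3) (f' 6 m6) (f 9 (by norm_num) m9) (f 12 (by norm_num) m12)
        (f' 15 m15) (f' 18 m18) (f 21 (by norm_num) m21) (f 29 (by norm_num) m29)

/-- membership choice for the second configuration -/
def y56 (s t1 t2 t3 u1 u2 u3 u4 : Bool) (x : ℕ) : Bool :=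
  if x = 2 ∨ x = 3 then (if t2 = t3 then t2 else s) else
  if x = 6 ∨ x = 7 then (if u2 = u3 then u2 else s) else s

def tf6 (s : Bool) (l : List Bool) (k : ℕ) : Bool := if k < 3 then s else l.getD (k - 27) false

theorem loc56 : ∀ s t1 t2 t3 u1 u2 u3 u4 : Bool,
    (g56.loc (Xt g56 (tf6 s [t1, t2, t3, u1, u2, u3, u4]) (y56 s t1 t2 t3 u1 u2 u3 u4)) ≤
      g56.loc' (Xt g56 (tf6 s [t1, t2, t3, u1, u2, u3, u4]) (y56 s t1 t2 t3 u1 u2 u3 u4))) ∨
    (g56.loc (Xt g56 (tf6 s [t1, t2, t3, u1, u2, u3, u4]) (y56 s t1 t2 t3 u1 u2 u3 u4)) ≤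
      g56.loc' (Xt g56 (tf6 s [t1, t2, t3, u1, u2, u3, u4]) (y56 s t1 t2 t3 u1 u2 u3 u4)) + 2 ∧
      gU g56 (Xt g56 (tf6 s [t1, t2, t3, u1, u2, u3, u4]) (y56 s t1 t2 t3 u1 u2 u3 u4)) = true) ∨
    (g56.loc (Xt g56 (tf6 s [t1, t2, t3, u1, u2, u3, u4]) (y56 s t1 t2 t3 u1 u2 u3 u4)) =
      g56.loc' (Xt g56 (tf6 s [t1, t2, t3, u1, u2, u3, u4]) (y56 s t1 t2 t3 u1 u2 u3 u4)) + 4 ∧
      (t2 = (!s) ∧ t3 = (!s) ∧ u2 = (!s) ∧ u3 = (!s))) := by decide +kernel

theorem Xp_tf56 (h : Emb M g56 ε) (B : Finset V) (y : ℕ → Bool) :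
    ∀ k < g56.N, Xp g56 ε B y k = Xt g56 (tf6 (decide ((ε 0).1 ∈ B)) [decide ((ε 27).1 ∈ B), decide ((ε 28).1 ∈ B),
      decide ((ε 29).1 ∈ B), decide ((ε 30).1 ∈ B), decide ((ε 31).1 ∈ B), decide ((ε 32).1 ∈ B),
      decide ((ε 33).1 ∈ B)]) y k := by
  intro k hkN
  have hN : g56.N = 34 := rfl
  rw [Xp_eq]
  unfold Xt
  by_cases hK : g56.isK k = true
  · rw [if_pos hK, if_pos hK]
    have hk3 : 27 ≤ k ∨ k < 3 := by
      by_contra hc
      have : ∀ k < 27, 3 ≤ k → g56.isK k = false := by decide +kernel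
      rw [this k (by omega) (by omega)] at hK
      exact absurd hK (by decide)
    have : k = 0 ∨ k = 1 ∨ k = 2 ∨ k = 27 ∨ k = 28 ∨ k = 29 ∨ k = 30 ∨ k = 31 ∨ k = 32 ∨ k = 33 := by omega
    have v1 : (ε 1).1 = (ε 0).1 := h.vert' (by decide) rfl
    have v2 : (ε 2).1 = (ε 0).1 := h.vert' (by decide) rfl
    rcases this with rfl | rfl | rfl | rfl | rfl | rfl | rfl | rfl | rfl | rfl
    · rfl
    · show decide ((ε 1).1 ∈ B) = decide ((ε 0).1 ∈ B)
      rw [v1]
    · show decide ((ε 2).1 ∈ B) = decide ((ε 0).1 ∈ B)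
      rw [v2]
    all_goals rfl
  · rw [if_neg hK, if_neg hK]

theorem c3_56 (hS : Std M) {S : Finset V} (hSS : SideS M S) (h : Emb M g56 ε)
    (hin : ∀ k < 27, (ε k).1 ∈ S) (hr : Red M M' g56 ε) : M'.C3 := by
  by_contra hnc
  unfold CMap.C3 at hnc
  push Not at hnc
  obtain ⟨B, hB, hne, hne2, hb⟩ := hnc
  set s := decide ((ε 0).1 ∈ B) with hs0
  set t1 := decide ((ε 27).1 ∈ B) with ht1
  set t2 := decide ((ε 28).1 ∈ B) with ht2
  set t3 := decide ((ε 29).1 ∈ B) with ht3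
  set u1 := decide ((ε 30).1 ∈ B) with hu1
  set u2 := decide ((ε 31).1 ∈ B) with hu2
  set u3 := decide ((ε 32).1 ∈ B) with hu3
  set u4 := decide ((ε 33).1 ∈ B) with hu4
  set y := y56 s t1 t2 t3 u1 u2 u3 u4 with hy
  have hXX := Xp_tf56 h B y
  rw [← hs0, ← ht1, ← ht2, ← ht3, ← hu1, ← hu2, ← hu3, ← hu4] at hXX
  have hct := cut_transfer h g56_ok hr hB y
  rw [loc_congr g56_ok hXX, loc'_congr g56_ok hXX] at hct
  have hs := Bext_sub (M := M) (G := g56) (ε := ε) B y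
  have hn1 := Bext_nonempty h hr hB y hne
  have hn2 := Bext_ne h hr hB y hne2
  set C := Bext M g56 ε B y with hC
  have hmem : ∀ k < g56.N, ((ε k).1 ∈ C ↔ Xt g56 (tf6 s [t1, t2, t3, u1, u2, u3, u4]) y k = true) := by
    intro k hk
    rw [hC, Bext_mem h hr hB y hk, hXX k hk]
  have hloc := loc56 s t1 t2 t3 u1 u2 u3 u4
  rw [← hy] at hloc
  rcases hloc with q | ⟨q, q2⟩ | ⟨q, q2, q3, q4, q5⟩
  · exact C3_lt hS.c3 hs hn1 hn2 (by omega)
  · exact gU_contra g56_ok h hSS (fun k hk => hin k hk) hs (by omega) hmem q2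
  · have hN : g56.N = 34 := rfl
    have isKf : ∀ k < 27, 3 ≤ k → g56.isK k = false := by decide +kernel
    have mi : ∀ k < 27, 3 ≤ k → ((ε k).1 ∈ C ↔ y (k / 3) = true) := by
      intro k hk hk2
      rw [hmem k (by omega)]
      unfold Xt
      rw [isKf k hk hk2]
      simp
    have m0 : ((ε 0).1 ∈ C ↔ s = true) := hmem 0 (by omega)
    have ys : y 1 = s ∧ y 4 = s ∧ y 5 = s ∧ y 8 = s ∧ y 2 = !s ∧ y 3 = !s ∧ y 6 = !s ∧ y 7 = !s := by
      rw [hy]
      unfold y56
      rw [q2, q3, q4, q5]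
      simp
    obtain ⟨y1, y4, y5, y8, y2, y3, y6, y7⟩ := ys
    have m3 := mi 3 (by norm_num) (by norm_num)
    have m6 := mi 6 (by norm_num) (by norm_num)
    have m9 := mi 9 (by norm_num) (by norm_num)
    have m12 := mi 12 (by norm_num) (by norm_num)
    have m15 := mi 15 (by norm_num) (by norm_num)
    have m18 := mi 18 (by norm_num) (by norm_num)
    have m21 := mi 21 (by norm_num) (by norm_num)
    have m24 := mi 24 (by norm_num) (by norm_num)
    norm_num at m3 m6 m9 m12 m15 m18 m21 m24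
    rw [y1] at m3
    rw [y2] at m6
    rw [y3] at m9
    rw [y4] at m12
    rw [y5] at m15
    rw [y6] at m18
    rw [y7] at m21
    rw [y8] at m24
    cases hc : s with
    | true =>
      rw [hc] at m0 m3 m6 m9 m12 m15 m18 m21 m24
      simp only [Bool.not_true, Bool.false_eq_true, iff_false, iff_true] at m0 m3 m6 m9 m12 m15 m18 m21 m24
      exact final56 hS hSS h hin hs (by omega) m0 m3 m6 m9 m12 m15 m18 m21 m24
    | false =>
      rw [hc] at m0 m3 m6 m9 m12 m15 m18 m21 m24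
      simp only [Bool.not_false, Bool.false_eq_true, iff_false, iff_true] at m0 m3 m6 m9 m12 m15 m18 m21 m24
      have f : ∀ k < 34, (ε k).1 ∉ C → (ε k).1 ∈ M.A \ C := fun k hk z =>
        Finset.mem_sdiff.2 ⟨h.act k hk, z⟩
      have f' : ∀ k, (ε k).1 ∈ C → (ε k).1 ∉ M.A \ C := fun k z w => (Finset.mem_sdiff.1 w).2 z
      exact final56 hS hSS h hin (B := M.A \ C) Finset.sdiff_subset (by rw [M.b_compl hs]; omega)
        (f 0 (by norm_num) m0) (f 3 (by norm_num) m3) (f' 6 m6) (f' 9 m9) (f 12 (by norm_num) m12)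
        (f 15 (by norm_num) m15) (f' 18 m18) (f' 21 m21) (f 24 (by norm_num) m24)

end Pool.Agent.H24
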