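import Pool.Agent.H24.Pent

set_option autoImplicit false
set_option linter.unusedSectionVars false
set_option linter.unusedVariables false
set_option maxRecDepth 100000

namespace Pool.Agent.H24

open Finset Equiv.Perm

variable {V : Type} [Fintype V] [DecidableEq V]
variable {M M' : CMap V}

/-- a cycle vector crosses a cut evenly -/
theorem cyc_cut (M : CMap V) {B : Finset V} (hB : B ⊆ M.A) {Z : V × Fin 3 → ZMod 2}
    (hs : ∀ d, d.1 ∈ M.A → Z (M.al d) = Z d) (hsum : ∀ v ∈ M.A, ∑ i : Fin 3, Z (v, i) = 0) :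
    ∑ d ∈ univ.filter (fun d : V × Fin 3 => d.1 ∈ B ∧ (M.al d).1 ∉ B), Z d = 0 := by
  classical
  have h1 : ∑ d ∈ univ.filter (fun d : V × Fin 3 => d.1 ∈ B), Z d = 0 := by
    have : (univ.filter (fun d : V × Fin 3 => d.1 ∈ B)) = B ×ˢ (univ : Finset (Fin 3)) := by
      ext d; simp
    rw [this, Finset.sum_product]
    exact Finset.sum_eq_zero (fun v hv => hsum v (hB hv))
  have h2 : ∑ d ∈ M.ins B, Z d = 0 := by
    apply Finset.sum_involution (fun d _ => M.al d)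
    · intro d hd
      have := M.mem_ins.1 hd
      rw [hs d (hB this.1)]
      exact z2_add_self _
    · intro d hd _
      exact M.nofix d (hB (M.mem_ins.1 hd).1)
    · intro d hd
      rw [CMap.mem_ins] at *
      rw [M.inv]; exact ⟨hd.2, hd.1⟩
    · intro d _; exact M.inv d
  rw [← h1, ← zero_add (∑ d ∈ univ.filter (fun d : V × Fin 3 => d.1 ∈ B ∧ (M.al d).1 ∉ B), Z d), ← h2,
    ← Finset.sum_union]
  · apply Finset.sum_congr _ (fun _ _ => rfl)
    ext d
    simp only [mem_union, CMap.mem_ins, mem_univ, true_and, mem_filter]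
    tauto
  · rw [Finset.disjoint_left]
    intro d hd hd2
    rw [CMap.mem_ins] at hd
    rw [mem_filter] at hd2
    exact hd2.2.2 hd.2

open Classical in
/-- crossing indicator of a face -/
noncomputable def fz (M : CMap V) (e d : V × Fin 3) : ZMod 2 :=
  (if M.SC e d then 1 else 0) + (if M.SC e (M.al d) then 1 else 0)

theorem fz_one {e d : V × Fin 3} (h : fz M e d ≠ 0) :
    (M.SC e d ∧ ¬ M.SC e (M.al d)) ∨ (¬ M.SC e d ∧ M.SC e (M.al d)) := by
  unfold fz at h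
  by_cases h1 : M.SC e d <;> by_cases h2 : M.SC e (M.al d) <;> simp only [h1, h2, if_true, if_false] at h
  · exact absurd (by decide) h
  · exact Or.inl ⟨h1, h2⟩
  · exact Or.inr ⟨h1, h2⟩
  · exact absurd (by decide) h

theorem fz_eq1 {e d : V × Fin 3} (h : (M.SC e d ∧ ¬ M.SC e (M.al d)) ∨ (¬ M.SC e d ∧ M.SC e (M.al d))) :
    fz M e d = 1 := by
  unfold fz
  rcases h with ⟨h1, h2⟩ | ⟨h1, h2⟩ <;> simp [h1, h2]

theorem fz_eq0 {e d : V × Fin 3} (h1 : ¬ M.SC e d) (h2 : ¬ M.SC e (M.al d)) :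
    fz M e d = 0 := by
  unfold fz
  simp [h1, h2]

theorem fz_cut (M : CMap V) {B : Finset V} (hB : B ⊆ M.A) (e : V × Fin 3) :
    ∑ d ∈ univ.filter (fun d : V × Fin 3 => d.1 ∈ B ∧ (M.al d).1 ∉ B), fz M e d = 0 := by
  classical
  have hI := M.ind_inv e
  have hfz : ∀ d, d.1 ∈ M.A → fz M e d = (if M.SC e d then 1 else 0) + (if M.SC e (sg d) then 1 else 0) := by
    intro d hd
    have := hI d hd
    unfold fz
    simp only at this
    convert congrArg (fun z => (if M.SC e d then (1 : ZMod 2) else 0) + z) this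
  apply cyc_cut M hB
  · intro d _
    unfold fz
    rw [M.inv, add_comm]
  · intro v hv
    have : ∀ i : Fin 3, fz M e (v, i) = (if M.SC e (v, i) then 1 else 0) + (if M.SC e (v, i + 1) then 1 else 0) :=
      fun i => hfz (v, i) hv
    rw [Fin.sum_univ_three, this, this, this]
    show _ + _ = _
    have e1 : ((0 : Fin 3) + 1) = 1 := rfl
    have e2 : ((1 : Fin 3) + 1) = 2 := rfl
    have e3 : ((2 : Fin 3) + 1) = 0 := rfl
    rw [e1, e2, e3]
    have a1 := z2_add_self (if M.SC e (v, 0) then (1 : ZMod 2) else 0)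
    have a2 := z2_add_self (if M.SC e (v, 1) then (1 : ZMod 2) else 0)
    have a3 := z2_add_self (if M.SC e (v, 2) then (1 : ZMod 2) else 0)
    linear_combination a1 + a2 + a3

/-- pairing of the additional crossing edges -/
theorem pairing (M : CMap V) {B : Finset V} (hB : B ⊆ M.A) (hb : M.b B ≤ 6) (x e : Fin 4 → V × Fin 3)
    (hx : ∀ i, (x i).1 ∈ B ∧ (M.al (x i)).1 ∉ B) (hinj : ∀ i j, x i = x j → i = j)
    (h1 : ∀ i, (M.SC (e i) (x i) ∧ ¬ M.SC (e i) (M.al (x i))) ∨ (¬ M.SC (e i) (x i) ∧ M.SC (e i) (M.al (x i))))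
    (h2 : ∀ i j, i ≠ j → ¬ M.SC (e i) (x j) ∧ ¬ M.SC (e i) (M.al (x j)))
    (h3 : ∀ i j, i ≠ j → ¬ M.SC (e i) (e j)) :
    ∃ g j, j ≠ 0 ∧ M.SC (e 0) g ∧ M.SC (e j) (M.al g) ∧ g.1 ∈ M.A ∧ (g.1 ∈ B ↔ (M.al g).1 ∉ B) ∧
      ∀ i, g ≠ x i ∧ g ≠ M.al (x i) := by
  classical
  set X : Finset (V × Fin 3) := univ.filter (fun d : V × Fin 3 => d.1 ∈ B ∧ (M.al d).1 ∉ B) with hX
  have hXc : X.card ≤ 6 := hb
  have memX : ∀ d, d ∈ X ↔ d.1 ∈ B ∧ (M.al d).1 ∉ B := by intro d; simp [hX]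
  set C : Finset (V × Fin 3) := univ.image x with hC
  have hCX : C ⊆ X := by
    intro d hd
    rw [hC, mem_image] at hd
    obtain ⟨i, _, rfl⟩ := hd
    exact (memX _).2 (hx i)
  have hCc : C.card = 4 := by
    rw [hC, Finset.card_image_of_injective _ (fun i j hij => hinj i j hij)]
    rfl
  set Y : Finset (V × Fin 3) := X \ C with hY
  have hYc : Y.card ≤ 2 := by
    have h7 : Y.card + C.card = X.card := by
      rw [hY, Finset.card_sdiff_of_subset hCX]
      have := Finset.card_le_card hCX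
      omega
    omega
  have hYs : ∀ i, ∃ y ∈ Y, fz M (e i) y ≠ 0 := by
    intro i
    by_contra hc
    push Not at hc
    have s1 := fz_cut M hB (e i)
    rw [← hX, ← Finset.sum_sdiff hCX, Finset.sum_eq_zero (s := X \ C) hc, zero_add, hC,
      Finset.sum_image (fun a _ b _ hab => hinj a b hab), Finset.sum_eq_single i] at s1
    · rw [fz_eq1 (h1 i)] at s1
      exact absurd s1 (by decide)
    · intro j _ hj
      exact fz_eq0 (h2 i j hj.symm).1 (h2 i j hj.symm).2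
    · intro hh
      exact absurd (mem_univ i) hh
  choose y hyY hy using hYs
  have hg : ∀ j, j ≠ 0 → fz M (e j) (y 0) ≠ 0 → ∃ g j, j ≠ 0 ∧ M.SC (e 0) g ∧ M.SC (e j) (M.al g) ∧
      g.1 ∈ M.A ∧ (g.1 ∈ B ↔ (M.al g).1 ∉ B) ∧ ∀ i, g ≠ x i ∧ g ≠ M.al (x i) := by
    intro j hj hfj
    have hyX := (Finset.mem_sdiff.1 (hyY 0)).1
    have hyC := (Finset.mem_sdiff.1 (hyY 0)).2
    rw [memX] at hyX
    have hyx : ∀ i, y 0 ≠ x i := by
      intro i q
      exact hyC (by rw [q, hC]; exact mem_image_of_mem _ (mem_univ i))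
    have hyx' : ∀ i, y 0 ≠ M.al (x i) := by
      intro i q
      have := (hx i).2
      rw [← q] at this
      exact this hyX.1
    have hor : ∀ k, fz M (e k) (y 0) ≠ 0 → M.SC (e k) (y 0) ∨ M.SC (e k) (M.al (y 0)) := by
      intro k hk
      rcases fz_one hk with q | q
      · exact Or.inl q.1
      · exact Or.inr q.2
    rcases hor 0 (hy 0) with q | q <;> rcases hor j hfj with r | r
    · exact absurd (q.trans r.symm) (h3 0 j hj.symm)
    · refine ⟨y 0, j, hj, q, r, hB hyX.1, ⟨fun _ => hyX.2, fun _ => hyX.1⟩, fun i => ⟨hyx i, hyx' i⟩⟩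
    · refine ⟨M.al (y 0), j, hj, q, by rw [M.inv]; exact r, M.act _ (hB hyX.1), ?_, fun i => ⟨?_, ?_⟩⟩
      · rw [M.inv]
        exact ⟨fun z => absurd z hyX.2, fun z => absurd hyX.1 z⟩
      · intro z
        exact hyx' i (by rw [← z, M.inv])
      · intro z
        exact hyx i (M.al_inj z)
    · exact absurd (q.trans r.symm) (h3 0 j hj.symm)
  by_cases c1 : fz M (e 1) (y 0) ≠ 0
  · exact hg 1 (by decide) c1
  by_cases c2 : fz M (e 2) (y 0) ≠ 0
  · exact hg 2 (by decide) c2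
  by_cases c3 : fz M (e 3) (y 0) ≠ 0
  · exact hg 3 (by decide) c3
  exfalso
  have n1 : y 1 ≠ y 0 := fun q => c1 (by rw [← q]; exact hy 1)
  have n2 : y 2 ≠ y 0 := fun q => c2 (by rw [← q]; exact hy 2)
  have n3 : y 3 ≠ y 0 := fun q => c3 (by rw [← q]; exact hy 3)
  have two : ∀ a b, a ∈ Y → b ∈ Y → a ≠ y 0 → b ≠ y 0 → a = b := by
    intro a b ha hb ha0 hb0
    by_contra q
    have : ({y 0, a, b} : Finset (V × Fin 3)).card = 3 := by
      rw [Finset.card_insert_of_notMem, Finset.card_pair q]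
      simp [ha0.symm, hb0.symm]
    have h5 : ({y 0, a, b} : Finset (V × Fin 3)) ⊆ Y := by
      intro z hz
      simp only [mem_insert, mem_singleton] at hz
      rcases hz with rfl | rfl | rfl
      · exact hyY 0
      · exact ha
      · exact hb
    have := Finset.card_le_card h5
    omega
  have e12 : y 2 = y 1 := two _ _ (hyY 2) (hyY 1) n2 n1
  have e13 : y 3 = y 1 := two _ _ (hyY 3) (hyY 1) n3 n1
  have hor : ∀ k, fz M (e k) (y 1) ≠ 0 → M.SC (e k) (y 1) ∨ M.SC (e k) (M.al (y 1)) := by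
    intro k hk
    rcases fz_one hk with q | q
    · exact Or.inl q.1
    · exact Or.inr q.2
  have o1 := hor 1 (hy 1)
  have o2 := hor 2 (by rw [← e12]; exact hy 2)
  have o3 := hor 3 (by rw [← e13]; exact hy 3)
  have d12 := h3 1 2 (by decide)
  have d13 := h3 1 3 (by decide)
  have d23 := h3 2 3 (by decide)
  rcases o1 with q1 | q1 <;> rcases o2 with q2 | q2 <;> rcases o3 with q3 | q3
  · exact d12 (q1.trans q2.symm)
  · exact d12 (q1.trans q2.symm)
  · exact d13 (q1.trans q3.symm)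
  · exact d23 (q2.trans q3.symm)
  · exact d23 (q2.trans q3.symm)
  · exact d13 (q1.trans q3.symm)
  · exact d12 (q1.trans q2.symm)
  · exact d12 (q1.trans q2.symm)

/-- second form of the pairing lemma -/
theorem pairing' (M : CMap V) {B : Finset V} (hB : B ⊆ M.A) (hb : M.b B ≤ 6) (x e : Fin 4 → V × Fin 3)
    (p q : V × Fin 3) (hx : ∀ i, (x i).1 ∈ B ∧ (M.al (x i)).1 ∉ B) (hinj : ∀ i j, x i = x j → i = j)
    (hs : ∀ i, ((M.SC p (x i) ∨ M.SC q (x i)) ∧ M.SC (e i) (M.al (x i))) ∨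
      ((M.SC p (M.al (x i)) ∨ M.SC q (M.al (x i))) ∧ M.SC (e i) (x i)))
    (hp : ∀ i, ¬ M.SC (e i) p) (hq : ∀ i, ¬ M.SC (e i) q)
    (h3 : ∀ i j, i < j → ¬ M.SC (e i) (e j)) :
    ∃ g j, j ≠ 0 ∧ M.SC (e 0) g ∧ M.SC (e j) (M.al g) ∧ g.1 ∈ M.A ∧ (g.1 ∈ B ↔ (M.al g).1 ∉ B) ∧
      ∀ i, g ≠ x i ∧ g ≠ M.al (x i) := by
  have h3' : ∀ i j, i ≠ j → ¬ M.SC (e i) (e j) := by
    intro i j hij
    rcases lt_or_gt_of_ne hij with z | z
    · exact h3 i j z
    · exact fun w => h3 j i z w.symm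
  have hpq : ∀ i y, (M.SC p y ∨ M.SC q y) → ¬ M.SC (e i) y := by
    intro i y hy hc
    rcases hy with z | z
    · exact hp i (hc.trans z.symm)
    · exact hq i (hc.trans z.symm)
  apply pairing M hB hb x e hx hinj _ _ h3'
  · intro i
    rcases hs i with ⟨z1, z2⟩ | ⟨z1, z2⟩
    · exact Or.inr ⟨hpq i _ z1, z2⟩
    · exact Or.inl ⟨z2, hpq i _ z1⟩
  · intro i j hij
    rcases hs j with ⟨z1, z2⟩ | ⟨z1, z2⟩
    · exact ⟨hpq i _ z1, fun w => h3' i j hij (w.trans z2.symm)⟩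
    · exact ⟨fun w => h3' i j hij (w.trans z2.symm), hpq i _ z1⟩

theorem three_le_card {Z : Finset V} {a b c : V} (ha : a ∈ Z) (hb : b ∈ Z) (hc : c ∈ Z)
    (h1 : a ≠ b) (h2 : a ≠ c) (h3 : b ≠ c) : 3 ≤ Z.card := by
  have : ({a, b, c} : Finset V).card = 3 := by
    rw [Finset.card_insert_of_notMem, Finset.card_pair h3]
    simp [h1, h2]
  rw [← this]
  apply Finset.card_le_card
  intro x hx
  simp only [mem_insert, mem_singleton] at hx
  rcases hx with rfl | rfl | rfl <;> assumption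

/-- consequence of the choice of the side -/
theorem U_contra {S : Finset V} (hS : SideS M S) {B : Finset V} (hB : B ⊆ M.A) (hb : M.b B ≤ 4)
    {a b c a' b' c' : V} (ha : a ∈ S) (hb' : b ∈ S) (haB : a ∈ B) (hbB : b ∈ B) (hcB : c ∈ B)
    (hab : a ≠ b) (hac : a ≠ c) (hbc : b ≠ c) (ha' : a' ∈ S) (hb'' : b' ∈ S) (hc' : c' ∈ M.A)
    (haB' : a' ∉ B) (hbB' : b' ∉ B) (hcB' : c' ∉ B) (hab' : a' ≠ b') (hac' : a' ≠ c')
    (hbc' : b' ≠ c') : False := by
  have h1 : 2 ≤ (S ∩ B).card := two_le_card (Finset.mem_inter.2 ⟨ha, haB⟩) (Finset.mem_inter.2 ⟨hb', hbB⟩) hab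
  have h2 : 2 ≤ (S \ B).card :=
    two_le_card (Finset.mem_sdiff.2 ⟨ha', haB'⟩) (Finset.mem_sdiff.2 ⟨hb'', hbB'⟩) hab'
  have h3 := three_le_card haB hbB hcB hab hac hbc
  have h4 := three_le_card (Z := M.A \ B) (Finset.mem_sdiff.2 ⟨hS.sub ha', haB'⟩)
    (Finset.mem_sdiff.2 ⟨hS.sub hb'', hbB'⟩) (Finset.mem_sdiff.2 ⟨hc', hcB'⟩) hab' hac' hbc'
  have := hS.U B hB hb h1 h2
  omega

/-- the two edges opposite to `g` share a vertex -/
theorem lemN' (h : Std M) {g n n' : V × Fin 3} (hg : g.1 ∈ M.A) (h1 : M.SC g n)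
    (h2 : M.SC (M.al g) n') (h3 : M.SC (M.al n) (M.al n')) :
    (n'.1 = (M.al n).1 ∧ g = M.ph n) ∨ (n.1 = (M.al n').1 ∧ M.al g = M.ph n') := by
  rcases lemN h hg h1 h2 h3 with ⟨q1, q2⟩ | ⟨q1, q2⟩
  · left
    refine ⟨?_, q1.symm⟩
    rw [q2, M.ph_al, ← q1]
    rfl
  · right
    refine ⟨?_, q1.symm⟩
    rw [q2]
    have : (M.ph g).1 = (M.al g).1 := rfl
    rw [this, ← q1]
    rfl

end Pool.Agent.H24
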