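import Pool.Agent.H24.Side

set_option autoImplicit false
set_option linter.unusedSectionVars false
set_option linter.unusedVariables false
set_option maxRecDepth 100000

namespace Pool.Agent.H24

open Finset Equiv.Perm

variable {V : Type} [Fintype V] [DecidableEq V]
variable {M M' : CMap V}

/-- the face of `d` lies inside `S` -/
def InF (M : CMap V) (S : Finset V) (d : V × Fin 3) : Prop := ∀ e, M.SC d e → e.1 ∈ S

theorem InF.self {S : Finset V} {d : V × Fin 3} (h : InF M S d) : d.1 ∈ S := h d (CMap.SC.refl M d)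

theorem InF.sc {S : Finset V} {d e : V × Fin 3} (h : InF M S d) (h2 : M.SC d e) : InF M S e :=
  fun f hf => h f (h2.trans hf)

/-- two outgoing darts are at different vertices -/
theorem out_sg (h : Std M) {S : Finset V} (hS : S ⊆ M.A) (hb : M.b S = 4) (h3 : 3 ≤ S.card)
    {x : V × Fin 3} (hx : x.1 ∈ S) (hx2 : (M.al x).1 ∉ S) : (M.al (sg x)).1 ∈ S := by
  classical
  by_contra hc
  by_cases c : (M.al (sg (sg x))).1 ∈ S
  · have := quad2 h hS (by omega) (e := sg (sg x)) hx c (by rw [sg3]; exact hx2) (by rw [sg3]; exact hc)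
    omega
  · -- all three outgoing
    have hsub : (univ.filter (fun d : V × Fin 3 => d.1 ∈ S.erase x.1 ∧ (M.al d).1 ∉ S.erase x.1)) ⊆
        ((univ.filter (fun d : V × Fin 3 => d.1 ∈ S ∧ (M.al d).1 ∉ S)).erase x).erase (sg x) := by
      intro d hd
      simp only [mem_filter, mem_univ, true_and, Finset.mem_erase] at hd
      obtain ⟨⟨hd1, hd2⟩, hd3⟩ := hd
      rw [Finset.mem_erase, Finset.mem_erase]
      refine ⟨fun q => hd1 (by rw [q]; rfl), fun q => hd1 (by rw [q]), ?_⟩
      simp only [mem_filter, mem_univ, true_and]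
      refine ⟨hd2, ?_⟩
      intro q
      have q2 : (M.al d).1 = x.1 := by
        by_contra z
        exact hd3 ⟨z, q⟩
      rcases dart_cases q2 with z | z | z
      · rw [← z, M.inv] at hx2; exact hx2 hd2
      · rw [← z, M.inv] at hc; exact hc hd2
      · rw [← z, M.inv] at c; exact c hd2
    have h1 := Finset.card_le_card hsub
    rw [Finset.card_erase_of_mem, Finset.card_erase_of_mem] at h1
    · have h2 := h.c3 (S.erase x.1) ((Finset.erase_subset _ _).trans hS)
        (by rw [← Finset.card_pos, Finset.card_erase_of_mem hx]; omega)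
        (by intro q; have := hS hx; rw [← q] at this; exact (Finset.mem_erase.1 this).1 rfl)
      unfold CMap.b at h2 hb
      omega
    · simp [hx, hx2]
    · rw [Finset.mem_erase]
      refine ⟨sg_ne _, ?_⟩
      simp [hx, hc]

theorem split3 {α : Type} (s : Finset α) (g : α → ℕ) (hg : ∀ a ∈ s, 5 ≤ g a) :
    s.card = (s.filter (fun a => g a = 5)).card + (s.filter (fun a => g a = 6)).card +
      (s.filter (fun a => 7 ≤ g a)).card := by
  have h1 := Finset.card_filter_add_card_filter_not (s := s) (fun f => g f = 5)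
  have h2 := Finset.card_filter_add_card_filter_not (s := s.filter (fun f => ¬ g f = 5)) (fun f => g f = 6)
  rw [Finset.filter_filter, Finset.filter_filter] at h2
  have e1 : s.filter (fun f => ¬ g f = 5 ∧ g f = 6) = s.filter (fun f => g f = 6) := by
    apply Finset.filter_congr; intro f _; omega
  have e2 : s.filter (fun f => ¬ g f = 5 ∧ ¬ g f = 6) = s.filter (fun f => 7 ≤ g f) := by
    apply Finset.filter_congr; intro f hf; have := hg f hf; omega
  rw [e1, e2] at h2
  omega

theorem exists_pair (h : Std5 M) {S : Finset V} (hS : SideS M S) :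
    ∃ d, InF M S d ∧ InF M S (M.al d) ∧ M.ln d = 5 ∧ (M.ln (M.al d) = 5 ∨ M.ln (M.al d) = 6) := by
  classical
  by_contra hcon
  push Not at hcon
  have hA := h.card
  set I : Finset (V × Fin 3) := univ.filter (fun d => InF M S d) with hI
  have mI : ∀ d, d ∈ I ↔ InF M S d := by intro d; simp [hI]
  set K : Finset (Finset (V × Fin 3)) := I.image M.fc with hK
  have mK : ∀ f, f ∈ K ↔ ∃ d, InF M S d ∧ M.fc d = f := by intro f; simp [hK, mI]
  have nonp : ∀ d, InF M S d → M.ln d = 5 → InF M S (M.al d) → 7 ≤ M.ln (M.al d) := by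
    intro d h1 h2 h3
    have h4 := hcon d h1 h3 h2
    have h5 := h.ln5 (M.al d) (hS.sub h3.self)
    omega
  -- general counting
  have cnt : ∀ (φ : ℕ → Prop) [DecidablePred φ], ∑ f ∈ K.filter (fun f => φ f.card), f.card = (I.filter (fun d => φ (M.ln d))).card := by
    intro φ _
    have : (K.filter (fun f => φ f.card)).biUnion id = I.filter (fun d => φ (M.ln d)) := by
      ext d
      simp only [Finset.mem_biUnion, Finset.mem_filter, id]
      constructor
      · rintro ⟨f, ⟨hf1, hf2⟩, hdf⟩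
        obtain ⟨e, he1, rfl⟩ := (mK f).1 hf1
        have hsc := M.mem_fc.1 hdf
        rw [M.card_fc, M.ln_SC hsc] at hf2
        exact ⟨(mI d).2 (he1.sc hsc), hf2⟩
      · rintro ⟨h1, h2⟩
        refine ⟨M.fc d, ⟨(mK _).2 ⟨d, (mI d).1 h1, rfl⟩, ?_⟩, M.mem_fc.2 (CMap.SC.refl M d)⟩
        rw [M.card_fc]; exact h2
    rw [← this, Finset.card_biUnion]
    · rfl
    · intro f hf g hg hfg
      replace hf := Finset.mem_filter.1 (Finset.mem_coe.1 hf)
      replace hg := Finset.mem_filter.1 (Finset.mem_coe.1 hg)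
      obtain ⟨a, ha, rfl⟩ := (mK f).1 hf.1
      obtain ⟨b, hb, rfl⟩ := (mK g).1 hg.1
      show Disjoint (M.fc a) (M.fc b)
      rw [Finset.disjoint_left]
      intro x hx hx2
      exact hfg (M.fc_eq.2 ((M.mem_fc.1 hx).trans (M.mem_fc.1 hx2).symm))
  have hIins : I ⊆ M.ins S := by
    intro d hd
    rw [mI] at hd
    rw [CMap.mem_ins]
    exact ⟨hd.self, (hd.sc (M.SC_ph d)).self⟩
  set J : Finset (V × Fin 3) := M.ins S \ I with hJ
  have hJc : J.card + I.card = (M.ins S).card := card_compl_eq hIins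
  have hins := M.card_ins_add S
  set DP : Finset (V × Fin 3) := I.filter (fun d => M.ln d = 5) with hDP
  set DR : Finset (V × Fin 3) := I.filter (fun d => 7 ≤ M.ln d) with hDR
  set E : Finset (V × Fin 3) := DR.filter (fun d => M.al d ∈ DP) with hE
  have c5 := cnt (fun n => n = 5)
  have c6 := cnt (fun n => n = 6)
  have c7 := cnt (fun n => 7 ≤ n)
  set P := K.filter (fun f => f.card = 5) with hP
  set X6 := K.filter (fun f => f.card = 6) with hX6
  set R := K.filter (fun f => 7 ≤ f.card) with hR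
  have s5 : ∑ f ∈ P, f.card = 5 * P.card := by
    rw [Finset.sum_const_nat (m := 5)]
    · ring
    · intro f hf; exact (Finset.mem_filter.1 hf).2
  have s6 : ∑ f ∈ X6, f.card = 6 * X6.card := by
    rw [Finset.sum_const_nat (m := 6)]
    · ring
    · intro f hf; exact (Finset.mem_filter.1 hf).2
  have s7 : 7 * R.card ≤ ∑ f ∈ R, f.card := by
    have := Finset.card_nsmul_le_sum R (fun f => f.card) 7 (fun f hf => (Finset.mem_filter.1 hf).2)
    simpa [mul_comm] using this
  have hKge : ∀ f ∈ K, 5 ≤ f.card := by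
    intro f hf
    obtain ⟨d, hd, rfl⟩ := (mK f).1 hf
    rw [M.card_fc]
    exact h.ln5 d (hS.sub hd.self)
  have hKsplit : K.card = P.card + X6.card + R.card := split3 K Finset.card hKge
  have hIge : ∀ d ∈ I, 5 ≤ M.ln d := fun d hd => h.ln5 d (hS.sub ((mI d).1 hd).self)
  have hIsplit := split3 I M.ln hIge
  have hDPc : DP.card = 5 * P.card := by rw [hDP, ← c5, ← s5]
  have hDRc : DR.card = ∑ f ∈ R, f.card := by rw [hDR, ← c7]
  have hIs : I.card = 5 * P.card + 6 * X6.card + DR.card := by
    rw [hIsplit, ← c5, ← c6, ← s5, ← s6]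
  have mDP : ∀ d, d ∈ DP ↔ InF M S d ∧ M.ln d = 5 := by intro d; rw [hDP, Finset.mem_filter, mI]
  have mDR : ∀ d, d ∈ DR ↔ InF M S d ∧ 7 ≤ M.ln d := by intro d; rw [hDR, Finset.mem_filter, mI]
  have mE : ∀ d, d ∈ E ↔ (InF M S d ∧ 7 ≤ M.ln d) ∧ (InF M S (M.al d) ∧ M.ln (M.al d) = 5) := by
    intro d; rw [hE, Finset.mem_filter, mDR, mDP]
  have t1 : DP.card ≤ J.card + E.card := by
    have h1 : (DP.image M.al) ⊆ J ∪ E := by
      intro x hx
      rw [Finset.mem_image] at hx
      obtain ⟨d, hd, rfl⟩ := hx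
      rw [mDP] at hd
      have hin : M.al d ∈ M.ins S := by
        rw [CMap.mem_ins, M.inv]
        exact ⟨(hd.1.sc (M.SC_ph d)).self, hd.1.self⟩
      rw [Finset.mem_union]
      by_cases c : InF M S (M.al d)
      · right
        rw [mE, M.inv]
        exact ⟨⟨c, nonp d hd.1 hd.2 c⟩, hd⟩
      · left
        rw [hJ, Finset.mem_sdiff]
        exact ⟨hin, fun q => c ((mI _).1 q)⟩
    have h2 := Finset.card_le_card h1
    rw [Finset.card_image_of_injective _ (fun a b hab => M.al_inj hab)] at h2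
    exact h2.trans (Finset.card_union_le _ _)
  have t2 : 2 * E.card ≤ DR.card := by
    have h1 : E ∪ E.image M.ph ⊆ DR := by
      intro x hx
      rw [Finset.mem_union] at hx
      rcases hx with hx | hx
      · exact (Finset.mem_filter.1 hx).1
      · rw [Finset.mem_image] at hx
        obtain ⟨d, hd, rfl⟩ := hx
        rw [mE] at hd
        rw [mDR]
        exact ⟨hd.1.1.sc (M.SC_ph d), by rw [← M.ln_SC (M.SC_ph d)]; exact hd.1.2⟩
    have h2 := Finset.card_le_card h1
    rw [Finset.card_union_of_disjoint, Finset.card_image_of_injective _ M.ph.injective] at h2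
    · omega
    · rw [Finset.disjoint_left]
      intro x hx hx2
      rw [Finset.mem_image] at hx2
      obtain ⟨d, hd, rfl⟩ := hx2
      rw [mE] at hx hd
      -- third dart
      have w1 : M.SC (M.al (M.ph d)) (sg (M.ph d)) := M.SC_al _
      have w2 : M.SC (M.al (sg (M.ph d))) (M.al d) := by
        have : M.ph (M.al (sg (M.ph d))) = M.al d := by
          rw [M.ph_al, M.ph_apply, sg3]
        rw [← this]
        exact M.SC_ph _
      have := nonp (sg (M.ph d)) (hx.2.1.sc w1) (by rw [← M.ln_SC w1]; exact hx.2.2) (hd.2.1.sc w2.symm)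
      rw [M.ln_SC w2] at this
      omega
  -- Euler
  rcases hS.ty with hty | hty
  · have hAll : ∀ d : V × Fin 3, d.1 ∈ M.A → InF M S d := by
      intro d hd e he
      rw [hty]
      exact (M.SC_act he).1 hd
    obtain ⟨v, hv⟩ : M.A.Nonempty := Finset.card_pos.1 (by omega)
    have h1 := M.patch_whole h.pl (d0 := (v, 0)) hv
    have h2 : M.KF M.A (v, 0) ⊆ K.erase (M.fc (v, 0)) := by
      intro f hf
      obtain ⟨d, ⟨hd1, hd2, hd3⟩, rfl⟩ := M.mem_KF.1 hf
      rw [Finset.mem_erase]
      exact ⟨fun q => hd3 (M.fc_eq.1 q), (mK _).2 ⟨d, hAll d hd1, rfl⟩⟩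
    have h3 := Finset.card_le_card h2
    have h4 : M.fc (v, 0) ∈ K := (mK _).2 ⟨_, hAll _ hv, rfl⟩
    have h5 : 0 < K.card := Finset.card_pos.2 ⟨_, h4⟩
    rw [Finset.card_erase_of_mem h4] at h3
    have h6 : J.card = 0 := by
      rw [Finset.card_eq_zero, hJ, Finset.sdiff_eq_empty_iff_subset]
      intro d hd
      rw [mI]
      exact hAll d (hS.sub ((M.mem_ins.1 hd).1))
    rw [hty] at hins
    rw [M.b_A] at hins
    rw [hty] at hJc
    omega
  · have hSA : S ≠ M.A := by
      intro q
      rw [q, M.b_A] at hty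
      omega
    obtain ⟨v, hv, hvS⟩ : ∃ v ∈ M.A, v ∉ S := by
      by_contra hcc
      push Not at hcc
      exact hSA (Finset.Subset.antisymm hS.sub hcc)
    have hbig := hS.big
    have h1 := M.patch_part h.c3 h.pl hS.sub (Finset.card_pos.1 (by omega)) (by omega) (d0 := (v, 0)) hv hvS
    have h2 : M.KF S (v, 0) ⊆ K := by
      intro f hf
      obtain ⟨d, ⟨hd1, hd2, hd3⟩, rfl⟩ := M.mem_KF.1 hf
      exact (mK _).2 ⟨d, hd2, rfl⟩
    have h3 := Finset.card_le_card h2
    have h4 : 4 ≤ J.card := by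
      have h5 : (univ.filter (fun d : V × Fin 3 => d.1 ∈ S ∧ (M.al d).1 ∉ S)).image sg ⊆ J := by
        intro x hx
        rw [Finset.mem_image] at hx
        obtain ⟨d, hd, rfl⟩ := hx
        simp only [mem_filter, mem_univ, true_and] at hd
        rw [hJ, Finset.mem_sdiff, CMap.mem_ins, mI]
        refine ⟨⟨hd.1, out_sg h.toStd hS.sub hty (by omega) hd.1 hd.2⟩, ?_⟩
        intro q
        exact hd.2 (q.sc (M.SC_al d).symm).self
      have h6 := Finset.card_le_card h5
      rw [Finset.card_image_of_injective _ (fun a b hab => sg_inj hab)] at h6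
      have h7 : (univ.filter (fun d : V × Fin 3 => d.1 ∈ S ∧ (M.al d).1 ∉ S)).card = 4 := hty
      omega
    omega

end Pool.Agent.H24
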