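import Pool.Agent.H24.Patch

set_option autoImplicit false
set_option linter.unusedSectionVars false
set_option linter.unusedVariables false

namespace Pool.Agent.H24

open Finset

/-- rotation on codes -/
def s3 (k : ℕ) : ℕ := 3 * (k / 3) + (k % 3 + 1) % 3

theorem s3_div (k : ℕ) : s3 k / 3 = k / 3 := by unfold s3; omega

theorem s3_lt {k m : ℕ} (h : k < 3 * m) : s3 k < 3 * m := by unfold s3; omega

theorem s3_s3_s3 (k : ℕ) : s3 (s3 (s3 k)) = k := by unfold s3; omega

theorem code_cases {k l : ℕ} (h : k / 3 = l / 3) : l = k ∨ l = s3 k ∨ l = s3 (s3 k) := by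
  unfold s3; omega

/-- value of a bit mask -/
def vl (N : ℕ) (z : ℕ → ZMod 2) (m : ℕ) : ZMod 2 := ∑ b ∈ range N, if m.testBit b then z b else 0

theorem vl_xor (N : ℕ) (z : ℕ → ZMod 2) (m l : ℕ) : vl N z (m ^^^ l) = vl N z m + vl N z l := by
  unfold vl
  rw [← Finset.sum_add_distrib]
  apply Finset.sum_congr rfl
  intro b _
  rw [Nat.testBit_xor]
  have := z2_add_self (z b)
  cases m.testBit b <;> cases l.testBit b <;> simp [this]

theorem vl_zero (N : ℕ) (z : ℕ → ZMod 2) : vl N z 0 = 0 := by
  unfold vl; simp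

theorem vl_one {N : ℕ} (z : ℕ → ZMod 2) {b : ℕ} (hb : b < N) : vl N z (1 <<< b) = z b := by
  unfold vl
  rw [Finset.sum_eq_single b]
  · simp [Nat.testBit_shiftLeft]
  · intro c _ hc
    have : (1 <<< b).testBit c = false := by
      rw [Nat.shiftLeft_eq, one_mul, Nat.testBit_two_pow]
      simp; exact fun h => hc h.symm
    simp [this]
  · intro h
    exact absurd (Finset.mem_range.2 hb) h

def rd (l m : ℕ) : ℕ := if m.testBit (Nat.log2 l) then m ^^^ l else m

theorem vl_rd {N : ℕ} {z : ℕ → ZMod 2} {l : ℕ} (hl : vl N z l = 0) (m : ℕ) :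
    vl N z (rd l m) = vl N z m := by
  unfold rd
  split_ifs
  · rw [vl_xor, hl, add_zero]
  · rfl

def elim : ℕ → List ℕ → List ℕ → Bool
  | 0, _, cs => cs.all (fun c => c == 0)
  | _ + 1, [], cs => cs.all (fun c => c == 0)
  | n + 1, l :: L, cs => if l = 0 then elim n L cs else elim n (L.map (rd l)) (cs.map (rd l))

theorem elim_sound {N : ℕ} {z : ℕ → ZMod 2} : ∀ (n : ℕ) (L cs : List ℕ), elim n L cs = true →
    (∀ l ∈ L, vl N z l = 0) → ∀ c ∈ cs, vl N z c = 0
  | 0, _, cs => by
    intro h _ c hc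
    rw [elim, List.all_eq_true] at h
    have := h c hc
    simp only [beq_iff_eq] at this
    rw [this, vl_zero]
  | n + 1, [], cs => by
    intro h _ c hc
    rw [elim, List.all_eq_true] at h
    have := h c hc
    simp only [beq_iff_eq] at this
    rw [this, vl_zero]
  | n + 1, l :: L, cs => by
    intro h hL c hc
    have hl : vl N z l = 0 := hL l (by simp)
    rw [elim] at h
    split_ifs at h with h0
    · exact elim_sound n L cs h (fun l' hl' => hL l' (by simp [hl'])) c hc
    · rw [← vl_rd hl c]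
      apply elim_sound n _ _ h
      · intro l' hl'
        obtain ⟨l'', h1, rfl⟩ := List.mem_map.1 hl'
        rw [vl_rd hl]
        exact hL l'' (by simp [h1])
      · exact List.mem_map_of_mem hc

end Pool.Agent.H24
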