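import Pool.Agent.H24.Base

set_option autoImplicit false
set_option linter.unusedSectionVars false
set_option linter.unusedVariables false
set_option maxRecDepth 100000

namespace Pool.Agent.H24

open Finset Equiv.Perm

variable {V : Type} [Fintype V] [DecidableEq V]

/-- planarity from the Euler count -/
theorem pl_of_euler (M : CMap V) (hcn : M.Conn M.A) (hne : M.A.Nonempty) (k : ℕ)
    (face : V × Fin 3 → Fin k) (hal : ∀ d, d.1 ∈ M.A → face (M.al d) = face (sg d))
    (hsurj : ∀ i : Fin k, ∃ d : V × Fin 3, d.1 ∈ M.A ∧ face d = i)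
    (hk : 2 * k = M.A.card + 4) : M.Pl := by
  classical
  obtain ⟨v0, hv0⟩ := hne
  set S := M.A with hSdef
  have hS : S ⊆ M.A := Finset.Subset.refl _
  obtain ⟨R, hRI, hR1, hR2, hR3⟩ := half_set M.al M.inv (M.ins S)
    (by intro d hd; rw [CMap.mem_ins] at *; rw [M.inv]; exact ⟨hd.2, hd.1⟩)
    (by intro d hd; exact M.nofix d (hS (M.mem_ins.1 hd).1))
  have hinsA : ∀ d, d ∈ M.ins S ↔ d.1 ∈ S := by
    intro d
    rw [CMap.mem_ins]
    exact ⟨fun q => q.1, fun q => ⟨q, M.act _ q⟩⟩
  let ext : (R → ZMod 2) → (V × Fin 3) → ZMod 2 := fun f d =>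
    if h : d ∈ R then f ⟨d, h⟩ else if h : M.al d ∈ R then f ⟨M.al d, h⟩ else 0
  have ext_add : ∀ f g d, ext (f + g) d = ext f d + ext g d := by
    intro f g d
    simp only [ext]
    split_ifs <;> simp
  have ext_smul : ∀ (c : ZMod 2) f d, ext (c • f) d = c * ext f d := by
    intro c f d
    simp only [ext]
    split_ifs <;> simp
  have ext_of : ∀ Z : V × Fin 3 → ZMod 2, (∀ d, Z (M.al d) = Z d) → (∀ d, d.1 ∉ S → Z d = 0) →
      ∀ d, ext (fun r => Z r.1) d = Z d := by
    intro Z hs ho d
    simp only [ext]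
    by_cases h1 : d ∈ R
    · simp only [h1, dif_pos]
    · by_cases h2 : M.al d ∈ R
      · simp only [h1, h2, dif_pos, dif_neg, not_false_eq_true]
        exact hs d
      · simp only [h1, h2, dif_neg, not_false_eq_true]
        symm
        apply ho
        intro h3
        exact h2 (hR1 d ((hinsA d).2 h3) h1)
  let L : (R → ZMod 2) →ₗ[ZMod 2] (↥(S.erase v0) → ZMod 2) :=
    { toFun := fun f v => ∑ i : Fin 3, ext f (v.1, i)
      map_add' := by
        intro f g
        ext v
        simp only [ext_add, Finset.sum_add_distrib, Pi.add_apply]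
      map_smul' := by
        intro c f
        ext v
        simp only [ext_smul, Pi.smul_apply, RingHom.id_apply, smul_eq_mul, Finset.mul_sum] }
  have hLap : ∀ f v, L f v = ∑ i : Fin 3, ext f (v.1, i) := fun f v => rfl
  -- surjectivity
  have hJ : ∀ v : ↥(S.erase v0), ∃ Z : V × Fin 3 → ZMod 2, (∀ d, Z (M.al d) = Z d) ∧
      (∀ d, Z d ≠ 0 → d ∈ M.ins S) ∧ (∀ w, ∑ i : Fin 3, Z (w, i) = vi v0 w + vi v.1 w) :=
    fun v => M.tjoin hcn hv0 (Finset.mem_erase.1 v.2).2
  choose J hJ1 hJ2 hJ3 using hJ
  have hLsurj : Function.Surjective L := by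
    intro t
    let Z : V × Fin 3 → ZMod 2 := fun d => ∑ v : ↥(S.erase v0), t v * J v d
    have hZs : ∀ d, Z (M.al d) = Z d := by
      intro d
      apply Finset.sum_congr rfl
      intro v _
      rw [hJ1]
    have hZo : ∀ d, d.1 ∉ S → Z d = 0 := by
      intro d hd
      apply Finset.sum_eq_zero
      intro v _
      have : J v d = 0 := by
        by_contra q
        exact hd ((hinsA d).1 (hJ2 v d q))
      rw [this, mul_zero]
    refine ⟨fun r => Z r.1, ?_⟩
    ext w
    rw [hLap]
    have : ∀ i : Fin 3, ext (fun r => Z r.1) (w.1, i) = Z (w.1, i) := fun i => ext_of Z hZs hZo _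
    simp only [this]
    show ∑ i : Fin 3, ∑ v : ↥(S.erase v0), t v * J v (w.1, i) = t w
    rw [Finset.sum_comm]
    have h2 : ∀ v : ↥(S.erase v0), ∑ i : Fin 3, t v * J v (w.1, i) = if v = w then t v else 0 := by
      intro v
      rw [← Finset.mul_sum, hJ3]
      have hw : w.1 ≠ v0 := (Finset.mem_erase.1 w.2).1
      unfold vi
      rw [if_neg hw, zero_add]
      by_cases q : v = w
      · rw [if_pos q, q, if_pos rfl, mul_one]
      · rw [if_neg q, if_neg (fun z => q (Subtype.ext z.symm)), mul_zero]
    simp only [h2]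
    simp
  let T : (Fin k → ZMod 2) →ₗ[ZMod 2] (R → ZMod 2) :=
    { toFun := fun h r => h (face r.1) + h (face (sg r.1))
      map_add' := by
        intro f g
        ext r
        simp only [Pi.add_apply]
        ring
      map_smul' := by
        intro c f
        ext r
        simp only [Pi.smul_apply, RingHom.id_apply, smul_eq_mul]
        ring }
  have hTap : ∀ h r, T h r = h (face r.1) + h (face (sg r.1)) := fun h r => rfl
  have hsgal : ∀ d, d.1 ∈ S → face (sg (M.al d)) = face d := by
    intro d hd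
    have := hal (M.al d) (M.act _ hd)
    rw [M.inv] at this
    exact this.symm
  -- the cycle vector of a face function
  have hext : ∀ h : Fin k → ZMod 2, ∀ d, d.1 ∈ S → ext (T h) d = h (face d) + h (face (sg d)) := by
    intro h d hd
    simp only [ext]
    by_cases h1 : d ∈ R
    · simp only [h1, dif_pos]; rfl
    · have h2 : M.al d ∈ R := hR1 d ((hinsA d).2 hd) h1
      simp only [h1, h2, dif_pos, dif_neg, not_false_eq_true]
      rw [hTap, hal d hd, hsgal d hd, add_comm]
  have hTL : LinearMap.range T ≤ LinearMap.ker L := by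
    rintro _ ⟨h, rfl⟩
    rw [LinearMap.mem_ker]
    ext w
    rw [hLap]
    have hw : w.1 ∈ S := (Finset.mem_erase.1 w.2).2
    have : ∀ i : Fin 3, ext (T h) (w.1, i) = h (face (w.1, i)) + h (face (w.1, i + 1)) :=
      fun i => hext h (w.1, i) hw
    simp only [this, Fin.sum_univ_three]
    have e1 : ((0 : Fin 3) + 1) = 1 := rfl
    have e2 : ((1 : Fin 3) + 1) = 2 := rfl
    have e3 : ((2 : Fin 3) + 1) = 0 := rfl
    rw [e1, e2, e3]
    have a1 := z2_add_self (h (face (w.1, 0)))
    have a2 := z2_add_self (h (face (w.1, 1)))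
    have a3 := z2_add_self (h (face (w.1, 2)))
    show _ = (0 : ZMod 2)
    linear_combination a1 + a2 + a3
  -- kernel of T
  have hker : LinearMap.ker T ≤ Submodule.span (ZMod 2) {(fun _ => 1 : Fin k → ZMod 2)} := by
    intro h hh
    rw [LinearMap.mem_ker] at hh
    have c1 : ∀ d, d.1 ∈ S → h (face d) = h (face (sg d)) := by
      intro d hd
      have := hext h d hd
      rw [hh] at this
      have z : ext 0 d = 0 := by simp only [ext]; split_ifs <;> rfl
      rw [z] at this
      have t := z2_add_self (h (face (sg d)))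
      linear_combination - this - t
    have c2 : ∀ d, d.1 ∈ S → h (face (M.al d)) = h (face d) := by
      intro d hd
      rw [hal d hd, c1 d hd]
    have c3 : ∀ d e : V × Fin 3, d.1 ∈ S → e.1 = d.1 → h (face e) = h (face d) := by
      intro d e hd hed
      rcases dart_cases hed with q | q | q
      · rw [q]
      · rw [q, ← c1 d hd]
      · rw [q, ← c1 (sg d) hd, ← c1 d hd]
    have c4 : ∀ d, d.1 ∈ S → h (face d) = h (face (v0, 0)) := by
      set Q := S.filter (fun v => h (face (v, 0)) = h (face (v0, 0))) with hQ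
      have hQS : Q = S := by
        by_contra hne
        obtain ⟨d, d1, d2, d3⟩ := hcn Q (Finset.filter_subset _ _) ⟨v0, by rw [hQ, mem_filter]; exact ⟨hv0, rfl⟩⟩ hne
        apply d3
        rw [hQ, mem_filter] at d1 ⊢
        refine ⟨d2, ?_⟩
        rw [c3 (M.al d) ((M.al d).1, 0) d2 rfl, c2 d d1.1, c3 (d.1, 0) d d1.1 rfl]
        exact d1.2
      intro d hd
      have : d.1 ∈ Q := by rw [hQS]; exact hd
      rw [hQ, mem_filter] at this
      rw [c3 (d.1, 0) d hd rfl]
      exact this.2
    rw [Submodule.mem_span_singleton]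
    refine ⟨h (face (v0, 0)), ?_⟩
    ext i
    obtain ⟨d, hd, rfl⟩ := hsurj i
    rw [c4 d hd]
    simp
  have f1 : Module.finrank (ZMod 2) (LinearMap.ker T) ≤ 1 := by
    refine (Submodule.finrank_mono hker).trans ?_
    refine (finrank_span_le_card _).trans ?_
    simp
  have f2 := LinearMap.finrank_range_add_finrank_ker T
  rw [Module.finrank_fintype_fun_eq_card, Fintype.card_fin] at f2
  have f3 := LinearMap.finrank_range_add_finrank_ker L
  rw [LinearMap.range_eq_top.2 hLsurj, finrank_top, Module.finrank_fintype_fun_eq_card,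
    Module.finrank_fintype_fun_eq_card, Fintype.card_coe, Fintype.card_coe,
    Finset.card_erase_of_mem hv0] at f3
  have f4 : (M.ins S).card = 3 * S.card := by
    have h1 := M.card_ins_add M.A
    rw [M.b_A] at h1
    exact h1
  have f5 : 2 * k = S.card + 4 := hk
  have hpos : 0 < S.card := Finset.card_pos.2 ⟨v0, hv0⟩
  have heq : LinearMap.range T = LinearMap.ker L := by
    apply Submodule.eq_of_le_of_finrank_le hTL
    omega
  intro Z hZ
  have hm : (fun r : R => Z r.1) ∈ LinearMap.ker L := by
    rw [LinearMap.mem_ker]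
    ext w
    rw [hLap]
    have : ∀ i : Fin 3, ext (fun r => Z r.1) (w.1, i) = Z (w.1, i) := fun i =>
      ext_of Z hZ.sym hZ.out _
    simp only [this]
    exact hZ.sum _
  rw [← heq] at hm
  obtain ⟨h, hh⟩ := hm
  refine ⟨fun d => h (face d), ?_, ?_⟩
  · intro d hd
    show h (face (M.al d)) = h (face (sg d))
    rw [hal d hd]
  · intro d hd
    have h1 := hext h d hd
    rw [hh, ext_of Z hZ.sym hZ.out] at h1
    exact h1

end Pool.Agent.H24
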