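import Pool.Agent.H24.ExcTri
import Pool.Agent.H24.ExcTwo
import Pool.Agent.H24.ExcSq

set_option autoImplicit false
set_option linter.unusedSectionVars false
set_option linter.unusedVariables false

namespace Pool.Agent.H24

open Finset Equiv.Perm

variable {V : Type} [Fintype V] [DecidableEq V]
variable {M M' : CMap V} {ε : ℕ → V × Fin 3}

/-- the exceptional maps -/
def IsExc (M : CMap V) : Prop := IsoTo M 2 fTh ∨ IsoTo M 4 fK4 ∨ IsoTo M 8 fQ3 ∨ IsoTo M 8 fH

theorem col_case {n m : ℕ} {f : ℕ → ℕ} {c : Bool} {T : ℕ} (hi : IsoTo M (n + m) f) {x y x' : ℕ}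
    (hxy : x ≠ y) (hyx : y ≠ x') (hc : c = false)
    (h : (c || x == y || y == x' || (colOK (n + m) f (dg 2 T) 5 &&
      (List.range (n + m)).all (fun v => decide (dg 2 T v < 3)))) = true) : Col M := by
  rw [hc] at h
  simp only [Bool.false_or, Bool.or_eq_true, beq_iff_eq, Bool.and_eq_true, hxy, hyx, false_or] at h
  refine col_of_iso hi (dg 2 T) 5 ?_ h.1
  intro v hv
  have := (List.all_eq_true.1 h.2) v (List.mem_range.2 hv)
  rwa [decide_eq_true_eq] at this

theorem iso_case {n m : ℕ} {f : ℕ → ℕ} {c : Bool} {a b : ℕ} (hi : IsoTo M 8 f) {x y x' : ℕ}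
    (hxy : x ≠ y) (hyx : y ≠ x') (hc : c = false)
    (h : (c || x == y || y == x' || isoOK 8 f fH (dg 5 a) (dg 5 b)) = true) : IsoTo M 8 fH := by
  rw [hc] at h
  simp only [Bool.false_or, Bool.or_eq_true, beq_iff_eq, hxy, hyx, false_or] at h
  exact iso_of_iso hi _ _ h

theorem all2 {n : ℕ} {P : ℕ → ℕ → Bool} (h : (List.range n).all (fun x => (List.range n).all (fun y => P x y)) = true)
    {x y : ℕ} (hx : x < n) (hy : y < n) : P x y = true := by
  rw [List.all_eq_true] at h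
  have := h x (List.mem_range.2 hx)
  rw [List.all_eq_true] at this
  exact this y (List.mem_range.2 hy)

theorem exc_tri (h : Emb M gTri ε) (hr : Red M M' gTri ε) (hpl : M.Pl) (hc : M'.Conn M'.A)
    (hE : IsExc M') : Col M ∨ IsExc M := by
  have hsc : M'.SC (ε 12) (ε 15) :=
    red_SC h gTri_ok hr hpl hc 100 (by decide) (by decide) (by decide) (by decide) gTri_pl (by decide +kernel)
  rcases hE with ⟨ψ, hi⟩ | ⟨ψ, hi⟩ | ⟨ψ, hi⟩ | ⟨ψ, hi⟩
  · obtain ⟨x, hx, y, hy, e1, e2, e3, e4, nxy, nyx, hEx, hEy, hiso⟩ :=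
      xp_iso h gTri_ok hr (by decide) (by decide) (by decide) (by decide) hi
    have hl := lab_SC hi lTh lTh_ok (a := x) (b := fTh y) hx hEy (by rw [e1, e4]; exact hsc)
    left
    exact col_case hiso nxy nyx (by simp [hl]) (all2 eTriTh hx hy)
  · obtain ⟨x, hx, y, hy, e1, e2, e3, e4, nxy, nyx, hEx, hEy, hiso⟩ :=
      xp_iso h gTri_ok hr (by decide) (by decide) (by decide) (by decide) hi
    have hl := lab_SC hi lK4 lK4_ok (a := x) (b := fK4 y) hx hEy (by rw [e1, e4]; exact hsc)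
    right; right; right; right
    exact iso_case (n := 4) (m := 4) hiso nxy nyx (by simp [hl]) (all2 eTriK4 hx hy)
  · obtain ⟨x, hx, y, hy, e1, e2, e3, e4, nxy, nyx, hEx, hEy, hiso⟩ :=
      xp_iso h gTri_ok hr (by decide) (by decide) (by decide) (by decide) hi
    have hl := lab_SC hi lQ3 lQ3_ok (a := x) (b := fQ3 y) hx hEy (by rw [e1, e4]; exact hsc)
    left
    exact col_case hiso nxy nyx (by simp [hl]) (all2 eTriQ3 hx hy)
  · obtain ⟨x, hx, y, hy, e1, e2, e3, e4, nxy, nyx, hEx, hEy, hiso⟩ :=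
      xp_iso h gTri_ok hr (by decide) (by decide) (by decide) (by decide) hi
    have hl := lab_SC hi lH lH_ok (a := x) (b := fH y) hx hEy (by rw [e1, e4]; exact hsc)
    left
    exact col_case hiso nxy nyx (by simp [hl]) (all2 eTriH hx hy)

theorem exc_two (h : Emb M gTwo ε) (hr : Red M M' gTwo ε) (hpl : M.Pl) (hc : M'.Conn M'.A)
    (hE : IsExc M') : Col M ∨ IsExc M := by
  have hsc : M'.SC (ε 18) (ε 20) :=
    red_SC h gTwo_ok hr hpl hc 100 (by decide) (by decide) (by decide) (by decide) gTwo_pl (by decide +kernel)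
  rcases hE with ⟨ψ, hi⟩ | ⟨ψ, hi⟩ | ⟨ψ, hi⟩ | ⟨ψ, hi⟩
  · obtain ⟨x, hx, y, hy, e1, e2, e3, e4, nxy, nyx, hEx, hEy, hiso⟩ :=
      xp_iso h gTwo_ok hr (by decide) (by decide) (by decide) (by decide) hi
    have hl := lab_SC hi lTh lTh_ok (a := x) (b := y) hx hy (by rw [e1, e2]; exact hsc)
    right; right; right; right
    exact iso_case (n := 2) (m := 6) hiso nxy nyx (by simp [hl]) (all2 eTwoTh hx hy)
  · obtain ⟨x, hx, y, hy, e1, e2, e3, e4, nxy, nyx, hEx, hEy, hiso⟩ :=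
      xp_iso h gTwo_ok hr (by decide) (by decide) (by decide) (by decide) hi
    have hl := lab_SC hi lK4 lK4_ok (a := x) (b := y) hx hy (by rw [e1, e2]; exact hsc)
    left
    exact col_case hiso nxy nyx (by simp [hl]) (all2 eTwoK4 hx hy)
  · obtain ⟨x, hx, y, hy, e1, e2, e3, e4, nxy, nyx, hEx, hEy, hiso⟩ :=
      xp_iso h gTwo_ok hr (by decide) (by decide) (by decide) (by decide) hi
    have hl := lab_SC hi lQ3 lQ3_ok (a := x) (b := y) hx hy (by rw [e1, e2]; exact hsc)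
    left
    exact col_case hiso nxy nyx (by simp [hl]) (all2 eTwoQ3 hx hy)
  · obtain ⟨x, hx, y, hy, e1, e2, e3, e4, nxy, nyx, hEx, hEy, hiso⟩ :=
      xp_iso h gTwo_ok hr (by decide) (by decide) (by decide) (by decide) hi
    have hl := lab_SC hi lH lH_ok (a := x) (b := y) hx hy (by rw [e1, e2]; exact hsc)
    left
    exact col_case hiso nxy nyx (by simp [hl]) (all2 eTwoH hx hy)

theorem exc_sq (h : Emb M gSq ε) (hr : Red M M' gSq ε) (hpl : M.Pl) (hc : M'.Conn M'.A)
    (hE : IsExc M') : Col M ∨ IsExc M := by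
  have hsc : M'.SC (ε 12) (ε 14) :=
    red_SC h gSq_ok hr hpl hc 100 (by decide) (by decide) (by decide) (by decide) gSq_pl (by decide +kernel)
  rcases hE with ⟨ψ, hi⟩ | ⟨ψ, hi⟩ | ⟨ψ, hi⟩ | ⟨ψ, hi⟩
  · obtain ⟨x, hx, y, hy, e1, e2, e3, e4, nxy, nyx, hEx, hEy, hiso⟩ :=
      xp_iso h gSq_ok hr (by decide) (by decide) (by decide) (by decide) hi
    have hl := lab_SC hi lTh lTh_ok (a := x) (b := y) hx hy (by rw [e1, e2]; exact hsc)
    left
    exact col_case hiso nxy nyx (by simp [hl]) (all2 eSqTh hx hy)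
  · obtain ⟨x, hx, y, hy, e1, e2, e3, e4, nxy, nyx, hEx, hEy, hiso⟩ :=
      xp_iso h gSq_ok hr (by decide) (by decide) (by decide) (by decide) hi
    have hl := lab_SC hi lK4 lK4_ok (a := x) (b := y) hx hy (by rw [e1, e2]; exact hsc)
    right; right; right; right
    exact iso_case (n := 4) (m := 4) hiso nxy nyx (by simp [hl]) (all2 eSqK4 hx hy)
  · obtain ⟨x, hx, y, hy, e1, e2, e3, e4, nxy, nyx, hEx, hEy, hiso⟩ :=
      xp_iso h gSq_ok hr (by decide) (by decide) (by decide) (by decide) hi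
    have hl := lab_SC hi lQ3 lQ3_ok (a := x) (b := y) hx hy (by rw [e1, e2]; exact hsc)
    left
    exact col_case hiso nxy nyx (by simp [hl]) (all2 eSqQ3 hx hy)
  · obtain ⟨x, hx, y, hy, e1, e2, e3, e4, nxy, nyx, hEx, hEy, hiso⟩ :=
      xp_iso h gSq_ok hr (by decide) (by decide) (by decide) (by decide) hi
    have hl := lab_SC hi lH lH_ok (a := x) (b := y) hx hy (by rw [e1, e2]; exact hsc)
    left
    exact col_case hiso nxy nyx (by simp [hl]) (all2 eSqH hx hy)

end Pool.Agent.H24
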