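import Pool.Agent.H24.Tab5

set_option autoImplicit false
set_option linter.unusedSectionVars false
set_option linter.unusedVariables false

namespace Pool.Agent.H24

open Finset Equiv.Perm

variable {V : Type} [Fintype V] [DecidableEq V]
variable {M M' : CMap V} {ε : ℕ → V × Fin 3}

theorem Good.perm {c : V → Fin 3} (h : Good M c) (π : Equiv.Perm (Fin 3)) : Good M (fun v => π (c v)) := by
  refine ⟨?_, ?_⟩
  · intro d hd he
    exact h.proper d hd (π.injective he)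
  · intro p Z hZ hp
    apply h.acyc (π.symm p) Z hZ
    intro d hd
    apply hp
    show π (c d.1) = p
    rw [hd, Equiv.apply_symm_apply]

theorem exists_perm01 : ∀ a b : Fin 3, a ≠ b → ∃ π : Equiv.Perm (Fin 3), π a = 0 ∧ π b = 1 := by
  decide +kernel

theorem Good.norm {c : V → Fin 3} (h : Good M c) {u v : V} (huv : c u ≠ c v) :
    ∃ c', Good M c' ∧ c' u = 0 ∧ c' v = 1 := by
  obtain ⟨π, h1, h2⟩ := exists_perm01 _ _ huv
  exact ⟨_, h.perm π, h1, h2⟩

theorem co_term {G : Gd} (cl L : List ℕ) (hL : cl.drop G.m = L) (i : ℕ) :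
    G.co cl (3 * G.m + i) = L.getD i 0 := by
  unfold Gd.co
  rw [if_neg (by omega), ← hL]
  rw [List.getD_eq_getElem?_getD, List.getD_eq_getElem?_getD, List.getElem?_drop]
  congr 2
  omega

theorem term_of {G : Gd} {cl L : List ℕ} (hL : cl.drop G.m = L) {c' : V → Fin 3}
    (h : ∀ i < G.t, ((c' (ε (3 * G.m + i)).1 : Fin 3) : ℕ) = L.getD i 0) :
    ∀ j < G.N, 3 * G.m ≤ j → ((c' (ε j).1 : Fin 3) : ℕ) = G.co cl j := by
  intro j hj hj2
  have hN : G.N = 3 * G.m + G.t := rfl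
  have := h (j - 3 * G.m) (by omega)
  rw [show 3 * G.m + (j - 3 * G.m) = j by omega] at this
  rw [this, ← co_term cl L hL]
  congr 1
  omega

theorem adj_ne {G : Gd} (h : Emb M G ε) (hG : G.Ok) (hr : Red M M' G ε) {c' : V → Fin 3}
    (hc' : Good M' c') {k l : ℕ} (hk : k < G.N) (hK : G.isK k = true) (hl : G.p' k = l) :
    c' (ε k).1 ≠ c' (ε l).1 := by
  have h1 := hc'.proper (ε k) ((K_act h hr hk).2 hK)
  rw [hr.K_ k hk hK, hl] at h1
  exact h1

theorem ext_tri (h : Emb M gTri ε) (hr : Red M M' gTri ε) (hc : Col M') : Col M := by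
  obtain ⟨c0, hc0⟩ := hc
  have n1 : c0 (ε 12).1 ≠ c0 (ε 13).1 := adj_ne h gTri_ok hr hc0 (by decide) (by decide) (by decide)
  obtain ⟨c', hc', e1, e2⟩ := hc0.norm n1
  have n2 : c' (ε 14).1 ≠ c' (ε 15).1 := adj_ne h gTri_ok hr hc' (by decide) (by decide) (by decide)
  obtain ⟨cl, hcl, hd⟩ := mem_gTri (c' (ε 14).1) (Fin.is_lt _) (c' (ε 15).1) (Fin.is_lt _)
    (fun q => n2 (Fin.ext q))
  have hall := chk_gTri
  rw [List.all_eq_true] at hall
  refine col_ext h gTri_ok hr gTri_kt hc' cl (term_of hd ?_) (fun _ => 0) ?_ (hall cl hcl)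
  · intro i hi
    have hi' : i < 4 := hi
    show ((c' (ε (12 + i)).1 : Fin 3) : ℕ) = _
    interval_cases i <;> simp [e1, e2]
  · intro k hk hK
    exact absurd hK (by revert k; decide)

theorem ext_two (h : Emb M gTwo ε) (hr : Red M M' gTwo ε) (hc : Col M') : Col M := by
  obtain ⟨c0, hc0⟩ := hc
  have n1 : c0 (ε 18).1 ≠ c0 (ε 19).1 := adj_ne h gTwo_ok hr hc0 (by decide) (by decide) (by decide)
  obtain ⟨c', hc', e1, e2⟩ := hc0.norm n1
  have n2 : c' (ε 20).1 ≠ c' (ε 21).1 := adj_ne h gTwo_ok hr hc' (by decide) (by decide) (by decide)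
  obtain ⟨cl, hcl, hd⟩ := mem_gTwo (c' (ε 20).1) (Fin.is_lt _) (c' (ε 21).1) (Fin.is_lt _)
    (fun q => n2 (Fin.ext q))
  have hall := chk_gTwo
  rw [List.all_eq_true] at hall
  refine col_ext h gTwo_ok hr gTwo_kt hc' cl (term_of hd ?_) (fun _ => 0) ?_ (hall cl hcl)
  · intro i hi
    have hi' : i < 4 := hi
    show ((c' (ε (18 + i)).1 : Fin 3) : ℕ) = _
    interval_cases i <;> simp [e1, e2]
  · intro k hk hK
    exact absurd hK (by revert k; decide)

theorem ext_55 (h : Emb M g55 ε) (hr : Red M M' g55 ε) (hc : Col M') : Col M := by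
  obtain ⟨c0, hc0⟩ := hc
  have n1 : c0 (ε 24).1 ≠ c0 (ε 25).1 := adj_ne h g55_ok hr hc0 (by decide) (by decide) (by decide)
  obtain ⟨c', hc', e1, e2⟩ := hc0.norm n1
  have n2 : c' (ε 26).1 ≠ c' (ε 29).1 := adj_ne h g55_ok hr hc' (by decide) (by decide) (by decide)
  have n3 : c' (ε 27).1 ≠ c' (ε 28).1 := adj_ne h g55_ok hr hc' (by decide) (by decide) (by decide)
  obtain ⟨cl, hcl, hd⟩ := mem_g55 (a := c' (ε 26).1) (Fin.is_lt _) (b := c' (ε 27).1) (Fin.is_lt _)
    (c := c' (ε 28).1) (Fin.is_lt _) (d := c' (ε 29).1) (Fin.is_lt _)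
    (fun q => n2 (Fin.ext q)) (fun q => n3 (Fin.ext q))
  have hall := chk_g55
  rw [List.all_eq_true] at hall
  refine col_ext h g55_ok hr g55_kt hc' cl (term_of hd ?_) (fun _ => 0) ?_ (hall cl hcl)
  · intro i hi
    have hi' : i < 6 := hi
    show ((c' (ε (24 + i)).1 : Fin 3) : ℕ) = _
    interval_cases i <;> simp [e1, e2]
  · intro k hk hK
    exact absurd hK (by revert k; decide)

theorem ext_56 (h : Emb M g56 ε) (hr : Red M M' g56 ε) (hc : Col M') : Col M := by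
  obtain ⟨c0, hc0⟩ := hc
  have n1 : c0 (ε 0).1 ≠ c0 (ε 27).1 := adj_ne h g56_ok hr hc0 (by decide) (by decide) (by decide)
  obtain ⟨c', hc', e1, e2⟩ := hc0.norm n1
  have n2 : c' (ε 28).1 ≠ c' (ε 29).1 := adj_ne h g56_ok hr hc' (by decide) (by decide) (by decide)
  have n3 : c' (ε 31).1 ≠ c' (ε 32).1 := adj_ne h g56_ok hr hc' (by decide) (by decide) (by decide)
  have n4 : c' (ε 2).1 ≠ c' (ε 30).1 := adj_ne h g56_ok hr hc' (by decide) (by decide) (by decide)
  have n5 : c' (ε 1).1 ≠ c' (ε 33).1 := adj_ne h g56_ok hr hc' (by decide) (by decide) (by decide)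
  have v1 : (ε 1).1 = (ε 0).1 := h.vert' (by decide) (by decide)
  have v2 : (ε 2).1 = (ε 0).1 := h.vert' (by decide) (by decide)
  rw [v2, e1] at n4
  rw [v1, e1] at n5
  obtain ⟨cl, hcl, hd⟩ := mem_g56 (a := c' (ε 28).1) (Fin.is_lt _) (b := c' (ε 29).1) (Fin.is_lt _)
    (c := c' (ε 30).1) (Fin.is_lt _) (d := c' (ε 31).1) (Fin.is_lt _)
    (e := c' (ε 32).1) (Fin.is_lt _) (f := c' (ε 33).1) (Fin.is_lt _)
    (fun q => n2 (Fin.ext q)) (fun q => n4 (Fin.ext q.symm)) (fun q => n3 (Fin.ext q))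
    (fun q => n5 (Fin.ext q.symm))
  have hall := chk_g56
  rw [List.all_eq_true] at hall
  refine col_ext h g56_ok hr g56_kt hc' cl (term_of hd ?_) (fun _ => 0) ?_ (hall cl hcl)
  · intro i hi
    have hi' : i < 7 := hi
    show ((c' (ε (27 + i)).1 : Fin 3) : ℕ) = _
    interval_cases i <;> simp [e1, e2]
  · intro k hk hK
    have hk3 : k / 3 = 0 := by revert k; decide +kernel
    have : (ε k).1 = (ε 0).1 := h.vert' hk (by rw [hk3])
    rw [this, e1]
    rfl

end Pool.Agent.H24
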