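import Pool.Agent.H24.Ext

set_option autoImplicit false
set_option linter.unusedSectionVars false
set_option linter.unusedVariables false

namespace Pool.Agent.H24

open Finset Equiv.Perm

variable {V : Type} [Fintype V] [DecidableEq V]
variable {M M' : CMap V} {G : Gd} {ε : ℕ → V × Fin 3}

theorem cext_codes (h : Emb M G ε) {c' : V → Fin 3} {cl : List ℕ}
    (hterm : ∀ j < G.N, 3 * G.m ≤ j → ((c' (ε j).1 : Fin 3) : ℕ) = G.co cl j)
    (q2 : ∀ k < 3 * G.m, G.co cl k < 3) :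
    ∀ k < G.N, ((cext G ε c' cl (ε k).1 : Fin 3) : ℕ) = G.co cl k := by
  intro k hk
  by_cases hk3 : k < 3 * G.m
  · rw [cext_inner h c' cl hk3]
    exact Nat.mod_eq_of_lt (q2 k hk3)
  · rw [cext_out h c' cl (fun l hl he => h.term k hk (not_lt.1 hk3) l hl he.symm)]
    exact hterm k hk (not_lt.1 hk3)

theorem not_codes (h : Emb M G ε) (d : V × Fin 3) (c2 : ∀ k < G.N, ε k ≠ d) :
    ∀ k < 3 * G.m, (ε k).1 ≠ d.1 := by
  have hN : G.N = 3 * G.m + G.t := rfl
  intro k hk he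
  have h1 := h.sg_ k hk
  have h2 := h.sg_ _ (s3_lt hk)
  have l1 : k < G.N := by omega
  have l2 : s3 k < G.N := by have := s3_lt hk; omega
  have l3 : s3 (s3 k) < G.N := by have := s3_lt (s3_lt hk); omega
  rcases dart_cases (d := ε k) (e := d) he.symm with h3 | h3 | h3
  · exact c2 k l1 h3.symm
  · rw [← h1] at h3; exact c2 _ l2 h3.symm
  · rw [← h1, ← h2] at h3; exact c2 _ l3 h3.symm

theorem cext_proper (h : Emb M G ε) (hG : G.Ok) (hr : Red M M' G ε) {c' : V → Fin 3}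
    (hc' : Good M' c') {cl : List ℕ}
    (hterm : ∀ j < G.N, 3 * G.m ≤ j → ((c' (ε j).1 : Fin 3) : ℕ) = G.co cl j)
    (q2 : ∀ k < 3 * G.m, G.co cl k < 3) (q1 : ∀ k < G.N, G.co cl k ≠ G.co cl (G.p k)) :
    ∀ d, d.1 ∈ M.A → cext G ε c' cl d.1 ≠ cext G ε c' cl (M.al d).1 := by
  intro d hd
  have hc := cext_codes h hterm q2
  rcases dart_trich h hr d hd with ⟨c1, c2⟩ | ⟨k, hk, rfl⟩
  · have h1 := O_al h hG ((hr.A_ _).1 c1) (fun k hk _ => c2 k hk)
    rw [cext_out h c' cl (not_codes h d c2), cext_out h c' cl (not_codes h _ h1.2),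
      ← hr.O_ d c1 (fun k hk _ => c2 k hk)]
    exact hc'.proper d c1
  · rw [h.al_ k hk]
    intro heq
    have h1 := hc k hk
    have h2 := hc _ (hG.h1 k hk).1
    rw [heq, h2] at h1
    exact q1 k hk h1.symm

/-- relations of traces in the square configuration force vanishing -/
theorem sq_zero (h : Emb M gSq ε) (hr : Red M M' gSq ε) {c' : V → Fin 3} (hc' : Good M' c')
    {cl : List ℕ} (hterm : ∀ j < gSq.N, 3 * gSq.m ≤ j → ((c' (ε j).1 : Fin 3) : ℕ) = gSq.co cl j)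
    (q2 : ∀ k < 3 * gSq.m, gSq.co cl k < 3) {p : Fin 3} {Z : V × Fin 3 → ZMod 2}
    (hZ : M.Cyc Z) (hp : ∀ d, cext gSq ε c' cl d.1 = p → Z d = 0)
    (hin : elim 20 (gSq.crows cl p ++ gSq.terms.map (fun j => gSq.bm cl p j))
      ((List.range (3 * gSq.m)).map (fun k => gSq.bm cl p k)) = true)
    (r1 : Z (ε 12) = Z (ε 13)) (r2 : Z (ε 14) = Z (ε 15)) : ∀ d, Z d = 0 := by
  have hc := cext_codes h hterm q2
  have hD : Down M M' gSq ε c' p Z := by
    apply down_of h gSq_ok hr (fun v hv => cext_out h c' cl hv) hZ hp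
    · intro j hj hj1 _
      have a1 : j < 16 := hj
      have a2 : 12 ≤ j := hj1
      interval_cases j
      · exact r1
      · exact r1.symm
      · exact r2
      · exact r2.symm
    · intro x hx hK
      exact absurd hK (by revert x; decide)
    · intro k hk hK _
      have hh : ∀ k < 3 * gSq.m, gSq.isK k = false := by decide
      rw [hh k hk] at hK
      exact absurd hK (by decide)
  exact inner_zero h gSq_ok hr hc hZ hp _ hin (down h gSq_ok hr gSq_kt hc' hD)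

theorem ext_sq (h : Emb M gSq ε) (hr : Red M M' gSq ε) (hcol : Col M') : Col M := by
  classical
  obtain ⟨c0, hc0⟩ := hcol
  have n1 : c0 (ε 12).1 ≠ c0 (ε 13).1 := adj_ne h gSq_ok hr hc0 (by decide) (by decide) (by decide)
  obtain ⟨c', hc', e1, e2⟩ := hc0.norm n1
  have n2 : c' (ε 14).1 ≠ c' (ε 15).1 := adj_ne h gSq_ok hr hc' (by decide) (by decide) (by decide)
  by_cases hsp : ((c' (ε 14).1 : Fin 3) : ℕ) = 0 ∧ ((c' (ε 15).1 : Fin 3) : ℕ) = 1
  swap
  · obtain ⟨cl, hcl, hd⟩ := mem_gSq (c' (ε 14).1) (Fin.is_lt _) (c' (ε 15).1) (Fin.is_lt _)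
      ⟨fun q => n2 (Fin.ext q), hsp⟩
    have hall := chk_gSq
    rw [List.all_eq_true] at hall
    refine col_ext h gSq_ok hr gSq_kt hc' cl (term_of hd ?_) (fun _ => 0) ?_ (hall cl hcl)
    · intro i hi
      have hi' : i < 4 := hi
      show ((c' (ε (12 + i)).1 : Fin 3) : ℕ) = _
      interval_cases i <;> simp [e1, e2]
    · intro k hk hK
      exact absurd hK (by revert k; decide)
  · obtain ⟨e3, e4⟩ := hsp
    by_contra hno
    let cl1 : List ℕ := [1, 0, 1, 2, 0, 1, 0, 1]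
    let cl2 : List ℕ := [1, 0, 2, 0, 0, 1, 0, 1]
    have ht1 : ∀ j < gSq.N, 3 * gSq.m ≤ j → ((c' (ε j).1 : Fin 3) : ℕ) = gSq.co cl1 j := by
      refine term_of (L := [0, 1, 0, 1]) (by decide) ?_
      intro i hi
      have hi' : i < 4 := hi
      show ((c' (ε (12 + i)).1 : Fin 3) : ℕ) = _
      interval_cases i <;> simp [e1, e2, e3, e4]
    have ht2 : ∀ j < gSq.N, 3 * gSq.m ≤ j → ((c' (ε j).1 : Fin 3) : ℕ) = gSq.co cl2 j := by
      refine term_of (L := [0, 1, 0, 1]) (by decide) ?_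
      intro i hi
      have hi' : i < 4 := hi
      show ((c' (ε (12 + i)).1 : Fin 3) : ℕ) = _
      interval_cases i <;> simp [e1, e2, e3, e4]
    have q21 : ∀ k < 3 * gSq.m, gSq.co cl1 k < 3 := by decide +kernel
    have q22 : ∀ k < 3 * gSq.m, gSq.co cl2 k < 3 := by decide +kernel
    have p1 := cext_proper h gSq_ok hr hc' ht1 q21 (by decide +kernel)
    have p2 := cext_proper h gSq_ok hr hc' ht2 q22 (by decide +kernel)
    have hc1 := cext_codes h ht1 q21
    have hc2 := cext_codes h ht2 q22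
    have N1 : ¬ ∀ (p : Fin 3) (Z : V × Fin 3 → ZMod 2), M.Cyc Z →
        (∀ d, cext gSq ε c' cl1 d.1 = p → Z d = 0) → ∀ d, Z d = 0 := by
      intro q; exact hno ⟨_, p1, q⟩
    have N2 : ¬ ∀ (p : Fin 3) (Z : V × Fin 3 → ZMod 2), M.Cyc Z →
        (∀ d, cext gSq ε c' cl2 d.1 = p → Z d = 0) → ∀ d, Z d = 0 := by
      intro q; exact hno ⟨_, p2, q⟩
    push Not at N1 N2
    obtain ⟨pa, Z1, hZ1, hp1, d1, hd1⟩ := N1
    obtain ⟨pb, Z2, hZ2, hp2, d2, hd2⟩ := N2
    -- first colouring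
    have hin1 : ∀ p : Fin 3, elim 20 (gSq.crows cl1 p ++ gSq.terms.map (fun j => gSq.bm cl1 p j))
      ((List.range (3 * gSq.m)).map (fun k => gSq.bm cl1 p k)) = true := by decide +kernel
    have hin2 : ∀ p : Fin 3, elim 20 (gSq.crows cl2 p ++ gSq.terms.map (fun j => gSq.bm cl2 p j))
      ((List.range (3 * gSq.m)).map (fun k => gSq.bm cl2 p k)) = true := by decide +kernel
    have hR1 : ∀ p : Fin 3, p ≠ 2 → elim 20 (gSq.crows cl1 p)
      [gSq.bm cl1 p 12 ^^^ gSq.bm cl1 p 13, gSq.bm cl1 p 14 ^^^ gSq.bm cl1 p 15] = true := by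
      decide +kernel
    have hR2 : ∀ p : Fin 3, p ≠ 2 → elim 20 (gSq.crows cl2 p)
      [gSq.bm cl2 p 12 ^^^ gSq.bm cl2 p 13, gSq.bm cl2 p 14 ^^^ gSq.bm cl2 p 15] = true := by
      decide +kernel
    have two1 : ∀ x y : ZMod 2, x + y = 0 → x = y := by decide
    have f1 : pa = 2 := by
      by_contra hne
      have hrel := rel_zero h gSq_ok hc1 hZ1 hp1 _ (hR1 pa hne)
      have r1 := hrel _ (by simp; left; rfl)
      have r2 := hrel (gSq.bm cl1 pa 14 ^^^ gSq.bm cl1 pa 15) (by simp)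
      rw [vl_xor, vl_bm h gSq_ok hc1 hZ1 hp1 (by decide), vl_bm h gSq_ok hc1 hZ1 hp1 (by decide)] at r1 r2
      exact hd1 (sq_zero h hr hc' ht1 q21 hZ1 hp1 (hin1 pa) (two1 _ _ r1) (two1 _ _ r2) d1)
    have f2 : pb = 2 := by
      by_contra hne
      have hrel := rel_zero h gSq_ok hc2 hZ2 hp2 _ (hR2 pb hne)
      have r1 := hrel _ (by simp; left; rfl)
      have r2 := hrel (gSq.bm cl2 pb 14 ^^^ gSq.bm cl2 pb 15) (by simp)
      rw [vl_xor, vl_bm h gSq_ok hc2 hZ2 hp2 (by decide), vl_bm h gSq_ok hc2 hZ2 hp2 (by decide)] at r1 r2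
      exact hd2 (sq_zero h hr hc' ht2 q22 hZ2 hp2 (hin2 pb) (two1 _ _ r1) (two1 _ _ r2) d2)
    subst f1
    subst f2
    have vb1 : ∀ k < gSq.N, vl gSq.N (fun b => Z1 (ε b)) (gSq.bm cl1 2 k) = Z1 (ε k) :=
      fun k hk => vl_bm (p := 2) h gSq_ok hc1 hZ1 hp1 hk
    have vb2 : ∀ k < gSq.N, vl gSq.N (fun b => Z2 (ε b)) (gSq.bm cl2 2 k) = Z2 (ε k) :=
      fun k hk => vl_bm (p := 2) h gSq_ok hc2 hZ2 hp2 hk
    have hrel1 := rel_zero (p := 2) h gSq_ok hc1 hZ1 hp1 20
      (cs := [(gSq.bm cl1 2 12 ^^^ gSq.bm cl1 2 13) ^^^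
        gSq.bm cl1 2 14, gSq.bm cl1 2 15]) (by decide +kernel)
    have a1 := hrel1 _ (by simp; left; rfl)
    have a2 := hrel1 (gSq.bm cl1 2 15) (by simp)
    rw [vl_xor, vl_xor, vb1 _ (by decide), vb1 _ (by decide), vb1 _ (by decide)] at a1
    rw [vb1 _ (by decide)] at a2
    have hrel2 := rel_zero (p := 2) h gSq_ok hc2 hZ2 hp2 20
      (cs := [(gSq.bm cl2 2 12 ^^^ gSq.bm cl2 2 13) ^^^
        gSq.bm cl2 2 15, gSq.bm cl2 2 14]) (by decide +kernel)
    have b1 := hrel2 _ (by simp; left; rfl)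
    have b2 := hrel2 (gSq.bm cl2 2 14) (by simp)
    rw [vl_xor, vl_xor, vb2 _ (by decide), vb2 _ (by decide), vb2 _ (by decide)] at b1
    rw [vb2 _ (by decide)] at b2
    have g1 : Z1 (ε 14) = 1 := by
      rcases z2_cases (Z1 (ε 14)) with q | q
      · exfalso
        rw [q, add_zero] at a1
        exact hd1 (sq_zero h hr hc' ht1 q21 hZ1 hp1 (hin1 2) (two1 _ _ a1) (by rw [q, a2]) d1)
      · exact q
    have g2 : Z2 (ε 15) = 1 := by
      rcases z2_cases (Z2 (ε 15)) with q | q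
      · exfalso
        rw [q, add_zero] at b1
        exact hd2 (sq_zero h hr hc' ht2 q22 hZ2 hp2 (hin2 2) (two1 _ _ b1) (by rw [q, b2]) d2)
      · exact q
    rw [g1] at a1
    rw [g2] at b1
    have r1 : Z1 (ε 12) + Z2 (ε 12) = Z1 (ε 13) + Z2 (ε 13) := by
      revert a1 b1
      generalize Z1 (ε 12) = w1
      generalize Z1 (ε 13) = w2
      generalize Z2 (ε 12) = w3
      generalize Z2 (ε 13) = w4
      revert w1 w2 w3 w4
      decide
    have r2 : Z1 (ε 14) + Z2 (ε 14) = Z1 (ε 15) + Z2 (ε 15) := by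
      rw [g1, g2, a2, b2]; decide
    have hD : Down M M' gSq ε c' 2 (fun d => Z1 d + Z2 d) := by
      refine ⟨?_, ?_, ?_, ?_, ?_, ?_⟩
      · intro d _ _
        show Z1 (M.al d) + Z2 (M.al d) = Z1 d + Z2 d
        rw [hZ1.sym, hZ2.sym]
      · intro v _
        show ∑ i : Fin 3, (Z1 (v, i) + Z2 (v, i)) = 0
        rw [Finset.sum_add_distrib, hZ1.sum, hZ2.sum, add_zero]
      · intro d hO hcd
        show Z1 d + Z2 d = 0
        rw [hp1 d (by rw [cext_out h c' cl1 hO.2, hcd]), hp2 d (by rw [cext_out h c' cl2 hO.2, hcd]),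
          add_zero]
      · intro j hj hj1 _
        have a1 : j < 16 := hj
        have a2 : 12 ≤ j := hj1
        interval_cases j
        · exact r1
        · exact r1.symm
        · exact r2
        · exact r2.symm
      · intro x hx hK
        exact absurd hK (by revert x; decide)
      · intro k hk hK _
        have hh : ∀ k < 3 * gSq.m, gSq.isK k = false := by decide
        rw [hh k hk] at hK
        exact absurd hK (by decide)
    have hfin := down h gSq_ok hr gSq_kt hc' hD (ε 14) (Ov_term h hr (by decide) (by decide))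
    rw [g1, b2] at hfin
    exact absurd hfin (by decide)

end Pool.Agent.H24
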