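import Pool.Agent.H24.Join

set_option autoImplicit false
set_option linter.unusedSectionVars false
set_option linter.unusedVariables false

namespace Pool.Agent.H24

open Finset Equiv.Perm

variable {V : Type} [Fintype V] [DecidableEq V]

namespace CMap

variable (M : CMap V)

/-- the face permutation -/
def ph : Equiv.Perm (V × Fin 3) where
  toFun := fun d => sg (M.al d)
  invFun := fun d => M.al (sg (sg d))
  left_inv := fun d => by simp only [sg3, M.inv]
  right_inv := fun d => by simp only [M.inv, sg3]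

theorem ph_apply (d : V × Fin 3) : M.ph d = sg (M.al d) := rfl

theorem ph_al (d : V × Fin 3) : M.ph (M.al d) = sg d := by rw [ph_apply, M.inv]

theorem ph_act (d : V × Fin 3) : (M.ph d).1 ∈ M.A ↔ d.1 ∈ M.A := by
  rw [ph_apply, sg_fst, M.act_iff]

/-- same face -/
def SC (d e : V × Fin 3) : Prop := M.ph.SameCycle d e

theorem SC.refl (d : V × Fin 3) : M.SC d d := SameCycle.refl _ _

variable {M}

theorem SC.symm {d e : V × Fin 3} (h : M.SC d e) : M.SC e d := SameCycle.symm h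

theorem SC.trans {d e f : V × Fin 3} (h : M.SC d e) (h' : M.SC e f) : M.SC d f := SameCycle.trans h h'

variable (M)

theorem SC_ph (d : V × Fin 3) : M.SC d (M.ph d) := ⟨1, by simp⟩

theorem SC_al (d : V × Fin 3) : M.SC (M.al d) (sg d) := by
  rw [← M.ph_al]; exact M.SC_ph _

theorem SC_sgal (d : V × Fin 3) : M.SC d (sg (M.al d)) := M.SC_ph d

theorem SC_act {d e : V × Fin 3} (h : M.SC d e) : d.1 ∈ M.A ↔ e.1 ∈ M.A := by
  obtain ⟨i, hi⟩ := SameCycle.exists_nat_pow_eq h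
  subst hi
  clear h
  induction i with
  | zero => simp
  | succ n ih => rw [pow_succ', Equiv.Perm.mul_apply, ph_act, ih]

theorem inv_SC {H : V × Fin 3 → ZMod 2} (hH : M.Inv H) {d e : V × Fin 3} (hd : d.1 ∈ M.A)
    (h : M.SC d e) : H d = H e := by
  obtain ⟨i, hi⟩ := SameCycle.exists_nat_pow_eq h
  subst hi
  clear h
  induction i with
  | zero => simp
  | succ n ih =>
    rw [pow_succ', Equiv.Perm.mul_apply, ph_apply, ih]
    have hA : ((M.ph ^ n) d).1 ∈ M.A := by
      rw [← M.SC_act (d := d)]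
      · exact hd
      · exact ⟨n, by simp⟩
    have := hH (M.al ((M.ph ^ n) d)) (M.act _ hA)
    rw [M.inv] at this
    exact this

theorem ind_inv (d : V × Fin 3) [DecidablePred (M.SC d)] :
    M.Inv (fun e => if M.SC d e then 1 else 0) := by
  intro e _
  have : M.SC d (M.al e) ↔ M.SC d (sg e) := by
    rw [← M.ph_al]
    unfold SC
    rw [Equiv.Perm.sameCycle_apply_right]
  simp only [this]

/-- no bridges -/
theorem no_bridge (h3 : M.C3) (hpl : M.Pl) {d : V × Fin 3} (hd : d.1 ∈ M.A) : ¬ M.SC d (sg d) := by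
  classical
  intro h
  have hZ : ∀ Z, M.Cyc Z → ∑ e ∈ ({d} : Finset (V × Fin 3)), Z e = 0 := by
    intro Z hZ
    rw [Finset.sum_singleton]
    obtain ⟨H, hH, hZH⟩ := hpl Z hZ
    rw [hZH d hd, M.inv_SC hH hd h]
    exact z2_add_self _
  obtain ⟨B, hB, hb, hc, -⟩ := M.cut_set (M.conn_A h3) {d} (by simpa using hd)
    (by simpa using M.nofix d hd) hZ
  rw [Finset.card_singleton] at hb
  have hc' := hc d (by simp)
  have hne : B.Nonempty := by
    by_cases q : d.1 ∈ B
    · exact ⟨_, q⟩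
    · have : (M.al d).1 ∈ B := by
        by_contra q2; exact q (hc'.2 q2)
      exact ⟨_, this⟩
  have hne2 : B ≠ M.A := by
    rintro rfl
    exact (hc'.1 hd) (M.act _ hd)
  have := h3 B hB hne hne2
  omega

theorem fc_vertex (h3 : M.C3) (hpl : M.Pl) {d e : V × Fin 3} (hd : d.1 ∈ M.A) (h1 : d.1 = e.1)
    (h : M.SC d e) : d = e := by
  rcases dart_cases h1.symm with rfl | rfl | rfl
  · rfl
  · exact absurd h (M.no_bridge h3 hpl hd)
  · exfalso
    have := M.no_bridge h3 hpl (d := sg (sg d)) (by simpa using hd)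
    rw [sg3] at this
    exact this h.symm

/-- two edges which agree on all cycles coincide -/
theorem two_cut (h3 : M.C3) {d e : V × Fin 3} (hd : d.1 ∈ M.A) (he : e.1 ∈ M.A)
    (h : ∀ Z, M.Cyc Z → Z d = Z e) : e = d ∨ e = M.al d := by
  classical
  by_contra hcon
  push Not at hcon
  obtain ⟨c1, c2⟩ := hcon
  have hZ : ∀ Z, M.Cyc Z → ∑ f ∈ ({d, e} : Finset (V × Fin 3)), Z f = 0 := by
    intro Z hZ
    rw [Finset.sum_pair c1.symm, h Z hZ]
    exact z2_add_self _
  have ha1 : M.al d ≠ d := M.nofix d hd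
  have ha2 : M.al e ≠ e := M.nofix e he
  have ha3 : M.al d ≠ e := fun q => c2 q.symm
  have ha4 : M.al e ≠ d := fun q => c2 (by rw [← q, M.inv])
  obtain ⟨B, hB, hb, hc, -⟩ := M.cut_set (M.conn_A h3) {d, e}
    (by intro f hf; simp only [mem_insert, mem_singleton] at hf; rcases hf with rfl | rfl <;> assumption)
    (by intro f hf; simp only [mem_insert, mem_singleton] at hf; rcases hf with rfl | rfl <;> simp [*]) hZ
  have hcard : ({d, e} : Finset (V × Fin 3)).card ≤ 2 := Finset.card_le_two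
  have hc' := hc d (by simp)
  have hne : B.Nonempty := by
    by_cases q : d.1 ∈ B
    · exact ⟨_, q⟩
    · have : (M.al d).1 ∈ B := by
        by_contra q2; exact q (hc'.2 q2)
      exact ⟨_, this⟩
  have hne2 : B ≠ M.A := by
    rintro rfl
    exact (hc'.1 hd) (M.act _ hd)
  have := h3 B hB hne hne2
  omega

theorem two_cut_faces (h3 : M.C3) (hpl : M.Pl) {d e : V × Fin 3} (hd : d.1 ∈ M.A)
    (h1 : M.SC d e) (h2 : M.SC (M.al d) (M.al e)) : e = d := by
  have he : e.1 ∈ M.A := (M.SC_act h1).1 hd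
  have := M.two_cut h3 hd he (by
    intro Z hZ
    obtain ⟨H, hH, hZH⟩ := hpl Z hZ
    rw [hZH d hd, hZH e he, M.inv_SC hH hd h1, ← hH d hd, ← hH e he,
      M.inv_SC hH (M.act _ hd) h2])
  rcases this with h | h
  · exact h
  · exfalso
    rw [h] at h1
    exact M.no_bridge h3 hpl hd (h1.trans (M.SC_al d))

/-- no nontrivial three-edge cuts -/
def N3 : Prop := ∀ B ⊆ M.A, M.b B = 3 → B.card = 1 ∨ (M.A \ B).card = 1

/-- the ends of three edges forming a cut share a vertex -/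
theorem three_cut (h3 : M.C3) (hn3 : M.N3) {d e f : V × Fin 3} (hd : d.1 ∈ M.A) (he : e.1 ∈ M.A)
    (hf : f.1 ∈ M.A) (hde : e ≠ d ∧ e ≠ M.al d) (hdf : f ≠ d ∧ f ≠ M.al d) (hef : f ≠ e ∧ f ≠ M.al e)
    (h : ∀ Z, M.Cyc Z → Z d + Z e + Z f = 0) :
    ∃ v, (v = d.1 ∨ v = (M.al d).1) ∧ (v = e.1 ∨ v = (M.al e).1) ∧ (v = f.1 ∨ v = (M.al f).1) := by
  classical
  have hZ : ∀ Z, M.Cyc Z → ∑ g ∈ ({d, e, f} : Finset (V × Fin 3)), Z g = 0 := by
    intro Z hZ
    rw [Finset.sum_insert (by simp; exact ⟨hde.1.symm, hdf.1.symm⟩), Finset.sum_pair hef.1.symm, ← add_assoc]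
    exact h Z hZ
  have ha1 : M.al d ≠ d := M.nofix d hd
  have ha2 : M.al e ≠ e := M.nofix e he
  have ha2' : M.al f ≠ f := M.nofix f hf
  have ha3 : M.al d ≠ e := fun q => hde.2 q.symm
  have ha4 : M.al e ≠ d := fun q => hde.2 (by rw [← q, M.inv])
  have ha5 : M.al d ≠ f := fun q => hdf.2 q.symm
  have ha6 : M.al f ≠ d := fun q => hdf.2 (by rw [← q, M.inv])
  have ha7 : M.al e ≠ f := fun q => hef.2 q.symm
  have ha8 : M.al f ≠ e := fun q => hef.2 (by rw [← q, M.inv])
  obtain ⟨B, hB, hb, hc, -⟩ := M.cut_set (M.conn_A h3) {d, e, f}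
    (by intro g hg; simp only [mem_insert, mem_singleton] at hg; rcases hg with rfl | rfl | rfl <;> assumption)
    (by intro g hg; simp only [mem_insert, mem_singleton] at hg; rcases hg with rfl | rfl | rfl <;> simp [*]) hZ
  have hcard : ({d, e, f} : Finset (V × Fin 3)).card ≤ 3 := Finset.card_le_three
  have hc1 := hc d (by simp)
  have hc2 := hc e (by simp)
  have hc3 := hc f (by simp)
  have hne : B.Nonempty := by
    by_cases q : d.1 ∈ B
    · exact ⟨_, q⟩
    · have : (M.al d).1 ∈ B := by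
        by_contra q2; exact q (hc1.2 q2)
      exact ⟨_, this⟩
  have hne2 : B ≠ M.A := by
    rintro rfl
    exact (hc1.1 hd) (M.act _ hd)
  have h33 := h3 B hB hne hne2
  have hb3 : M.b B = 3 := by omega
  rcases hn3 B hB hb3 with h1 | h1
  · obtain ⟨v, rfl⟩ := Finset.card_eq_one.1 h1
    simp only [mem_singleton] at hc1 hc2 hc3
    refine ⟨v, ?_, ?_, ?_⟩
    · by_cases q : d.1 = v
      · exact Or.inl q.symm
      · right; by_contra q2; exact q (hc1.2 (fun q3 => q2 q3.symm))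
    · by_cases q : e.1 = v
      · exact Or.inl q.symm
      · right; by_contra q2; exact q (hc2.2 (fun q3 => q2 q3.symm))
    · by_cases q : f.1 = v
      · exact Or.inl q.symm
      · right; by_contra q2; exact q (hc3.2 (fun q3 => q2 q3.symm))
  · obtain ⟨v, hv⟩ := Finset.card_eq_one.1 h1
    have hm : ∀ w ∈ M.A, (w ∉ B ↔ w = v) := by
      intro w hw
      have : w ∈ M.A \ B ↔ w ∈ ({v} : Finset V) := by rw [hv]
      simp only [mem_sdiff, mem_singleton] at this
      tauto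
    have d1 := hm _ hd
    have d2 := hm _ (M.act _ hd)
    have e1 := hm _ he
    have e2 := hm _ (M.act _ he)
    have f1 := hm _ hf
    have f2 := hm _ (M.act _ hf)
    refine ⟨v, ?_, ?_, ?_⟩
    · by_cases q : d.1 = v
      · exact Or.inl q.symm
      · right; exact (d2.1 (hc1.1 (by_contra fun z => q (d1.1 z)))).symm
    · by_cases q : e.1 = v
      · exact Or.inl q.symm
      · right; exact (e2.1 (hc2.1 (by_contra fun z => q (e1.1 z)))).symm
    · by_cases q : f.1 = v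
      · exact Or.inl q.symm
      · right; exact (f2.1 (hc3.1 (by_contra fun z => q (f1.1 z)))).symm

/-- four edges forming a cut -/
theorem four_cut (h3 : M.C3) {d e f g : V × Fin 3} (hd : d.1 ∈ M.A) (he : e.1 ∈ M.A)
    (hf : f.1 ∈ M.A) (hg : g.1 ∈ M.A) (hde : e ≠ d ∧ e ≠ M.al d) (hdf : f ≠ d ∧ f ≠ M.al d)
    (hef : f ≠ e ∧ f ≠ M.al e)
    (hdg : g ≠ d ∧ g ≠ M.al d) (heg : g ≠ e ∧ g ≠ M.al e) (hfg : g ≠ f ∧ g ≠ M.al f)
    (h : ∀ Z, M.Cyc Z → Z d + Z e + Z f + Z g = 0) :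
    ∃ B ⊆ M.A, M.b B ≤ 4 ∧ (d.1 ∈ B ↔ (M.al d).1 ∉ B) ∧ (e.1 ∈ B ↔ (M.al e).1 ∉ B) ∧
      (f.1 ∈ B ↔ (M.al f).1 ∉ B) ∧ (g.1 ∈ B ↔ (M.al g).1 ∉ B) ∧
      ∀ k, k.1 ∈ M.A → (k ≠ d ∧ k ≠ M.al d) → (k ≠ e ∧ k ≠ M.al e) → (k ≠ f ∧ k ≠ M.al f) →
        (k ≠ g ∧ k ≠ M.al g) → (k.1 ∈ B ↔ (M.al k).1 ∈ B) := by
  classical
  have hZ : ∀ Z, M.Cyc Z → ∑ k ∈ ({d, e, f, g} : Finset (V × Fin 3)), Z k = 0 := by
    intro Z hZ
    rw [Finset.sum_insert (by simp; exact ⟨hde.1.symm, hdf.1.symm, hdg.1.symm⟩),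
      Finset.sum_insert (by simp; exact ⟨hef.1.symm, heg.1.symm⟩),
      Finset.sum_pair hfg.1.symm, ← add_assoc, ← add_assoc]
    exact h Z hZ
  have ha1 : M.al d ≠ d := M.nofix d hd
  have ha2 : M.al e ≠ e := M.nofix e he
  have ha2' : M.al f ≠ f := M.nofix f hf
  have ha2'' : M.al g ≠ g := M.nofix g hg
  have ha3 : M.al d ≠ e := fun q => hde.2 q.symm
  have ha4 : M.al e ≠ d := fun q => hde.2 (by rw [← q, M.inv])
  have ha5 : M.al d ≠ f := fun q => hdf.2 q.symm
  have ha6 : M.al f ≠ d := fun q => hdf.2 (by rw [← q, M.inv])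
  have ha7 : M.al e ≠ f := fun q => hef.2 q.symm
  have ha8 : M.al f ≠ e := fun q => hef.2 (by rw [← q, M.inv])
  have hb1 : M.al d ≠ g := fun q => hdg.2 q.symm
  have hb2 : M.al g ≠ d := fun q => hdg.2 (by rw [← q, M.inv])
  have hb3 : M.al e ≠ g := fun q => heg.2 q.symm
  have hb4 : M.al g ≠ e := fun q => heg.2 (by rw [← q, M.inv])
  have hb5 : M.al f ≠ g := fun q => hfg.2 q.symm
  have hb6 : M.al g ≠ f := fun q => hfg.2 (by rw [← q, M.inv])
  obtain ⟨B, hB, hb, hc, hc'⟩ := M.cut_set (M.conn_A h3) {d, e, f, g}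
    (by intro g hg; simp only [mem_insert, mem_singleton] at hg; rcases hg with rfl | rfl | rfl | rfl <;> assumption)
    (by intro g hg; simp only [mem_insert, mem_singleton] at hg; rcases hg with rfl | rfl | rfl | rfl <;> simp [*]) hZ
  have hcard : ({d, e, f, g} : Finset (V × Fin 3)).card ≤ 4 := Finset.card_le_four
  refine ⟨B, hB, by omega, hc d (by simp), hc e (by simp), hc f (by simp), hc g (by simp), ?_⟩
  intro k hk k1 k2 k3 k4
  apply hc' k hk
  · simp [k1.1, k2.1, k3.1, k4.1]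
  · have e1 : M.al k ≠ d := fun q => k1.2 (by rw [← q, M.inv])
    have e2 : M.al k ≠ e := fun q => k2.2 (by rw [← q, M.inv])
    have e3 : M.al k ≠ f := fun q => k3.2 (by rw [← q, M.inv])
    have e4 : M.al k ≠ g := fun q => k4.2 (by rw [← q, M.inv])
    simp [e1, e2, e3, e4]

end CMap

end Pool.Agent.H24
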