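import Pool.Agent.H24.CutU

set_option autoImplicit false
set_option linter.unusedSectionVars false
set_option linter.unusedVariables false
set_option maxRecDepth 100000

namespace Pool.Agent.H24

open Finset Equiv.Perm

variable {V : Type} [Fintype V] [DecidableEq V]
variable {M M' : CMap V} {ε : ℕ → V × Fin 3}

/-- face steps inside a configuration -/
theorem emb_sc {G : Gd} (h : Emb M G ε) {k l : ℕ} (hk : k < G.N) (hp : G.p k < 3 * G.m)
    (hl : s3 (G.p k) = l) : M.SC (ε k) (ε l) := by
  have h1 : M.ph (ε k) = ε l := by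
    rw [M.ph_apply, h.al_ k hk, ← h.sg_ _ hp, hl]
  rw [← h1]
  exact M.SC_ph _

theorem emb_nsc {G : Gd} (hS : Std M) (h : Emb M G ε) {k l : ℕ} (hk : k < G.N) (hl : G.p k = l) :
    ¬ M.SC (ε k) (ε l) := by
  rw [← hl, ← h.al_ k hk]
  exact not_self_adj hS (h.act k hk)

/-- faces across two different edges of a face differ -/
theorem emb_two {G : Gd} (hS : Std M) (h : Emb M G ε) {k l k' l' : ℕ} (hk : k < G.N) (hl : l < G.N)
    (hk3 : k < 3 * G.m) (hl3 : l < 3 * G.m)
    (hk' : G.p k = k') (hl' : G.p l = l') (hne : k ≠ l) (hsc : M.SC (ε k) (ε l)) :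
    ¬ M.SC (ε k') (ε l') := by
  intro q
  have h1 := M.two_cut_faces hS.c3 hS.pl (h.act k hk) hsc (by rw [h.al_ k hk, h.al_ l hl, hk', hl']; exact q)
  exact hne (h.inj _ hl3 _ hk3 h1).symm

theorem final55 (hS : Std M) (h : Emb M g55 ε) {B : Finset V} (hB : B ⊆ M.A) (hb : M.b B ≤ 6)
    (m0 : (ε 0).1 ∈ B) (m3 : (ε 3).1 ∉ B) (m6 : (ε 6).1 ∉ B) (m9 : (ε 9).1 ∈ B) (m12 : (ε 12).1 ∈ B)
    (m15 : (ε 15).1 ∉ B) (m18 : (ε 18).1 ∉ B) (m21 : (ε 21).1 ∈ B) (m29 : (ε 29).1 ∈ B) : False := by
  have hN : g55.N = 30 := rfl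
  have hm : 3 * g55.m = 24 := rfl
  -- P
  have p0 : M.SC (ε 0) (ε 3) := emb_sc h (by decide) (by decide) rfl
  have p3 : M.SC (ε 3) (ε 6) := emb_sc h (by decide) (by decide) rfl
  have p6 : M.SC (ε 6) (ε 9) := emb_sc h (by decide) (by decide) rfl
  have p9 : M.SC (ε 9) (ε 12) := emb_sc h (by decide) (by decide) rfl
  have p06 := p0.trans p3
  have p09 := p06.trans p6
  have p012 := p09.trans p9
  -- Q
  have q2 : M.SC (ε 2) (ε 13) := emb_sc h (by decide) (by decide) rfl
  have q13 : M.SC (ε 13) (ε 15) := emb_sc h (by decide) (by decide) rfl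
  have q15 : M.SC (ε 15) (ε 18) := emb_sc h (by decide) (by decide) rfl
  have q18 : M.SC (ε 18) (ε 21) := emb_sc h (by decide) (by decide) rfl
  have q215 := q2.trans q13
  have q218 := q215.trans q15
  have q221 := q218.trans q18
  -- others
  have a5 : M.SC (ε 5) (ε 1) := emb_sc h (by decide) (by decide) rfl
  have a17 : M.SC (ε 17) (ε 14) := emb_sc h (by decide) (by decide) rfl
  have al_ : ∀ k l, k < 30 → g55.p k = l → M.al (ε k) = ε l := by
    intro k l hk hl
    rw [h.al_ k (by omega), hl]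
  have x0 := al_ 0 5 (by norm_num) rfl
  have x5 := al_ 5 0 (by norm_num) rfl
  have x11 := al_ 11 6 (by norm_num) rfl
  have x6 := al_ 6 11 (by norm_num) rfl
  have x13 := al_ 13 17 (by norm_num) rfl
  have x23 := al_ 23 18 (by norm_num) rfl
  have x18 := al_ 18 23 (by norm_num) rfl
  have x12 := al_ 12 2 (by norm_num) rfl
  have x14 := al_ 14 9 (by norm_num) rfl
  have x1 := al_ 1 21 (by norm_num) rfl
  have x22 := al_ 22 29 (by norm_num) rfl
  have vt : ∀ a b, a < 24 → b < 24 → a / 3 = b / 3 → (ε a).1 = (ε b).1 := by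
    intro a b ha hb hab
    exact h.vert' (by omega) hab
  have vn : ∀ a b, a < 24 → b < 24 → a / 3 ≠ b / 3 → (ε a).1 ≠ (ε b).1 := by
    intro a b ha hb hab
    exact emb_ne' h (by omega) (by omega) hab
  have nP5 : ¬ M.SC (ε 5) (ε 0) := emb_nsc hS h (by decide) rfl
  have nP11 : ¬ M.SC (ε 11) (ε 0) := fun z =>
    emb_nsc hS h (k := 11) (l := 6) (by decide) rfl (z.trans p06)
  have nP17 : ¬ M.SC (ε 17) (ε 0) := fun z =>
    emb_nsc hS h (k := 14) (l := 9) (by decide) rfl (a17.symm.trans (z.trans p09))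
  have nP23 : ¬ M.SC (ε 23) (ε 0) := fun z =>
    emb_two hS h (k := 2) (l := 18) (k' := 12) (l' := 23) (by decide) (by decide) (by decide) (by decide)
      rfl rfl (by norm_num) q218 ((z.trans p012).symm)
  have nQ5 : ¬ M.SC (ε 5) (ε 2) := fun z =>
    emb_nsc hS h (k := 1) (l := 21) (by decide) rfl (a5.symm.trans (z.trans q221))
  have nQ11 : ¬ M.SC (ε 11) (ε 2) := fun z =>
    emb_two hS h (k := 12) (l := 6) (k' := 2) (l' := 11) (by decide) (by decide) (by decide) (by decide)
      rfl rfl (by norm_num) (p012.symm.trans p06) z.symm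
  have nQ17 : ¬ M.SC (ε 17) (ε 2) := fun z =>
    emb_nsc hS h (k := 17) (l := 13) (by decide) rfl (z.trans q2)
  have nQ23 : ¬ M.SC (ε 23) (ε 2) := fun z =>
    emb_nsc hS h (k := 23) (l := 18) (by decide) rfl (z.trans q218)
  have d01 : ¬ M.SC (ε 5) (ε 11) :=
    emb_two hS h (k := 0) (l := 6) (by decide) (by decide) (by decide) (by decide) rfl rfl (by norm_num) p06
  have d02 : ¬ M.SC (ε 5) (ε 17) := fun z =>
    emb_two hS h (k := 0) (l := 9) (k' := 5) (l' := 14) (by decide) (by decide) (by decide) (by decide)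
      rfl rfl (by norm_num) p09 (z.trans a17)
  have d03 : ¬ M.SC (ε 5) (ε 23) := fun z =>
    emb_two hS h (k := 21) (l := 18) (k' := 1) (l' := 23) (by decide) (by decide) (by decide) (by decide)
      rfl rfl (by norm_num) q18.symm (a5.symm.trans z)
  have d12 : ¬ M.SC (ε 11) (ε 17) := fun z =>
    emb_two hS h (k := 6) (l := 9) (k' := 11) (l' := 14) (by decide) (by decide) (by decide) (by decide)
      rfl rfl (by norm_num) p6 (z.trans a17)
  have ph6 : M.ph (ε 6) = ε 9 := by rw [M.ph_apply, x6]; exact (h.sg_ 11 (by decide)).symm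
  have ph12 : M.ph (ε 12) = ε 0 := by rw [M.ph_apply, x12]; exact (h.sg_ 2 (by decide)).symm
  have d13 : ¬ M.SC (ε 11) (ε 23) := by
    intro z
    rcases lemN hS (d := ε 12) (n := ε 6) (n' := ε 18) (h.act 12 (by decide)) (p012.symm.trans p06)
      (by rw [x12]; exact q218) (by rw [x6, x18]; exact z) with ⟨w, -⟩ | ⟨-, w⟩
    · rw [ph6] at w
      have := h.inj 9 (by decide) 12 (by decide) w
      omega
    · rw [ph12] at w
      have := h.inj 6 (by decide) 0 (by decide) w
      omega
  have d23 : ¬ M.SC (ε 17) (ε 23) :=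
    emb_two hS h (k := 13) (l := 18) (by decide) (by decide) (by decide) (by decide) rfl rfl (by norm_num)
      (q13.trans q15)
  have m11 : (ε 11).1 ∈ B := by rw [vt 11 9 (by norm_num) (by norm_num) rfl]; exact m9
  have m13 : (ε 13).1 ∈ B := by rw [vt 13 12 (by norm_num) (by norm_num) rfl]; exact m12
  have m23 : (ε 23).1 ∈ B := by rw [vt 23 21 (by norm_num) (by norm_num) rfl]; exact m21
  have m5 : (ε 5).1 ∉ B := by rw [vt 5 3 (by norm_num) (by norm_num) rfl]; exact m3
  have m17 : (ε 17).1 ∉ B := by rw [vt 17 15 (by norm_num) (by norm_num) rfl]; exact m15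
  obtain ⟨g, j, hj, g1, g2, g3, g4, g5⟩ := pairing' M hB hb ![ε 0, ε 11, ε 13, ε 23] ![ε 5, ε 11, ε 17, ε 23]
    (ε 0) (ε 2)
    (by
      intro i
      fin_cases i
      · exact ⟨m0, by show (M.al (ε 0)).1 ∉ B; rw [x0]; exact m5⟩
      · exact ⟨m11, by show (M.al (ε 11)).1 ∉ B; rw [x11]; exact m6⟩
      · exact ⟨m13, by show (M.al (ε 13)).1 ∉ B; rw [x13]; exact m17⟩
      · exact ⟨m23, by show (M.al (ε 23)).1 ∉ B; rw [x23]; exact m18⟩)
    (by
      have inj := fun a b (ha : a < 24) (hb : b < 24) (he : ε a = ε b) => h.inj a (by omega) b (by omega) he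
      intro i j hij
      fin_cases i <;> fin_cases j <;> first | rfl | skip
      all_goals
        exfalso
        first
          | (have := inj 0 11 (by norm_num) (by norm_num) hij; omega)
          | (have := inj 0 13 (by norm_num) (by norm_num) hij; omega)
          | (have := inj 0 23 (by norm_num) (by norm_num) hij; omega)
          | (have := inj 11 0 (by norm_num) (by norm_num) hij; omega)
          | (have := inj 11 13 (by norm_num) (by norm_num) hij; omega)
          | (have := inj 11 23 (by norm_num) (by norm_num) hij; omega)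
          | (have := inj 13 0 (by norm_num) (by norm_num) hij; omega)
          | (have := inj 13 11 (by norm_num) (by norm_num) hij; omega)
          | (have := inj 13 23 (by norm_num) (by norm_num) hij; omega)
          | (have := inj 23 0 (by norm_num) (by norm_num) hij; omega)
          | (have := inj 23 11 (by norm_num) (by norm_num) hij; omega)
          | (have := inj 23 13 (by norm_num) (by norm_num) hij; omega))
    (by
      intro i
      fin_cases i
      · left
        refine ⟨Or.inl (CMap.SC.refl M _), ?_⟩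
        show M.SC (ε 5) (M.al (ε 0))
        rw [x0]
        exact CMap.SC.refl M _
      · right
        refine ⟨Or.inl ?_, CMap.SC.refl M _⟩
        show M.SC (ε 0) (M.al (ε 11))
        rw [x11]
        exact p06
      · left
        refine ⟨Or.inr q2, ?_⟩
        show M.SC (ε 17) (M.al (ε 13))
        rw [x13]
        exact CMap.SC.refl M _
      · right
        refine ⟨Or.inr ?_, CMap.SC.refl M _⟩
        show M.SC (ε 2) (M.al (ε 23))
        rw [x23]
        exact q218)
    (by intro i; fin_cases i; exacts [nP5, nP11, nP17, nP23])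
    (by intro i; fin_cases i; exacts [nQ5, nQ11, nQ17, nQ23])
    (by
      intro i j hij
      fin_cases i <;> fin_cases j <;> first | (exfalso; revert hij; decide) | skip
      exacts [d01, d02, d03, d12, d13, d23])
  have g1' : M.SC g (ε 5) := g1.symm
  fin_cases j
  · exact hj rfl
  · -- A31 | A23
    have g2' : M.SC (M.al g) (ε 11) := CMap.SC.symm g2
    rcases lemN' hS g3 g1' g2' (by rw [x5, x11]; exact p06) with ⟨w, -⟩ | ⟨w, -⟩
    · rw [x5] at w
      exact vn 11 0 (by norm_num) (by norm_num) (by norm_num) w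
    · rw [x11] at w
      exact vn 5 6 (by norm_num) (by norm_num) (by norm_num) w
  · have g2' : M.SC (M.al g) (ε 14) := (CMap.SC.symm g2).trans a17
    rcases lemN' hS g3 g1' g2' (by rw [x5, x14]; exact p09) with ⟨w, -⟩ | ⟨w, -⟩
    · rw [x5] at w
      exact vn 14 0 (by norm_num) (by norm_num) (by norm_num) w
    · rw [x14] at w
      exact vn 5 9 (by norm_num) (by norm_num) (by norm_num) w
  · have g2' : M.SC (M.al g) (ε 23) := CMap.SC.symm g2
    rcases lemN' hS g3 (g1'.trans a5) g2' (by rw [x1, x23]; exact q18.symm) with ⟨-, w⟩ | ⟨w, -⟩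
    · have : M.ph (ε 1) = ε 22 := by rw [M.ph_apply, x1]; exact (h.sg_ 21 (by decide)).symm
      rw [this] at w
      rw [w, x22, vt 22 21 (by norm_num) (by norm_num) rfl] at g4
      exact g4.1 m21 m29
    · rw [x23] at w
      exact vn 1 18 (by norm_num) (by norm_num) (by norm_num) w

end Pool.Agent.H24
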