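import Pool.Agent.H24.Fin5

set_option autoImplicit false
set_option linter.unusedSectionVars false
set_option linter.unusedVariables false
set_option maxRecDepth 100000

namespace Pool.Agent.H24

open Finset Equiv.Perm

variable {V : Type} [Fintype V] [DecidableEq V]
variable {M M' : CMap V} {ε : ℕ → V × Fin 3}

theorem final56 (hS : Std M) {S : Finset V} (hSS : SideS M S) (h : Emb M g56 ε)
    (hin : ∀ k < 27, (ε k).1 ∈ S) {B : Finset V} (hB : B ⊆ M.A) (hb : M.b B ≤ 6)
    (m0 : (ε 0).1 ∈ B) (m3 : (ε 3).1 ∈ B) (m6 : (ε 6).1 ∉ B) (m9 : (ε 9).1 ∉ B) (m12 : (ε 12).1 ∈ B)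
    (m15 : (ε 15).1 ∈ B) (m18 : (ε 18).1 ∉ B) (m21 : (ε 21).1 ∉ B) (m24 : (ε 24).1 ∈ B) : False := by
  have hN : g56.N = 34 := rfl
  have hm : 3 * g56.m = 27 := rfl
  -- P
  have p0 : M.SC (ε 0) (ε 3) := emb_sc h (by decide) (by decide) rfl
  have p3 : M.SC (ε 3) (ε 6) := emb_sc h (by decide) (by decide) rfl
  have p6 : M.SC (ε 6) (ε 9) := emb_sc h (by decide) (by decide) rfl
  have p9 : M.SC (ε 9) (ε 12) := emb_sc h (by decide) (by decide) rfl
  have p39 := p3.trans p6
  have p312 := p39.trans p9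
  -- Q
  have q2 : M.SC (ε 2) (ε 13) := emb_sc h (by decide) (by decide) rfl
  have q13 : M.SC (ε 13) (ε 15) := emb_sc h (by decide) (by decide) rfl
  have q15 : M.SC (ε 15) (ε 18) := emb_sc h (by decide) (by decide) rfl
  have q18 : M.SC (ε 18) (ε 21) := emb_sc h (by decide) (by decide) rfl
  have q215 := q2.trans q13
  have q221 := (q215.trans q15).trans q18
  have q1521 := q15.trans q18
  have q1321 := q13.trans q1521
  -- others
  have a17 : M.SC (ε 17) (ε 14) := emb_sc h (by decide) (by decide) rfl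
  have al_ : ∀ k l, k < 34 → g56.p k = l → M.al (ε k) = ε l := by
    intro k l hk hl
    rw [h.al_ k (by omega), hl]
  have x3 := al_ 3 8 (by norm_num) rfl
  have x8 := al_ 8 3 (by norm_num) rfl
  have x9 := al_ 9 14 (by norm_num) rfl
  have x14 := al_ 14 9 (by norm_num) rfl
  have x12 := al_ 12 2 (by norm_num) rfl
  have x13 := al_ 13 17 (by norm_num) rfl
  have x15 := al_ 15 20 (by norm_num) rfl
  have x20 := al_ 20 15 (by norm_num) rfl
  have x26 := al_ 26 21 (by norm_num) rfl
  have x21 := al_ 21 26 (by norm_num) rfl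
  have x0 := al_ 0 5 (by norm_num) rfl
  have x1 := al_ 1 24 (by norm_num) rfl
  have x6 := al_ 6 11 (by norm_num) rfl
  have x18 := al_ 18 23 (by norm_num) rfl
  have vt : ∀ a b, a < 27 → b < 27 → a / 3 = b / 3 → (ε a).1 = (ε b).1 := by
    intro a b ha hb hab
    exact h.vert' (by omega) hab
  have vn : ∀ a b, a < 27 → b < 27 → a / 3 ≠ b / 3 → (ε a).1 ≠ (ε b).1 := by
    intro a b ha hb hab
    exact emb_ne' h (by omega) (by omega) hab
  have inj := fun a b (ha : a < 27) (hb : b < 27) (he : ε a = ε b) => h.inj a (by omega) b (by omega) he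
  have nP8 : ¬ M.SC (ε 8) (ε 12) := fun z =>
    emb_nsc hS h (k := 8) (l := 3) (by decide) rfl (z.trans p312.symm)
  have nP14 : ¬ M.SC (ε 14) (ε 12) := fun z =>
    emb_nsc hS h (k := 14) (l := 9) (by decide) rfl (z.trans p9.symm)
  have nP20 : ¬ M.SC (ε 20) (ε 12) := fun z =>
    emb_two hS h (k := 2) (l := 15) (k' := 12) (l' := 20) (by decide) (by decide) (by decide) (by decide)
      rfl rfl (by norm_num) q215 z.symm
  have nP26 : ¬ M.SC (ε 26) (ε 12) := fun z =>
    emb_two hS h (k := 2) (l := 21) (k' := 12) (l' := 26) (by decide) (by decide) (by decide) (by decide)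
      rfl rfl (by norm_num) q221 z.symm
  have nQ8 : ¬ M.SC (ε 8) (ε 2) := fun z =>
    emb_two hS h (k := 12) (l := 3) (k' := 2) (l' := 8) (by decide) (by decide) (by decide) (by decide)
      rfl rfl (by norm_num) p312.symm z.symm
  have nQ14 : ¬ M.SC (ε 14) (ε 2) := fun z =>
    emb_nsc hS h (k := 17) (l := 13) (by decide) rfl (a17.trans (z.trans q2))
  have nQ20 : ¬ M.SC (ε 20) (ε 2) := fun z =>
    emb_nsc hS h (k := 20) (l := 15) (by decide) rfl (z.trans q215)
  have nQ26 : ¬ M.SC (ε 26) (ε 2) := fun z =>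
    emb_nsc hS h (k := 26) (l := 21) (by decide) rfl (z.trans q221)
  have ph3 : M.ph (ε 3) = ε 6 := by rw [M.ph_apply, x3]; exact (h.sg_ 8 (by decide)).symm
  have ph12 : M.ph (ε 12) = ε 0 := by rw [M.ph_apply, x12]; exact (h.sg_ 2 (by decide)).symm
  have dN : ∀ c c', M.SC (ε 2) (ε c) → M.al (ε c) = ε c' → ¬ M.SC (ε 8) (ε c') := by
    intro c c' hc hcc z
    rcases lemN hS (d := ε 12) (n := ε 3) (n' := ε c) (h.act 12 (by decide)) p312.symm
      (by rw [x12]; exact hc) (by rw [x3, hcc]; exact z) with ⟨w, -⟩ | ⟨-, w⟩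
    · rw [ph3] at w
      have := inj 6 12 (by norm_num) (by norm_num) w
      omega
    · rw [ph12] at w
      have := inj 3 0 (by norm_num) (by norm_num) w
      omega
  have d01 : ¬ M.SC (ε 8) (ε 14) :=
    emb_two hS h (k := 3) (l := 9) (by decide) (by decide) (by decide) (by decide) rfl rfl (by norm_num) p39
  have d02 : ¬ M.SC (ε 8) (ε 20) := dN 15 20 q215 x15
  have d03 : ¬ M.SC (ε 8) (ε 26) := dN 21 26 q221 x21
  have d12 : ¬ M.SC (ε 14) (ε 20) := fun z =>
    emb_two hS h (k := 13) (l := 15) (k' := 17) (l' := 20) (by decide) (by decide) (by decide) (by decide)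
      rfl rfl (by norm_num) q13 (a17.trans z)
  have d13 : ¬ M.SC (ε 14) (ε 26) := fun z =>
    emb_two hS h (k := 13) (l := 21) (k' := 17) (l' := 26) (by decide) (by decide) (by decide) (by decide)
      rfl rfl (by norm_num) q1321 (a17.trans z)
  have d23 : ¬ M.SC (ε 20) (ε 26) :=
    emb_two hS h (k := 15) (l := 21) (by decide) (by decide) (by decide) (by decide)
      rfl rfl (by norm_num) q1521
  have m14 : (ε 14).1 ∈ B := by rw [vt 14 12 (by norm_num) (by norm_num) rfl]; exact m12
  have m26 : (ε 26).1 ∈ B := by rw [vt 26 24 (by norm_num) (by norm_num) rfl]; exact m24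
  have m8 : (ε 8).1 ∉ B := by rw [vt 8 6 (by norm_num) (by norm_num) rfl]; exact m6
  have m20 : (ε 20).1 ∉ B := by rw [vt 20 18 (by norm_num) (by norm_num) rfl]; exact m18
  obtain ⟨g, j, hj, g1, g2, g3, g4, g5⟩ := pairing' M hB hb ![ε 3, ε 14, ε 15, ε 26] ![ε 8, ε 14, ε 20, ε 26]
    (ε 12) (ε 2)
    (by
      intro i
      fin_cases i
      · exact ⟨m3, by show (M.al (ε 3)).1 ∉ B; rw [x3]; exact m8⟩
      · exact ⟨m14, by show (M.al (ε 14)).1 ∉ B; rw [x14]; exact m9⟩
      · exact ⟨m15, by show (M.al (ε 15)).1 ∉ B; rw [x15]; exact m20⟩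
      · exact ⟨m26, by show (M.al (ε 26)).1 ∉ B; rw [x26]; exact m21⟩)
    (by
      intro i j hij
      fin_cases i <;> fin_cases j <;> first | rfl | skip
      all_goals
        exfalso
        first
          | (have := inj 3 14 (by norm_num) (by norm_num) hij; omega)
          | (have := inj 3 15 (by norm_num) (by norm_num) hij; omega)
          | (have := inj 3 26 (by norm_num) (by norm_num) hij; omega)
          | (have := inj 14 3 (by norm_num) (by norm_num) hij; omega)
          | (have := inj 14 15 (by norm_num) (by norm_num) hij; omega)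
          | (have := inj 14 26 (by norm_num) (by norm_num) hij; omega)
          | (have := inj 15 3 (by norm_num) (by norm_num) hij; omega)
          | (have := inj 15 14 (by norm_num) (by norm_num) hij; omega)
          | (have := inj 15 26 (by norm_num) (by norm_num) hij; omega)
          | (have := inj 26 3 (by norm_num) (by norm_num) hij; omega)
          | (have := inj 26 14 (by norm_num) (by norm_num) hij; omega)
          | (have := inj 26 15 (by norm_num) (by norm_num) hij; omega))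
    (by
      intro i
      fin_cases i
      · left
        refine ⟨Or.inl p312.symm, ?_⟩
        show M.SC (ε 8) (M.al (ε 3))
        rw [x3]
        exact CMap.SC.refl M _
      · right
        refine ⟨Or.inl ?_, CMap.SC.refl M _⟩
        show M.SC (ε 12) (M.al (ε 14))
        rw [x14]
        exact p9.symm
      · left
        refine ⟨Or.inr q215, ?_⟩
        show M.SC (ε 20) (M.al (ε 15))
        rw [x15]
        exact CMap.SC.refl M _
      · right
        refine ⟨Or.inr ?_, CMap.SC.refl M _⟩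
        show M.SC (ε 2) (M.al (ε 26))
        rw [x26]
        exact q221)
    (by intro i; fin_cases i; exacts [nP8, nP14, nP20, nP26])
    (by intro i; fin_cases i; exacts [nQ8, nQ14, nQ20, nQ26])
    (by
      intro i j hij
      fin_cases i <;> fin_cases j <;> first | (exfalso; revert hij; decide) | skip
      exacts [d01, d02, d03, d12, d13, d23])
  have g1' : M.SC g (ε 8) := g1.symm
  -- edges of the configuration different from g
  have gne0 : g ≠ ε 3 ∧ g ≠ M.al (ε 3) := g5 0
  have gne1 : g ≠ ε 14 ∧ g ≠ M.al (ε 14) := g5 1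
  have gne2 : g ≠ ε 15 ∧ g ≠ M.al (ε 15) := g5 2
  have gne3 : g ≠ ε 26 ∧ g ≠ M.al (ε 26) := g5 3
  have gnc : ∀ k l, M.al (ε k) = ε l → ((ε k).1 ∈ B ↔ (ε l).1 ∈ B) → g ≠ ε k ∧ g ≠ M.al (ε k) := by
    intro k l hkl hBB
    constructor
    · intro z
      rw [z, hkl] at g4
      tauto
    · intro z
      rw [z, M.inv, hkl] at g4
      tauto
  have g12 : g ≠ ε 12 ∧ g ≠ M.al (ε 12) := gnc 12 2 x12 (by
    rw [vt 2 0 (by norm_num) (by norm_num) rfl]; exact ⟨fun _ => m0, fun _ => m12⟩)
  have g13 : g ≠ ε 13 ∧ g ≠ M.al (ε 13) := gnc 13 17 x13 (by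
    rw [vt 13 12 (by norm_num) (by norm_num) rfl, vt 17 15 (by norm_num) (by norm_num) rfl]
    exact ⟨fun _ => m15, fun _ => m12⟩)
  have g6 : g ≠ ε 6 ∧ g ≠ M.al (ε 6) := gnc 6 11 x6 (by
    rw [vt 11 9 (by norm_num) (by norm_num) rfl]
    exact ⟨fun z => absurd z m6, fun z => absurd z m9⟩)
  have g0 : g ≠ ε 0 ∧ g ≠ M.al (ε 0) := gnc 0 5 x0 (by
    rw [vt 5 3 (by norm_num) (by norm_num) rfl]
    exact ⟨fun _ => m3, fun _ => m0⟩)
  have g1c : g ≠ ε 1 ∧ g ≠ M.al (ε 1) := gnc 1 24 x1 (by
    rw [vt 1 0 (by norm_num) (by norm_num) rfl]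
    exact ⟨fun _ => m24, fun _ => m0⟩)
  have g9 : g ≠ ε 9 ∧ g ≠ M.al (ε 9) := by
    rw [x9]; rw [x14] at gne1; exact ⟨gne1.2, gne1.1⟩
  have flip : ∀ {k l : V × Fin 3}, (k ≠ l ∧ k ≠ M.al l) → (l ≠ k ∧ l ≠ M.al k) := by
    intro k l ⟨z1, z2⟩
    exact ⟨z1.symm, fun z => z2 (by rw [z, M.inv])⟩
  have ee : ∀ a b c, a < 27 → b < 27 → c < 27 → M.al (ε b) = ε c → a ≠ b → a ≠ c →
      (ε a ≠ ε b ∧ ε a ≠ M.al (ε b)) := by
    intro a b c ha hb hc hbc hab hac
    refine ⟨fun z => hab (inj a b ha hb z), ?_⟩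
    rw [hbc]
    exact fun z => hac (inj a c ha hc z)
  have A3 := h.act 3 (by decide)
  have A12 := h.act 12 (by decide)
  have A15 := h.act 15 (by decide)
  have A21 := h.act 21 (by decide)
  fin_cases j
  · exact hj rfl
  · -- A12 | A3q
    have g2' : M.SC (M.al g) (ε 14) := CMap.SC.symm g2
    rcases lemN' hS g3 g1' g2' (by rw [x8, x14]; exact p39) with ⟨w, -⟩ | ⟨w, -⟩
    · rw [x8] at w
      exact vn 14 3 (by norm_num) (by norm_num) (by norm_num) w
    · rw [x14] at w
      exact vn 8 9 (by norm_num) (by norm_num) (by norm_num) w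
  · have g2' : M.SC (M.al g) (ε 20) := CMap.SC.symm g2
    obtain ⟨C, hC, hCb, c1, c2, c3, c4, c5⟩ := M.four_cut hS.c3 (d := ε 3) (e := ε 12) (f := ε 15) (g := g)
      A3 A12 A15 g3 (ee 12 3 8 (by norm_num) (by norm_num) (by norm_num) x3 (by norm_num) (by norm_num))
      (ee 15 3 8 (by norm_num) (by norm_num) (by norm_num) x3 (by norm_num) (by norm_num))
      (ee 15 12 2 (by norm_num) (by norm_num) (by norm_num) x12 (by norm_num) (by norm_num))
      gne0 g12 gne2 (by
        intro Z hZ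
        obtain ⟨H, hH, hZH⟩ := hS.pl Z hZ
        rw [cyc_val hH hZH A3, cyc_val hH hZH A12, cyc_val hH hZH A15, cyc_val hH hZH g3, x3, x12, x15,
          M.inv_SC hH A3 p312, ← M.inv_SC hH (h.act 2 (by decide)) q215, M.inv_SC hH g3 g1',
          M.inv_SC hH (M.act _ g3) g2']
        have a1 := z2_add_self (H (ε 12))
        have a2 := z2_add_self (H (ε 2))
        have a3 := z2_add_self (H (ε 8))
        have a4 := z2_add_self (H (ε 20))
        linear_combination a1 + a2 + a3 + a4)
    have cc : ∀ k l l', k < 27 → l < 27 → l' < 27 → M.al (ε k) = ε l → l / 3 = l' / 3 →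
        (k ≠ 3 ∧ k ≠ 8) → (k ≠ 12 ∧ k ≠ 2) → (k ≠ 15 ∧ k ≠ 20) → (g ≠ ε k ∧ g ≠ M.al (ε k)) →
        ((ε k).1 ∈ C ↔ (ε l').1 ∈ C) := by
      intro k l l' hk hl hl' hkl hll k1 k2 k3 k4
      have := c5 (ε k) (h.act k (by omega)) (ee k 3 8 hk (by norm_num) (by norm_num) x3 k1.1 k1.2)
        (ee k 12 2 hk (by norm_num) (by norm_num) x12 k2.1 k2.2)
        (ee k 15 20 hk (by norm_num) (by norm_num) x15 k3.1 k3.2) (flip k4)
      rw [hkl, vt l l' hl hl' hll] at this
      exact this
    have e1 := cc 6 11 9 (by norm_num) (by norm_num) (by norm_num) x6 rfl (by norm_num) (by norm_num) (by norm_num) g6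
    have e2 := cc 9 14 12 (by norm_num) (by norm_num) (by norm_num) x9 rfl (by norm_num) (by norm_num) (by norm_num) g9
    have e4 := cc 0 5 3 (by norm_num) (by norm_num) (by norm_num) x0 rfl (by norm_num) (by norm_num) (by norm_num) g0
    have e5 := cc 1 24 24 (by norm_num) (by norm_num) (by norm_num) x1 rfl (by norm_num) (by norm_num) (by norm_num) g1c
    rw [vt 1 0 (by norm_num) (by norm_num) rfl] at e5
    rw [x3, vt 8 6 (by norm_num) (by norm_num) rfl] at c1
    by_cases w : (ε 3).1 ∈ C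
    · have w6 := c1.1 w
      have w0 := e4.2 w
      have w24 := e5.1 w0
      have w9 : (ε 9).1 ∉ C := fun z => w6 (e1.2 z)
      have w12 : (ε 12).1 ∉ C := fun z => w9 (e2.2 z)
      exact U_contra hSS hC hCb (hin 3 (by norm_num)) (hin 0 (by norm_num)) w w0 w24
        (vn 3 0 (by norm_num) (by norm_num) (by norm_num)) (vn 3 24 (by norm_num) (by norm_num) (by norm_num))
        (vn 0 24 (by norm_num) (by norm_num) (by norm_num)) (hin 6 (by norm_num)) (hin 9 (by norm_num))
        (h.act 12 (by decide)) w6 w9 w12 (vn 6 9 (by norm_num) (by norm_num) (by norm_num))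
        (vn 6 12 (by norm_num) (by norm_num) (by norm_num)) (vn 9 12 (by norm_num) (by norm_num) (by norm_num))
    · have w6 : (ε 6).1 ∈ C := by by_contra z; exact w (c1.2 z)
      have w0 : (ε 0).1 ∉ C := fun z => w (e4.1 z)
      have w24 : (ε 24).1 ∉ C := fun z => w0 (e5.2 z)
      have w9 := e1.1 w6
      have w12 := e2.1 w9
      exact U_contra hSS hC hCb (hin 6 (by norm_num)) (hin 9 (by norm_num)) w6 w9 w12
        (vn 6 9 (by norm_num) (by norm_num) (by norm_num)) (vn 6 12 (by norm_num) (by norm_num) (by norm_num))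
        (vn 9 12 (by norm_num) (by norm_num) (by norm_num)) (hin 3 (by norm_num)) (hin 0 (by norm_num))
        (h.act 24 (by decide)) w w0 w24 (vn 3 0 (by norm_num) (by norm_num) (by norm_num))
        (vn 3 24 (by norm_num) (by norm_num) (by norm_num)) (vn 0 24 (by norm_num) (by norm_num) (by norm_num))
  · have g2' : M.SC (M.al g) (ε 26) := CMap.SC.symm g2
    have gne21 : g ≠ ε 21 ∧ g ≠ M.al (ε 21) := by
      rw [x21]; rw [x26] at gne3; exact ⟨gne3.2, gne3.1⟩
    obtain ⟨C, hC, hCb, c1, c2, c3, c4, c5⟩ := M.four_cut hS.c3 (d := ε 3) (e := ε 12) (f := ε 21) (g := g)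
      A3 A12 A21 g3 (ee 12 3 8 (by norm_num) (by norm_num) (by norm_num) x3 (by norm_num) (by norm_num))
      (ee 21 3 8 (by norm_num) (by norm_num) (by norm_num) x3 (by norm_num) (by norm_num))
      (ee 21 12 2 (by norm_num) (by norm_num) (by norm_num) x12 (by norm_num) (by norm_num))
      gne0 g12 gne21 (by
        intro Z hZ
        obtain ⟨H, hH, hZH⟩ := hS.pl Z hZ
        rw [cyc_val hH hZH A3, cyc_val hH hZH A12, cyc_val hH hZH A21, cyc_val hH hZH g3, x3, x12, x21,
          M.inv_SC hH A3 p312, ← M.inv_SC hH (h.act 2 (by decide)) q221, M.inv_SC hH g3 g1',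
          M.inv_SC hH (M.act _ g3) g2']
        have a1 := z2_add_self (H (ε 12))
        have a2 := z2_add_self (H (ε 2))
        have a3 := z2_add_self (H (ε 8))
        have a4 := z2_add_self (H (ε 26))
        linear_combination a1 + a2 + a3 + a4)
    have cc : ∀ k l l', k < 27 → l < 27 → l' < 27 → M.al (ε k) = ε l → l / 3 = l' / 3 →
        (k ≠ 3 ∧ k ≠ 8) → (k ≠ 12 ∧ k ≠ 2) → (k ≠ 21 ∧ k ≠ 26) → (g ≠ ε k ∧ g ≠ M.al (ε k)) →
        ((ε k).1 ∈ C ↔ (ε l').1 ∈ C) := by
      intro k l l' hk hl hl' hkl hll k1 k2 k3 k4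
      have := c5 (ε k) (h.act k (by omega)) (ee k 3 8 hk (by norm_num) (by norm_num) x3 k1.1 k1.2)
        (ee k 12 2 hk (by norm_num) (by norm_num) x12 k2.1 k2.2)
        (ee k 21 26 hk (by norm_num) (by norm_num) x21 k3.1 k3.2) (flip k4)
      rw [hkl, vt l l' hl hl' hll] at this
      exact this
    have e1 := cc 6 11 9 (by norm_num) (by norm_num) (by norm_num) x6 rfl (by norm_num) (by norm_num) (by norm_num) g6
    have e2 := cc 9 14 12 (by norm_num) (by norm_num) (by norm_num) x9 rfl (by norm_num) (by norm_num) (by norm_num) g9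
    have e4 := cc 0 5 3 (by norm_num) (by norm_num) (by norm_num) x0 rfl (by norm_num) (by norm_num) (by norm_num) g0
    have e5 := cc 1 24 24 (by norm_num) (by norm_num) (by norm_num) x1 rfl (by norm_num) (by norm_num) (by norm_num) g1c
    rw [vt 1 0 (by norm_num) (by norm_num) rfl] at e5
    rw [x3, vt 8 6 (by norm_num) (by norm_num) rfl] at c1
    by_cases w : (ε 3).1 ∈ C
    · have w6 := c1.1 w
      have w0 := e4.2 w
      have w24 := e5.1 w0
      have w9 : (ε 9).1 ∉ C := fun z => w6 (e1.2 z)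
      have w12 : (ε 12).1 ∉ C := fun z => w9 (e2.2 z)
      exact U_contra hSS hC hCb (hin 3 (by norm_num)) (hin 0 (by norm_num)) w w0 w24
        (vn 3 0 (by norm_num) (by norm_num) (by norm_num)) (vn 3 24 (by norm_num) (by norm_num) (by norm_num))
        (vn 0 24 (by norm_num) (by norm_num) (by norm_num)) (hin 6 (by norm_num)) (hin 9 (by norm_num))
        (h.act 12 (by decide)) w6 w9 w12 (vn 6 9 (by norm_num) (by norm_num) (by norm_num))
        (vn 6 12 (by norm_num) (by norm_num) (by norm_num)) (vn 9 12 (by norm_num) (by norm_num) (by norm_num))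
    · have w6 : (ε 6).1 ∈ C := by by_contra z; exact w (c1.2 z)
      have w0 : (ε 0).1 ∉ C := fun z => w (e4.1 z)
      have w24 : (ε 24).1 ∉ C := fun z => w0 (e5.2 z)
      have w9 := e1.1 w6
      have w12 := e2.1 w9
      exact U_contra hSS hC hCb (hin 6 (by norm_num)) (hin 9 (by norm_num)) w6 w9 w12
        (vn 6 9 (by norm_num) (by norm_num) (by norm_num)) (vn 6 12 (by norm_num) (by norm_num) (by norm_num))
        (vn 9 12 (by norm_num) (by norm_num) (by norm_num)) (hin 3 (by norm_num)) (hin 0 (by norm_num))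
        (h.act 24 (by decide)) w w0 w24 (vn 3 0 (by norm_num) (by norm_num) (by norm_num))
        (vn 3 24 (by norm_num) (by norm_num) (by norm_num)) (vn 0 24 (by norm_num) (by norm_num) (by norm_num))

end Pool.Agent.H24
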