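import Pool.Agent.H24.GadCut

set_option autoImplicit false
set_option linter.unusedSectionVars false
set_option linter.unusedVariables false

namespace Pool.Agent.H24

open Finset Equiv.Perm

variable {V : Type} [Fintype V] [DecidableEq V]

/-- acyclic three-colourings, in terms of cycle vectors -/
structure Good (M : CMap V) (c : V → Fin 3) : Prop where
  proper : ∀ d, d.1 ∈ M.A → c d.1 ≠ c (M.al d).1
  acyc : ∀ (p : Fin 3) (Z : V × Fin 3 → ZMod 2), M.Cyc Z → (∀ d, c d.1 = p → Z d = 0) → ∀ d, Z d = 0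

def Col (M : CMap V) : Prop := ∃ c, Good M c

variable {M M' : CMap V} {G : Gd} {ε : ℕ → V × Fin 3}

/-- vertices of the reduced map which are not kept inner vertices -/
def Ov (M' : CMap V) (G : Gd) (ε : ℕ → V × Fin 3) (v : V) : Prop :=
  v ∈ M'.A ∧ ∀ k < 3 * G.m, (ε k).1 ≠ v

structure Down (M M' : CMap V) (G : Gd) (ε : ℕ → V × Fin 3) (c' : V → Fin 3) (p : Fin 3)
    (W : V × Fin 3 → ZMod 2) : Prop where
  a : ∀ d, Ov M' G ε d.1 → (∀ k < G.N, ε k ≠ d) → W (M.al d) = W d
  b : ∀ v, Ov M' G ε v → ∑ i : Fin 3, W (v, i) = 0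
  c : ∀ d, Ov M' G ε d.1 → c' d.1 = p → W d = 0
  d : ∀ j < G.N, 3 * G.m ≤ j → 3 * G.m ≤ G.p' j → W (ε j) = W (ε (G.p' j))
  e : ∀ x < G.m, G.isK (3 * x) = true → W (ε (G.p' (3 * x))) + W (ε (G.p' (3 * x + 1))) +
    W (ε (G.p' (3 * x + 2))) = 0
  f : ∀ k < 3 * G.m, G.isK k = true → c' (ε k).1 = p → W (ε (G.p' k)) = 0

theorem Ov_term (h : Emb M G ε) (hr : Red M M' G ε) {j : ℕ} (hj : j < G.N) (hj2 : 3 * G.m ≤ j) :
    Ov M' G ε (ε j).1 :=
  ⟨(K_act h hr hj).2 (isK_term hj2), fun k hk he => h.term j hj hj2 k hk he.symm⟩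

theorem down (h : Emb M G ε) (hG : G.Ok) (hr : Red M M' G ε)
    (hkt : ∀ k < 3 * G.m, G.isK k = true → 3 * G.m ≤ G.p' k) {c' : V → Fin 3} (hc' : Good M' c')
    {p : Fin 3} {W : V × Fin 3 → ZMod 2} (hW : Down M M' G ε c' p W) :
    ∀ d, Ov M' G ε d.1 → W d = 0 := by
  classical
  have hN : G.N = 3 * G.m + G.t := rfl
  let Z' : V × Fin 3 → ZMod 2 := fun d =>
    if hk : ∃ k, k < 3 * G.m ∧ G.isK k = true ∧ ε k = d then W (ε (G.p' hk.choose)) else
      if Ov M' G ε d.1 then W d else 0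
  have ZK : ∀ k < 3 * G.m, G.isK k = true → Z' (ε k) = W (ε (G.p' k)) := by
    intro k hk hK
    have h2 : ∃ l, l < 3 * G.m ∧ G.isK l = true ∧ ε l = ε k := ⟨k, hk, hK, rfl⟩
    simp only [Z', h2, dif_pos]
    have h3 := h2.choose_spec
    rw [show h2.choose = k from h.inj _ h3.1 _ hk h3.2.2]
  have ZO : ∀ d, Ov M' G ε d.1 → Z' d = W d := by
    intro d hd
    have h2 : ¬ ∃ k, k < 3 * G.m ∧ G.isK k = true ∧ ε k = d := by
      rintro ⟨k, hk, _, rfl⟩
      exact hd.2 k hk rfl
    simp only [Z', h2, hd, dif_neg, if_pos, not_false_eq_true]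
  have Zout : ∀ d, d.1 ∉ M'.A → Z' d = 0 := by
    intro d hd
    have h2 : ¬ ∃ k, k < 3 * G.m ∧ G.isK k = true ∧ ε k = d := by
      rintro ⟨k, hk, hK, rfl⟩
      exact hd ((K_act h hr (by omega)).2 hK)
    have h3 : ¬ Ov M' G ε d.1 := fun q => hd q.1
    simp only [Z', h2, h3, dif_neg, if_neg, not_false_eq_true]
  -- trichotomy of darts of M'
  have tri : ∀ d, d.1 ∈ M'.A → (∃ k < 3 * G.m, G.isK k = true ∧ ε k = d) ∨
      (Ov M' G ε d.1) := by
    intro d hd
    by_cases c1 : ∃ k < 3 * G.m, (ε k).1 = d.1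
    · left
      obtain ⟨k, hk, he⟩ := c1
      have hdA := ((hr.A_ _).1 hd).1
      have h1 := h.sg_ k hk
      have h2 := h.sg_ _ (s3_lt hk)
      have : ∃ l < 3 * G.m, ε l = d := by
        rcases dart_cases (d := ε k) (e := d) he.symm with h3 | h3 | h3
        · exact ⟨k, hk, h3.symm⟩
        · exact ⟨_, s3_lt hk, by rw [h3, h1]⟩
        · exact ⟨_, s3_lt (s3_lt hk), by rw [h3, h2, h1]⟩
      obtain ⟨l, hl, rfl⟩ := this
      exact ⟨l, hl, (K_act h hr (by omega)).1 hd, rfl⟩
    · right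
      push Not at c1
      exact ⟨hd, c1⟩
  have hcyc : M'.Cyc Z' := by
    refine ⟨?_, ?_, Zout⟩
    · intro d
      by_cases hd : d.1 ∈ M'.A
      swap
      · rw [M'.out d hd]
      rcases tri d hd with ⟨k, hk, hK, rfl⟩ | hO
      · have hkN : k < G.N := by omega
        have g2 := hG.h2 k hkN hK
        rw [hr.K_ k hkN hK, ZK k hk hK, ZO _ (Ov_term h hr g2.2.1 (hkt k hk hK))]
      · by_cases c2 : ∃ k < G.N, ε k = d
        · obtain ⟨k, hk, rfl⟩ := c2
          have hk3 : 3 * G.m ≤ k := by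
            by_contra hc
            exact hO.2 k (not_le.1 hc) rfl
          have hK : G.isK k = true := isK_term hk3
          have g2 := hG.h2 k hk hK
          rw [hr.K_ k hk hK, ZO _ hO]
          by_cases c3 : G.p' k < 3 * G.m
          · rw [ZK _ c3 g2.1, g2.2.2.1]
          · rw [ZO _ (Ov_term h hr g2.2.1 (not_lt.1 c3)), hW.d k hk hk3 (not_lt.1 c3)]
        · push Not at c2
          have h1 := O_al h hG ((hr.A_ _).1 hd) (fun k hk _ => c2 k hk)
          have h2 : (M.al d).1 ∈ M'.A := (hr.A_ _).2 h1.1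
          have h3 : Ov M' G ε (M.al d).1 := by
            rcases tri _ h2 with ⟨k, hk, hK, he⟩ | hO'
            · exact absurd he (h1.2 k (by omega))
            · exact hO'
          rw [hr.O_ d hd (fun k hk _ => c2 k hk), ZO _ h3, ZO _ hO, hW.a d hO c2]
    · intro v
      by_cases hv : v ∈ M'.A
      · by_cases c1 : ∃ k < 3 * G.m, (ε k).1 = v
        · obtain ⟨k, hk, rfl⟩ := c1
          have hK := (K_act h hr (by omega)).1 hv
          have hx0 : 3 * (k / 3) < 3 * G.m := by omega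
          have hv' : (ε k).1 = (ε (3 * (k / 3))).1 := h.vert' hk (by omega)
          have hK0 : G.isK (3 * (k / 3)) = true := by
            rw [← isK_div hk hx0 (by omega), hK]
          have hK1 : G.isK (3 * (k / 3) + 1) = true := by
            rw [← isK_div hk (by omega) (by omega), hK]
          have hK2 : G.isK (3 * (k / 3) + 2) = true := by
            rw [← isK_div hk (by omega) (by omega), hK]
          rw [hv', ← sum3 Z' (ε (3 * (k / 3)))]
          have e1 : sg (ε (3 * (k / 3))) = ε (3 * (k / 3) + 1) := by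
            rw [← h.sg_ _ hx0, s3_0]
          have e2 : sg (ε (3 * (k / 3) + 1)) = ε (3 * (k / 3) + 2) := by
            rw [← h.sg_ _ (by omega), s3_1]
          rw [e1, e2, ZK _ (by omega) hK0, ZK _ (by omega) hK1, ZK _ (by omega) hK2]
          exact hW.e _ (by omega) hK0
        · push Not at c1
          rw [← hW.b v ⟨hv, c1⟩]
          apply Finset.sum_congr rfl
          intro i _
          exact ZO _ ⟨hv, c1⟩
      · apply Finset.sum_eq_zero
        intro i _
        exact Zout _ hv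
  have hcol : ∀ d, c' d.1 = p → Z' d = 0 := by
    intro d hd
    by_cases hdA : d.1 ∈ M'.A
    · rcases tri d hdA with ⟨k, hk, hK, rfl⟩ | hO
      · rw [ZK k hk hK]
        exact hW.f k hk hK hd
      · rw [ZO _ hO]
        exact hW.c d hO hd
    · exact Zout d hdA
  intro d hd
  rw [← ZO d hd]
  exact hc'.acyc p Z' hcyc hcol d

namespace Gd
variable (G : Gd)

/-- colour of a code -/
def co (cl : List ℕ) (k : ℕ) : ℕ := cl.getD (if k < 3 * G.m then k / 3 else k - 2 * G.m) 0

def bm (cl : List ℕ) (p k : ℕ) : ℕ :=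
  if G.co cl k = p ∨ G.co cl (G.p k) = p then 0 else 1 <<< (min k (G.p k))

def crows (cl : List ℕ) (p : ℕ) : List ℕ :=
  (List.range G.m).map (fun x => (G.bm cl p (3 * x) ^^^ G.bm cl p (3 * x + 1)) ^^^ G.bm cl p (3 * x + 2))

def terms : List ℕ := (List.range G.t).map (fun j => 3 * G.m + j)

def cconcl (cl : List ℕ) (rho : ℕ → ℕ) (p : ℕ) : List ℕ :=
  ((G.terms.filter (fun j => decide (3 * G.m ≤ G.p' j))).map (fun j => G.bm cl p j ^^^ G.bm cl p (G.p' j))) ++
  (((List.range G.m).filter (fun x => G.isK (3 * x))).map (fun x =>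
    (G.bm cl p (G.p' (3 * x)) ^^^ G.bm cl p (G.p' (3 * x + 1))) ^^^ G.bm cl p (G.p' (3 * x + 2)))) ++
  (((List.range (3 * G.m)).filter (fun k => G.isK k && decide (rho (k / 3) = p))).map (fun k =>
    G.bm cl p (G.p' k)))

/-- the full check for one colour list -/
def chk (cl : List ℕ) (rho : ℕ → ℕ) : Bool :=
  (List.range G.N).all (fun k => G.co cl k != G.co cl (G.p k)) &&
  (List.range (3 * G.m)).all (fun k => decide (G.co cl k < 3)) &&
  (List.range 3).all (fun p =>
    elim G.m (G.crows cl p) (G.cconcl cl rho p) &&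
    elim (G.m + G.t) (G.crows cl p ++ G.terms.map (fun j => G.bm cl p j))
      ((List.range (3 * G.m)).map (fun k => G.bm cl p k)))

end Gd

/-- the extended colouring -/
noncomputable def cext (G : Gd) (ε : ℕ → V × Fin 3) (c' : V → Fin 3) (cl : List ℕ) (v : V) : Fin 3 := by
  classical exact
  if h : ∃ x < G.m, (ε (3 * x)).1 = v then ⟨cl.getD h.choose 0 % 3, Nat.mod_lt _ (by norm_num)⟩ else c' v

theorem cext_inner (h : Emb M G ε) (c' : V → Fin 3) (cl : List ℕ) {k : ℕ} (hk : k < 3 * G.m) :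
    ((cext G ε c' cl (ε k).1 : Fin 3) : ℕ) = G.co cl k % 3 := by
  have h1 : ∃ x < G.m, (ε (3 * x)).1 = (ε k).1 := ⟨k / 3, by omega, h.vert' (by omega) (by omega)⟩
  unfold cext
  rw [dif_pos h1]
  have h2 := h1.choose_spec
  have h3 := h.vert (by omega) hk h2.2
  rw [Nat.mul_div_cancel_left _ (by norm_num)] at h3
  unfold Gd.co
  rw [if_pos hk, ← h3]

theorem cext_out (h : Emb M G ε) (c' : V → Fin 3) (cl : List ℕ) {v : V}
    (hv : ∀ k < 3 * G.m, (ε k).1 ≠ v) : cext G ε c' cl v = c' v := by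
  have h1 : ¬ ∃ x < G.m, (ε (3 * x)).1 = v := by
    rintro ⟨x, hx, he⟩
    exact hv _ (by omega) he
  unfold cext
  rw [dif_neg h1]

/-- vl of a code mask -/
theorem vl_bm (h : Emb M G ε) (hG : G.Ok) {cl : List ℕ} {c : V → Fin 3}
    (hc : ∀ k < G.N, ((c (ε k).1 : Fin 3) : ℕ) = G.co cl k) {p : Fin 3} {Z : V × Fin 3 → ZMod 2}
    (hZ : M.Cyc Z) (hp : ∀ d, c d.1 = p → Z d = 0) {k : ℕ} (hk : k < G.N) :
    vl G.N (fun b => Z (ε b)) (G.bm cl p k) = Z (ε k) := by
  have g1 := hG.h1 k hk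
  unfold Gd.bm
  split_ifs with hd
  · rw [vl_zero]
    symm
    rcases hd with hd | hd
    · apply hp
      apply Fin.ext
      rw [hc k hk, hd]
    · rw [← hZ.sym, h.al_ k hk]
      apply hp
      apply Fin.ext
      rw [hc _ g1.1, hd]
  · rw [vl_one _ (by rcases min_choice k (G.p k) with q | q <;> rw [q] <;> omega)]
    rcases min_choice k (G.p k) with q | q
    · rw [q]
    · rw [q, ← h.al_ k hk, hZ.sym]

theorem crows_zero (h : Emb M G ε) (hG : G.Ok) {cl : List ℕ} {c : V → Fin 3}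
    (hc : ∀ k < G.N, ((c (ε k).1 : Fin 3) : ℕ) = G.co cl k) {p : Fin 3} {Z : V × Fin 3 → ZMod 2}
    (hZ : M.Cyc Z) (hp : ∀ d, c d.1 = p → Z d = 0) :
    ∀ l ∈ G.crows cl p, vl G.N (fun b => Z (ε b)) l = 0 := by
  have hN : G.N = 3 * G.m + G.t := rfl
  intro l hl
  obtain ⟨x, hx, rfl⟩ := List.mem_map.1 hl
  rw [List.mem_range] at hx
  rw [vl_xor, vl_xor, vl_bm h hG hc hZ hp (by omega), vl_bm h hG hc hZ hp (by omega),
    vl_bm h hG hc hZ hp (by omega)]
  have e1 : ε (3 * x + 1) = sg (ε (3 * x)) := by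
    rw [← h.sg_ _ (by omega), s3_0]
  have e2 : ε (3 * x + 2) = sg (sg (ε (3 * x))) := by
    rw [← e1, ← h.sg_ _ (by omega), s3_1]
  rw [e2, e1, sum3]
  exact hZ.sum _

/-- linear relations satisfied by the trace of a cycle vector avoiding colour `p` -/
theorem rel_zero (h : Emb M G ε) (hG : G.Ok) {cl : List ℕ} {c : V → Fin 3}
    (hc : ∀ k < G.N, ((c (ε k).1 : Fin 3) : ℕ) = G.co cl k) {p : Fin 3} {Z : V × Fin 3 → ZMod 2}
    (hZ : M.Cyc Z) (hp : ∀ d, c d.1 = p → Z d = 0) (n : ℕ) {cs : List ℕ}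
    (he : elim n (G.crows cl p) cs = true) : ∀ l ∈ cs, vl G.N (fun b => Z (ε b)) l = 0 :=
  elim_sound n _ _ he (crows_zero h hG hc hZ hp)

theorem down_of (h : Emb M G ε) (hG : G.Ok) (hr : Red M M' G ε) {c' c : V → Fin 3}
    (hcO : ∀ v, (∀ k < 3 * G.m, (ε k).1 ≠ v) → c v = c' v) {p : Fin 3} {Z : V × Fin 3 → ZMod 2}
    (hZ : M.Cyc Z) (hp : ∀ d, c d.1 = p → Z d = 0)
    (hd : ∀ j < G.N, 3 * G.m ≤ j → 3 * G.m ≤ G.p' j → Z (ε j) = Z (ε (G.p' j)))
    (he : ∀ x < G.m, G.isK (3 * x) = true → Z (ε (G.p' (3 * x))) + Z (ε (G.p' (3 * x + 1))) +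
      Z (ε (G.p' (3 * x + 2))) = 0)
    (hf : ∀ k < 3 * G.m, G.isK k = true → c' (ε k).1 = p → Z (ε (G.p' k)) = 0) :
    Down M M' G ε c' p Z := by
  refine ⟨?_, ?_, ?_, hd, he, hf⟩
  · intro d _ _; exact hZ.sym d
  · intro v _; exact hZ.sum v
  · intro d hO hcd
    apply hp
    rw [hcO _ hO.2, hcd]

/-- if a cycle vector avoiding `p` vanishes outside the configuration, it vanishes -/
theorem inner_zero (h : Emb M G ε) (hG : G.Ok) (hr : Red M M' G ε) {cl : List ℕ} {c : V → Fin 3}
    (hc : ∀ k < G.N, ((c (ε k).1 : Fin 3) : ℕ) = G.co cl k) {p : Fin 3} {Z : V × Fin 3 → ZMod 2}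
    (hZ : M.Cyc Z) (hp : ∀ d, c d.1 = p → Z d = 0) (n : ℕ)
    (he : elim n (G.crows cl p ++ G.terms.map (fun j => G.bm cl p j))
      ((List.range (3 * G.m)).map (fun k => G.bm cl p k)) = true)
    (hO : ∀ d, Ov M' G ε d.1 → Z d = 0) : ∀ d, Z d = 0 := by
  have hN : G.N = 3 * G.m + G.t := rfl
  have h1 := crows_zero h hG hc hZ hp
  have h2 : ∀ l ∈ G.crows cl p ++ G.terms.map (fun j => G.bm cl p j),
      vl G.N (fun b => Z (ε b)) l = 0 := by
    intro l hl
    rw [List.mem_append] at hl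
    rcases hl with hl | hl
    · exact h1 l hl
    · obtain ⟨j, hj, rfl⟩ := List.mem_map.1 hl
      unfold Gd.terms at hj
      obtain ⟨i, hi, rfl⟩ := List.mem_map.1 hj
      rw [List.mem_range] at hi
      rw [vl_bm h hG hc hZ hp (by omega)]
      exact hO _ (Ov_term h hr (by omega) (by omega))
  have h3 := elim_sound n _ _ he h2
  have h4 : ∀ k < 3 * G.m, Z (ε k) = 0 := by
    intro k hk
    rw [← vl_bm h hG hc hZ hp (by omega)]
    apply h3
    exact List.mem_map.2 ⟨k, List.mem_range.2 hk, rfl⟩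
  intro d
  by_cases hd : d.1 ∈ M.A
  · rcases dart_trich h hr d hd with ⟨c1, c2⟩ | ⟨k, hk, rfl⟩
    · apply hO
      refine ⟨c1, ?_⟩
      intro k hk he
      have h1 := h.sg_ k hk
      have h2 := h.sg_ _ (s3_lt hk)
      have l1 : k < G.N := by omega
      have l2 : s3 k < G.N := by have := s3_lt hk; omega
      have l3 : s3 (s3 k) < G.N := by have := s3_lt (s3_lt hk); omega
      rcases dart_cases (d := ε k) (e := d) he.symm with h3 | h3 | h3
      · exact c2 k l1 h3.symm
      · rw [← h1] at h3; exact c2 _ l2 h3.symm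
      · rw [← h1, ← h2] at h3; exact c2 _ l3 h3.symm
    · by_cases hk3 : k < 3 * G.m
      · exact h4 k hk3
      · exact hO _ (Ov_term h hr hk (not_lt.1 hk3))
  · exact hZ.out d hd

/-- single colour list extension -/
theorem col_ext (h : Emb M G ε) (hG : G.Ok) (hr : Red M M' G ε)
    (hkt : ∀ k < 3 * G.m, G.isK k = true → 3 * G.m ≤ G.p' k) {c' : V → Fin 3} (hc' : Good M' c')
    (cl : List ℕ) (hterm : ∀ j < G.N, 3 * G.m ≤ j → ((c' (ε j).1 : Fin 3) : ℕ) = G.co cl j)
    (rho : ℕ → ℕ) (hrho : ∀ k < 3 * G.m, G.isK k = true → ((c' (ε k).1 : Fin 3) : ℕ) = rho (k / 3))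
    (hchk : G.chk cl rho = true) : Col M := by
  have hN : G.N = 3 * G.m + G.t := rfl
  unfold Gd.chk at hchk
  simp only [Bool.and_eq_true] at hchk
  obtain ⟨⟨q1, q2⟩, q3⟩ := hchk
  rw [List.all_eq_true] at q1 q2 q3
  set c : V → Fin 3 := cext G ε c' cl with hcdef
  have hcO : ∀ v, (∀ k < 3 * G.m, (ε k).1 ≠ v) → c v = c' v := fun v hv => cext_out h c' cl hv
  have hc : ∀ k < G.N, ((c (ε k).1 : Fin 3) : ℕ) = G.co cl k := by
    intro k hk
    by_cases hk3 : k < 3 * G.m
    · rw [hcdef, cext_inner h c' cl hk3]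
      have := q2 k (List.mem_range.2 hk3)
      rw [decide_eq_true_eq] at this
      exact Nat.mod_eq_of_lt this
    · rw [hcO _ (fun l hl he => h.term k hk (not_lt.1 hk3) l hl he.symm)]
      exact hterm k hk (not_lt.1 hk3)
  refine ⟨c, ?_, ?_⟩
  · intro d hd
    rcases dart_trich h hr d hd with ⟨c1, c2⟩ | ⟨k, hk, rfl⟩
    · have h1 := O_al h hG ((hr.A_ _).1 c1) (fun k hk _ => c2 k hk)
      have o1 : ∀ k < 3 * G.m, (ε k).1 ≠ d.1 := by
        intro k hk he
        have h1 := h.sg_ k hk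
        have h2 := h.sg_ _ (s3_lt hk)
        have l1 : k < G.N := by omega
        have l2 : s3 k < G.N := by have := s3_lt hk; omega
        have l3 : s3 (s3 k) < G.N := by have := s3_lt (s3_lt hk); omega
        rcases dart_cases (d := ε k) (e := d) he.symm with h3 | h3 | h3
        · exact c2 k l1 h3.symm
        · rw [← h1] at h3; exact c2 _ l2 h3.symm
        · rw [← h1, ← h2] at h3; exact c2 _ l3 h3.symm
      have o2 : ∀ k < 3 * G.m, (ε k).1 ≠ (M.al d).1 := by
        intro k hk he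
        have h1' := h.sg_ k hk
        have h2 := h.sg_ _ (s3_lt hk)
        have l1 : k < G.N := by omega
        have l2 : s3 k < G.N := by have := s3_lt hk; omega
        have l3 : s3 (s3 k) < G.N := by have := s3_lt (s3_lt hk); omega
        rcases dart_cases (d := ε k) (e := M.al d) he.symm with h3 | h3 | h3
        · exact h1.2 k l1 h3.symm
        · rw [← h1'] at h3; exact h1.2 _ l2 h3.symm
        · rw [← h1', ← h2] at h3; exact h1.2 _ l3 h3.symm
      rw [hcO _ o1, hcO _ o2, ← hr.O_ d c1 (fun k hk _ => c2 k hk)]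
      exact hc'.proper d c1
    · rw [h.al_ k hk]
      intro heq
      have h1 := hc k hk
      have h2 := hc _ (hG.h1 k hk).1
      rw [heq, h2] at h1
      have := q1 k (List.mem_range.2 hk)
      simp only [bne_iff_ne, ne_eq] at this
      exact this h1.symm
  · intro p Z hZ hp
    have q4 := q3 p (List.mem_range.2 p.2)
    rw [Bool.and_eq_true] at q4
    have hrel := rel_zero h hG hc hZ hp _ q4.1
    have hvb : ∀ k < G.N, vl G.N (fun b => Z (ε b)) (G.bm cl p k) = Z (ε k) :=
      fun k hk => vl_bm h hG hc hZ hp hk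
    have hD : Down M M' G ε c' p Z := by
      apply down_of h hG hr hcO hZ hp
      · intro j hj hj1 hj2
        have g2 := hG.h2 j hj (isK_term hj1)
        have hm : G.bm cl p j ^^^ G.bm cl p (G.p' j) ∈ G.cconcl cl rho p := by
          unfold Gd.cconcl
          rw [List.mem_append, List.mem_append]
          left; left
          apply List.mem_map.2
          refine ⟨j, ?_, rfl⟩
          rw [List.mem_filter]
          refine ⟨?_, by simpa using hj2⟩
          unfold Gd.terms
          exact List.mem_map.2 ⟨j - 3 * G.m, List.mem_range.2 (by omega), by omega⟩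
        have := hrel _ hm
        rw [vl_xor, hvb j hj, hvb _ g2.2.1] at this
        have t := z2_add_self (Z (ε (G.p' j)))
        linear_combination this - t
      · intro x hx hK
        have g0 := hG.h2 (3 * x) (by omega) hK
        have g1 := hG.h2 (3 * x + 1) (by omega) (by rw [← hK]; exact isK_div (by omega) (by omega) (by omega))
        have g2 := hG.h2 (3 * x + 2) (by omega) (by rw [← hK]; exact isK_div (by omega) (by omega) (by omega))
        have hm : (G.bm cl p (G.p' (3 * x)) ^^^ G.bm cl p (G.p' (3 * x + 1))) ^^^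
            G.bm cl p (G.p' (3 * x + 2)) ∈ G.cconcl cl rho p := by
          unfold Gd.cconcl
          rw [List.mem_append, List.mem_append]
          left; right
          apply List.mem_map.2
          refine ⟨x, ?_, rfl⟩
          rw [List.mem_filter, List.mem_range]
          exact ⟨hx, hK⟩
        have := hrel _ hm
        rw [vl_xor, vl_xor, hvb _ g0.2.1, hvb _ g1.2.1, hvb _ g2.2.1] at this
        exact this
      · intro k hk hK hcp
        have g0 := hG.h2 k (by omega) hK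
        have hm : G.bm cl p (G.p' k) ∈ G.cconcl cl rho p := by
          unfold Gd.cconcl
          rw [List.mem_append, List.mem_append]
          right
          apply List.mem_map.2
          refine ⟨k, ?_, rfl⟩
          rw [List.mem_filter, List.mem_range]
          refine ⟨hk, ?_⟩
          rw [hK, Bool.true_and, decide_eq_true_eq, ← hrho k hk hK, hcp]
        have := hrel _ hm
        rw [hvb _ g0.2.1] at this
        exact this
    have hO := down h hG hr hkt hc' hD
    exact inner_zero h hG hr hc hZ hp _ q4.2 hO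

end Pool.Agent.H24
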