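import Pool.Agent.H24.GadPl

set_option autoImplicit false
set_option linter.unusedSectionVars false
set_option linter.unusedVariables false

namespace Pool.Agent.H24

open Finset Equiv.Perm

variable {V : Type} [Fintype V] [DecidableEq V]
variable {M M' : CMap V} {G : Gd} {ε : ℕ → V × Fin 3}

/-- membership pattern on codes -/
def Xp (G : Gd) (ε : ℕ → V × Fin 3) (B : Finset V) (y : ℕ → Bool) (k : ℕ) : Bool :=
  if G.isK k then decide ((ε k).1 ∈ B) else y (k / 3)

/-- extended vertex set -/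
def Bext (M : CMap V) (G : Gd) (ε : ℕ → V × Fin 3) (B : Finset V) (y : ℕ → Bool) : Finset V :=
  M.A.filter (fun v => v ∈ B ∨ ∃ x < G.m, G.isK (3 * x) = false ∧ y x = true ∧ (ε (3 * x)).1 = v)

def Gd.loc (G : Gd) (X : ℕ → Bool) : ℕ := ∑ k ∈ range G.N, if X k && !X (G.p k) then 1 else 0

def Gd.loc' (G : Gd) (X : ℕ → Bool) : ℕ :=
  ∑ k ∈ range G.N, if G.isK k && (X k && !X (G.p' k)) then 1 else 0

theorem Bext_mem (h : Emb M G ε) (hr : Red M M' G ε) {B : Finset V} (hB : B ⊆ M'.A) (y : ℕ → Bool)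
    {k : ℕ} (hk : k < G.N) : (ε k).1 ∈ Bext M G ε B y ↔ Xp G ε B y k = true := by
  unfold Bext Xp
  rw [Finset.mem_filter]
  have hN : G.N = 3 * G.m + G.t := rfl
  cases hK : G.isK k with
  | true =>
    simp only [if_true, decide_eq_true_eq]
    constructor
    · rintro ⟨_, h1 | ⟨x, hx, h2, h3, h4⟩⟩
      · exact h1
      · exact absurd h4 (K_mem h hk hK _ (by omega) h2)
    · intro h1
      exact ⟨h.act k hk, Or.inl h1⟩
  | false =>
    have hk3 : k < 3 * G.m := by
      by_contra hc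
      rw [isK_term (not_lt.1 hc)] at hK
      exact absurd hK (by decide)
    simp only [Bool.false_eq_true, if_false]
    constructor
    · rintro ⟨_, h1 | ⟨x, hx, h2, h3, h4⟩⟩
      · have := (K_act h hr hk).1 (hB h1)
        rw [hK] at this
        exact absurd this (by decide)
      · have := h.vert (by omega) hk3 h4
        rw [← this, Nat.mul_div_cancel_left _ (by norm_num)]
        exact h3
    · intro h1
      refine ⟨h.act k hk, Or.inr ⟨k / 3, by omega, ?_, h1, ?_⟩⟩
      · rw [← isK_div hk3 (by omega) (by omega), hK]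
      · exact h.vert' (by omega) (by omega)

theorem Bext_mem_O (h : Emb M G ε) (hr : Red M M' G ε) {B : Finset V} (hB : B ⊆ M'.A) (y : ℕ → Bool)
    {v : V} (hv : v ∈ M'.A) : v ∈ Bext M G ε B y ↔ v ∈ B := by
  unfold Bext
  rw [Finset.mem_filter]
  have hv2 := (hr.A_ v).1 hv
  constructor
  · rintro ⟨_, h1 | ⟨x, hx, h2, h3, h4⟩⟩
    · exact h1
    · exact absurd h4 (hv2.2 _ (by omega) h2)
  · intro h1
    exact ⟨hv2.1, Or.inl h1⟩

theorem cut_transfer (h : Emb M G ε) (hG : G.Ok) (hr : Red M M' G ε) {B : Finset V} (hB : B ⊆ M'.A)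
    (y : ℕ → Bool) :
    M.b (Bext M G ε B y) + G.loc' (Xp G ε B y) = M'.b B + G.loc (Xp G ε B y) := by
  classical
  set C := Bext M G ε B y with hC
  set X := Xp G ε B y with hX
  have hN : G.N = 3 * G.m + G.t := rfl
  have hCm : ∀ k < G.N, ((ε k).1 ∈ C ↔ X k = true) := fun k hk => Bext_mem h hr hB y hk
  have hXK : ∀ k, G.isK k = true → (X k = true ↔ (ε k).1 ∈ B) := by
    intro k hK
    rw [hX]; unfold Xp; rw [hK]; simp
  have hCA : C ⊆ M.A := Finset.filter_subset _ _
  set E : Finset (V × Fin 3) := (range G.N).image ε with hE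
  have hinj : ∀ x ∈ range G.N, ∀ y ∈ range G.N, ε x = ε y → x = y := by
    intro x hx y hy hxy
    exact h.inj' hG (Finset.mem_range.1 hx) (Finset.mem_range.1 hy) hxy
  have e1 : M.b C = (∑ d ∈ Eᶜ, if d.1 ∈ C ∧ (M.al d).1 ∉ C then 1 else 0) + G.loc X := by
    rw [CMap.b_eq_sum, ← Finset.sum_compl_add_sum E]
    congr 1
    rw [hE, Finset.sum_image hinj]
    unfold Gd.loc
    apply Finset.sum_congr rfl
    intro k hk
    rw [Finset.mem_range] at hk
    rw [h.al_ k hk]
    refine if_congr ?_ rfl rfl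
    rw [hCm k hk, hCm _ (hG.h1 k hk).1]
    simp
  have e2 : M'.b B = (∑ d ∈ Eᶜ, if d.1 ∈ B ∧ (M'.al d).1 ∉ B then 1 else 0) + G.loc' X := by
    rw [CMap.b_eq_sum, ← Finset.sum_compl_add_sum E]
    congr 1
    rw [hE, Finset.sum_image hinj]
    unfold Gd.loc'
    apply Finset.sum_congr rfl
    intro k hk
    rw [Finset.mem_range] at hk
    cases hK : G.isK k with
    | true =>
      have g2 := hG.h2 k hk hK
      rw [hr.K_ k hk hK]
      refine if_congr ?_ rfl rfl
      rw [← hXK k hK, ← hXK _ g2.1]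
      simp
    | false =>
      have : (ε k).1 ∉ B := by
        intro hc
        have := (K_act h hr hk).1 (hB hc)
        rw [hK] at this
        exact absurd this (by decide)
      simp [this]
  have e3 : (∑ d ∈ Eᶜ, if d.1 ∈ C ∧ (M.al d).1 ∉ C then 1 else 0) =
      (∑ d ∈ Eᶜ, if d.1 ∈ B ∧ (M'.al d).1 ∉ B then 1 else 0) := by
    apply Finset.sum_congr rfl
    intro d hd
    have hdE : ∀ k < G.N, ε k ≠ d := by
      intro k hk he
      rw [Finset.mem_compl] at hd
      exact hd (by rw [hE]; exact Finset.mem_image.2 ⟨k, Finset.mem_range.2 hk, he⟩)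
    by_cases hdA : d.1 ∈ M.A
    · rcases dart_trich h hr d hdA with ⟨c1, c2⟩ | ⟨k, hk, he⟩
      · have h1 := O_al h hG ((hr.A_ _).1 c1) (fun k hk _ => c2 k hk)
        have h2 : (M.al d).1 ∈ M'.A := (hr.A_ _).2 h1.1
        rw [hr.O_ d c1 (fun k hk _ => c2 k hk)]
        refine if_congr ?_ rfl rfl
        rw [Bext_mem_O h hr hB y c1, Bext_mem_O h hr hB y h2]
      · exact absurd he (hdE k hk)
    · have a1 : d.1 ∉ C := fun q => hdA (hCA q)
      have a2 : d.1 ∉ B := fun q => hdA ((hr.A_ _).1 (hB q)).1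
      simp [a1, a2]
  rw [e1, e2, e3]
  omega

/-- size of the extended set and of its complement -/
theorem Bext_sub (B : Finset V) (y : ℕ → Bool) : Bext M G ε B y ⊆ M.A := Finset.filter_subset _ _

theorem Bext_nonempty (h : Emb M G ε) (hr : Red M M' G ε) {B : Finset V} (hB : B ⊆ M'.A)
    (y : ℕ → Bool) (hne : B.Nonempty) : (Bext M G ε B y).Nonempty := by
  obtain ⟨v, hv⟩ := hne
  exact ⟨v, (Bext_mem_O h hr hB y (hB hv)).2 hv⟩

theorem Bext_ne (h : Emb M G ε) (hr : Red M M' G ε) {B : Finset V} (hB : B ⊆ M'.A)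
    (y : ℕ → Bool) (hne : B ≠ M'.A) : Bext M G ε B y ≠ M.A := by
  intro hc
  apply hne
  apply Finset.Subset.antisymm hB
  intro v hv
  rw [← Bext_mem_O h hr hB y hv, hc]
  exact ((hr.A_ v).1 hv).1

end Pool.Agent.H24
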