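import Pool.Agent.H24.Gadget

set_option autoImplicit false
set_option linter.unusedSectionVars false
set_option linter.unusedVariables false

namespace Pool.Agent.H24

open Finset Equiv.Perm

theorem s3_0 (x : ℕ) : s3 (3 * x) = 3 * x + 1 := by unfold s3; omega
theorem s3_1 (x : ℕ) : s3 (3 * x + 1) = 3 * x + 2 := by unfold s3; omega
theorem s3_2 (x : ℕ) : s3 (3 * x + 2) = 3 * x := by unfold s3; omega

variable {V : Type} [Fintype V] [DecidableEq V]
variable {M M' : CMap V} {G : Gd} {ε : ℕ → V × Fin 3}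

theorem dart_trich (h : Emb M G ε) (hr : Red M M' G ε) (d : V × Fin 3) (hd : d.1 ∈ M.A) :
    (d.1 ∈ M'.A ∧ ∀ k < G.N, ε k ≠ d) ∨ (∃ k < G.N, ε k = d) := by
  by_cases c : ∃ k < G.N, ε k = d
  · exact Or.inr c
  · left
    push Not at c
    refine ⟨?_, c⟩
    rw [hr.A_]
    refine ⟨hd, ?_⟩
    intro k hk hK he
    have hN : G.N = 3 * G.m + G.t := rfl
    have h1 := h.sg_ k hk
    have h2 := h.sg_ _ (s3_lt hk)
    have l1 : k < G.N := by omega
    have l2 : s3 k < G.N := by have := s3_lt hk; omega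
    have l3 : s3 (s3 k) < G.N := by have := s3_lt (s3_lt hk); omega
    rcases dart_cases (d := ε k) (e := d) he.symm with h3 | h3 | h3
    · exact c k l1 h3.symm
    · rw [← h1] at h3; exact c _ l2 h3.symm
    · rw [← h1, ← h2] at h3; exact c _ l3 h3.symm

theorem K_act (h : Emb M G ε) (hr : Red M M' G ε) {k : ℕ} (hk : k < G.N) :
    (ε k).1 ∈ M'.A ↔ G.isK k = true := by
  rw [hr.A_]
  constructor
  · intro h1
    by_contra hc
    have hK : G.isK k = false := by simpa using hc
    have hk3 : k < 3 * G.m := by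
      by_contra hc
      rw [isK_term (not_lt.1 hc)] at hK
      exact absurd hK (by decide)
    exact h1.2 k hk3 hK rfl
  · intro hK
    exact ⟨h.act k hk, K_mem h hk hK⟩

/-- lifting of cycle vectors -/
theorem lift_cyc (h : Emb M G ε) (hG : G.Ok) (hr : Red M M' G ε) (Z' : V × Fin 3 → ZMod 2)
    (hZ' : M'.Cyc Z') : ∃ Z, M.Cyc Z ∧ (∀ d, d.1 ∈ M'.A → Z d = Z' d) ∧
      (∀ k < G.N, G.isK k = false → G.sr k = G.N → Z (ε k) = 0) := by
  classical
  let zc : ℕ → ZMod 2 := fun a => if a = G.N then 0 else Z' (ε a)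
  let Z : V × Fin 3 → ZMod 2 := fun d =>
    if d.1 ∈ M'.A then Z' d else
      if hh : ∃ k, k < G.N ∧ G.isK k = false ∧ ε k = d then zc (G.sr hh.choose) else 0
  have ZA : ∀ d, d.1 ∈ M'.A → Z d = Z' d := by
    intro d hd
    simp only [Z, hd, if_pos]
  have ZR : ∀ k < G.N, G.isK k = false → Z (ε k) = zc (G.sr k) := by
    intro k hk hK
    have h1 : ¬ (ε k).1 ∈ M'.A := by rw [K_act h hr hk, hK]; decide
    have h2 : ∃ l, l < G.N ∧ G.isK l = false ∧ ε l = ε k := ⟨k, hk, hK, rfl⟩
    simp only [Z, h1, if_neg, h2, dif_pos, not_false_eq_true]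
    have h3 := h2.choose_spec
    rw [show h2.choose = k from h.inj' hG h3.1 hk h3.2.2]
  have Zout : ∀ d, d.1 ∉ M.A → Z d = 0 := by
    intro d hd
    have h1 : ¬ d.1 ∈ M'.A := fun q => hd ((hr.A_ _).1 q).1
    have h2 : ¬ ∃ k, k < G.N ∧ G.isK k = false ∧ ε k = d := by
      rintro ⟨k, hk, _, rfl⟩
      exact hd (h.act k hk)
    simp only [Z, h1, h2, if_neg, dif_neg, not_false_eq_true]
  have zc_eqv : ∀ a b, (a = G.N ∨ (a < G.N ∧ G.isK a = true)) → G.eqv a b = true → zc a = zc b := by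
    intro a b ha hab
    unfold Gd.eqv at hab
    simp only [Bool.or_eq_true, beq_iff_eq, Bool.and_eq_true, bne_iff_ne, ne_eq] at hab
    rcases hab with rfl | ⟨⟨h1, h2⟩, h3⟩
    · rfl
    · rcases ha with ha | ⟨ha1, ha2⟩
      · exact absurd ha h1
      · subst h3
        simp only [zc, h1, h2, if_neg, not_false_eq_true]
        rw [← hr.K_ a ha1 ha2, hZ'.sym]
  have symK : ∀ k < G.N, G.isK k = true → Z (ε (G.p k)) = Z (ε k) := by
    intro k hk hK
    have g2 := hG.h2 k hk hK
    have g1 := hG.h1 k hk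
    rw [ZR _ g1.1 g2.2.2.2.2, ZA _ ((K_act h hr hk).2 hK)]
    rcases hG.h4 k hk hK with q | q
    · rw [q]
      simp only [zc, (ne_of_lt hk), if_neg, not_false_eq_true]
    · rw [q]
      simp only [zc, (ne_of_lt g2.2.1), if_neg, not_false_eq_true]
      rw [← hr.K_ k hk hK, hZ'.sym]
  have sym : ∀ d, Z (M.al d) = Z d := by
    intro d
    by_cases hd : d.1 ∈ M.A
    · rcases dart_trich h hr d hd with ⟨c1, c2⟩ | ⟨k, hk, rfl⟩
      · have h1 := O_al h hG ((hr.A_ _).1 c1) (fun k hk _ => c2 k hk)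
        have h2 : (M.al d).1 ∈ M'.A := (hr.A_ _).2 h1.1
        rw [ZA _ h2, ZA _ c1, ← hr.O_ d c1 (fun k hk _ => c2 k hk), hZ'.sym]
      · rw [h.al_ k hk]
        have g1 := hG.h1 k hk
        cases hK : G.isK k with
        | true => exact symK k hk hK
        | false =>
          cases hK2 : G.isK (G.p k) with
          | true =>
            have := symK _ g1.1 hK2
            rw [g1.2.1] at this
            exact this.symm
          | false =>
            rw [ZR _ hk hK, ZR _ g1.1 hK2]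
            exact (zc_eqv _ _ (hG.h3 k hk hK) (hG.h5 k hk hK hK2)).symm
    · rw [M.out d hd]
  refine ⟨Z, ⟨sym, ?_, Zout⟩, ZA, ?_⟩
  · intro v
    by_cases hv : v ∈ M'.A
    · rw [← hZ'.sum v]
      apply Finset.sum_congr rfl
      intro i _
      exact ZA _ hv
    · by_cases hvA : v ∈ M.A
      · have : ∃ k < 3 * G.m, G.isK k = false ∧ (ε k).1 = v := by
          by_contra hc
          push Not at hc
          exact hv ((hr.A_ _).2 ⟨hvA, fun k hk hK => hc k hk hK⟩)
        obtain ⟨k, hk, hK, rfl⟩ := this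
        have hN : G.N = 3 * G.m + G.t := rfl
        have hx : k / 3 < G.m := by omega
        have hx0 : 3 * (k / 3) < 3 * G.m := by omega
        have hv' : (ε k).1 = (ε (3 * (k / 3))).1 := h.vert' hk (by omega)
        have hK0 : G.isK (3 * (k / 3)) = false := by
          rw [← isK_div hk hx0 (by omega), hK]
        have hK1 : G.isK (3 * (k / 3) + 1) = false := by
          rw [← isK_div hk (by omega) (by omega), hK]
        have hK2 : G.isK (3 * (k / 3) + 2) = false := by
          rw [← isK_div hk (by omega) (by omega), hK]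
        rw [hv', ← sum3 Z (ε (3 * (k / 3)))]
        have e1 : sg (ε (3 * (k / 3))) = ε (3 * (k / 3) + 1) := by
          rw [← h.sg_ _ hx0, s3_0]
        have e2 : sg (ε (3 * (k / 3) + 1)) = ε (3 * (k / 3) + 2) := by
          rw [← h.sg_ _ (by omega), s3_1]
        rw [e1, e2, ZR _ (by omega) hK0, ZR _ (by omega) hK1, ZR _ (by omega) hK2]
        have z0 : zc G.N = 0 := by simp [zc]
        have s0 := hG.h3 (3 * (k / 3)) (by omega) hK0
        have s1 := hG.h3 (3 * (k / 3) + 1) (by omega) hK1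
        rcases hG.h6 (k / 3) hx hK0 with ⟨a, b⟩ | ⟨a, b⟩ | ⟨a, b⟩
        · rw [a, z0, zc_eqv _ _ s1 b, zero_add]; exact z2_add_self _
        · rw [a, z0, zc_eqv _ _ s0 b, add_zero]; exact z2_add_self _
        · rw [a, z0, zc_eqv _ _ s0 b, add_zero]; exact z2_add_self _
      · apply Finset.sum_eq_zero
        intro i _
        exact Zout _ hvA
  · intro k hk hK hs
    rw [ZR k hk hK, hs]
    simp [zc]

namespace Gd
variable (G : Gd)

def hs (k : ℕ) : ℕ := if k < 3 * G.m then s3 k else k + G.t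

def plrows : List ℕ :=
  (List.range G.N).map (fun k => (1 <<< G.p k) ^^^ (1 <<< G.hs k)) ++
  ((List.range (3 * G.m)).filter (fun k => !G.isK k && G.sr k == G.N)).map
    (fun k => (1 <<< k) ^^^ (1 <<< s3 k))

def plconcl : List ℕ :=
  ((List.range G.N).filter (fun k => G.isK k)).map (fun k => (1 <<< G.p' k) ^^^ (1 <<< G.hs k))

end Gd

/-- values of potentials on codes -/
def hz (G : Gd) (ε : ℕ → V × Fin 3) (H : V × Fin 3 → ZMod 2) (b : ℕ) : ZMod 2 :=
  if b < G.N then H (ε b) else H (sg (ε (b - G.t)))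

theorem hz_hs (h : Emb M G ε) {H : V × Fin 3 → ZMod 2} {k : ℕ} (hk : k < G.N) :
    hz G ε H (G.hs k) = H (sg (ε k)) := by
  unfold hz Gd.hs
  have hN : G.N = 3 * G.m + G.t := rfl
  by_cases c : k < 3 * G.m
  · have : s3 k < G.N := by have := s3_lt c; omega
    simp only [c, if_pos, this]
    rw [h.sg_ k c]
  · have h1 : ¬ (k + G.t < G.N) := by omega
    simp only [c, if_neg, h1, not_false_eq_true]
    rw [Nat.add_sub_cancel]

theorem hs_lt {k : ℕ} (hk : k < G.N) : G.hs k < G.N + G.t := by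
  have hN : G.N = 3 * G.m + G.t := rfl
  unfold Gd.hs
  split_ifs with c
  · have := s3_lt c; omega
  · omega

theorem rows_zero (h : Emb M G ε) (hG : G.Ok) {H : V × Fin 3 → ZMod 2} (hH : M.Inv H)
    (hdel : ∀ k < 3 * G.m, G.isK k = false → G.sr k = G.N → H (ε k) = H (sg (ε k))) :
    ∀ l ∈ G.plrows, vl (G.N + G.t) (hz G ε H) l = 0 := by
  intro l hl
  have hN : G.N = 3 * G.m + G.t := rfl
  unfold Gd.plrows at hl
  rw [List.mem_append] at hl
  rcases hl with hl | hl
  · obtain ⟨k, hk, rfl⟩ := List.mem_map.1 hl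
    rw [List.mem_range] at hk
    have g1 := (hG.h1 k hk).1
    rw [vl_xor, vl_one _ (by omega), vl_one _ (hs_lt hk), hz_hs h hk]
    have : hz G ε H (G.p k) = H (ε (G.p k)) := by
      unfold hz; rw [if_pos g1]
    rw [this, ← h.al_ k hk, hH _ (h.act k hk)]
    exact z2_add_self _
  · obtain ⟨k, hk, rfl⟩ := List.mem_map.1 hl
    rw [List.mem_filter, List.mem_range] at hk
    obtain ⟨hk1, hk2⟩ := hk
    simp only [Bool.and_eq_true, Bool.not_eq_true', beq_iff_eq] at hk2
    have := s3_lt hk1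
    rw [vl_xor, vl_one _ (by omega), vl_one _ (by omega)]
    have e1 : hz G ε H k = H (ε k) := by unfold hz; rw [if_pos (by omega)]
    have e2 : hz G ε H (s3 k) = H (sg (ε k)) := by unfold hz; rw [if_pos (by omega), h.sg_ k hk1]
    rw [e1, e2, hdel k hk1 hk2.1 hk2.2]
    exact z2_add_self _

theorem red_inv (h : Emb M G ε) (hG : G.Ok) (hr : Red M M' G ε) (n : ℕ)
    (hc : elim n G.plrows G.plconcl = true) {H : V × Fin 3 → ZMod 2} (hH : M.Inv H)
    (hdel : ∀ k < 3 * G.m, G.isK k = false → G.sr k = G.N → H (ε k) = H (sg (ε k))) : M'.Inv H := by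
  have hN : G.N = 3 * G.m + G.t := rfl
  have hrows := rows_zero h hG hH hdel
  have hcc := elim_sound n _ _ hc hrows
  intro d hd
  have hdA := ((hr.A_ _).1 hd).1
  rcases dart_trich h hr d hdA with ⟨c1, c2⟩ | ⟨k, hk, rfl⟩
  · rw [hr.O_ d hd (fun k hk _ => c2 k hk)]
    exact hH d hdA
  · have hK := (K_act h hr hk).1 hd
    rw [hr.K_ k hk hK]
    have hmem : (1 <<< G.p' k) ^^^ (1 <<< G.hs k) ∈ G.plconcl := by
      unfold Gd.plconcl
      apply List.mem_map.2
      refine ⟨k, ?_, rfl⟩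
      rw [List.mem_filter, List.mem_range]
      exact ⟨hk, hK⟩
    have h1 := hcc _ hmem
    have g2 := hG.h2 k hk hK
    rw [vl_xor, vl_one _ (by omega), vl_one _ (hs_lt hk), hz_hs h hk] at h1
    have : hz G ε H (G.p' k) = H (ε (G.p' k)) := by
      unfold hz; rw [if_pos g2.2.1]
    rw [this] at h1
    have t := z2_add_self (H (sg (ε k)))
    linear_combination h1 - t

theorem red_planar (h : Emb M G ε) (hG : G.Ok) (hr : Red M M' G ε) (hpl : M.Pl) (n : ℕ)
    (hc : elim n G.plrows G.plconcl = true) : M'.Pl := by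
  intro Z' hZ'
  obtain ⟨Z, hZ, hZA, hZd⟩ := lift_cyc h hG hr Z' hZ'
  obtain ⟨H, hH, hHZ⟩ := hpl Z hZ
  have hN : G.N = 3 * G.m + G.t := rfl
  have hdel : ∀ k < 3 * G.m, G.isK k = false → G.sr k = G.N → H (ε k) = H (sg (ε k)) := by
    intro k hk hK hs
    have h1 := hZd k (by omega) hK hs
    rw [hHZ _ (h.act k (by omega))] at h1
    have := z2_add_self (H (sg (ε k)))
    linear_combination h1 - this
  refine ⟨H, red_inv h hG hr n hc hH hdel, ?_⟩
  intro d hd
  rw [← hZA d hd]
  exact hHZ d ((hr.A_ _).1 hd).1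

theorem CMap.const_of (M : CMap V) (hA : M.Conn M.A) {D : V × Fin 3 → ZMod 2}
    (h1 : ∀ d, d.1 ∈ M.A → D (sg d) = D d) (h2 : ∀ d, d.1 ∈ M.A → D (M.al d) = D d)
    {d e : V × Fin 3} (hd : d.1 ∈ M.A) (he : e.1 ∈ M.A) : D d = D e := by
  classical
  have hv : ∀ d e : V × Fin 3, d.1 ∈ M.A → e.1 = d.1 → D e = D d := by
    intro d e hd hde
    rcases dart_cases hde with rfl | rfl | rfl
    · rfl
    · exact h1 d hd
    · rw [h1 (sg d) hd, h1 d hd]
  set R := M.A.filter (fun v => D (v, 0) = D d) with hR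
  have hRA : R = M.A := by
    by_contra hne
    obtain ⟨f, hf1, hf2, hf3⟩ := hA R (Finset.filter_subset _ _)
      ⟨d.1, by rw [hR, Finset.mem_filter]; exact ⟨hd, hv d (d.1, 0) hd rfl⟩⟩ hne
    apply hf3
    rw [hR, Finset.mem_filter] at hf1 ⊢
    refine ⟨hf2, ?_⟩
    rw [hv (M.al f) ((M.al f).1, 0) hf2 rfl, h2 f hf1.1, ← hf1.2]
    exact (hv f (f.1, 0) hf1.1 rfl).symm
  have : e.1 ∈ R := by rw [hRA]; exact he
  rw [hR, Finset.mem_filter] at this
  rw [← this.2]
  exact hv e (e.1, 0) he rfl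

/-- a relation between faces of the reduced map -/
theorem red_SC (h : Emb M G ε) (hG : G.Ok) (hr : Red M M' G ε) (hpl : M.Pl) (hc3 : M'.Conn M'.A)
    (n : ℕ) {a b : ℕ} (ha : a < G.N) (hb : b < G.N) (hKa : G.isK a = true) (hKb : G.isK b = true)
    (hcp : elim n G.plrows G.plconcl = true)
    (hc : elim n G.plrows [(1 <<< a) ^^^ (1 <<< b)] = true) : M'.SC (ε a) (ε b) := by
  classical
  have hN : G.N = 3 * G.m + G.t := rfl
  set H' : V × Fin 3 → ZMod 2 := fun e => if M'.SC (ε a) e then 1 else 0 with hH'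
  have hI' : M'.Inv H' := M'.ind_inv (ε a)
  let Z' : V × Fin 3 → ZMod 2 := fun d => if d.1 ∈ M'.A then H' d + H' (sg d) else 0
  have hZ' : M'.Cyc Z' := by
    refine ⟨?_, ?_, ?_⟩
    · intro d
      by_cases hd : d.1 ∈ M'.A
      · have h1 := hI' d hd
        have h2 := hI' _ (M'.act _ hd)
        rw [M'.inv] at h2
        simp only [Z', hd, M'.act _ hd, if_pos]
        rw [h1, ← h2]; ring
      · rw [M'.out d hd]
    · intro v
      by_cases hv : v ∈ M'.A
      · rw [← sum3 Z' (v, 0)]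
        simp only [Z', hv, if_pos, sg_fst, sg3]
        have a1 := z2_add_self (H' (v, 0))
        have a2 := z2_add_self (H' (sg (v, 0)))
        have a3 := z2_add_self (H' (sg (sg (v, 0))))
        linear_combination a1 + a2 + a3
      · apply Finset.sum_eq_zero
        intro i _
        simp only [Z', hv, if_neg, not_false_eq_true]
    · intro d hd
      simp only [Z', hd, if_neg, not_false_eq_true]
  obtain ⟨Z, hZ, hZA, hZd⟩ := lift_cyc h hG hr Z' hZ'
  obtain ⟨H, hH, hHZ⟩ := hpl Z hZ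
  have hdel : ∀ k < 3 * G.m, G.isK k = false → G.sr k = G.N → H (ε k) = H (sg (ε k)) := by
    intro k hk hK hs
    have h1 := hZd k (by omega) hK hs
    rw [hHZ _ (h.act k (by omega))] at h1
    have := z2_add_self (H (sg (ε k)))
    linear_combination h1 - this
  have hrows := rows_zero h hG hH hdel
  have h1 := elim_sound n _ _ hc hrows _ (List.mem_singleton.2 rfl)
  rw [vl_xor, vl_one _ (by omega), vl_one _ (by omega)] at h1
  have e1 : hz G ε H a = H (ε a) := by unfold hz; rw [if_pos ha]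
  have e2 : hz G ε H b = H (ε b) := by unfold hz; rw [if_pos hb]
  rw [e1, e2] at h1
  -- H + H' is constant
  let D : V × Fin 3 → ZMod 2 := fun d => H d + H' d
  have D1 : ∀ d, d.1 ∈ M'.A → D (sg d) = D d := by
    intro d hd
    have q := hZA d hd
    rw [hHZ d ((hr.A_ _).1 hd).1] at q
    simp only [Z', hd, if_pos] at q
    show H (sg d) + H' (sg d) = H d + H' d
    have t := z2_add_self (H' (sg d))
    have t2 := z2_add_self (H d)
    linear_combination q + t - t2
  have hI : M'.Inv H := red_inv h hG hr n hcp hH hdel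
  have D2 : ∀ d, d.1 ∈ M'.A → D (M'.al d) = D d := by
    intro d hd
    rw [← D1 d hd]
    show H (M'.al d) + H' (M'.al d) = H (sg d) + H' (sg d)
    rw [hI d hd, hI' d hd]
  have haA := (K_act h hr ha).2 hKa
  have hbA := (K_act h hr hb).2 hKb
  have h3 := M'.const_of hc3 D1 D2 haA hbA
  have h4 : H' (ε a) = H' (ε b) := by
    have h5 : H (ε a) + H' (ε a) = H (ε b) + H' (ε b) := h3
    have t := z2_add_self (H (ε b))
    linear_combination h5 - h1 + t
  rw [hH'] at h4
  simp only [CMap.SC.refl M' (ε a), if_pos] at h4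
  by_contra hcon
  rw [if_neg hcon] at h4
  exact absurd h4 (by decide)

end Pool.Agent.H24
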