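import Pool.Agent.H24.Elim

set_option autoImplicit false
set_option linter.unusedSectionVars false
set_option linter.unusedVariables false

namespace Pool.Agent.H24

open Finset Equiv.Perm

/-- A replacement scheme: `m` inner vertices, `t` terminals, partner codes before (`g`) and
after (`g'`), the kept inner vertices and the source codes for lifting cycle vectors. -/
structure Gd where
  m : ℕ
  t : ℕ
  g : List ℕ
  g' : List ℕ
  kept : List ℕ
  src : List ℕ

namespace Gd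

variable (G : Gd)

def N : ℕ := 3 * G.m + G.t
def p (k : ℕ) : ℕ := G.g.getD k 0
def p' (k : ℕ) : ℕ := G.g'.getD k 0
def sr (k : ℕ) : ℕ := G.src.getD k 0
/-- code survives -/
def isK (k : ℕ) : Bool := decide (3 * G.m ≤ k) || G.kept.contains (k / 3)

def eqv (a b : ℕ) : Bool := (a == b) || ((a != G.N) && (b != G.N) && (G.p' a == b))

/-- validity conditions -/
structure Ok : Prop where
  h1 : ∀ k < G.N, G.p k < G.N ∧ G.p (G.p k) = k ∧ G.p k ≠ k ∧ (3 * G.m ≤ k → G.p k < 3 * G.m)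
  h2 : ∀ k < G.N, G.isK k = true → G.isK (G.p' k) = true ∧ G.p' k < G.N ∧ G.p' (G.p' k) = k ∧
    G.p' k ≠ k ∧ G.isK (G.p k) = false
  h3 : ∀ k < G.N, G.isK k = false → G.sr k = G.N ∨ (G.sr k < G.N ∧ G.isK (G.sr k) = true)
  h4 : ∀ k < G.N, G.isK k = true → G.sr (G.p k) = k ∨ G.sr (G.p k) = G.p' k
  h5 : ∀ k < G.N, G.isK k = false → G.isK (G.p k) = false → G.eqv (G.sr k) (G.sr (G.p k)) = true
  h6 : ∀ x < G.m, G.isK (3 * x) = false →
    (G.sr (3 * x) = G.N ∧ G.eqv (G.sr (3 * x + 1)) (G.sr (3 * x + 2)) = true) ∨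
    (G.sr (3 * x + 1) = G.N ∧ G.eqv (G.sr (3 * x)) (G.sr (3 * x + 2)) = true) ∨
    (G.sr (3 * x + 2) = G.N ∧ G.eqv (G.sr (3 * x)) (G.sr (3 * x + 1)) = true)

end Gd

variable {V : Type} [Fintype V] [DecidableEq V]

/-- an embedded configuration -/
structure Emb (M : CMap V) (G : Gd) (ε : ℕ → V × Fin 3) : Prop where
  sg_ : ∀ k < 3 * G.m, ε (s3 k) = sg (ε k)
  al_ : ∀ k < G.N, M.al (ε k) = ε (G.p k)
  inj : ∀ k < 3 * G.m, ∀ l < 3 * G.m, ε k = ε l → k = l
  act : ∀ k < G.N, (ε k).1 ∈ M.A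
  term : ∀ j < G.N, 3 * G.m ≤ j → ∀ k < 3 * G.m, (ε j).1 ≠ (ε k).1

namespace Emb

variable {M : CMap V} {G : Gd} {ε : ℕ → V × Fin 3}

theorem vert (h : Emb M G ε) {k l : ℕ} (hk : k < 3 * G.m) (hl : l < 3 * G.m)
    (he : (ε k).1 = (ε l).1) : k / 3 = l / 3 := by
  have h1 := h.sg_ k hk
  have h2 := h.sg_ _ (s3_lt hk)
  rcases dart_cases he.symm with h3 | h3 | h3
  · rw [h.inj _ hl _ hk h3]
  · rw [← h1] at h3
    rw [h.inj _ hl _ (s3_lt hk) h3, s3_div]
  · rw [← h1, ← h2] at h3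
    rw [h.inj _ hl _ (s3_lt (s3_lt hk)) h3, s3_div, s3_div]

theorem vert' (h : Emb M G ε) {k l : ℕ} (hk : k < 3 * G.m) (he : k / 3 = l / 3) : (ε k).1 = (ε l).1 := by
  have h1 := h.sg_ k hk
  have h2 := h.sg_ _ (s3_lt hk)
  rcases code_cases he with h3 | h3 | h3
  · rw [h3]
  · rw [h3, h1, sg_fst]
  · rw [h3, h2, sg_fst, h1, sg_fst]

theorem inj' (h : Emb M G ε) (hG : G.Ok) {k l : ℕ} (hk : k < G.N) (hl : l < G.N) (he : ε k = ε l) :
    k = l := by
  by_cases c1 : k < 3 * G.m <;> by_cases c2 : l < 3 * G.m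
  · exact h.inj k c1 l c2 he
  · exact absurd (congrArg Prod.fst he.symm) (h.term l hl (not_lt.1 c2) k c1)
  · exact absurd (congrArg Prod.fst he) (h.term k hk (not_lt.1 c1) l c2)
  · have h1 := h.al_ k hk
    have h2 := h.al_ l hl
    have e1 := (hG.h1 k hk)
    have e2 := (hG.h1 l hl)
    have : G.p k = G.p l := by
      apply h.inj _ (e1.2.2.2 (not_lt.1 c1)) _ (e2.2.2.2 (not_lt.1 c2))
      rw [← h1, ← h2, he]
    rw [← e1.2.1, this, e2.2.1]

end Emb

/-- relation between a map and its reduction -/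
structure Red (M M' : CMap V) (G : Gd) (ε : ℕ → V × Fin 3) : Prop where
  A_ : ∀ v, v ∈ M'.A ↔ v ∈ M.A ∧ ∀ k < 3 * G.m, G.isK k = false → (ε k).1 ≠ v
  K_ : ∀ k < G.N, G.isK k = true → M'.al (ε k) = ε (G.p' k)
  O_ : ∀ d, d.1 ∈ M'.A → (∀ k < G.N, G.isK k = true → ε k ≠ d) → M'.al d = M.al d

theorem isK_div {G : Gd} {k l : ℕ} (hk : k < 3 * G.m) (hl : l < 3 * G.m) (h : k / 3 = l / 3) :
    G.isK k = G.isK l := by
  unfold Gd.isK
  rw [h]
  congr 1
  simp only [decide_eq_decide]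
  omega

theorem isK_term {G : Gd} {k : ℕ} (hk : 3 * G.m ≤ k) : G.isK k = true := by
  unfold Gd.isK; simp [hk]

section
variable {M : CMap V} {G : Gd} {ε : ℕ → V × Fin 3}

theorem K_mem (h : Emb M G ε) {k : ℕ} (hk : k < G.N) (hK : G.isK k = true) :
    ∀ l < 3 * G.m, G.isK l = false → (ε l).1 ≠ (ε k).1 := by
  intro l hl hlK he
  by_cases c : k < 3 * G.m
  · have := h.vert hl c he
    rw [isK_div hl c this, hK] at hlK
    exact absurd hlK (by decide)
  · exact h.term k hk (not_lt.1 c) l hl he.symm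

/-- a dart of the remaining part which is not a surviving code has its partner in the remaining part,
again not a surviving code -/
theorem O_al (h : Emb M G ε) (hG : G.Ok) {d : V × Fin 3}
    (hd : d.1 ∈ M.A ∧ ∀ k < 3 * G.m, G.isK k = false → (ε k).1 ≠ d.1)
    (hd2 : ∀ k < G.N, G.isK k = true → ε k ≠ d) :
    ((M.al d).1 ∈ M.A ∧ ∀ k < 3 * G.m, G.isK k = false → (ε k).1 ≠ (M.al d).1) ∧
      (∀ k < G.N, ε k ≠ M.al d) := by
  have key : ∀ k < G.N, ε k ≠ M.al d := by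
    intro k hk he
    have h1 : d = ε (G.p k) := by rw [← h.al_ k hk, he, M.inv]
    have hpk := (hG.h1 k hk).1
    cases hK : G.isK (G.p k) with
    | true => exact hd2 _ hpk hK h1.symm
    | false =>
      have : G.p k < 3 * G.m := by
        by_contra hc
        rw [isK_term (not_lt.1 hc)] at hK
        exact absurd hK (by decide)
      exact hd.2 _ this hK (by rw [h1])
  refine ⟨⟨M.act _ hd.1, ?_⟩, key⟩
  intro k hk hK he
  have hN : G.N = 3 * G.m + G.t := rfl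
  have h1 := h.sg_ k hk
  have h2 := h.sg_ _ (s3_lt hk)
  have l1 : k < G.N := by omega
  have l2 : s3 k < G.N := by have := s3_lt hk; omega
  have l3 : s3 (s3 k) < G.N := by have := s3_lt (s3_lt hk); omega
  rcases dart_cases (d := ε k) (e := M.al d) he.symm with h3 | h3 | h3
  · exact key k l1 h3.symm
  · rw [← h1] at h3; exact key _ l2 h3.symm
  · rw [← h1, ← h2] at h3; exact key _ l3 h3.symm

theorem exists_red (M : CMap V) (G : Gd) (ε : ℕ → V × Fin 3) (h : Emb M G ε) (hG : G.Ok) :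
    ∃ M' : CMap V, Red M M' G ε := by
  classical
  let A' : Finset V := M.A.filter (fun v => ∀ k < 3 * G.m, G.isK k = false → (ε k).1 ≠ v)
  have hA' : ∀ v, v ∈ A' ↔ v ∈ M.A ∧ ∀ k < 3 * G.m, G.isK k = false → (ε k).1 ≠ v := by
    intro v; simp [A']
  let al' : V × Fin 3 → V × Fin 3 := fun d =>
    if hd : d.1 ∈ A' then
      if hk : ∃ k, k < G.N ∧ G.isK k = true ∧ ε k = d then ε (G.p' hk.choose) else M.al d
    else d
  have alK : ∀ k < G.N, G.isK k = true → al' (ε k) = ε (G.p' k) := by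
    intro k hk hK
    have h1 : (ε k).1 ∈ A' := (hA' _).2 ⟨h.act k hk, K_mem h hk hK⟩
    have h2 : ∃ l, l < G.N ∧ G.isK l = true ∧ ε l = ε k := ⟨k, hk, hK, rfl⟩
    simp only [al', h1, h2, dif_pos]
    have h3 := h2.choose_spec
    have : h2.choose = k := h.inj' hG h3.1 hk h3.2.2
    rw [this]
  have alO : ∀ d, d.1 ∈ A' → (∀ k < G.N, G.isK k = true → ε k ≠ d) → al' d = M.al d := by
    intro d hd h2
    have h3 : ¬ ∃ k, k < G.N ∧ G.isK k = true ∧ ε k = d := by
      rintro ⟨k, hk, hK, he⟩; exact h2 k hk hK he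
    simp only [al', hd, h3, dif_pos, dif_neg, not_false_eq_true]
  have alout : ∀ d, d.1 ∉ A' → al' d = d := by
    intro d hd
    simp only [al', hd, dif_neg, not_false_eq_true]
  have cases : ∀ d, d.1 ∉ A' ∨ (∃ k, k < G.N ∧ G.isK k = true ∧ ε k = d) ∨
      (d.1 ∈ A' ∧ ∀ k < G.N, G.isK k = true → ε k ≠ d) := by
    intro d
    by_cases c1 : d.1 ∈ A'
    · by_cases c2 : ∃ k, k < G.N ∧ G.isK k = true ∧ ε k = d
      · exact Or.inr (Or.inl c2)
      · right; right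
        refine ⟨c1, ?_⟩
        intro k hk hK he
        exact c2 ⟨k, hk, hK, he⟩
    · exact Or.inl c1
  have KA : ∀ k < G.N, G.isK k = true → (ε k).1 ∈ A' := by
    intro k hk hK
    exact (hA' _).2 ⟨h.act k hk, K_mem h hk hK⟩
  refine ⟨⟨A', al', ?_, ?_, ?_, alout⟩, ⟨hA', alK, alO⟩⟩
  · intro d
    rcases cases d with c | ⟨k, hk, hK, rfl⟩ | ⟨c1, c2⟩
    · rw [alout d c, alout d c]
    · have h2 := hG.h2 k hk hK
      rw [alK k hk hK, alK _ h2.2.1 h2.1, h2.2.2.1]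
    · have h2 := O_al h hG ((hA' _).1 c1) c2
      rw [alO d c1 c2, alO (M.al d) ((hA' _).2 h2.1) (fun k hk _ => h2.2 k hk), M.inv]
  · intro d hd
    rcases cases d with c | ⟨k, hk, hK, rfl⟩ | ⟨c1, c2⟩
    · exact absurd hd c
    · have h2 := hG.h2 k hk hK
      rw [alK k hk hK]
      exact KA _ h2.2.1 h2.1
    · have h2 := O_al h hG ((hA' _).1 c1) c2
      rw [alO d c1 c2]
      exact (hA' _).2 h2.1
  · intro d hd
    rcases cases d with c | ⟨k, hk, hK, rfl⟩ | ⟨c1, c2⟩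
    · exact absurd hd c
    · have h2 := hG.h2 k hk hK
      rw [alK k hk hK]
      intro he
      exact h2.2.2.2.1 (h.inj' hG h2.2.1 hk he)
    · rw [alO d c1 c2]
      exact M.nofix d ((hA' _).1 c1).1

end

end Pool.Agent.H24
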