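import Pool.Agent.H24.Contract

set_option autoImplicit false
set_option linter.unusedSectionVars false
set_option linter.unusedVariables false
set_option maxRecDepth 100000

namespace Pool.Agent.H24

open Finset Equiv.Perm

variable {V : Type} [Fintype V] [DecidableEq V]

/-- half cycles on a side avoiding a colour -/
structure Hf (M : CMap V) (S : Finset V) (c : V → Fin 3) (p : Fin 3) (Z : V × Fin 3 → ZMod 2) : Prop where
  sym : ∀ d, d.1 ∈ S → (M.al d).1 ∈ S → Z (M.al d) = Z d
  sum : ∀ v ∈ S, ∑ i : Fin 3, Z (v, i) = 0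
  col : ∀ d, d.1 ∈ S → c d.1 = p → Z d = 0

structure Weak (M : CMap V) (S : Finset V) (c : V → Fin 3) : Prop where
  pr : ∀ d, d.1 ∈ S → (M.al d).1 ∈ S → c d.1 ≠ c (M.al d).1
  ac : ∀ p Z, Hf M S c p Z → (∀ d, d.1 ∈ S → (M.al d).1 ∉ S → Z d = 0) → ∀ d, d.1 ∈ S → Z d = 0

def Strong (M : CMap V) (S : Finset V) (c : V → Fin 3) (p : Fin 3) : Prop :=
  ∀ Z, Hf M S c p Z → ∀ d, d.1 ∈ S → Z d = 0

section
variable {M Mc : CMap V} {S : Finset V} {xs : Fin 3 → V × Fin 3} {t : V} {c c' : V → Fin 3}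

theorem Hf.perm {p : Fin 3} {Z : V × Fin 3 → ZMod 2} (π : Equiv.Perm (Fin 3))
    (h : Hf M S (fun v => π (c v)) p Z) : Hf M S c (π.symm p) Z := by
  refine ⟨h.sym, h.sum, ?_⟩
  intro d hd hc
  apply h.col d hd
  show π (c d.1) = p
  rw [hc, Equiv.apply_symm_apply]

theorem Weak.perm (h : Weak M S c) (π : Equiv.Perm (Fin 3)) : Weak M S (fun v => π (c v)) := by
  refine ⟨?_, ?_⟩
  · intro d hd hd2 he
    exact h.pr d hd hd2 (π.injective he)
  · intro p Z hZ h0
    exact h.ac _ Z (hZ.perm π) h0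

theorem Strong.perm {p : Fin 3} (h : Strong M S c p) (π : Equiv.Perm (Fin 3)) :
    Strong M S (fun v => π (c v)) (π p) := by
  intro Z hZ
  have := hZ.perm π
  rw [Equiv.symm_apply_apply] at this
  exact h Z this

theorem Hf.congr {p : Fin 3} {Z : V × Fin 3 → ZMod 2} (hcc : ∀ v ∈ S, c v = c' v)
    (h : Hf M S c p Z) : Hf M S c' p Z :=
  ⟨h.sym, h.sum, fun d hd hc => h.col d hd (by rw [hcc _ hd]; exact hc)⟩

theorem Weak.congr (hcc : ∀ v ∈ S, c v = c' v) (h : Weak M S c) : Weak M S c' := by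
  refine ⟨?_, ?_⟩
  · intro d hd hd2
    rw [← hcc _ hd, ← hcc _ hd2]
    exact h.pr d hd hd2
  · intro p Z hZ h0
    exact h.ac p Z (hZ.congr (fun v hv => (hcc v hv).symm)) h0

theorem Strong.congr {p : Fin 3} (hcc : ∀ v ∈ S, c v = c' v) (h : Strong M S c p) :
    Strong M S c' p := by
  intro Z hZ
  exact h Z (hZ.congr (fun v hv => (hcc v hv).symm))

theorem hf_sum (hS : S ⊆ M.A) (h : Cross M S xs) {p : Fin 3} {Z : V × Fin 3 → ZMod 2}
    (hZ : Hf M S c p Z) : Z (xs 0) + Z (xs 1) + Z (xs 2) = 0 := by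
  classical
  have h1 : ∑ d ∈ univ.filter (fun d : V × Fin 3 => d.1 ∈ S), Z d = 0 := by
    have : (univ.filter (fun d : V × Fin 3 => d.1 ∈ S)) = S ×ˢ (univ : Finset (Fin 3)) := by
      ext d; simp
    rw [this, Finset.sum_product]
    exact Finset.sum_eq_zero (fun v hv => hZ.sum v hv)
  have h2 : ∑ d ∈ M.ins S, Z d = 0 := by
    apply Finset.sum_involution (fun d _ => M.al d)
    · intro d hd
      have := M.mem_ins.1 hd
      rw [hZ.sym d this.1 this.2]
      exact z2_add_self _
    · intro d hd _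
      exact M.nofix d (hS (M.mem_ins.1 hd).1)
    · intro d hd
      rw [CMap.mem_ins] at *
      rw [M.inv]; exact ⟨hd.2, hd.1⟩
    · intro d _; exact M.inv d
  have h3 : ∑ d ∈ univ.image xs, Z d = Z (xs 0) + Z (xs 1) + Z (xs 2) := by
    rw [Finset.sum_image, Fin.sum_univ_three]
    intro i _ j _ hij
    exact h.inj i j hij
  rw [← h3, ← h1, ← zero_add (∑ d ∈ univ.image xs, Z d), ← h2, ← Finset.sum_union]
  · apply Finset.sum_congr _ (fun _ _ => rfl)
    ext d
    simp only [mem_union, CMap.mem_ins, mem_image, mem_univ, true_and, mem_filter]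
    constructor
    · rintro (h4 | ⟨i, rfl⟩)
      · exact h4.1
      · exact h.in_ i
    · intro h4
      by_cases c : (M.al d).1 ∈ S
      · exact Or.inl ⟨h4, c⟩
      · exact Or.inr (h.all d h4 c)
  · rw [Finset.disjoint_left]
    intro d hd hd2
    rw [CMap.mem_ins] at hd
    rw [mem_image] at hd2
    obtain ⟨i, _, rfl⟩ := hd2
    exact h.out_ i hd.2

theorem z2_three {a b c : ZMod 2} (h : a + b + c = 0) (i j : Fin 3) (hij : i ≠ j)
    (hi : ![a, b, c] i = 0) (hj : ![a, b, c] j = 0) : ∀ k, ![a, b, c] k = 0 := by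
  revert a b c i j
  decide

theorem glue (hS : S ⊆ M.A) (h : Cross M S xs) (w1 : Weak M S c) (w2 : Weak M (M.A \ S) c)
    (hx : ∀ i, c (xs i).1 ≠ c (M.al (xs i)).1)
    (hp : ∀ p, Strong M S c p ∨ Strong M (M.A \ S) c p ∨ ∃ i j, i ≠ j ∧
      (c (xs i).1 = p ∨ c (M.al (xs i)).1 = p) ∧ (c (xs j).1 = p ∨ c (M.al (xs j)).1 = p)) : Good M c := by
  have memT : ∀ v, v ∈ M.A \ S ↔ v ∈ M.A ∧ v ∉ S := fun v => Finset.mem_sdiff
  refine ⟨?_, ?_⟩
  · intro d hd
    by_cases c1 : d.1 ∈ S <;> by_cases c2 : (M.al d).1 ∈ S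
    · exact w1.pr d c1 c2
    · obtain ⟨i, rfl⟩ := h.all d c1 c2
      exact hx i
    · obtain ⟨i, hi⟩ := h.all (M.al d) c2 (by rw [M.inv]; exact c1)
      have := hx i
      rw [hi, M.inv] at this
      exact this.symm
    · exact w2.pr d ((memT _).2 ⟨hd, c1⟩) ((memT _).2 ⟨M.act _ hd, c2⟩)
  · intro p Z hZ hcol
    have f1 : Hf M S c p Z := ⟨fun d _ _ => hZ.sym d, fun v _ => hZ.sum v, fun d _ hc => hcol d hc⟩
    have f2 : Hf M (M.A \ S) c p Z := ⟨fun d _ _ => hZ.sym d, fun v _ => hZ.sum v, fun d _ hc => hcol d hc⟩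
    have cr : ∀ i, Z (xs i) = 0 := by
      rcases hp p with h1 | h1 | ⟨i, j, hij, hi, hj⟩
      · intro i
        exact h1 Z f1 _ (h.in_ i)
      · intro i
        rw [← hZ.sym]
        exact h1 Z f2 _ ((memT _).2 ⟨M.act _ (hS (h.in_ i)), h.out_ i⟩)
      · have hs := hf_sum hS h f1
        have zi : Z (xs i) = 0 := by
          rcases hi with q | q
          · exact hcol _ q
          · rw [← hZ.sym]; exact hcol _ q
        have zj : Z (xs j) = 0 := by
          rcases hj with q | q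
          · exact hcol _ q
          · rw [← hZ.sym]; exact hcol _ q
        have e : ∀ k, ![Z (xs 0), Z (xs 1), Z (xs 2)] k = Z (xs k) := by
          intro k; fin_cases k <;> rfl
        have := z2_three hs i j hij (by rw [e]; exact zi) (by rw [e]; exact zj)
        intro k
        rw [← e]; exact this k
    have a1 := w1.ac p Z f1 (by
      intro d hd hd2
      obtain ⟨i, rfl⟩ := h.all d hd hd2
      exact cr i)
    have a2 := w2.ac p Z f2 (by
      intro d hd hd2
      have hd' := (memT _).1 hd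
      have hdA := M.act _ hd'.1
      have hdS : (M.al d).1 ∈ S := by
        by_contra q
        exact hd2 ((memT _).2 ⟨hdA, q⟩)
      obtain ⟨i, hi⟩ := h.all (M.al d) hdS (by rw [M.inv]; exact hd'.2)
      rw [← hZ.sym, ← hi]
      exact cr i)
    intro d
    by_cases c1 : d.1 ∈ M.A
    · by_cases c2 : d.1 ∈ S
      · exact a1 d c2
      · exact a2 d ((memT _).2 ⟨c1, c2⟩)
    · exact hZ.out d c1

/-- extension of a half cycle to the contraction -/
theorem hf_ext (hS : S ⊆ M.A) (h : Cross M S xs) (hc : Contr M S xs t Mc) (ht : t ∉ S) {p : Fin 3}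
    {Z : V × Fin 3 → ZMod 2} (hZ : Hf M S c p Z) :
    Mc.Cyc (fun d => if d.1 = t then Z (xs d.2) else if d.1 ∈ S then Z d else 0) := by
  refine ⟨?_, ?_, ?_⟩
  · intro d
    by_cases hd : d.1 ∈ Mc.A
    swap
    · rw [Mc.out d hd]
    have nt : ∀ d : V × Fin 3, d.1 ∈ S → d.1 ≠ t := fun d hd q => ht (by rw [← q]; exact hd)
    rcases contr_cases h hc d hd with ⟨i, rfl⟩ | ⟨i, rfl⟩ | ⟨c1, c2⟩
    · rw [hc.T_]
      simp only [nt _ (h.in_ i), h.in_ i, if_true, if_false]
    · rw [hc.X_]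
      simp only [nt _ (h.in_ i), h.in_ i, if_true, if_false]
    · rw [hc.O_ d c1 c2]
      simp only [nt _ c1, nt _ c2, c1, c2, if_true, if_false]
      exact hZ.sym d c1 c2
  · intro v
    by_cases c1 : v = t
    · simp only [c1, if_true, Fin.sum_univ_three]
      exact hf_sum hS h hZ
    · by_cases c2 : v ∈ S
      · simp only [c1, c2, if_true, if_false]
        exact hZ.sum v c2
      · simp only [c1, c2, if_false, Finset.sum_const_zero]
  · intro d hd
    rw [hc.A_, Finset.mem_insert, not_or] at hd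
    simp only [hd.1, hd.2, if_false]

theorem weak_of_good (hS : S ⊆ M.A) (h : Cross M S xs) (hc : Contr M S xs t Mc) (ht : t ∉ S)
    (hg : Good Mc c) : Weak M S c := by
  have nt : ∀ d : V × Fin 3, d.1 ∈ S → d.1 ≠ t := fun d hd q => ht (by rw [← q]; exact hd)
  refine ⟨?_, ?_⟩
  · intro d hd hd2
    have := hg.proper d (by rw [hc.A_]; exact Finset.mem_insert_of_mem hd)
    rw [hc.O_ d hd hd2] at this
    exact this
  · intro p Z hZ h0 d hd
    have h1 := hf_ext hS h hc ht hZ
    have h2 := hg.acyc p _ h1 (by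
      intro d hd
      by_cases c1 : d.1 = t
      · simp only [c1, if_true]
        exact h0 _ (h.in_ _) (h.out_ _)
      · by_cases c2 : d.1 ∈ S
        · simp only [c1, c2, if_true, if_false]
          exact hZ.col d c2 hd
        · simp only [c1, c2, if_false]) d
    simp only [nt d hd, hd, if_true, if_false] at h2
    exact h2

theorem strong_of_good (hS : S ⊆ M.A) (h : Cross M S xs) (hc : Contr M S xs t Mc) (ht : t ∉ S)
    (hg : Good Mc c) {p : Fin 3} (hp : p ≠ c t) : Strong M S c p := by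
  have nt : ∀ d : V × Fin 3, d.1 ∈ S → d.1 ≠ t := fun d hd q => ht (by rw [← q]; exact hd)
  intro Z hZ d hd
  have h1 := hf_ext hS h hc ht hZ
  have h2 := hg.acyc p _ h1 (by
    intro d hd
    by_cases c1 : d.1 = t
    · rw [c1] at hd
      exact absurd hd.symm hp
    · by_cases c2 : d.1 ∈ S
      · simp only [c1, c2, if_true, if_false]
        exact hZ.col d c2 hd
      · simp only [c1, c2, if_false]) d
  simp only [nt d hd, hd, if_true, if_false] at h2
  exact h2

end

/-- stripping with an initial mask -/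
def forM (n : ℕ) (f t : ℕ → ℕ) (p r m0 : ℕ) : Bool :=
  let m := swp n f t p r m0
  (List.range n).all (fun x => !(m.testBit x) || t x == p)

theorem forM_sound {n : ℕ} {f t : ℕ → ℕ} {p r m0 : ℕ} {z : ℕ → ZMod 2} (hf : ∀ k < 3 * n, f k < 3 * n)
    (hz : ∀ k < 3 * n, z (f k) = z k) (hs : ∀ x < n, z (3 * x) + z (3 * x + 1) + z (3 * x + 2) = 0)
    (hp : ∀ k < 3 * n, t (k / 3) = p → z k = 0) (hm : ∀ k < 3 * n, m0.testBit (k / 3) = false → z k = 0)
    (h : forM n f t p r m0 = true) :
    ∀ k < 3 * n, z k = 0 := by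
  have h0 : SInv n t p z m0 := by
    intro k hk hor
    rcases hor with q | q
    · exact hm k hk q
    · exact hp k hk q
  have h1 := swp_inv (t := t) (p := p) hf hz hs r _ h0
  intro k hk
  apply h1 k hk
  unfold forM at h
  simp only [List.all_eq_true, List.mem_range] at h
  have := h (k / 3) (by omega)
  simp only [Bool.or_eq_true, Bool.not_eq_true', beq_iff_eq] at this
  exact this

def rot (k i : ℕ) : ℕ := 3 * (k / 3) + (k + i) % 3

def oddOK (f : ℕ → ℕ) (k0 : ℕ) (t : ℕ → ℕ) (j r : ℕ) : Bool :=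
  (List.range 8).all (fun x => decide (t x < 3)) &&
  (List.range 24).all (fun k => (k / 3 == k0 / 3) || (f k / 3 == k0 / 3) || t (k / 3) != t (f k / 3)) &&
  (List.range 3).all (fun p => forM 8 f t p r (255 ^^^ (1 <<< (k0 / 3)))) &&
  (List.range 3).all (fun i => i == j || t (f (rot k0 i) / 3) == t (f (rot k0 (j + 1)) / 3)) &&
  (t (f (rot k0 j) / 3) != t (f (rot k0 (j + 1)) / 3))

def OddAt (c : V → Fin 3) (xs : Fin 3 → V × Fin 3) (j : Fin 3) : Prop :=
  ∃ a b, a ≠ b ∧ (∀ i, i ≠ j → c (xs i).1 = a) ∧ c (xs j).1 = b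

theorem odd_sound {M Mc : CMap V} {S : Finset V} {xs : Fin 3 → V × Fin 3} {v0 : V} {f : ℕ → ℕ}
    {ψ : ℕ → V × Fin 3} (hi : IsoVia Mc 8 f ψ) (hS : S ⊆ M.A) (h : Cross M S xs)
    (hc : Contr M S xs v0 Mc) (ht : v0 ∉ S) {k0 : ℕ} (hk0 : k0 < 24) (e0 : ψ k0 = (v0, 0))
    {t : ℕ → ℕ} {j : Fin 3} {r : ℕ} (hok : oddOK f k0 t j r = true) :
    ∃ c, Weak M S c ∧ OddAt c xs j := by
  classical
  unfold oddOK at hok
  simp only [Bool.and_eq_true, List.all_eq_true, List.mem_range, decide_eq_true_eq, Bool.or_eq_true,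
    beq_iff_eq, bne_iff_ne] at hok
  obtain ⟨⟨⟨⟨o1, o2⟩, o3⟩, o4⟩, o5⟩ := hok
  let c : V → Fin 3 := fun v => if hh : ∃ k < 24, (ψ k).1 = v then ⟨t (hh.choose / 3) % 3, Nat.mod_lt _ (by norm_num)⟩ else 0
  have hcc : ∀ k < 24, ((c (ψ k).1 : Fin 3) : ℕ) = t (k / 3) := by
    intro k hk
    have hh : ∃ l < 24, (ψ l).1 = (ψ k).1 := ⟨k, hk, rfl⟩
    simp only [c, hh, dif_pos]
    have h2 := hh.choose_spec
    rw [hi.vert (by omega) (by omega) h2.2]
    exact Nat.mod_eq_of_lt (o1 _ (by omega))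
  have hfl : ∀ k < 24, f k < 24 := fun k hk => hi.cl k (by omega)
  have nt : ∀ d : V × Fin 3, d.1 ∈ S → d.1 ≠ v0 := fun d hd q => ht (by rw [← q]; exact hd)
  have hSc : ∀ d : V × Fin 3, d.1 ∈ S → ∃ k < 24, ψ k = d := by
    intro d hd
    obtain ⟨k, hk, he⟩ := hi.surj (d := d) (by rw [hc.A_]; exact Finset.mem_insert_of_mem hd)
    exact ⟨k, by omega, he⟩
  have k0v : ∀ k < 24, k / 3 = k0 / 3 → (ψ k).1 = v0 := by
    intro k hk hkk
    rw [hi.vert' (by omega) hkk, e0]
  have notk0 : ∀ k < 24, (ψ k).1 ∈ S → k / 3 ≠ k0 / 3 := by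
    intro k hk hkS hkk
    exact nt _ hkS (k0v k hk hkk)
  have er : ∀ i : Fin 3, rot k0 i < 24 ∧ ψ (rot k0 i) = (v0, i) := by
    have s1 : ψ (s3 k0) = (v0, 1) := by rw [hi.sg_ k0 (by omega), e0]; rfl
    have s2 : ψ (s3 (s3 k0)) = (v0, 2) := by
      rw [hi.sg_ _ (s3_lt (m := 8) (by omega)), s1]; rfl
    intro i
    refine ⟨by unfold rot; omega, ?_⟩
    fin_cases i
    · have : rot k0 0 = k0 := by unfold rot; omega
      show ψ (rot k0 0) = (v0, 0)
      rw [this, e0]
    · have : rot k0 1 = s3 k0 := by unfold rot s3; omega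
      show ψ (rot k0 1) = (v0, 1)
      rw [this, s1]
    · have : rot k0 2 = s3 (s3 k0) := by unfold rot s3; omega
      show ψ (rot k0 2) = (v0, 2)
      rw [this, s2]
  have ex : ∀ i : Fin 3, ψ (f (rot k0 i)) = xs i := by
    intro i
    rw [← hi.al_ _ (by have := (er i).1; omega), (er i).2, hc.T_]
  refine ⟨c, ⟨?_, ?_⟩, ?_⟩
  · intro d hd hd2 he
    obtain ⟨k, hk, rfl⟩ := hSc d hd
    have e2 : M.al (ψ k) = ψ (f k) := by rw [← hc.O_ _ hd hd2, hi.al_ k (by omega)]
    rw [e2] at he hd2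
    have := o2 k hk
    rcases this with (q | q) | q
    · exact notk0 k hk hd q
    · exact notk0 _ (hfl k hk) hd2 q
    · apply q
      rw [← hcc k hk, ← hcc _ (hfl k hk), he]
  · intro p Z hZ h0 d hd
    have h1 := hf_ext hS h hc ht hZ
    set Z' : V × Fin 3 → ZMod 2 := fun d => if d.1 = v0 then Z (xs d.2) else if d.1 ∈ S then Z d else 0 with hZ'
    have hz : ∀ k < 3 * 8, Z' (ψ k) = 0 := by
      apply forM_sound (f := f) (t := t) (p := p) (r := r) (z := fun k => Z' (ψ k))
        (m0 := 255 ^^^ (1 <<< (k0 / 3))) hi.cl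
      · intro k hk
        show Z' (ψ (f k)) = Z' (ψ k)
        rw [← hi.al_ k hk, h1.sym]
      · intro x hx
        show Z' (ψ (3 * x)) + Z' (ψ (3 * x + 1)) + Z' (ψ (3 * x + 2)) = 0
        have e1 : ψ (3 * x + 1) = sg (ψ (3 * x)) := by
          rw [← hi.sg_ _ (by omega), s3_0]
        have e2 : ψ (3 * x + 2) = sg (sg (ψ (3 * x))) := by
          rw [← e1, ← hi.sg_ _ (by omega), s3_1]
        rw [e2, e1, sum3]
        exact h1.sum _
      · intro k hk hkp
        show Z' (ψ k) = 0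
        by_cases c1 : (ψ k).1 = v0
        · simp only [hZ', c1, if_true]
          exact h0 _ (h.in_ _) (h.out_ _)
        · have c2 : (ψ k).1 ∈ S := by
            have := hi.act k hk
            rw [hc.A_, Finset.mem_insert] at this
            tauto
          simp only [hZ', c1, c2, if_true, if_false]
          apply hZ.col _ c2
          apply Fin.ext
          rw [hcc k (by omega), hkp]
      · intro k hk hkm
        show Z' (ψ k) = 0
        have hkk : k / 3 = k0 / 3 := by
          by_contra q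
          rw [Nat.testBit_xor] at hkm
          have h3 : (1 <<< (k0 / 3)).testBit (k / 3) = false := by
            rw [Nat.shiftLeft_eq, one_mul, Nat.testBit_two_pow]
            simp; exact fun h => q h.symm
          have h4 : (255 : ℕ).testBit (k / 3) = true := by
            have : (255 : ℕ) = 2 ^ 8 - 1 := by norm_num
            rw [this, Nat.testBit_two_pow_sub_one]
            simp; omega
          rw [h3, h4] at hkm
          exact absurd hkm (by decide)
        have c1 := k0v k (by omega) hkk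
        simp only [hZ', c1, if_true]
        exact h0 _ (h.in_ _) (h.out_ _)
      · exact o3 p p.2
    obtain ⟨k, hk, rfl⟩ := hSc d hd
    have := hz k (by omega)
    simp only [hZ', nt _ hd, hd, if_true, if_false] at this
    exact this
  · have hjx : ∀ i : Fin 3, ((c (xs i).1 : Fin 3) : ℕ) = t (f (rot k0 i) / 3) := by
      intro i
      rw [← ex i, hcc _ (hfl _ (er i).1)]
    refine ⟨c (xs (j + 1)).1, c (xs j).1, ?_, ?_, rfl⟩
    · intro q
      have q2 := congrArg (fun x : Fin 3 => (x : ℕ)) q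
      rw [hjx, hjx] at q2
      apply o5
      rw [← q2]
      congr 2
      have : ∀ j : Fin 3, rot k0 ((j + 1 : Fin 3) : ℕ) = rot k0 ((j : ℕ) + 1) := by
        intro j
        fin_cases j
        · rfl
        · rfl
        · show rot k0 0 = rot k0 3
          unfold rot; omega
      rw [this]
    · intro i hij
      apply Fin.ext
      rw [hjx, hjx]
      rcases o4 i i.2 with q | q
      · exact absurd (Fin.ext q) hij
      · rw [q]
        congr 2
        have : ∀ j : Fin 3, rot k0 ((j + 1 : Fin 3) : ℕ) = rot k0 ((j : ℕ) + 1) := by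
          intro j
          fin_cases j
          · rfl
          · rfl
          · show rot k0 0 = rot k0 3
            unfold rot; omega
        rw [this]

def oT1Q : ℕ := 396831222024938405711348193519408633923150127099447647549706780504059955174815872936606484048932877875567444108432
def oT2Q : ℕ := 1406877003948751177162937388530297326292494204258681753157049518650420665570867167751575974445694629846186442369344
def oT1H : ℕ := 5293282406664624611751744388195773828299771422876212764883666413554430653597091254982844837672275594121664416196880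
def oT2H : ℕ := 3176931422507664951340360814523008130983570779229931165386384451470791787751864760037123664426054967361591852434000

/-- the table -/
def oT (T k0 : ℕ) (x : ℕ) : ℕ := dg 2 (T >>> (16 * k0)) x

theorem oddQ1 : (List.range 24).all (fun k0 => oddOK fQ3 k0 (oT oT1Q k0) (dg 2 70438806111233 k0) 5) = true := by
  decide +kernel
theorem oddQ2 : (List.range 24).all (fun k0 => oddOK fQ3 k0 (oT oT2Q k0) (dg 2 182972747197030 k0) 5) = true := by
  decide +kernel
theorem oddH1 : (List.range 24).all (fun k0 => oddOK fH k0 (oT oT1H k0) (dg 2 18692842722308 k0) 5) = true := by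
  decide +kernel
theorem oddH2 : (List.range 24).all (fun k0 => oddOK fH k0 (oT oT2H k0) (dg 2 117207957138010 k0) 5) = true := by
  decide +kernel
theorem oddQj : (List.range 24).all (fun k0 => decide (dg 2 70438806111233 k0 < 3) && decide (dg 2 182972747197030 k0 < 3) &&
  (dg 2 70438806111233 k0 != dg 2 182972747197030 k0)) = true := by
  decide +kernel
theorem oddHj : (List.range 24).all (fun k0 => decide (dg 2 18692842722308 k0 < 3) && decide (dg 2 117207957138010 k0 < 3) &&
  (dg 2 18692842722308 k0 != dg 2 117207957138010 k0)) = true := by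
  decide +kernel

theorem odd_two {M Mc : CMap V} {S : Finset V} {xs : Fin 3 → V × Fin 3} {v0 : V}
    (hS : S ⊆ M.A) (h : Cross M S xs) (hc : Contr M S xs v0 Mc) (ht : v0 ∉ S) {f : ℕ → ℕ}
    {T1 T2 J1 J2 : ℕ} (hi : IsoTo Mc 8 f)
    (c1 : (List.range 24).all (fun k0 => oddOK f k0 (oT T1 k0) (dg 2 J1 k0) 5) = true)
    (c2 : (List.range 24).all (fun k0 => oddOK f k0 (oT T2 k0) (dg 2 J2 k0) 5) = true)
    (c3 : (List.range 24).all (fun k0 => decide (dg 2 J1 k0 < 3) && decide (dg 2 J2 k0 < 3) &&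
      (dg 2 J1 k0 != dg 2 J2 k0)) = true) :
    ∃ ca cb ja jb, ja ≠ jb ∧ Weak M S ca ∧ OddAt ca xs ja ∧ Weak M S cb ∧ OddAt cb xs jb := by
  obtain ⟨ψ, hi⟩ := hi
  obtain ⟨k0, hk0, e0⟩ := hi.surj (d := (v0, 0)) (by rw [hc.A_]; exact Finset.mem_insert_self _ _)
  have d1 := (List.all_eq_true.1 c1) k0 (List.mem_range.2 (by omega))
  have d2 := (List.all_eq_true.1 c2) k0 (List.mem_range.2 (by omega))
  have d3 := (List.all_eq_true.1 c3) k0 (List.mem_range.2 (by omega))
  simp only [Bool.and_eq_true, decide_eq_true_eq, bne_iff_ne] at d3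
  obtain ⟨⟨d3, d4⟩, d5⟩ := d3
  obtain ⟨ca, a1, a2⟩ := odd_sound hi hS h hc ht (by omega) e0 (j := ⟨dg 2 J1 k0, d3⟩) d1
  obtain ⟨cb, b1, b2⟩ := odd_sound hi hS h hc ht (by omega) e0 (j := ⟨dg 2 J2 k0, d4⟩) d2
  exact ⟨ca, cb, _, _, fun q => d5 (congrArg Fin.val q), a1, a2, b1, b2⟩

theorem odd_exc {M Mc : CMap V} {S : Finset V} {xs : Fin 3 → V × Fin 3} {v0 : V}
    (hS : S ⊆ M.A) (h : Cross M S xs) (hc : Contr M S xs v0 Mc) (ht : v0 ∉ S) (h5 : 5 ≤ S.card)
    (hE : IsExc Mc) :
    ∃ ca cb ja jb, ja ≠ jb ∧ Weak M S ca ∧ OddAt ca xs ja ∧ Weak M S cb ∧ OddAt cb xs jb := by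
  have hcard := contr_card hc ht
  rcases hE with hE | hE | hE | hE
  · obtain ⟨ψ, hi⟩ := hE
    have := hi.card
    omega
  · obtain ⟨ψ, hi⟩ := hE
    have := hi.card
    omega
  · exact odd_two hS h hc ht hE oddQ1 oddQ2 oddQj
  · exact odd_two hS h hc ht hE oddH1 oddH2 oddHj

end Pool.Agent.H24
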