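import Pool.Agent.H24.Simple

set_option autoImplicit false
set_option linter.unusedSectionVars false
set_option linter.unusedVariables false

namespace Pool.Agent.H24

open Finset Equiv.Perm

variable {V : Type} [Fintype V] [DecidableEq V]

/-- digits -/
def dg (w c k : ℕ) : ℕ := (c >>> (w * k)) &&& (2 ^ w - 1)

/-- the map `M` is isomorphic to the map on codes `k < 3 n` with partner function `f` -/
structure IsoVia (M : CMap V) (n : ℕ) (f : ℕ → ℕ) (ψ : ℕ → V × Fin 3) : Prop where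
  sg_ : ∀ k < 3 * n, ψ (s3 k) = sg (ψ k)
  al_ : ∀ k < 3 * n, M.al (ψ k) = ψ (f k)
  inj : ∀ k < 3 * n, ∀ l < 3 * n, ψ k = ψ l → k = l
  act : ∀ k < 3 * n, (ψ k).1 ∈ M.A
  card : M.A.card = n
  cl : ∀ k < 3 * n, f k < 3 * n

def IsoTo (M : CMap V) (n : ℕ) (f : ℕ → ℕ) : Prop := ∃ ψ, IsoVia M n f ψ

namespace IsoVia
variable {M : CMap V} {n : ℕ} {f : ℕ → ℕ} {ψ : ℕ → V × Fin 3}

theorem surj (h : IsoVia M n f ψ) {d : V × Fin 3} (hd : d.1 ∈ M.A) : ∃ k < 3 * n, ψ k = d := by
  classical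
  have h1 : (Finset.range (3 * n)).image ψ = univ.filter (fun d : V × Fin 3 => d.1 ∈ M.A) := by
    apply Finset.eq_of_subset_of_card_le
    · intro e he
      rw [Finset.mem_image] at he
      obtain ⟨k, hk, rfl⟩ := he
      simp only [mem_filter, mem_univ, true_and]
      exact h.act k (Finset.mem_range.1 hk)
    · rw [CMap.card_darts, h.card, Finset.card_image_of_injOn, Finset.card_range]
      intro a ha b hb hab
      simp only [coe_range, Set.mem_Iio] at ha hb
      exact h.inj a ha b hb hab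
  have h2 : d ∈ (Finset.range (3 * n)).image ψ := by
    rw [h1]; simp [hd]
  rw [Finset.mem_image] at h2
  obtain ⟨k, hk, he⟩ := h2
  exact ⟨k, Finset.mem_range.1 hk, he⟩

theorem vert (h : IsoVia M n f ψ) {k l : ℕ} (hk : k < 3 * n) (hl : l < 3 * n)
    (he : (ψ k).1 = (ψ l).1) : k / 3 = l / 3 := by
  have h1 := h.sg_ k hk
  have h2 := h.sg_ _ (s3_lt hk)
  rcases dart_cases he.symm with h3 | h3 | h3
  · rw [h.inj _ hl _ hk h3]
  · rw [← h1] at h3
    rw [h.inj _ hl _ (s3_lt hk) h3, s3_div]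
  · rw [← h1, ← h2] at h3
    rw [h.inj _ hl _ (s3_lt (s3_lt hk)) h3, s3_div, s3_div]

theorem vert' (h : IsoVia M n f ψ) {k l : ℕ} (hk : k < 3 * n) (he : k / 3 = l / 3) :
    (ψ k).1 = (ψ l).1 := by
  have h1 := h.sg_ k hk
  have h2 := h.sg_ _ (s3_lt hk)
  rcases code_cases he with h3 | h3 | h3
  · rw [h3]
  · rw [h3, h1, sg_fst]
  · rw [h3, h2, sg_fst, h1, sg_fst]

end IsoVia

def cnt (f : ℕ → ℕ) (t : ℕ → ℕ) (p mask x : ℕ) : ℕ :=
  (if mask.testBit (f (3 * x) / 3) && t (f (3 * x) / 3) != p then 1 else 0) +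
      (if mask.testBit (f (3 * x + 1) / 3) && t (f (3 * x + 1) / 3) != p then 1 else 0) +
      (if mask.testBit (f (3 * x + 2) / 3) && t (f (3 * x + 2) / 3) != p then 1 else 0)

/-- leaf stripping -/
def stp (f : ℕ → ℕ) (t : ℕ → ℕ) (p mask x : ℕ) : ℕ :=
  if mask.testBit x && decide (cnt f t p mask x ≤ 1) then mask ^^^ (1 <<< x) else mask

def swp (n : ℕ) (f t : ℕ → ℕ) (p : ℕ) : ℕ → ℕ → ℕ
  | 0, mask => mask
  | r + 1, mask => swp n f t p r ((List.range n).foldl (stp f t p) mask)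

def forOK (n : ℕ) (f t : ℕ → ℕ) (p r : ℕ) : Bool :=
  let m := swp n f t p r (2 ^ n - 1)
  (List.range n).all (fun x => !(m.testBit x) || t x == p)

def colOK (n : ℕ) (f t : ℕ → ℕ) (r : ℕ) : Bool :=
  (List.range (3 * n)).all (fun k => t (k / 3) != t (f k / 3) && decide (f k < 3 * n)) &&
  (List.range 3).all (fun p => forOK n f t p r)

/-- invariant of stripping -/
def SInv (n : ℕ) (t : ℕ → ℕ) (p : ℕ) (z : ℕ → ZMod 2) (mask : ℕ) : Prop :=
  ∀ k < 3 * n, (mask.testBit (k / 3) = false ∨ t (k / 3) = p) → z k = 0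

theorem stp_inv {n : ℕ} {f t : ℕ → ℕ} {p : ℕ} {z : ℕ → ZMod 2} (hf : ∀ k < 3 * n, f k < 3 * n)
    (hz : ∀ k < 3 * n, z (f k) = z k) (hs : ∀ x < n, z (3 * x) + z (3 * x + 1) + z (3 * x + 2) = 0)
    {mask x : ℕ} (hx : x < n) (h : SInv n t p z mask) : SInv n t p z (stp f t p mask x) := by
  unfold stp
  split_ifs with hc
  swap
  · exact h
  rw [Bool.and_eq_true, decide_eq_true_eq] at hc
  obtain ⟨hc1, hc2⟩ := hc
  unfold cnt at hc2
  have dead : ∀ k < 3 * n, ¬ (mask.testBit (f k / 3) && t (f k / 3) != p) = true → z k = 0 := by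
    intro k hk hn
    rw [← hz k hk]
    apply h _ (hf k hk)
    rw [Bool.and_eq_true] at hn
    by_cases q : mask.testBit (f k / 3) = true
    · right
      by_contra q2
      exact hn ⟨q, by simpa using q2⟩
    · left; simpa using q
  have hall : z (3 * x) = 0 ∧ z (3 * x + 1) = 0 ∧ z (3 * x + 2) = 0 := by
    have hsum := hs x hx
    have d0 := dead (3 * x) (by omega)
    have d1 := dead (3 * x + 1) (by omega)
    have d2 := dead (3 * x + 2) (by omega)
    by_cases q0 : (mask.testBit (f (3 * x) / 3) && t (f (3 * x) / 3) != p) = true <;>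
      by_cases q1 : (mask.testBit (f (3 * x + 1) / 3) && t (f (3 * x + 1) / 3) != p) = true <;>
      by_cases q2 : (mask.testBit (f (3 * x + 2) / 3) && t (f (3 * x + 2) / 3) != p) = true <;>
      simp only [q0, q1, q2, if_true, if_false] at hc2 <;> try omega
    · have a1 := d1 q1
      have a2 := d2 q2
      rw [a1, a2] at hsum
      simp at hsum
      exact ⟨hsum, a1, a2⟩
    · have a1 := d0 q0
      have a2 := d2 q2
      rw [a1, a2] at hsum
      simp at hsum
      exact ⟨a1, hsum, a2⟩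
    · have a1 := d0 q0
      have a2 := d1 q1
      rw [a1, a2] at hsum
      simp at hsum
      exact ⟨a1, a2, hsum⟩
    · exact ⟨d0 q0, d1 q1, d2 q2⟩
  intro k hk hor
  by_cases hkx : k / 3 = x
  · have : k = 3 * x ∨ k = 3 * x + 1 ∨ k = 3 * x + 2 := by omega
    rcases this with rfl | rfl | rfl
    · exact hall.1
    · exact hall.2.1
    · exact hall.2.2
  · apply h k hk
    rcases hor with q | q
    · left
      rw [Nat.testBit_xor] at q
      have : (1 <<< x).testBit (k / 3) = false := by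
        rw [Nat.shiftLeft_eq, one_mul, Nat.testBit_two_pow]
        simp; exact fun h => hkx h.symm
      rw [this] at q
      simpa using q
    · right; exact q

theorem foldl_inv {n : ℕ} {f t : ℕ → ℕ} {p : ℕ} {z : ℕ → ZMod 2} (hf : ∀ k < 3 * n, f k < 3 * n)
    (hz : ∀ k < 3 * n, z (f k) = z k) (hs : ∀ x < n, z (3 * x) + z (3 * x + 1) + z (3 * x + 2) = 0) :
    ∀ (L : List ℕ) (mask : ℕ), (∀ x ∈ L, x < n) → SInv n t p z mask →
      SInv n t p z (L.foldl (stp f t p) mask)
  | [], mask, _, h => h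
  | x :: L, mask, hL, h => by
    rw [List.foldl_cons]
    exact foldl_inv hf hz hs L _ (fun y hy => hL y (by simp [hy])) (stp_inv hf hz hs (hL x (by simp)) h)

theorem swp_inv {n : ℕ} {f t : ℕ → ℕ} {p : ℕ} {z : ℕ → ZMod 2} (hf : ∀ k < 3 * n, f k < 3 * n)
    (hz : ∀ k < 3 * n, z (f k) = z k) (hs : ∀ x < n, z (3 * x) + z (3 * x + 1) + z (3 * x + 2) = 0) :
    ∀ (r mask : ℕ), SInv n t p z mask → SInv n t p z (swp n f t p r mask)
  | 0, mask, h => h
  | r + 1, mask, h => by
    rw [swp]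
    exact swp_inv hf hz hs r _ (foldl_inv hf hz hs _ _ (fun x hx => List.mem_range.1 hx) h)

theorem forOK_sound {n : ℕ} {f t : ℕ → ℕ} {p r : ℕ} {z : ℕ → ZMod 2} (hf : ∀ k < 3 * n, f k < 3 * n)
    (hz : ∀ k < 3 * n, z (f k) = z k) (hs : ∀ x < n, z (3 * x) + z (3 * x + 1) + z (3 * x + 2) = 0)
    (hp : ∀ k < 3 * n, t (k / 3) = p → z k = 0) (h : forOK n f t p r = true) :
    ∀ k < 3 * n, z k = 0 := by
  have h0 : SInv n t p z (2 ^ n - 1) := by
    intro k hk hor
    rcases hor with q | q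
    · rw [Nat.testBit_two_pow_sub_one] at q
      simp at q
      omega
    · exact hp k hk q
  have h1 := swp_inv (t := t) (p := p) hf hz hs r _ h0
  intro k hk
  apply h1 k hk
  unfold forOK at h
  simp only [List.all_eq_true, List.mem_range] at h
  have := h (k / 3) (by omega)
  simp only [Bool.or_eq_true, Bool.not_eq_true', beq_iff_eq] at this
  exact this

theorem col_of_iso {M : CMap V} {n : ℕ} {f : ℕ → ℕ} (h : IsoTo M n f) (t : ℕ → ℕ)
    (r : ℕ) (ht : ∀ x < n, t x < 3) (hok : colOK n f t r = true) : Col M := by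
  classical
  obtain ⟨ψ, h⟩ := h
  unfold colOK at hok
  rw [Bool.and_eq_true, List.all_eq_true, List.all_eq_true] at hok
  obtain ⟨hok1, hok2⟩ := hok
  have hf : ∀ k < 3 * n, f k < 3 * n := by
    intro k hk
    have := hok1 k (List.mem_range.2 hk)
    rw [Bool.and_eq_true, decide_eq_true_eq] at this
    exact this.2
  let c : V → Fin 3 := fun v => if hh : ∃ k < 3 * n, (ψ k).1 = v then ⟨t (hh.choose / 3) % 3, Nat.mod_lt _ (by norm_num)⟩ else 0
  have hc : ∀ k < 3 * n, ((c (ψ k).1 : Fin 3) : ℕ) = t (k / 3) := by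
    intro k hk
    have hh : ∃ l < 3 * n, (ψ l).1 = (ψ k).1 := ⟨k, hk, rfl⟩
    simp only [c, hh, dif_pos]
    have h2 := hh.choose_spec
    rw [h.vert h2.1 hk h2.2]
    exact Nat.mod_eq_of_lt (ht _ (by omega))
  refine ⟨c, ?_, ?_⟩
  · intro d hd he
    obtain ⟨k, hk, rfl⟩ := h.surj hd
    rw [h.al_ k hk] at he
    have := hok1 k (List.mem_range.2 hk)
    rw [Bool.and_eq_true, bne_iff_ne] at this
    apply this.1
    rw [← hc k hk, ← hc _ (hf k hk), he]
  · intro p Z hZ hp
    have h1 : ∀ k < 3 * n, Z (ψ k) = 0 := by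
      apply forOK_sound (f := f) (t := t) (p := p) (r := r) (z := fun k => Z (ψ k)) hf
      · intro k hk
        show Z (ψ (f k)) = Z (ψ k)
        rw [← h.al_ k hk, hZ.sym]
      · intro x hx
        show Z (ψ (3 * x)) + Z (ψ (3 * x + 1)) + Z (ψ (3 * x + 2)) = 0
        have e1 : ψ (3 * x + 1) = sg (ψ (3 * x)) := by
          rw [← h.sg_ _ (by omega), s3_0]
        have e2 : ψ (3 * x + 2) = sg (sg (ψ (3 * x))) := by
          rw [← e1, ← h.sg_ _ (by omega), s3_1]
        rw [e2, e1, sum3]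
        exact hZ.sum _
      · intro k hk hkp
        apply hp
        apply Fin.ext
        rw [hc k hk, hkp]
      · exact hok2 p (List.mem_range.2 p.2)
    intro d
    by_cases hd : d.1 ∈ M.A
    · obtain ⟨k, hk, rfl⟩ := h.surj hd
      exact h1 k hk
    · exact hZ.out d hd

/-- transfer of isomorphism along an explicit renaming -/
def isoOK (n : ℕ) (f f' : ℕ → ℕ) (j j' : ℕ → ℕ) : Bool :=
  (List.range (3 * n)).all (fun l => decide (j l < 3 * n) && (j' (j l) == l) && (j (s3 l) == s3 (j l)) &&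
    (f (j l) == j (f' l)) && decide (f' l < 3 * n))

theorem iso_of_iso {M : CMap V} {n : ℕ} {f f' : ℕ → ℕ} (h : IsoTo M n f) (j j' : ℕ → ℕ)
    (hok : isoOK n f f' j j' = true) : IsoTo M n f' := by
  obtain ⟨ψ, h⟩ := h
  unfold isoOK at hok
  rw [List.all_eq_true] at hok
  have hok' : ∀ l < 3 * n, j l < 3 * n ∧ j' (j l) = l ∧ j (s3 l) = s3 (j l) ∧ f (j l) = j (f' l) := by
    intro l hl
    have := hok l (List.mem_range.2 hl)
    simp only [Bool.and_eq_true, decide_eq_true_eq, beq_iff_eq] at this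
    tauto
  refine ⟨fun l => ψ (j l), ?_, ?_, ?_, ?_, h.card, ?_⟩
  · intro l hl
    have g := hok' l hl
    show ψ (j (s3 l)) = sg (ψ (j l))
    rw [g.2.2.1, h.sg_ _ g.1]
  · intro l hl
    have g := hok' l hl
    show M.al (ψ (j l)) = ψ (j (f' l))
    rw [h.al_ _ g.1, g.2.2.2]
  · intro k hk l hl he
    have g := hok' k hk
    have g' := hok' l hl
    have := h.inj _ g.1 _ g'.1 he
    rw [← g.2.1, this, g'.2.1]
  · intro l hl
    exact h.act _ (hok' l hl).1
  · intro l hl
    have := hok l (List.mem_range.2 hl)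
    simp only [Bool.and_eq_true, decide_eq_true_eq, beq_iff_eq] at this
    exact this.2

/-- expansion of a map on codes by a configuration with four terminals -/
def xp (G : Gd) (n : ℕ) (E : ℕ → ℕ) (x y k : ℕ) : ℕ :=
  if k < 3 * n then
    if k = x then 3 * n + G.p (3 * G.m) else if k = E x then 3 * n + G.p (3 * G.m + 1)
    else if k = y then 3 * n + G.p (3 * G.m + 2) else if k = E y then 3 * n + G.p (3 * G.m + 3)
    else E k
  else
    if G.p (k - 3 * n) < 3 * G.m then 3 * n + G.p (k - 3 * n)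
    else if G.p (k - 3 * n) = 3 * G.m then x else if G.p (k - 3 * n) = 3 * G.m + 1 then E x
    else if G.p (k - 3 * n) = 3 * G.m + 2 then y else E y

theorem red_card {M M' : CMap V} {G : Gd} {ε : ℕ → V × Fin 3} (h : Emb M G ε) (hr : Red M M' G ε) :
    M.A.card = M'.A.card + ((Finset.range G.m).filter (fun x => G.isK (3 * x) = false)).card := by
  classical
  have hN : G.N = 3 * G.m + G.t := rfl
  set I := ((Finset.range G.m).filter (fun x => G.isK (3 * x) = false)).image (fun x => (ε (3 * x)).1) with hI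
  have hIc : I.card = ((Finset.range G.m).filter (fun x => G.isK (3 * x) = false)).card := by
    rw [hI, Finset.card_image_of_injOn]
    intro a ha b hb hab
    simp only [coe_filter, mem_range, Set.mem_ofPred_eq] at ha hb
    have := h.vert (by omega) (by omega) hab
    omega
  have hU : M.A = M'.A ∪ I := by
    ext v
    rw [Finset.mem_union]
    constructor
    · intro hv
      by_cases c : v ∈ M'.A
      · exact Or.inl c
      · right
        have : ∃ k < 3 * G.m, G.isK k = false ∧ (ε k).1 = v := by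
          by_contra hc
          push Not at hc
          exact c ((hr.A_ _).2 ⟨hv, fun k hk hK => hc k hk hK⟩)
        obtain ⟨k, hk, hK, rfl⟩ := this
        rw [hI, Finset.mem_image]
        refine ⟨k / 3, ?_, h.vert' (by omega) (by omega)⟩
        rw [Finset.mem_filter, Finset.mem_range]
        refine ⟨by omega, ?_⟩
        rw [← isK_div hk (by omega) (by omega), hK]
    · rintro (hv | hv)
      · exact ((hr.A_ _).1 hv).1
      · rw [hI, Finset.mem_image] at hv
        obtain ⟨x, hx, rfl⟩ := hv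
        rw [Finset.mem_filter, Finset.mem_range] at hx
        exact h.act _ (by omega)
  rw [hU, Finset.card_union_of_disjoint, hIc]
  rw [Finset.disjoint_left]
  intro v hv hvI
  rw [hI, Finset.mem_image] at hvI
  obtain ⟨x, hx, rfl⟩ := hvI
  rw [Finset.mem_filter, Finset.mem_range] at hx
  have := (K_act h hr (k := 3 * x) (by omega)).1 hv
  rw [hx.2] at this
  exact absurd this (by decide)

theorem xp_iso {M M' : CMap V} {G : Gd} {ε : ℕ → V × Fin 3} (h : Emb M G ε) (hG : G.Ok)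
    (hr : Red M M' G ε) (ht : G.t = 4) (hk : G.kept = [])
    (h01 : G.p' (3 * G.m) = 3 * G.m + 1) (h23 : G.p' (3 * G.m + 2) = 3 * G.m + 3)
    {n : ℕ} {E : ℕ → ℕ} {ψ : ℕ → V × Fin 3} (hi : IsoVia M' n E ψ) :
    ∃ x < 3 * n, ∃ y < 3 * n, ψ x = ε (3 * G.m) ∧ ψ y = ε (3 * G.m + 2) ∧
      ψ (E x) = ε (3 * G.m + 1) ∧ ψ (E y) = ε (3 * G.m + 3) ∧ x ≠ y ∧ y ≠ E x ∧
      E x < 3 * n ∧ E y < 3 * n ∧ IsoTo M (n + G.m) (xp G n E x y) := by
  classical
  have hN : G.N = 3 * G.m + G.t := rfl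
  have isKf : ∀ k, k < 3 * G.m → G.isK k = false := by
    intro k hk'
    unfold Gd.isK
    rw [hk]
    simp; exact hk'
  have tA : ∀ j, 3 * G.m ≤ j → j < G.N → (ε j).1 ∈ M'.A := fun j h1 h2 => (K_act h hr h2).2 (isK_term h1)
  obtain ⟨x, hx, ex⟩ := hi.surj (tA (3 * G.m) (by omega) (by omega))
  obtain ⟨y, hy, ey⟩ := hi.surj (tA (3 * G.m + 2) (by omega) (by omega))
  have k1 := hr.K_ (3 * G.m) (by omega) (isK_term (by omega))
  have k2 := hr.K_ (3 * G.m + 2) (by omega) (isK_term (by omega))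
  rw [h01] at k1
  rw [h23] at k2
  have Ex : ψ (E x) = ε (3 * G.m + 1) := by rw [← hi.al_ x hx, ex, k1]
  have Ey : ψ (E y) = ε (3 * G.m + 3) := by rw [← hi.al_ y hy, ey, k2]
  have hEx := hi.cl x hx
  have hEy := hi.cl y hy
  have nxy : x ≠ y := by
    intro q
    rw [← q, ex] at ey
    have := h.inj' hG (by omega) (by omega) ey
    omega
  have nyEx : y ≠ E x := by
    intro q
    rw [← q, ey] at Ex
    have := h.inj' hG (by omega) (by omega) Ex
    omega
  refine ⟨x, hx, y, hy, ex, ey, Ex, Ey, nxy, nyEx, hEx, hEy, ?_⟩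
  have pt : ∀ j, 3 * G.m ≤ j → j < G.N → G.p j < 3 * G.m := fun j h1 h2 => (hG.h1 j h2).2.2.2 h1
  let ψN : ℕ → V × Fin 3 := fun k => if k < 3 * n then ψ k else ε (k - 3 * n)
  have N1 : ∀ k < 3 * n, ψN k = ψ k := fun k hk => by simp only [ψN, hk, if_pos]
  have N2 : ∀ l, ψN (3 * n + l) = ε l := by
    intro l
    have : ¬ (3 * n + l < 3 * n) := by omega
    simp only [ψN, this, if_neg, not_false_eq_true, Nat.add_sub_cancel_left]
  have keycl : ∀ k < 3 * (n + G.m), xp G n E x y k < 3 * (n + G.m) ∧ M.al (ψN k) = ψN (xp G n E x y k) := by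
    intro k hk'
    unfold xp
    by_cases c1 : k < 3 * n
    · rw [if_pos c1, N1 k c1]
      by_cases c2 : k = x
      · rw [if_pos c2, N2, c2, ex, h.al_ _ (by omega)]
        have := pt (3 * G.m) (by omega) (by omega)
        exact ⟨by omega, rfl⟩
      rw [if_neg c2]
      by_cases c3 : k = E x
      · rw [if_pos c3, N2, c3, Ex, h.al_ _ (by omega)]
        have := pt (3 * G.m + 1) (by omega) (by omega)
        exact ⟨by omega, rfl⟩
      rw [if_neg c3]
      by_cases c4 : k = y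
      · rw [if_pos c4, N2, c4, ey, h.al_ _ (by omega)]
        have := pt (3 * G.m + 2) (by omega) (by omega)
        exact ⟨by omega, rfl⟩
      rw [if_neg c4]
      by_cases c5 : k = E y
      · rw [if_pos c5, N2, c5, Ey, h.al_ _ (by omega)]
        have := pt (3 * G.m + 3) (by omega) (by omega)
        exact ⟨by omega, rfl⟩
      rw [if_neg c5]
      have hcl := hi.cl k c1
      refine ⟨by omega, ?_⟩
      rw [N1 _ hcl, ← hi.al_ k c1]
      symm
      apply hr.O_ _ (hi.act k c1)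
      intro j hj hK he
      have hj3 : 3 * G.m ≤ j := by
        by_contra hc
        rw [isKf j (by omega)] at hK
        exact absurd hK (by decide)
      have : j = 3 * G.m ∨ j = 3 * G.m + 1 ∨ j = 3 * G.m + 2 ∨ j = 3 * G.m + 3 := by omega
      rcases this with rfl | rfl | rfl | rfl
      · rw [← ex] at he; exact c2 (hi.inj _ c1 _ hx he.symm)
      · rw [← Ex] at he; exact c3 (hi.inj _ c1 _ hEx he.symm)
      · rw [← ey] at he; exact c4 (hi.inj _ c1 _ hy he.symm)
      · rw [← Ey] at he; exact c5 (hi.inj _ c1 _ hEy he.symm)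
    · rw [if_neg c1]
      obtain ⟨l, rfl⟩ : ∃ l, k = 3 * n + l := ⟨k - 3 * n, by omega⟩
      have hl : l < 3 * G.m := by omega
      rw [N2, Nat.add_sub_cancel_left, h.al_ l (by omega)]
      have hp := (hG.h1 l (by omega)).1
      by_cases c2 : G.p l < 3 * G.m
      · rw [if_pos c2, N2]
        exact ⟨by omega, rfl⟩
      rw [if_neg c2]
      by_cases c3 : G.p l = 3 * G.m
      · rw [if_pos c3, N1 _ hx, ex, c3]
        exact ⟨by omega, rfl⟩
      rw [if_neg c3]
      by_cases c4 : G.p l = 3 * G.m + 1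
      · rw [if_pos c4, N1 _ hEx, Ex, c4]
        exact ⟨by omega, rfl⟩
      rw [if_neg c4]
      by_cases c5 : G.p l = 3 * G.m + 2
      · rw [if_pos c5, N1 _ hy, ey, c5]
        exact ⟨by omega, rfl⟩
      rw [if_neg c5, N1 _ hEy, Ey]
      have : G.p l = 3 * G.m + 3 := by omega
      rw [this]
      exact ⟨by omega, rfl⟩
  refine ⟨ψN, ?_, ?_, ?_, ?_, ?_, ?_⟩
  · intro k hk'
    by_cases c1 : k < 3 * n
    · rw [N1 k c1, N1 _ (s3_lt c1), hi.sg_ k c1]
    · obtain ⟨l, rfl⟩ : ∃ l, k = 3 * n + l := ⟨k - 3 * n, by omega⟩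
      have : s3 (3 * n + l) = 3 * n + s3 l := by unfold s3; omega
      rw [this, N2, N2, h.sg_ l (by omega)]
  · intro k hk'
    exact (keycl k hk').2
  · have mixed : ∀ k < 3 * n, ∀ l < 3 * G.m, ψ k ≠ ε l := by
      intro k hk' l hl he
      have h1 := hi.act k hk'
      rw [he] at h1
      have := (K_act h hr (k := l) (by omega)).1 h1
      rw [isKf l hl] at this
      exact absurd this (by decide)
    intro k hk' l hl he
    by_cases c1 : k < 3 * n <;> by_cases c2 : l < 3 * n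
    · rw [N1 k c1, N1 l c2] at he
      exact hi.inj k c1 l c2 he
    · obtain ⟨l', rfl⟩ : ∃ l', l = 3 * n + l' := ⟨l - 3 * n, by omega⟩
      rw [N1 k c1, N2] at he
      exact absurd he (mixed k c1 l' (by omega))
    · obtain ⟨k', rfl⟩ : ∃ k', k = 3 * n + k' := ⟨k - 3 * n, by omega⟩
      rw [N1 l c2, N2] at he
      exact absurd he.symm (mixed l c2 k' (by omega))
    · obtain ⟨l', rfl⟩ : ∃ l', l = 3 * n + l' := ⟨l - 3 * n, by omega⟩
      obtain ⟨k', rfl⟩ : ∃ k', k = 3 * n + k' := ⟨k - 3 * n, by omega⟩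
      rw [N2, N2] at he
      rw [h.inj k' (by omega) l' (by omega) he]
  · intro k hk'
    by_cases c1 : k < 3 * n
    · rw [N1 k c1]
      exact ((hr.A_ _).1 (hi.act k c1)).1
    · obtain ⟨l, rfl⟩ : ∃ l, k = 3 * n + l := ⟨k - 3 * n, by omega⟩
      rw [N2]
      exact h.act l (by omega)
  · rw [red_card h hr, hi.card]
    congr 1
    have : (Finset.range G.m).filter (fun x => G.isK (3 * x) = false) = Finset.range G.m := by
      apply Finset.filter_true_of_mem
      intro x hx
      exact isKf _ (by rw [Finset.mem_range] at hx; omega)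
    rw [this, Finset.card_range]
  · intro k hk'
    exact (keycl k hk').1

/-- labels constant along faces distinguish faces -/
theorem lab_SC {M : CMap V} {n : ℕ} {f : ℕ → ℕ} {ψ : ℕ → V × Fin 3} (hi : IsoVia M n f ψ)
    (lab : ℕ → ℕ) (hlab : ∀ k < 3 * n, lab (s3 (f k)) = lab k) {a b : ℕ} (ha : a < 3 * n)
    (hb : b < 3 * n) (h : M.SC (ψ a) (ψ b)) : lab a = lab b := by
  obtain ⟨i, he⟩ := SameCycle.exists_nat_pow_eq h
  clear h
  have key : ∀ i : ℕ, ∃ c < 3 * n, (M.ph ^ i) (ψ a) = ψ c ∧ lab c = lab a := by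
    intro i
    induction i with
    | zero => exact ⟨a, ha, by simp, rfl⟩
    | succ j ih =>
      obtain ⟨c, hc, h1, h2⟩ := ih
      refine ⟨s3 (f c), s3_lt (hi.cl c hc), ?_, ?_⟩
      · rw [pow_succ', Equiv.Perm.mul_apply, h1, CMap.ph_apply, hi.al_ c hc, hi.sg_ _ (hi.cl c hc)]
      · rw [hlab c hc, h2]
  obtain ⟨c, hc, h1, h2⟩ := key i
  rw [h1] at he
  rw [← h2, hi.inj _ hc _ hb he]

end Pool.Agent.H24
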