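import Pool.Agent.H24.Basic

set_option autoImplicit false
set_option linter.unusedSectionVars false
set_option linter.unusedVariables false

namespace Pool.Agent.H24

open Finset

variable {V : Type} [Fintype V] [DecidableEq V]

/-- vertex indicator -/
def vi (u w : V) : ZMod 2 := if w = u then 1 else 0

theorem z2_add_self (x : ZMod 2) : x + x = 0 := by revert x; decide

theorem z2_cases (x : ZMod 2) : x = 0 ∨ x = 1 := by revert x; decide

theorem z2_ne {x : ZMod 2} (h : x ≠ 0) : x = 1 := by revert x; decide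

namespace CMap

variable (M : CMap V)

/-- edge indicator -/
def ed (d e : V × Fin 3) : ZMod 2 := (if e = d then 1 else 0) + (if e = M.al d then 1 else 0)

theorem sum_ind (d : V × Fin 3) (w : V) : (∑ i : Fin 3, (if (w, i) = d then (1 : ZMod 2) else 0)) = vi d.1 w := by
  obtain ⟨v, j⟩ := d
  unfold vi
  by_cases h : w = v
  · subst h
    simp [Prod.ext_iff]
  · simp [h, Prod.ext_iff]

theorem ed_sum (d : V × Fin 3) (w : V) : ∑ i : Fin 3, M.ed d (w, i) = vi d.1 w + vi (M.al d).1 w := by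
  unfold ed
  rw [Finset.sum_add_distrib, sum_ind, sum_ind]

theorem ed_al (d e : V × Fin 3) : M.ed d (M.al e) = M.ed d e := by
  unfold ed
  have h1 : (M.al e = d) ↔ (e = M.al d) := by
    constructor
    · intro h; rw [← h, M.inv]
    · intro h; rw [h, M.inv]
  have h2 : (M.al e = M.al d) ↔ (e = d) := ⟨fun h => M.al_inj h, fun h => by rw [h]⟩
  simp only [h1, h2]
  ring

/-- connectivity of a vertex set -/
def Conn (S : Finset V) : Prop :=
  ∀ R ⊆ S, R.Nonempty → R ≠ S → ∃ d, d.1 ∈ R ∧ (M.al d).1 ∈ S ∧ (M.al d).1 ∉ R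

theorem conn_of_b {S : Finset V} (h3 : M.C3) (hS : S ⊆ M.A) (hb : M.b S ≤ 5) : M.Conn S := by
  intro R hR hne hRS
  by_contra hcon
  push Not at hcon
  have hd : (S \ R).Nonempty := by
    rw [Finset.sdiff_nonempty]
    intro h
    exact hRS (Finset.Subset.antisymm hR h)
  have hRA : R ≠ M.A := by
    intro h
    apply hRS
    apply Finset.Subset.antisymm hR
    rw [h]; exact hS
  have hRA' : S \ R ≠ M.A := by
    intro h
    obtain ⟨r, hr⟩ := hne
    have : r ∈ S \ R := by rw [h]; exact hS (hR hr)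
    exact (Finset.mem_sdiff.1 this).2 hr
  have h1 := h3 R (hR.trans hS) hne hRA
  have h2 := h3 (S \ R) (Finset.sdiff_subset.trans hS) hd hRA'
  have key : M.b R + M.b (S \ R) ≤ M.b S := by
    simp only [b_eq_sum, ← Finset.sum_add_distrib]
    apply Finset.sum_le_sum
    intro d _
    have c1 := hcon d
    have c2 := hcon (M.al d)
    rw [M.inv] at c2
    have c3 := @hR d.1
    have c4 := @hR (M.al d).1
    simp only [mem_sdiff]
    by_cases q1 : d.1 ∈ R <;> by_cases q2 : (M.al d).1 ∈ R <;> by_cases q3 : d.1 ∈ S <;>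
      by_cases q4 : (M.al d).1 ∈ S <;> simp_all
  omega

theorem conn_A (h3 : M.C3) : M.Conn M.A :=
  M.conn_of_b h3 (Finset.Subset.refl _) (by rw [M.b_A]; omega)

theorem tjoin {S : Finset V} (hS : M.Conn S) {u v : V} (hu : u ∈ S) (hv : v ∈ S) :
    ∃ Z : V × Fin 3 → ZMod 2, (∀ d, Z (M.al d) = Z d) ∧ (∀ d, Z d ≠ 0 → d ∈ M.ins S) ∧
      (∀ w, ∑ i : Fin 3, Z (w, i) = vi u w + vi v w) := by
  classical
  set R : Finset V := S.filter (fun v => ∃ Z : V × Fin 3 → ZMod 2, (∀ d, Z (M.al d) = Z d) ∧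
    (∀ d, Z d ≠ 0 → d ∈ M.ins S) ∧ (∀ w, ∑ i : Fin 3, Z (w, i) = vi u w + vi v w)) with hR
  have huR : u ∈ R := by
    rw [hR, Finset.mem_filter]
    refine ⟨hu, fun _ => 0, by simp, by simp, ?_⟩
    intro w
    simp [z2_add_self]
  have hRS : R = S := by
    by_contra hne
    obtain ⟨d, hd1, hd2, hd3⟩ := hS R (Finset.filter_subset _ _) ⟨u, huR⟩ hne
    apply hd3
    rw [hR, Finset.mem_filter] at hd1 ⊢
    obtain ⟨hdS, Z, z1, z2, z3⟩ := hd1
    refine ⟨hd2, fun e => Z e + M.ed d e, ?_, ?_, ?_⟩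
    · intro e
      show Z (M.al e) + M.ed d (M.al e) = Z e + M.ed d e
      rw [z1, ed_al]
    · intro e he
      replace he : Z e + M.ed d e ≠ 0 := he
      by_cases hz : Z e = 0
      · rw [hz, zero_add] at he
        unfold ed at he
        by_cases e1 : e = d
        · subst e1; rw [mem_ins]; exact ⟨hdS, hd2⟩
        · by_cases e2 : e = M.al d
          · subst e2; rw [mem_ins, M.inv]; exact ⟨hd2, hdS⟩
          · simp [e1, e2] at he
      · exact z2 e hz
    · intro w
      show ∑ i : Fin 3, (Z (w, i) + M.ed d (w, i)) = _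
      rw [Finset.sum_add_distrib, z3, ed_sum]
      have := z2_add_self (vi d.1 w)
      linear_combination this
  rw [← hRS, hR, Finset.mem_filter] at hv
  exact hv.2

/-- A functional vanishing on all cycle vectors comes from a cut. -/
theorem cut_of_functional (hA : M.Conn M.A) (L : Finset (V × Fin 3)) (hLA : ∀ d ∈ L, d.1 ∈ M.A)
    (hL : ∀ Z, M.Cyc Z → ∑ d ∈ L, Z d = 0) :
    ∃ x : V → ZMod 2, ∀ d, d.1 ∈ M.A → x d.1 + x (M.al d).1 = ∑ e ∈ L, M.ed d e := by
  classical
  by_cases hne : M.A.Nonempty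
  swap
  · refine ⟨fun _ => 0, ?_⟩
    intro d hd
    exact absurd ⟨_, hd⟩ hne
  obtain ⟨u, hu⟩ := hne
  have hJ : ∀ v : V, ∃ Z : V × Fin 3 → ZMod 2, v ∈ M.A → ((∀ d, Z (M.al d) = Z d) ∧
    (∀ d, Z d ≠ 0 → d ∈ M.ins M.A) ∧ (∀ w, ∑ i : Fin 3, Z (w, i) = vi u w + vi v w)) := by
    intro v
    by_cases hv : v ∈ M.A
    · obtain ⟨Z, hZ⟩ := M.tjoin hA hu hv
      exact ⟨Z, fun _ => hZ⟩
    · exact ⟨fun _ => 0, fun h => absurd h hv⟩
  choose J hJ using hJ
  refine ⟨fun v => ∑ e ∈ L, J v e, ?_⟩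
  intro d hd
  have h1 := hJ d.1 hd
  have h2 := hJ (M.al d).1 (M.act _ hd)
  have hC : M.Cyc (fun e => J d.1 e + J (M.al d).1 e + M.ed d e) := by
    refine ⟨?_, ?_, ?_⟩
    · intro e; simp only [h1.1, h2.1, ed_al]
    · intro w
      rw [Finset.sum_add_distrib, Finset.sum_add_distrib, h1.2.2, h2.2.2, ed_sum]
      have a := z2_add_self (vi u w)
      have b := z2_add_self (vi d.1 w)
      have c := z2_add_self (vi (M.al d).1 w)
      linear_combination a + b + c
    · intro e he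
      have a : J d.1 e = 0 := by
        by_contra h
        exact he ((M.mem_ins).1 (h1.2.1 e h)).1
      have b : J (M.al d).1 e = 0 := by
        by_contra h
        exact he ((M.mem_ins).1 (h2.2.1 e h)).1
      have c : M.ed d e = 0 := by
        unfold ed
        have e1 : e ≠ d := by rintro rfl; exact he hd
        have e2 : e ≠ M.al d := by rintro rfl; exact he (M.act _ hd)
        simp [e1, e2]
      simp only [a, b, c, add_zero]
  have := hL _ hC
  rw [Finset.sum_add_distrib, Finset.sum_add_distrib] at this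
  have t := z2_add_self (∑ e ∈ L, M.ed d e)
  linear_combination this - t

/-- The cut given by a functional vanishing on cycles, as a vertex set -/
theorem cut_set (hA : M.Conn M.A) (L : Finset (V × Fin 3)) (hLA : ∀ d ∈ L, d.1 ∈ M.A)
    (hLd : ∀ d ∈ L, M.al d ∉ L) (hL : ∀ Z, M.Cyc Z → ∑ d ∈ L, Z d = 0) :
    ∃ B ⊆ M.A, M.b B ≤ L.card ∧ (∀ d ∈ L, (d.1 ∈ B ↔ (M.al d).1 ∉ B)) ∧
      (∀ d, d.1 ∈ M.A → d ∉ L → M.al d ∉ L → (d.1 ∈ B ↔ (M.al d).1 ∈ B)) := by
  classical
  obtain ⟨x, hx⟩ := M.cut_of_functional hA L hLA hL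
  have hs : ∀ d, ∑ e ∈ L, M.ed d e = (if d ∈ L then 1 else 0) + (if M.al d ∈ L then 1 else 0) := by
    intro d
    unfold ed
    rw [Finset.sum_add_distrib]
    simp
  set B := M.A.filter (fun v => x v = 1) with hB
  have hmem : ∀ v, v ∈ M.A → (v ∈ B ↔ x v = 1) := by
    intro v hv; rw [hB, Finset.mem_filter]; tauto
  have c1 : ∀ d ∈ L, (d.1 ∈ B ↔ (M.al d).1 ∉ B) := by
    intro d hd
    have h := hx d (hLA d hd)
    rw [hs, if_pos hd, if_neg (hLd d hd), add_zero] at h
    rw [hmem _ (hLA d hd), hmem _ (M.act _ (hLA d hd))]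
    rcases z2_cases (x d.1) with h1 | h1 <;> rcases z2_cases (x (M.al d).1) with h2 | h2 <;>
      simp [h1, h2] at h ⊢
  have c2 : ∀ d, d.1 ∈ M.A → d ∉ L → M.al d ∉ L → (d.1 ∈ B ↔ (M.al d).1 ∈ B) := by
    intro d hd h1 h2
    have h := hx d hd
    rw [hs, if_neg h1, if_neg h2, add_zero] at h
    rw [hmem _ hd, hmem _ (M.act _ hd)]
    rcases z2_cases (x d.1) with h1 | h1 <;> rcases z2_cases (x (M.al d).1) with h2 | h2 <;>
      simp [h1, h2] at h ⊢
  refine ⟨B, Finset.filter_subset _ _, ?_, c1, c2⟩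
  unfold b
  apply Finset.card_le_card_of_injOn (fun d => if d ∈ L then d else M.al d)
  · intro d hd
    simp only [coe_filter, mem_univ, true_and, Set.mem_ofPred_eq] at hd
    have hdA : d.1 ∈ M.A := (Finset.mem_filter.1 hd.1).1
    by_cases h1 : d ∈ L
    · simp [h1]
    · by_cases h2 : M.al d ∈ L
      · simp [h1, h2]
      · have := c2 d hdA h1 h2
        tauto
  · intro d hd e he hde
    simp only [coe_filter, mem_univ, true_and, Set.mem_ofPred_eq] at hd he
    simp only at hde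
    split_ifs at hde with h1 h2 h2
    · exact hde
    · exfalso
      subst hde
      rw [M.inv] at hd
      exact he.2 hd.1
    · exfalso
      subst hde
      rw [M.inv] at he
      exact hd.2 he.1
    · exact M.al_inj hde

end CMap

end Pool.Agent.H24
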