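import Pool.Agent.H24.Euler

set_option autoImplicit false
set_option linter.unusedSectionVars false
set_option linter.unusedVariables false
set_option maxRecDepth 100000

namespace Pool.Agent.H24

open Finset

variable {V : Type} [Fintype V] [DecidableEq V] {G : SimpleGraph V}

theorem iter_fst {σ : Equiv.Perm G.Dart} (h1 : ∀ d : G.Dart, (σ d).fst = d.fst) (n : ℕ) (d : G.Dart) :
    (σ^[n] d).fst = d.fst := by
  induction n with
  | zero => rfl
  | succ n ih => rw [Function.iterate_succ_apply', h1, ih]

/-- a cubic graph with a rotation gives a map -/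
theorem exists_map (h3 : ∀ v : V, Nat.card (G.neighborSet v) = 3) (σ : Equiv.Perm G.Dart)
    (h1 : ∀ d : G.Dart, (σ d).fst = d.fst)
    (h2 : ∀ d d' : G.Dart, d.fst = d'.fst → ∃ n : ℕ, (σ ^ n) d = d') :
    ∃ (M : CMap V) (e : V × Fin 3 ≃ G.Dart), M.A = univ ∧ (∀ x, (e x).fst = x.1) ∧
      (∀ x, e (M.al x) = (e x).symm) ∧ (∀ x, e (sg x) = σ (e x)) := by
  classical
  have hex : ∀ v : V, ∃ d : G.Dart, d.fst = v := by
    intro v
    have : Nonempty (G.neighborSet v) := by
      by_contra hc
      rw [not_nonempty_iff] at hc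
      have := h3 v
      rw [Nat.card_of_isEmpty] at this
      omega
    obtain ⟨w, hw⟩ := this
    exact ⟨⟨(v, w), hw⟩, rfl⟩
  choose g0 hg0 using hex
  have hpow : ∀ (n : ℕ) (d : G.Dart), (σ ^ n) d = σ^[n] d := by
    intro n d
    rw [← Equiv.Perm.coe_pow]
  have hfin : Finite G.Dart := Finite.of_injective (fun d : G.Dart => d.toProd) (fun a b hab => by
    rw [SimpleGraph.Dart.ext_iff]; exact hab)
  have hper : ∀ v, Function.minimalPeriod σ (g0 v) = 3 := by
    intro v
    let E : {d : G.Dart // d.fst = v} ≃ G.neighborSet v :=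
      { toFun := fun d => ⟨d.1.snd, by
          have := d.1.adj
          rw [d.2] at this
          exact this⟩
        invFun := fun w => ⟨⟨(v, w.1), w.2⟩, rfl⟩
        left_inv := by
          rintro ⟨⟨⟨a, b⟩, hab⟩, hd⟩
          simp only at hd
          subst hd
          rfl
        right_inv := by
          rintro ⟨w, hw⟩
          rfl }
    have hc : Nat.card {d : G.Dart // d.fst = v} = 3 := by rw [Nat.card_congr E, h3]
    let m := Function.minimalPeriod σ (g0 v)
    have hmpos : 0 < m := by
      apply Function.minimalPeriod_pos_of_mem_periodicPts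
      exact Function.Injective.mem_periodicPts σ.injective _
    let F : Fin m → {d : G.Dart // d.fst = v} := fun i => ⟨σ^[i] (g0 v), by
      rw [iter_fst h1, hg0]⟩
    have hF : Function.Bijective F := by
      constructor
      · intro i j hij
        have := congrArg Subtype.val hij
        exact Fin.ext (Function.iterate_injOn_Iio_minimalPeriod (f := σ) (x := g0 v) i.2 j.2 this)
      · rintro ⟨d, hd⟩
        obtain ⟨n, hn⟩ := h2 (g0 v) d (by rw [hg0, hd])
        refine ⟨⟨n % m, Nat.mod_lt _ hmpos⟩, ?_⟩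
        apply Subtype.ext
        show σ^[n % m] (g0 v) = d
        rw [Function.iterate_mod_minimalPeriod_eq, ← hpow, hn]
    have := Nat.card_eq_of_bijective F hF
    rw [Nat.card_fin, hc] at this
    exact this
  have h33 : ∀ v, σ^[3] (g0 v) = g0 v := by
    intro v
    have := Function.iterate_minimalPeriod (f := σ) (x := g0 v)
    rw [hper] at this
    exact this
  let δ : V × Fin 3 → G.Dart := fun x => σ^[(x.2 : ℕ)] (g0 x.1)
  have hδf : ∀ x, (δ x).fst = x.1 := by
    intro x
    show (σ^[(x.2 : ℕ)] (g0 x.1)).fst = x.1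
    rw [iter_fst h1, hg0]
  have hδ : Function.Bijective δ := by
    constructor
    · rintro ⟨v, i⟩ ⟨w, j⟩ hij
      have hv : v = w := by
        have : (δ (v, i)).fst = (δ (w, j)).fst := by rw [hij]
        rw [hδf, hδf] at this
        exact this
      subst hv
      have : (i : ℕ) = j := by
        apply Function.iterate_injOn_Iio_minimalPeriod (f := σ) (x := g0 v)
        · rw [hper]; exact i.2
        · rw [hper]; exact j.2
        · exact hij
      rw [Fin.ext this]
    · intro d
      obtain ⟨n, hn⟩ := h2 (g0 d.fst) d (by rw [hg0])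
      refine ⟨(d.fst, ⟨n % 3, Nat.mod_lt _ (by norm_num)⟩), ?_⟩
      show σ^[n % 3] (g0 d.fst) = d
      rw [← hper d.fst, Function.iterate_mod_minimalPeriod_eq, ← hpow, hn]
  let e := Equiv.ofBijective δ hδ
  have hef : ∀ x, (e x).fst = x.1 := hδf
  refine ⟨{ A := univ, al := fun x => e.symm ((e x).symm), inv := ?_, act := ?_, nofix := ?_, out := ?_ }, e, rfl,
    hef, ?_, ?_⟩
  · intro d
    simp
  · intro d _
    exact mem_univ _
  · intro d _ hd
    have := congrArg e hd
    rw [Equiv.apply_symm_apply] at this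
    exact (e d).symm_ne this
  · intro d hd
    exact absurd (mem_univ _) hd
  · intro x
    exact Equiv.apply_symm_apply _ _
  · rintro ⟨v, i⟩
    show σ^[((i + 1 : Fin 3) : ℕ)] (g0 v) = σ (σ^[(i : ℕ)] (g0 v))
    rw [← Function.iterate_succ_apply' σ (i : ℕ) (g0 v)]
    fin_cases i
    · rfl
    · rfl
    · show g0 v = σ^[3] (g0 v)
      rw [h33]

theorem fst_mem (d : G.Dart) : d.fst ∈ d.edge := by
  show d.fst ∈ s(d.fst, d.snd)
  exact Sym2.mem_mk_left _ _

section
variable {M : CMap V} {e : V × Fin 3 ≃ G.Dart}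

theorem al_fst (hf : ∀ x, (e x).fst = x.1) (hal : ∀ x, e (M.al x) = (e x).symm) (x : V × Fin 3) :
    (M.al x).1 = (e x).snd := by
  rw [← hf, hal]
  rfl

theorem lift_adj (hf : ∀ x, (e x).fst = x.1) (hal : ∀ x, e (M.al x) = (e x).symm) {a b : V}
    (h : G.Adj a b) : ∃ x : V × Fin 3, x.1 = a ∧ (M.al x).1 = b ∧ e x = ⟨(a, b), h⟩ := by
  refine ⟨e.symm ⟨(a, b), h⟩, ?_, ?_, Equiv.apply_symm_apply _ _⟩
  · rw [← hf, Equiv.apply_symm_apply]
  · rw [al_fst hf hal, Equiv.apply_symm_apply]

theorem adj_of (hf : ∀ x, (e x).fst = x.1) (hal : ∀ x, e (M.al x) = (e x).symm) (x : V × Fin 3) :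
    G.Adj x.1 (M.al x).1 := by
  rw [← hf x, al_fst hf hal]
  exact (e x).adj

theorem simple_of (hf : ∀ x, (e x).fst = x.1) (hal : ∀ x, e (M.al x) = (e x).symm) {x y : V × Fin 3}
    (h1 : x.1 = y.1) (h2 : (M.al x).1 = (M.al y).1) : x = y := by
  apply e.injective
  rw [SimpleGraph.Dart.ext_iff]
  apply Prod.ext
  · show (e x).fst = (e y).fst
    rw [hf, hf, h1]
  · show (e x).snd = (e y).snd
    rw [← al_fst hf hal, ← al_fst hf hal, h2]

/-- three edge connectivity from three connectivity -/
theorem map_c3 (hf : ∀ x, (e x).fst = x.1) (hal : ∀ x, e (M.al x) = (e x).symm) (hA : M.A = univ)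
    (h2 : ∀ u v : V, (G.induce ({u, v}ᶜ : Set V)).Connected) : M.C3 := by
  classical
  intro B hB hne hne2
  by_contra hc
  have hb : M.b B ≤ 2 := by omega
  set X : Finset (V × Fin 3) := univ.filter (fun d : V × Fin 3 => d.1 ∈ B ∧ (M.al d).1 ∉ B) with hX
  have hXc : X.card ≤ 2 := hb
  have memX : ∀ d, d ∈ X ↔ d.1 ∈ B ∧ (M.al d).1 ∉ B := by intro d; simp [hX]
  obtain ⟨b0, hb0⟩ := hne
  have huv : ∃ u v : V, u ∈ B ∧ v ∈ B ∧ ∀ x ∈ X, x.1 = u ∨ x.1 = v := by
    have hc : X.card = 0 ∨ X.card = 1 ∨ X.card = 2 := by omega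
    rcases hc with q | q | q
    · rw [Finset.card_eq_zero] at q
      exact ⟨b0, b0, hb0, hb0, fun x hx => by rw [q] at hx; simp at hx⟩
    · obtain ⟨a, ha⟩ := Finset.card_eq_one.1 q
      have haX : a ∈ X := by rw [ha]; simp
      refine ⟨a.1, a.1, ((memX a).1 haX).1, ((memX a).1 haX).1, fun x hx => ?_⟩
      rw [ha, mem_singleton] at hx
      rw [hx]; exact Or.inl rfl
    · obtain ⟨a, c, _, hac⟩ := Finset.card_eq_two.1 q
      have haX : a ∈ X := by rw [hac]; simp
      have hcX : c ∈ X := by rw [hac]; simp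
      refine ⟨a.1, c.1, ((memX a).1 haX).1, ((memX c).1 hcX).1, fun x hx => ?_⟩
      rw [hac, mem_insert, mem_singleton] at hx
      rcases hx with rfl | rfl
      · exact Or.inl rfl
      · exact Or.inr rfl
  obtain ⟨u, v, hu, hv, huvX⟩ := huv
  obtain ⟨z, hz⟩ : ∃ z, z ∉ B := by
    by_contra q
    push Not at q
    apply hne2
    rw [hA]
    ext w
    simp [q w]
  have hsub : B ⊆ {u, v} := by
    intro w hw
    by_contra hcon
    have hw' : w ∈ ({u, v}ᶜ : Set V) := by
      intro q
      apply hcon
      simpa using q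
    have hz' : z ∈ ({u, v}ᶜ : Set V) := by
      intro q
      simp only [Set.mem_insert_iff, Set.mem_singleton_iff] at q
      rcases q with rfl | rfl
      · exact hz hu
      · exact hz hv
    obtain ⟨p⟩ := (h2 u v).preconnected ⟨w, hw'⟩ ⟨z, hz'⟩
    obtain ⟨d, -, hd1, hd2⟩ := p.exists_boundary_dart {x | x.1 ∈ B} hw hz
    have hadj : G.Adj d.fst.1 d.snd.1 := d.adj
    obtain ⟨x, x1, x2, -⟩ := lift_adj (M := M) hf hal hadj
    have hxX : x ∈ X := by
      rw [memX, x1, x2]
      exact ⟨hd1, hd2⟩
    have h5 := huvX x hxX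
    rw [x1] at h5
    have h6 := d.fst.2
    apply h6
    simp only [Set.mem_insert_iff, Set.mem_singleton_iff]
    exact h5
  have hBc : B.card ≤ 2 := (Finset.card_le_card hsub).trans Finset.card_le_two
  have hins := M.card_ins_add B
  have hoff : (M.ins B).card ≤ B.offDiag.card := by
    apply Finset.card_le_card_of_injOn (fun x => (x.1, (M.al x).1))
    · intro x hx
      have hx' := M.mem_ins.1 (Finset.mem_coe.1 hx)
      rw [Finset.mem_coe, Finset.mem_offDiag]
      exact ⟨hx'.1, hx'.2, (adj_of hf hal x).ne⟩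
    · intro x _ y _ hxy
      have hxy' : (x.1, (M.al x).1) = (y.1, (M.al y).1) := hxy
      exact simple_of hf hal (Prod.mk.inj hxy').1 (Prod.mk.inj hxy').2
  rw [Finset.offDiag_card] at hoff
  have hpos : 0 < B.card := Finset.card_pos.2 ⟨b0, hb0⟩
  have : B.card = 1 ∨ B.card = 2 := by omega
  rcases this with q | q <;> rw [q] at hoff hins <;> omega

/-- planarity of the map -/
theorem map_pl (hf : ∀ x, (e x).fst = x.1) (hal : ∀ x, e (M.al x) = (e x).symm) (hA : M.A = univ)
    {σ φ : Equiv.Perm G.Dart} (hsg : ∀ x, e (sg x) = σ (e x)) (hφ : ∀ d : G.Dart, φ d = σ d.symm)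
    (hc3 : M.C3) (h4 : 4 ≤ Fintype.card V) {k : ℕ} (hk : k + Fintype.card V = 2 + Nat.card G.edgeSet)
    {face : G.Dart → Fin k} (hface : ∀ d d' : G.Dart, face d = face d' ↔ ∃ n : ℕ, (φ ^ n) d = d')
    (hsurj : Function.Surjective face) : M.Pl := by
  classical
  have hcard : 3 * Fintype.card V = 2 * Nat.card G.edgeSet := by
    have h1 := G.dart_card_eq_twice_card_edges
    have h2 := Fintype.card_congr e
    rw [Fintype.card_prod, Fintype.card_fin] at h2
    have h5 : Nat.card G.edgeSet = G.edgeFinset.card := by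
      rw [Nat.card_eq_fintype_card, SimpleGraph.edgeFinset_card]
    rw [h5, ← h1, ← h2, mul_comm]
  have hAc : M.A.card = Fintype.card V := by rw [hA, Finset.card_univ]
  apply pl_of_euler M (M.conn_A hc3) (Finset.card_pos.1 (by omega)) k (fun x => face (e x))
  · intro d _
    show face (e (M.al d)) = face (e (sg d))
    rw [hface]
    refine ⟨1, ?_⟩
    rw [pow_one, hφ, hal, hsg, SimpleGraph.Dart.symm_symm]
  · intro i
    obtain ⟨d, hd⟩ := hsurj i
    refine ⟨e.symm d, by rw [hA]; exact mem_univ _, ?_⟩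
    show face (e (e.symm d)) = i
    rw [Equiv.apply_symm_apply, hd]
  · omega

/-- a good colouring of the map is an acyclic colouring of the graph -/
theorem col_graph (hf : ∀ x, (e x).fst = x.1) (hal : ∀ x, e (M.al x) = (e x).symm) (hA : M.A = univ)
    (hC : Col M) : ∃ c : G.Coloring (Fin 3),
      ∀ i j : Fin 3, (G.induce {v : V | c v = i ∨ c v = j}).IsAcyclic := by
  classical
  obtain ⟨c, hg⟩ := hC
  have hAm : ∀ v, v ∈ M.A := fun v => by rw [hA]; exact mem_univ _
  have hadj : ∀ {a b : V}, G.Adj a b → c a ≠ c b := by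
    intro a b hab
    obtain ⟨x, x1, x2, -⟩ := lift_adj (M := M) hf hal hab
    have := hg.proper x (hAm _)
    rw [x1, x2] at this
    exact this
  refine ⟨SimpleGraph.Coloring.mk c hadj, ?_⟩
  intro i j v w hw
  have hcc : ∀ u : V, (SimpleGraph.Coloring.mk c hadj) u = c u := fun u => rfl
  obtain ⟨p, hpi, hpj⟩ : ∃ p : Fin 3, p ≠ i ∧ p ≠ j := by
    have : ∀ i j : Fin 3, ∃ p : Fin 3, p ≠ i ∧ p ≠ j := by decide
    exact this i j
  -- the cycle in the graph
  set s : Set V := {v : V | (SimpleGraph.Coloring.mk c hadj) v = i ∨ (SimpleGraph.Coloring.mk c hadj) v = j} with hs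
  set W := w.map (SimpleGraph.Embedding.induce (G := G) s).toHom with hW
  have hWc : W.IsCycle := hw.map (SimpleGraph.Embedding.induce (G := G) s).injective
  have hWs : ∀ u ∈ W.support, c u ≠ p := by
    intro u hu
    rw [hW, SimpleGraph.Walk.support_map, List.mem_map] at hu
    obtain ⟨⟨u', hu'⟩, _, rfl⟩ := hu
    intro q
    have q2 : c u' = p := q
    rcases hu' with h | h
    · exact hpi (by rw [← q2]; exact h)
    · exact hpj (by rw [← q2]; exact h)
  let Z : V × Fin 3 → ZMod 2 := fun x => if (e x).edge ∈ W.edges then 1 else 0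
  have hZs : ∀ x, Z (M.al x) = Z x := by
    intro x
    simp only [Z]
    rw [hal, SimpleGraph.Dart.edge_symm]
  have hZsum : ∀ u : V, ∑ i : Fin 3, Z (u, i) = 0 := by
    intro u
    have h1 : ∑ i : Fin 3, Z (u, i) = ((univ.filter (fun i : Fin 3 => (e (u, i)).edge ∈ W.edges)).card : ZMod 2) := by
      simp only [Z]
      rw [Finset.sum_boole]
    have h2 : (univ.filter (fun i : Fin 3 => (e (u, i)).edge ∈ W.edges)).card =
        (W.edges.toFinset.filter (fun s => u ∈ s)).card := by
      apply Finset.card_bij (fun i _ => (e (u, i)).edge)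
      · intro i hi
        rw [mem_filter] at hi ⊢
        refine ⟨List.mem_toFinset.2 hi.2, ?_⟩
        have := fst_mem (e (u, i))
        rw [hf] at this
        exact this
      · intro i _ j _ hij
        have hij' : (e (u, i)).edge = (e (u, j)).edge := hij
        rw [SimpleGraph.dart_edge_eq_iff] at hij'
        rcases hij' with q | q
        · have := e.injective q
          exact congrArg Prod.snd this
        · exfalso
          have q1 : (e (u, i)).fst = (e (u, j)).symm.fst := by rw [q]
          have q2 : (e (u, j)).symm.fst = (e (u, j)).snd := rfl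
          rw [q2, hf] at q1
          have := (e (u, j)).adj
          rw [← q1, hf] at this
          exact G.loopless.irrefl _ this
      · intro s hs
        rw [mem_filter, List.mem_toFinset] at hs
        obtain ⟨hs1, hs2⟩ := hs
        obtain ⟨t, rfl⟩ := Sym2.mem_iff_exists.1 hs2
        have hadj' : G.Adj u t := W.adj_of_mem_edges hs1
        obtain ⟨x, x1, x2, x3⟩ := lift_adj (M := M) hf hal hadj'
        refine ⟨x.2, ?_, ?_⟩
        · rw [mem_filter]
          refine ⟨mem_univ _, ?_⟩
          rw [← x1]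
          show (e x).edge ∈ _
          rw [x3]
          exact hs1
        · show (e (u, x.2)).edge = s(u, t)
          have : (u, x.2) = x := by rw [← x1]
          rw [this, x3]
          rfl
    have h3 : (W.edges.toFinset.filter (fun s => u ∈ s)).card = W.edges.countP (fun s => u ∈ s) := by
      have e1 : (W.edges.toFinset.filter (fun s => u ∈ s)) = (W.edges.filter (fun s => decide (u ∈ s))).toFinset := by
        ext s; simp
      rw [List.countP_eq_length_filter, e1, List.toFinset_card_of_nodup]
      exact hWc.isTrail.edges_nodup.filter _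
    have h4 : Even (W.edges.countP (fun s => u ∈ s)) := by
      rw [hWc.isTrail.even_countP_edges_iff]
      intro q
      exact absurd rfl q
    rw [h1, h2, h3, ZMod.natCast_eq_zero_iff_even]
    exact h4
  have hcyc : M.Cyc Z := ⟨hZs, hZsum, fun d hd => absurd (hAm _) hd⟩
  have hz := hg.acyc p Z hcyc (by
    intro d hd
    simp only [Z]
    rw [if_neg]
    intro q
    have h5 : d.1 ∈ (e d).edge := by
      have := fst_mem (e d)
      rw [hf] at this
      exact this
    have h6 : d.1 ∈ W.support := by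
      obtain ⟨t, ht⟩ := Sym2.mem_iff_exists.1 h5
      rw [ht] at q
      exact W.fst_mem_support_of_mem_edges q
    exact hWs _ h6 hd)
  -- the cycle has an edge
  have hne : W.edges ≠ [] := by
    intro q
    have h7 := hWc.three_le_length
    rw [← SimpleGraph.Walk.length_edges, q] at h7
    simp at h7
  obtain ⟨s0, hs0⟩ := List.exists_mem_of_ne_nil _ hne
  induction s0 with
  | _ a b =>
    have hab : G.Adj a b := W.adj_of_mem_edges hs0
    obtain ⟨x, x1, x2, x3⟩ := lift_adj (M := M) hf hal hab
    have := hz x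
    simp only [Z] at this
    rw [x3, if_pos] at this
    · exact absurd this (by decide)
    · exact hs0

end

end Pool.Agent.H24
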