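import Pool.Agent.H24.Link

set_option autoImplicit false
set_option linter.unusedSectionVars false
set_option linter.unusedVariables false
set_option maxRecDepth 100000

namespace Pool.Agent.H24

open Finset

variable {V : Type} [Fintype V] [DecidableEq V] {G : SimpleGraph V}

theorem iso_graph {M : CMap V} {e : V × Fin 3 ≃ G.Dart} (hf : ∀ x, (e x).fst = x.1)
    (hal : ∀ x, e (M.al x) = (e x).symm) (hA : M.A = univ) {n : ℕ} {f : ℕ → ℕ} (hi : IsoTo M n f)
    {W : Type} (H : SimpleGraph W) (τ : Fin n ≃ W)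
    (hτ : ∀ a b : Fin n, H.Adj (τ a) (τ b) ↔ (f (3 * a) / 3 = b ∨ f (3 * a + 1) / 3 = b ∨ f (3 * a + 2) / 3 = b)) :
    Nonempty (G ≃g H) := by
  obtain ⟨ψ, hi⟩ := hi
  let κ : Fin n → V := fun a => (ψ (3 * a)).1
  have hκ : Function.Bijective κ := by
    rw [Fintype.bijective_iff_injective_and_card]
    constructor
    · intro a b hab
      have ha := a.2
      have hb := b.2
      have := hi.vert (k := 3 * a) (l := 3 * b) (by omega) (by omega) hab
      apply Fin.ext
      omega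
    · rw [Fintype.card_fin]
      have := hi.card
      rw [hA, Finset.card_univ] at this
      exact this.symm
  let E := Equiv.ofBijective κ hκ
  have hE : ∀ a, E a = (ψ (3 * a)).1 := fun a => rfl
  have key : ∀ a b : Fin n, G.Adj (E a) (E b) ↔
      (f (3 * a) / 3 = b ∨ f (3 * a + 1) / 3 = b ∨ f (3 * a + 2) / 3 = b) := by
    intro a b
    have ha := a.2
    have hb := b.2
    constructor
    · intro hadj
      obtain ⟨x, x1, x2, -⟩ := lift_adj (M := M) hf hal hadj
      obtain ⟨k, hk, rfl⟩ := hi.surj (d := x) (by rw [hA]; exact mem_univ _)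
      rw [hi.al_ k hk, hE] at x2
      rw [hE] at x1
      have h1 := hi.vert hk (by omega) x1
      have h2 := hi.vert (hi.cl k hk) (by omega) x2
      have h3 : k = 3 * a ∨ k = 3 * a + 1 ∨ k = 3 * a + 2 := by omega
      rcases h3 with q | q | q
      · left; rw [← q]; omega
      · right; left; rw [← q]; omega
      · right; right; rw [← q]; omega
    · have main : ∀ k < 3 * n, k / 3 = a → f k / 3 = b → G.Adj (E a) (E b) := by
        intro k hk h1 h2
        have h3 := adj_of hf hal (ψ k)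
        rw [hi.al_ k hk, hi.vert' (k := f k) (l := 3 * b) (hi.cl k hk) (by omega),
          hi.vert' (k := k) (l := 3 * a) hk (by omega)] at h3
        exact h3
      rintro (q | q | q)
      · exact main (3 * a) (by omega) (by omega) q
      · exact main (3 * a + 1) (by omega) (by omega) q
      · exact main (3 * a + 2) (by omega) (by omega) q
  refine ⟨⟨E.symm.trans τ, ?_⟩⟩
  intro u v
  obtain ⟨a, rfl⟩ := E.surjective u
  obtain ⟨b, rfl⟩ := E.surjective v
  simp only [Equiv.coe_trans, Function.comp_apply, Equiv.symm_apply_apply]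
  rw [hτ, key]

theorem tabK4 : ∀ a b : Fin 4, (a ≠ b) ↔ (fK4 (3 * a) / 3 = b ∨ fK4 (3 * a + 1) / 3 = b ∨ fK4 (3 * a + 2) / 3 = b) := by
  decide +kernel

def tQ (a : Fin 8) : Fin 3 → Bool := fun i => (a : ℕ).testBit i

theorem tQ_bij : Function.Bijective tQ := by decide +kernel

theorem tabQ3 : ∀ a b : Fin 8, ((tQ a ≠ tQ b) ∧ ((∃ i, tQ a i ≠ tQ b i ∧ ∀ j, j ≠ i → tQ a j = tQ b j) ∨
    (∃ i, tQ b i ≠ tQ a i ∧ ∀ j, j ≠ i → tQ b j = tQ a j))) ↔
    (fQ3 (3 * a) / 3 = b ∨ fQ3 (3 * a + 1) / 3 = b ∨ fQ3 (3 * a + 2) / 3 = b) := by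
  decide +kernel

theorem tabH : ∀ a b : Fin 8, (a ≠ b ∧ ((a, b) ∈ ({(0, 6), (0, 1), (1, 2), (2, 7), (3, 6), (3, 4),
            (4, 5), (5, 7), (0, 3), (1, 4), (2, 5), (6, 7)} : Finset (Fin 8 × Fin 8)) ∨
            (b, a) ∈ ({(0, 6), (0, 1), (1, 2), (2, 7), (3, 6), (3, 4),
            (4, 5), (5, 7), (0, 3), (1, 4), (2, 5), (6, 7)} : Finset (Fin 8 × Fin 8)))) ↔
    (fH (3 * a) / 3 = b ∨ fH (3 * a + 1) / 3 = b ∨ fH (3 * a + 2) / 3 = b) := by
  decide +kernel

theorem graph_main (h3 : ∀ v : V, Nat.card (G.neighborSet v) = 3) (h4 : 4 ≤ Fintype.card V)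
    (h2c : ∀ u v : V, (G.induce ({u, v}ᶜ : Set V)).Connected)
    {k : ℕ} (hk : k + Fintype.card V = 2 + Nat.card G.edgeSet)
    {σ φ : Equiv.Perm G.Dart} {face : G.Dart → Fin k}
    (h1 : ∀ d : G.Dart, (σ d).fst = d.fst)
    (h2 : ∀ d d' : G.Dart, d.fst = d'.fst → ∃ n : ℕ, (σ ^ n) d = d')
    (hφ : ∀ d : G.Dart, φ d = σ d.symm)
    (hface : ∀ d d' : G.Dart, face d = face d' ↔ ∃ n : ℕ, (φ ^ n) d = d')
    (hsurj : Function.Surjective face)
    (n1 : ¬ Nonempty (G ≃g (⊤ : SimpleGraph (Fin 4))))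
    (n2 : ¬ Nonempty (G ≃g SimpleGraph.fromRel
          (fun x y : Fin 3 → Bool => ∃ i, x i ≠ y i ∧ ∀ j, j ≠ i → x j = y j)))
    (n3 : ¬ Nonempty (G ≃g SimpleGraph.fromRel
          (fun a b : Fin 8 => (a, b) ∈ ({(0, 6), (0, 1), (1, 2), (2, 7), (3, 6), (3, 4),
            (4, 5), (5, 7), (0, 3), (1, 4), (2, 5), (6, 7)} : Finset (Fin 8 × Fin 8))))) :
    ∃ c : G.Coloring (Fin 3), ∀ i j : Fin 3, (G.induce {v : V | c v = i ∨ c v = j}).IsAcyclic := by
  obtain ⟨M, e, hA, hf, hal, hsg⟩ := exists_map h3 σ h1 h2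
  have hc3 := map_c3 hf hal hA h2c
  have hpl := map_pl hf hal hA hsg hφ hc3 h4 hk hface hsurj
  have hAc : M.A.card = Fintype.card V := by rw [hA, Finset.card_univ]
  rcases main_maps _ M rfl hc3 hpl (by omega) with hC | hE
  · exact col_graph hf hal hA hC
  · exfalso
    rcases hE with hE | hE | hE | hE
    · obtain ⟨ψ, hi⟩ := hE
      have := hi.card
      omega
    · apply n1
      apply iso_graph hf hal hA hE _ (Equiv.refl _)
      intro a b
      exact tabK4 a b
    · apply n2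
      apply iso_graph hf hal hA hE _ (Equiv.ofBijective tQ tQ_bij)
      intro a b
      rw [SimpleGraph.fromRel_adj]
      exact tabQ3 a b
    · apply n3
      apply iso_graph hf hal hA hE _ (Equiv.refl _)
      intro a b
      rw [SimpleGraph.fromRel_adj]
      exact tabH a b

end Pool.Agent.H24
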