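import Pool.Agent.H24.Iso

set_option autoImplicit false
set_option linter.unusedSectionVars false
set_option linter.unusedVariables false
set_option maxRecDepth 100000

namespace Pool.Agent.H24

/-- partner function of the map theta -/
def fTh (k : ℕ) : ℕ := dg 6 1107312963 k
def lTh (k : ℕ) : ℕ := dg 3 66184 k
theorem lTh_ok : ∀ k < 6, lTh (s3 (fTh k)) = lTh k := by decide +kernel
theorem fTh_lt : ∀ k < 6, fTh k < 6 := by decide +kernel

/-- partner function of the map K4 -/
def fK4 (k : ℕ) : ℕ := dg 6 304410142829646483843 k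
def lK4 (k : ℕ) : ℕ := dg 3 27970339464 k
theorem lK4_ok : ∀ k < 12, lK4 (s3 (fK4 k)) = lK4 k := by decide +kernel
theorem fK4_lt : ∀ k < 12, fK4 k < 12 := by decide +kernel

/-- partner function of the map Q3 -/
def fQ3 (k : ℕ) : ℕ := dg 6 6713959000897648686137081577830929662001539 k
def lQ3 (k : ℕ) : ℕ := dg 3 3216121953577532490376 k
theorem lQ3_ok : ∀ k < 24, lQ3 (s3 (fQ3 k)) = lQ3 k := by decide +kernel
theorem fQ3_lt : ∀ k < 24, fQ3 k < 24 := by decide +kernel

/-- partner function of the map H -/
def fH (k : ℕ) : ℕ := dg 6 6033150724972378201380613781698101089968338 k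
def lH (k : ℕ) : ℕ := dg 3 3067952180358544200840 k
theorem lH_ok : ∀ k < 24, lH (s3 (fH k)) = lH k := by decide +kernel
theorem fH_lt : ∀ k < 24, fH k < 24 := by decide +kernel

end Pool.Agent.H24
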