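import Pool.Agent.H24.Faces

set_option autoImplicit false
set_option linter.unusedSectionVars false
set_option linter.unusedVariables false

namespace Pool.Agent.H24

open Finset Equiv.Perm

variable {V : Type} [Fintype V] [DecidableEq V]

/-- a half set for a fixed point free involution -/
theorem half_set {D : Type} [Fintype D] [DecidableEq D] (al : D → D) (hinv : ∀ d, al (al d) = d)
    (I : Finset D) (hI : ∀ d ∈ I, al d ∈ I) (hfix : ∀ d ∈ I, al d ≠ d) :
    ∃ R ⊆ I, (∀ d ∈ I, d ∉ R → al d ∈ R) ∧ (∀ d ∈ R, al d ∉ R) ∧ 2 * R.card = I.card := by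
  classical
  let idx := Fintype.equivFin D
  refine ⟨I.filter (fun d => idx d < idx (al d)), Finset.filter_subset _ _, ?_, ?_, ?_⟩
  · intro d hd hn
    rw [Finset.mem_filter] at hn ⊢
    refine ⟨hI d hd, ?_⟩
    rw [hinv]
    have h1 : ¬ idx d < idx (al d) := fun h => hn ⟨hd, h⟩
    have h2 : idx (al d) ≠ idx d := fun h => hfix d hd (idx.injective h)
    exact lt_of_le_of_ne (not_lt.1 h1) h2
  · intro d hd hn
    rw [Finset.mem_filter] at hd hn
    rw [hinv] at hn
    exact lt_asymm hd.2 hn.2
  · have : (I.filter (fun d => idx d < idx (al d))).card = (I.filter (fun d => ¬ idx d < idx (al d))).card := by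
      apply Finset.card_bij' (fun d _ => al d) (fun d _ => al d)
      · intro d hd
        rw [Finset.mem_filter] at hd ⊢
        rw [hinv]
        exact ⟨hI d hd.1, fun h => lt_asymm hd.2 h⟩
      · intro d hd
        rw [Finset.mem_filter] at hd ⊢
        rw [hinv]
        refine ⟨hI d hd.1, ?_⟩
        have h2 : idx (al d) ≠ idx d := fun h => hfix d hd.1 (idx.injective h)
        exact lt_of_le_of_ne (not_lt.1 hd.2) h2
      · intro d _; exact hinv d
      · intro d _; exact hinv d
    have h2 := Finset.card_filter_add_card_filter_not (s := I) (fun d => idx d < idx (al d))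
    omega

namespace CMap

variable (M : CMap V)

/-- the set of darts of the face of `d` -/
noncomputable def fc (d : V × Fin 3) : Finset (V × Fin 3) := by
  classical exact univ.filter (fun e => M.SC d e)

theorem mem_fc {d e : V × Fin 3} : e ∈ M.fc d ↔ M.SC d e := by
  classical
  unfold fc
  simp

theorem fc_eq {d e : V × Fin 3} : M.fc d = M.fc e ↔ M.SC d e := by
  constructor
  · intro h
    have : e ∈ M.fc e := M.mem_fc.2 (SC.refl M e)
    rw [← h] at this
    exact M.mem_fc.1 this
  · intro h
    ext x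
    rw [mem_fc, mem_fc]
    exact ⟨fun q => h.symm.trans q, fun q => h.trans q⟩

/-- the faces inside `S` avoiding `d0` -/
noncomputable def KF (S : Finset V) (d0 : V × Fin 3) : Finset (Finset (V × Fin 3)) := by
  classical exact (univ.filter (fun d : V × Fin 3 => d.1 ∈ S ∧ (∀ e, M.SC d e → e.1 ∈ S) ∧ ¬ M.SC d d0)).image M.fc

theorem mem_KF {S : Finset V} {d0 : V × Fin 3} {f : Finset (V × Fin 3)} :
    f ∈ M.KF S d0 ↔ ∃ d : V × Fin 3, (d.1 ∈ S ∧ (∀ e, M.SC d e → e.1 ∈ S) ∧ ¬ M.SC d d0) ∧ M.fc d = f := by
  classical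
  unfold KF
  simp [Finset.mem_image]

theorem patch_aux (hpl : M.Pl) {S : Finset V} (hS : S ⊆ M.A) (hne : S.Nonempty) (d0 : V × Fin 3)
    (hd0 : d0.1 ∈ M.A)
    (hbase : ∀ H, M.Inv H → (∀ d, d.1 ∈ M.A → d.1 ∉ S → H d = H (sg d)) → H d0 = 0 →
      ∀ d, d.1 ∈ M.A → d.1 ∉ S → H d = 0) :
    (M.ins S).card + 2 ≤ 2 * (M.KF S d0).card + 2 * S.card := by
  classical
  obtain ⟨v0, hv0⟩ := hne
  obtain ⟨R, hRI, hR1, hR2, hR3⟩ := half_set M.al M.inv (M.ins S)
    (by intro d hd; rw [mem_ins] at *; rw [M.inv]; exact ⟨hd.2, hd.1⟩)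
    (by intro d hd; exact M.nofix d (hS (M.mem_ins.1 hd).1))
  let ext : (R → ZMod 2) → (V × Fin 3) → ZMod 2 := fun f d =>
    if h : d ∈ R then f ⟨d, h⟩ else if h : M.al d ∈ R then f ⟨M.al d, h⟩ else 0
  have ext_add : ∀ f g d, ext (f + g) d = ext f d + ext g d := by
    intro f g d
    simp only [ext]
    split_ifs <;> simp
  have ext_smul : ∀ (c : ZMod 2) f d, ext (c • f) d = c * ext f d := by
    intro c f d
    simp only [ext]
    split_ifs <;> simp
  have ext_sym : ∀ f d, ext f (M.al d) = ext f d := by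
    intro f d
    simp only [ext]
    by_cases h1 : d ∈ R
    · have h2 := hR2 d h1
      simp only [h1, h2, M.inv, dif_pos, dif_neg, not_false_eq_true]
    · by_cases h2 : M.al d ∈ R
      · simp only [h1, h2, M.inv, dif_pos, dif_neg, not_false_eq_true]
      · simp only [h1, h2, M.inv, dif_neg, not_false_eq_true]
  have ext_supp : ∀ f d, d ∉ M.ins S → ext f d = 0 := by
    intro f d hd
    simp only [ext]
    have h1 : d ∉ R := fun h => hd (hRI h)
    have h2 : M.al d ∉ R := by
      intro h
      apply hd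
      have := hRI h
      rw [mem_ins] at *
      rw [M.inv] at this
      exact ⟨this.2, this.1⟩
    simp [h1, h2]
  let L : (R → ZMod 2) →ₗ[ZMod 2] (↥(S.erase v0) → ZMod 2) :=
    { toFun := fun f v => ∑ i : Fin 3, ext f (v.1, i)
      map_add' := by
        intro f g
        ext v
        simp only [ext_add, Finset.sum_add_distrib, Pi.add_apply]
      map_smul' := by
        intro c f
        ext v
        simp only [ext_smul, Pi.smul_apply, RingHom.id_apply, smul_eq_mul, Finset.mul_sum] }
  have hLap : ∀ f v, L f v = ∑ i : Fin 3, ext f (v.1, i) := fun f v => rfl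
  have hcyc : ∀ f, L f = 0 → M.Cyc (ext f) := by
    intro f hf
    have hout : ∀ d, d.1 ∉ S → ext f d = 0 := by
      intro d hd
      apply ext_supp
      rw [mem_ins]; tauto
    have hvs : ∀ v, v ≠ v0 → ∑ i : Fin 3, ext f (v, i) = 0 := by
      intro v hv
      by_cases h : v ∈ S
      · have := congrFun hf ⟨v, Finset.mem_erase.2 ⟨hv, h⟩⟩
        rw [hLap] at this
        exact this
      · apply Finset.sum_eq_zero
        intro i _
        exact hout _ h
    refine ⟨ext_sym f, ?_, ?_⟩
    · intro v
      by_cases h : v = v0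
      · subst h
        have htot : ∑ d : V × Fin 3, ext f d = 0 := by
          have : ∑ d ∈ M.ins S, ext f d = 0 := by
            apply Finset.sum_involution (fun d _ => M.al d)
            · intro d _; rw [ext_sym]; exact z2_add_self _
            · intro d hd _; exact M.nofix d (hS (M.mem_ins.1 hd).1)
            · intro d hd
              rw [mem_ins] at *
              rw [M.inv]; exact ⟨hd.2, hd.1⟩
            · intro d _; exact M.inv d
          rw [← this]
          symm
          apply Finset.sum_subset (Finset.subset_univ _)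
          intro d _ hd
          exact ext_supp f d hd
        rw [Fintype.sum_prod_type] at htot
        rw [Finset.sum_eq_single v] at htot
        · exact htot
        · intro w _ hw
          exact hvs w hw
        · simp
      · exact hvs v h
    · intro d hd
      exact hout d (fun h => hd (hS h))
  -- choose potentials
  have hH : ∀ f : R → ZMod 2, ∃ H : (V × Fin 3) → ZMod 2, L f = 0 → (M.Inv H ∧
      (∀ d, d.1 ∈ M.A → ext f d = H d + H (sg d)) ∧ H d0 = 0 ∧ ∀ d, d.1 ∈ M.A → d.1 ∉ S → H d = 0) := by
    intro f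
    by_cases hf : L f = 0
    · obtain ⟨H, h1, h2⟩ := hpl _ (hcyc f hf)
      refine ⟨fun d => H d + H d0, fun _ => ?_⟩
      have i1 : M.Inv (fun d => H d + H d0) := by
        intro d hd
        show H (M.al d) + H d0 = H (sg d) + H d0
        rw [h1 d hd]
      have i2 : ∀ d, d.1 ∈ M.A → ext f d = (H d + H d0) + (H (sg d) + H d0) := by
        intro d hd
        rw [h2 d hd]
        have := z2_add_self (H d0)
        linear_combination -this
      have i3 : H d0 + H d0 = 0 := z2_add_self _
      refine ⟨i1, i2, i3, ?_⟩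
      apply hbase _ i1 _ i3
      intro d hd hdS
      have := i2 d hd
      rw [ext_supp f d (by rw [mem_ins]; tauto)] at this
      show H d + H d0 = H (sg d) + H d0
      have t := z2_add_self (H (sg d) + H d0)
      linear_combination -this - t
    · exact ⟨fun _ => 0, fun h => absurd h hf⟩
  choose H hH using hH
  have hrep : ∀ k : ↥(M.KF S d0), ∃ d : V × Fin 3,
      (d.1 ∈ S ∧ (∀ e, M.SC d e → e.1 ∈ S) ∧ ¬ M.SC d d0) ∧ M.fc d = k.1 := by
    intro k
    exact M.mem_KF.1 k.2
  choose rep hrep using hrep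
  have hinj : Function.Injective (fun (f : LinearMap.ker L) (k : ↥(M.KF S d0)) => H f.1 (rep k)) := by
    intro f g hfg
    have hf := hH f.1 (LinearMap.mem_ker.1 f.2)
    have hg := hH g.1 (LinearMap.mem_ker.1 g.2)
    have hall : ∀ d, d.1 ∈ M.A → H f.1 d = H g.1 d := by
      intro d hd
      by_cases c1 : M.SC d d0
      · rw [M.inv_SC hf.1 hd c1, M.inv_SC hg.1 hd c1, hf.2.2.1, hg.2.2.1]
      · by_cases c2 : ∀ e, M.SC d e → e.1 ∈ S
        · have hk : M.fc d ∈ M.KF S d0 := M.mem_KF.2 ⟨d, ⟨c2 d (SC.refl M d), c2, c1⟩, rfl⟩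
          have h1 := congrFun hfg ⟨M.fc d, hk⟩
          simp only at h1
          have h2 := (hrep ⟨M.fc d, hk⟩).2
          rw [M.fc_eq] at h2
          rw [M.inv_SC hf.1 hd h2.symm, M.inv_SC hg.1 hd h2.symm]
          exact h1
        · push Not at c2
          obtain ⟨e, he1, he2⟩ := c2
          have heA := (M.SC_act he1).1 hd
          rw [M.inv_SC hf.1 hd he1, M.inv_SC hg.1 hd he1, hf.2.2.2 e heA he2, hg.2.2.2 e heA he2]
    have hZ : ∀ d, d.1 ∈ M.A → ext f.1 d = ext g.1 d := by
      intro d hd
      rw [hf.2.1 d hd, hg.2.1 d hd, hall d hd, hall (sg d) hd]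
    apply Subtype.ext
    ext ⟨d, hd⟩
    have hdA : d.1 ∈ M.A := hS (M.mem_ins.1 (hRI hd)).1
    have := hZ d hdA
    simp only [ext, hd, dif_pos] at this
    rw [this]
  have hcard := Fintype.card_le_of_injective _ hinj
  rw [Module.card_eq_pow_finrank (K := ZMod 2)] at hcard
  simp only [Fintype.card_fun, ZMod.card, Fintype.card_coe] at hcard
  have h1 : Module.finrank (ZMod 2) (LinearMap.ker L) ≤ (M.KF S d0).card :=
    (Nat.pow_le_pow_iff_right (by norm_num)).1 hcard
  have h2 := LinearMap.finrank_range_add_finrank_ker L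
  have h3 : Module.finrank (ZMod 2) (LinearMap.range L) ≤ (S.erase v0).card := by
    refine (Submodule.finrank_le _).trans ?_
    rw [Module.finrank_fintype_fun_eq_card, Fintype.card_coe]
  rw [Module.finrank_fintype_fun_eq_card, Fintype.card_coe] at h2
  rw [Finset.card_erase_of_mem hv0] at h3
  have : 0 < S.card := Finset.card_pos.2 ⟨v0, hv0⟩
  omega

end CMap

end Pool.Agent.H24
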