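import Pool.Agent.H24.Disch

set_option autoImplicit false
set_option linter.unusedSectionVars false
set_option linter.unusedVariables false
set_option maxRecDepth 100000

namespace Pool.Agent.H24

open Finset Equiv.Perm

variable {V : Type} [Fintype V] [DecidableEq V]
variable {M M' : CMap V}

theorem Std.N3 (h : Std M) : M.N3 := by
  intro B hB hb
  rcases h.n3 B hB hb with q | q
  · left
    have : B.card ≠ 0 := by
      intro z
      rw [Finset.card_eq_zero] at z
      rw [z, M.b_empty] at hb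
      omega
    omega
  · right
    have : (M.A \ B).card ≠ 0 := by
      intro z
      rw [Finset.card_eq_zero, Finset.sdiff_eq_empty_iff_subset] at z
      rw [Finset.Subset.antisymm hB z, M.b_A] at hb
      omega
    omega

theorem cyc_val {Z H : V × Fin 3 → ZMod 2} (hH : M.Inv H) (hZ : ∀ d, d.1 ∈ M.A → Z d = H d + H (sg d))
    {d : V × Fin 3} (hd : d.1 ∈ M.A) : Z d = H d + H (M.al d) := by
  rw [hZ d hd, ← hH d hd]

theorem not_self_adj (h : Std M) {d : V × Fin 3} (hd : d.1 ∈ M.A) : ¬ M.SC d (M.al d) :=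
  fun q => M.no_bridge h.c3 h.pl hd (q.trans (M.SC_al d))

theorem lemN_aux (h : Std M) {d n n' : V × Fin 3} (hd : d.1 ∈ M.A) (h1 : M.SC d n)
    (h2 : M.SC (M.al d) n') (hn' : n' ≠ M.al d) (hnd : n ≠ d)
    (k1 : d.1 = n.1 ∨ d.1 = (M.al n).1) (k2 : d.1 = n'.1 ∨ d.1 = (M.al n').1) :
    M.ph n = d ∧ n' = M.ph (M.al d) := by
  have hn : n.1 ∈ M.A := (M.SC_act h1).1 hd
  constructor
  · rcases k1 with q | q
    · exact absurd (M.fc_vertex h.c3 h.pl hd q h1).symm hnd
    · exact (M.fc_vertex h.c3 h.pl hd (e := M.ph n) q (h1.trans (M.SC_ph n))).symm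
  · rw [M.ph_al]
    have hs : M.SC (sg d) n' := (M.SC_al d).symm.trans h2
    rcases k2 with q | q
    · exact (M.fc_vertex h.c3 h.pl (d := sg d) hd q hs).symm
    · exfalso
      have := M.fc_vertex h.c3 h.pl (d := sg d) (e := M.ph n') hd q (hs.trans (M.SC_ph n'))
      rw [← M.ph_al] at this
      exact hn' (M.ph.injective this).symm

/-- a face adjacent to both faces of an edge passes through an end of the edge -/
theorem lemN (h : Std M) {d n n' : V × Fin 3} (hd : d.1 ∈ M.A) (h1 : M.SC d n)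
    (h2 : M.SC (M.al d) n') (h3 : M.SC (M.al n) (M.al n')) :
    (M.ph n = d ∧ n' = M.ph (M.al d)) ∨ (M.ph n' = M.al d ∧ n = M.ph d) := by
  have hn : n.1 ∈ M.A := (M.SC_act h1).1 hd
  have had : (M.al d).1 ∈ M.A := M.act _ hd
  have hn' : n'.1 ∈ M.A := (M.SC_act h2).1 had
  have c0 := not_self_adj h hd
  have c1 := not_self_adj h hn
  have c2 := not_self_adj h hn'
  have e1 : n ≠ d := by
    rintro rfl
    exact c2 (h2.symm.trans h3)
  have e2 : n ≠ M.al d := by
    rintro rfl
    exact c0 h1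
  have e3 : n' ≠ M.al d := by
    rintro rfl
    rw [M.inv] at h3
    exact c1 (h1.symm.trans h3.symm)
  have e4 : n' ≠ d := by
    rintro rfl
    exact c0 h2.symm
  have e5 : n' ≠ n := by
    rintro rfl
    exact c0 (h1.trans h2.symm)
  have e6 : n' ≠ M.al n := by
    rintro rfl
    rw [M.inv] at h3
    exact c1 h3.symm
  obtain ⟨v, k1, k2, k3⟩ := M.three_cut h.c3 h.N3 (d := d) (e := n) (f := n') hd hn hn' ⟨e1, e2⟩ ⟨e4, e3⟩
    ⟨e5, e6⟩ (by
      intro Z hZ
      obtain ⟨H, hH, hZH⟩ := h.pl Z hZ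
      rw [cyc_val hH hZH hd, cyc_val hH hZH hn, cyc_val hH hZH hn', M.inv_SC hH hd h1, M.inv_SC hH had h2,
        M.inv_SC hH (M.act _ hn) h3]
      have a1 := z2_add_self (H n)
      have a2 := z2_add_self (H n')
      have a3 := z2_add_self (H (M.al n'))
      linear_combination a1 + a2 + a3)
  rcases k1 with q | q
  · left
    rw [q] at k2 k3
    exact lemN_aux h hd h1 h2 e3 e1 k2 k3
  · right
    rw [q] at k2 k3
    have := lemN_aux h (d := M.al d) (n := n') (n' := n) had h2 (by rw [M.inv]; exact h1)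
      (by rw [M.inv]; exact e1) e3 k3 k2
    rw [M.inv] at this
    exact this

theorem al_out (n : V × Fin 3) : M.SC (M.al n) (sg n) := M.SC_al n

/-- the face across an out dart -/
theorem out_across {n m : V × Fin 3} (hm : M.ph m = n) : M.SC (M.al (sg n)) (M.al m) := by
  have h1 : M.al m = sg (sg n) := by rw [← hm]; exact M.al_ph m
  rw [h1]
  exact M.SC_al (sg n)

theorem no_chord (h : Std M) {n m : V × Fin 3} (hn : n.1 ∈ M.A) (h1 : M.SC n m) :
    M.al (sg n) ≠ sg m := by
  intro q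
  have hm : m.1 ∈ M.A := (M.SC_act h1).1 hn
  have q' : M.al (sg m) = sg n := by rw [← q, M.inv]
  obtain ⟨n', hn'⟩ : ∃ n', M.ph n' = n := M.ph.surjective n
  obtain ⟨m', hm'⟩ : ∃ m', M.ph m' = m := M.ph.surjective m
  have hnn : M.SC n' n := by rw [← hn']; exact M.SC_ph _
  have hmm : M.SC m' m := by rw [← hm']; exact M.SC_ph _
  have a1 : M.SC (M.al n) (M.al m') := by
    have := out_across hm'
    rw [q'] at this
    exact (M.SC_al n).trans this
  have a2 : M.SC (M.al m) (M.al n') := by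
    have := out_across hn'
    rw [q] at this
    exact (M.SC_al m).trans this
  have b1 := M.two_cut_faces h.c3 h.pl hn (h1.trans hmm.symm) a1
  have b2 := M.two_cut_faces h.c3 h.pl hm (h1.symm.trans hnn.symm) a2
  -- m' = n, n' = m
  have c1 : M.ph (M.ph n) = n := by
    rw [b1] at hm'
    rw [b2] at hn'
    rw [hm', hn']
  have c2 := h.ln4 n hn
  have : (2 : ℕ) = 0 := ph_ne_of_ln (M := M) (d := n) (n := M.ln n) rfl (by omega) (by omega) c1
  omega

theorem no_cross (h : Std M) {d n m : V × Fin 3} (hd : d.1 ∈ M.A) (h1 : M.SC d n)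
    (h2 : M.SC (M.al d) m) : M.al (sg n) ≠ sg m := by
  intro q
  have had : (M.al d).1 ∈ M.A := M.act _ hd
  have q' : M.al (sg m) = sg n := by rw [← q, M.inv]
  obtain ⟨n', hn'⟩ : ∃ n', M.ph n' = n := M.ph.surjective n
  obtain ⟨m', hm'⟩ : ∃ m', M.ph m' = m := M.ph.surjective m
  have hnn : M.SC n' n := by rw [← hn']; exact M.SC_ph _
  have hmm : M.SC m' m := by rw [← hm']; exact M.SC_ph _
  have a1 : M.SC (M.al n) (M.al m') := by
    have := out_across hm'
    rw [q'] at this
    exact (M.SC_al n).trans this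
  have a2 : M.SC (M.al m) (M.al n') := by
    have := out_across hn'
    rw [q] at this
    exact (M.SC_al m).trans this
  have b1 := lemN h hd h1 (h2.trans hmm.symm) a1
  have b2 := lemN h hd (h1.trans hnn.symm) h2 a2.symm
  have l1 := h.ln4 d hd
  have l2 := h.ln4 _ had
  have nf : ∀ e : V × Fin 3, 4 ≤ M.ln e → M.ph e ≠ e := by
    intro e he z
    have : (1 : ℕ) = 0 := ph_ne_of_ln (M := M) (d := e) (n := M.ln e) rfl (by omega) (by omega) z
    omega
  rcases b1 with ⟨r1, r2⟩ | ⟨r1, r2⟩ <;> rcases b2 with ⟨s1, s2⟩ | ⟨s1, s2⟩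
  · -- ph n = d, m' = ph (al d); ph n' = d
    rw [hn'] at s1
    rw [s1] at r1
    exact nf d l1 r1
  · -- ph n = d, n' = ph d; m' = ph (al d), ph m = al d
    rw [r2] at hm'
    rw [← hm'] at s1
    have : (3 : ℕ) = 0 := ph_ne_of_ln (M := M) (d := M.al d) (n := M.ln (M.al d)) rfl (by omega) (by omega) s1
    omega
  · -- ph m' = al d, n = ph d; ph n' = d
    rw [hn'] at s1
    rw [r2] at s1
    exact nf d l1 s1
  · -- n = ph d, n' = ph d
    rw [s2, ← r2] at hn'
    have l3 := h.ln4 n ((M.SC_act h1).1 hd)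
    exact nf n l3 hn'

/-- embeddings from base darts, third version -/
theorem mkEmb' (M : CMap V) (G : Gd) (hG : G.Ok) (D : ℕ → V × Fin 3)
    (c1 : ∀ x < G.m, (D x).1 ∈ M.A) (c2 : ∀ x < G.m, ∀ y < G.m, (D x).1 = (D y).1 → x = y)
    (c3 : ∀ k < 3 * G.m, G.p k < 3 * G.m → k < G.p k → M.al (mk M G D k) = mk M G D (G.p k))
    (c5 : ∀ k < 3 * G.m, 3 * G.m ≤ G.p k → ∀ l < 3 * G.m, 3 * G.m ≤ G.p l →
      M.al (mk M G D k) ≠ mk M G D l) : Emb M G (mk M G D) := by
  have hN : G.N = 3 * G.m + G.t := rfl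
  apply mkEmb M G hG D c1 c2 c3
  have mki : ∀ k < 3 * G.m, mk M G D k = sg^[k % 3] (D (k / 3)) := by
    intro k hk; unfold mk; rw [if_pos hk]
  have mkt : ∀ k, 3 * G.m ≤ k → G.p k < 3 * G.m → mk M G D k = M.al (mk M G D (G.p k)) := by
    intro k hk hk2
    rw [mki _ hk2]
    unfold mk; rw [if_neg (by omega)]
  have inj : ∀ k < 3 * G.m, ∀ l < 3 * G.m, mk M G D k = mk M G D l → k = l := by
    intro k hk l hl he
    rw [mki k hk, mki l hl] at he
    have h1 := congrArg Prod.fst he
    rw [sgi_fst, sgi_fst] at h1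
    have h2 := c2 _ (by omega) _ (by omega) h1
    rw [h2] at he
    have h3 := sgi_inj (Nat.mod_lt _ (by norm_num)) (Nat.mod_lt _ (by norm_num)) he
    omega
  intro j hj hj2 x hx he
  have gj := hG.h1 j hj
  have gp := gj.2.2.2 hj2
  have hl : ∃ l < 3 * G.m, mk M G D l = mk M G D j := by
    have h1 : (mk M G D j).1 = (D x).1 := he
    rcases dart_cases h1 with q | q | q
    · exact ⟨3 * x, by omega, by rw [mki _ (by omega), q]; simp⟩
    · refine ⟨3 * x + 1, by omega, ?_⟩
      rw [mki _ (by omega), q, show (3 * x + 1) % 3 = 1 by omega, show (3 * x + 1) / 3 = x by omega]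
      rfl
    · refine ⟨3 * x + 2, by omega, ?_⟩
      rw [mki _ (by omega), q, show (3 * x + 2) % 3 = 2 by omega, show (3 * x + 2) / 3 = x by omega]
      rfl
  obtain ⟨l, hl3, hle⟩ := hl
  have alin : ∀ k < 3 * G.m, G.p k < 3 * G.m → M.al (mk M G D k) = mk M G D (G.p k) := by
    intro k hk hp3
    have g := hG.h1 k (by omega)
    rcases lt_or_gt_of_ne g.2.2.1 with q | q
    · have := c3 (G.p k) hp3 (by rw [g.2.1]; exact hk) (by rw [g.2.1]; exact q)
      rw [g.2.1] at this
      rw [← this, M.inv]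
    · exact c3 k hk hp3 q
  have hall : M.al (mk M G D l) = mk M G D (G.p j) := by
    rw [hle, mkt j hj2 gp, M.inv]
  have hlp : 3 * G.m ≤ G.p l := by
    by_contra hc
    have h1 := alin l hl3 (not_le.1 hc)
    rw [hall] at h1
    have h2 := inj _ gp _ (not_le.1 hc) h1
    have g := hG.h1 l (by omega)
    have : G.p (G.p j) = G.p (G.p l) := by rw [h2]
    rw [gj.2.1, g.2.1] at this
    omega
  exact c5 l hl3 hlp (G.p j) gp (by rw [gj.2.1]; exact hj2) hall

/-- base darts for two adjacent faces -/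
def pD (M : CMap V) (d : V × Fin 3) (x : ℕ) : V × Fin 3 :=
  if x < 5 then M.ph^[x + 1] d else M.ph^[x - 3] (M.al d)

theorem pD_lo {d : V × Fin 3} {x : ℕ} (hx : x < 5) : pD M d x = M.ph^[x + 1] d := by
  unfold pD; rw [if_pos hx]

theorem pD_hi {d : V × Fin 3} {x : ℕ} (hx : 5 ≤ x) : pD M d x = M.ph^[x - 3] (M.al d) := by
  unfold pD; rw [if_neg (by omega)]

theorem pD_c1 {d : V × Fin 3} (hd : d.1 ∈ M.A) (x : ℕ) : (pD M d x).1 ∈ M.A := by
  unfold pD
  split_ifs
  · exact (M.SC_act (M.SC_iter d _)).1 hd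
  · exact (M.SC_act (M.SC_iter _ _)).1 (M.act _ hd)

theorem iter_mod {d : V × Fin 3} (i : ℕ) : M.ph^[i % M.ln d] d = M.ph^[i] d :=
  Function.iterate_mod_minimalPeriod_eq

theorem pD_c2 (h : Std M) {d : V × Fin 3} (hd : d.1 ∈ M.A) (hl : M.ln d = 5) {m : ℕ} (hm : 5 ≤ m)
    (hl2 : M.ln (M.al d) = m) : ∀ x < m + 3, ∀ y < m + 3, (pD M d x).1 = (pD M d y).1 → x = y := by
  have had : (M.al d).1 ∈ M.A := M.act _ hd
  have key : ∀ x < m + 3, ∀ y < m + 3, x < y → (pD M d x).1 ≠ (pD M d y).1 := by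
    intro x hx y hy hxy he
    by_cases c1 : y < 5
    · rw [pD_lo (by omega), pD_lo c1] at he
      rw [← iter_mod (x + 1), ← iter_mod (y + 1), hl] at he
      have := face_vert_ne h.c3 h.pl hd hl (i := (x + 1) % 5) (j := (y + 1) % 5)
        (Nat.mod_lt _ (by norm_num)) (Nat.mod_lt _ (by norm_num)) (by omega)
      exact this he
    · rw [pD_hi (by omega : 5 ≤ y)] at he
      by_cases c2 : x < 5
      · rw [pD_lo c2] at he
        -- common vertex of the two faces
        have s1 := M.SC_iter d (x + 1)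
        have s2 := M.SC_iter (M.al d) (y - 3)
        set a := M.ph^[x + 1] d with ha
        set b := M.ph^[y - 3] (M.al d) with hb
        have haA : a.1 ∈ M.A := (M.SC_act s1).1 hd
        rcases dart_cases he.symm with q | q | q
        · rw [q] at s2
          exact not_self_adj h hd (s1.trans s2.symm)
        · -- b = sg a
          have e1 : M.SC (M.al d) (M.al a) := s2.trans (by rw [q]; exact (M.SC_al a).symm)
          have := M.two_cut_faces h.c3 h.pl hd s1 e1
          have h0 : M.ph^[(x + 1) % 5] d = M.ph^[0] d := by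
            rw [← hl, iter_mod, ← ha, this]; rfl
          have h1 := ph_ne_of_ln hl (Nat.mod_lt _ (by norm_num)) (by norm_num) h0
          have hx4 : x = 4 := by omega
          -- b = sg d = ph (al d)
          rw [this] at q
          rw [← M.ph_al] at q
          have h2 := ph_ne_of_ln (i := y - 3) (j := 1) hl2 (by omega) (by omega) q
          omega
        · -- b = sg sg a, a = ph a'
          obtain ⟨a', ha'⟩ : ∃ a', M.ph a' = a := M.ph.surjective a
          have q2 : b = M.al a' := by rw [q, ← ha', ← M.al_ph]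
          have s3 : M.SC d a' := s1.trans (by rw [← ha']; exact (M.SC_ph a').symm)
          have := M.two_cut_faces h.c3 h.pl hd s3 (by rw [← q2]; exact s2)
          rw [this] at q2
          have h2 := ph_ne_of_ln (i := y - 3) (j := 0) hl2 (by omega) (by omega) q2
          omega
      · rw [pD_hi (by omega : 5 ≤ x)] at he
        exact face_vert_ne h.c3 h.pl had hl2 (i := x - 3) (j := y - 3) (by omega) (by omega) (by omega) he
  intro x hx y hy he
  rcases lt_trichotomy x y with q | q | q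
  · exact absurd he (key x hx y hy q)
  · exact q
  · exact absurd he.symm (key y hy x hx q)

theorem pD_c5 (h : Std M) {d : V × Fin 3} (hd : d.1 ∈ M.A) (x y : ℕ) :
    M.al (sg (pD M d x)) ≠ sg (pD M d y) := by
  have had : (M.al d).1 ∈ M.A := M.act _ hd
  have cs : ∀ x, M.SC d (pD M d x) ∨ M.SC (M.al d) (pD M d x) := by
    intro x
    unfold pD
    split_ifs
    · exact Or.inl (M.SC_iter d _)
    · exact Or.inr (M.SC_iter _ _)
  rcases cs x with q | q <;> rcases cs y with r | r
  · exact no_chord h (pD_c1 hd x) (q.symm.trans r)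
  · exact no_cross h hd q r
  · exact no_cross h (d := M.al d) had q (by rw [M.inv]; exact r)
  · exact no_chord h (pD_c1 hd x) (q.symm.trans r)

theorem emb55 (h : Std M) {d : V × Fin 3} (hd : d.1 ∈ M.A) (hl : M.ln d = 5)
    (hl2 : M.ln (M.al d) = 5) : Emb M g55 (mk M g55 (pD M d)) := by
  have i5 : M.ph (M.ph (M.ph (M.ph (M.ph d)))) = d := by
    have := M.ph_ln d
    rw [hl] at this
    exact this
  have j5 : M.ph (M.ph (M.ph (M.ph (M.ph (M.al d))))) = M.al d := by
    have := M.ph_ln (M.al d)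
    rw [hl2] at this
    exact this
  have e1 : sg (sg (M.ph d)) = M.al d := (M.al_ph d).symm
  apply mkEmb' M g55 g55_ok _ (fun x _ => pD_c1 hd x) (pD_c2 h hd hl (by norm_num) hl2)
  · intro k hk h1 h2
    have hk' : k < 24 := hk
    interval_cases k <;> first | (exfalso; revert h1 h2; decide) | skip
    · exact M.al_ph _
    · show M.al (sg (M.ph d)) = M.ph (M.ph (M.ph (M.ph (M.al d))))
      have h3 := M.al_ph (M.ph (M.ph (M.ph (M.ph (M.al d)))))
      rw [j5, ← e1, sg3] at h3
      rw [e1, ] at h3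
      rw [← h3, M.inv]
    · show M.al (sg (sg (M.ph d))) = M.ph (M.ph (M.ph (M.ph (M.ph d))))
      rw [e1, M.inv, i5]
    · exact M.al_ph _
    · exact M.al_ph _
    · exact M.al_ph _
    · show M.al (sg (M.ph (M.ph (M.ph (M.ph (M.ph d)))))) = sg (sg (M.ph (M.ph (M.al d))))
      rw [i5, ← M.ph_al]
      exact M.al_ph _
    · exact M.al_ph _
    · exact M.al_ph _
  · intro k hk h1 l hl3 h2
    have hk' : k < 24 := hk
    have hl' : l < 24 := hl3
    have : ∀ k < 24, 24 ≤ g55.p k → k % 3 = 1 := by decide +kernel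
    have hk2 := this k hk' h1
    have hl2 := this l hl' h2
    unfold mk
    rw [if_pos hk, if_pos hl3, hk2, hl2]
    exact pD_c5 h hd _ _

theorem emb56 (h : Std M) {d : V × Fin 3} (hd : d.1 ∈ M.A) (hl : M.ln d = 5)
    (hl2 : M.ln (M.al d) = 6) : Emb M g56 (mk M g56 (pD M d)) := by
  have i5 : M.ph (M.ph (M.ph (M.ph (M.ph d)))) = d := by
    have := M.ph_ln d
    rw [hl] at this
    exact this
  have j5 : M.ph (M.ph (M.ph (M.ph (M.ph (M.ph (M.al d)))))) = M.al d := by
    have := M.ph_ln (M.al d)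
    rw [hl2] at this
    exact this
  have e1 : sg (sg (M.ph d)) = M.al d := (M.al_ph d).symm
  apply mkEmb' M g56 g56_ok _ (fun x _ => pD_c1 hd x) (pD_c2 h hd hl (by norm_num) hl2)
  · intro k hk h1 h2
    have hk' : k < 27 := hk
    interval_cases k <;> first | (exfalso; revert h1 h2; decide) | skip
    · exact M.al_ph _
    · show M.al (sg (M.ph d)) = M.ph (M.ph (M.ph (M.ph (M.ph (M.al d)))))
      have h3 := M.al_ph (M.ph (M.ph (M.ph (M.ph (M.ph (M.al d))))))
      rw [j5, ← e1, sg3] at h3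
      rw [e1, ] at h3
      rw [← h3, M.inv]
    · show M.al (sg (sg (M.ph d))) = M.ph (M.ph (M.ph (M.ph (M.ph d))))
      rw [e1, M.inv, i5]
    · exact M.al_ph _
    · exact M.al_ph _
    · exact M.al_ph _
    · show M.al (sg (M.ph (M.ph (M.ph (M.ph (M.ph d)))))) = sg (sg (M.ph (M.ph (M.al d))))
      rw [i5, ← M.ph_al]
      exact M.al_ph _
    · exact M.al_ph _
    · exact M.al_ph _
    · exact M.al_ph _
  · intro k hk h1 l hl3 h2
    have hk' : k < 27 := hk
    have hl' : l < 27 := hl3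
    have : ∀ k < 27, 27 ≤ g56.p k → k % 3 = 1 := by decide +kernel
    have hk2 := this k hk' h1
    have hl2 := this l hl' h2
    unfold mk
    rw [if_pos hk, if_pos hl3, hk2, hl2]
    exact pD_c5 h hd _ _

end Pool.Agent.H24
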