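import Pool.Agent.H24.Cube

set_option autoImplicit false
set_option linter.unusedSectionVars false
set_option linter.unusedVariables false
set_option maxRecDepth 100000

namespace Pool.Agent.H24

open Finset Equiv.Perm

variable {V : Type} [Fintype V] [DecidableEq V]
variable {M M' : CMap V}

structure Std5 (M : CMap V) : Prop extends Std M where
  ln5 : ∀ d : V × Fin 3, d.1 ∈ M.A → 5 ≤ M.ln d

def Four (M : CMap V) (X : Finset V) : Prop := X ⊆ M.A ∧ M.b X = 4 ∧ 4 ≤ X.card ∧ 4 ≤ (M.A \ X).card

/-- the chosen side -/
structure SideS (M : CMap V) (S : Finset V) : Prop where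
  sub : S ⊆ M.A
  ty : S = M.A ∨ M.b S = 4
  big : 6 ≤ S.card
  U : ∀ B ⊆ M.A, M.b B ≤ 4 → 2 ≤ (S ∩ B).card → 2 ≤ (S \ B).card → B.card ≤ 2 ∨ (M.A \ B).card ≤ 2

theorem card_compl_eq {A B : Finset V} (h : B ⊆ A) : (A \ B).card + B.card = A.card := by
  rw [Finset.card_sdiff_of_subset h]
  have := Finset.card_le_card h
  omega

/-- a set with at least three elements on each side and at most four leaving darts -/
theorem Std.isFour (h : Std M) {B : Finset V} (hB : B ⊆ M.A) (hb : M.b B ≤ 4) (h1 : 3 ≤ B.card)
    (h2 : 3 ≤ (M.A \ B).card) : Four M B := by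
  have h3 := h.four hB (by omega) (by omega)
  have h4 := M.parity hB
  have h5 := M.parity (B := M.A \ B) Finset.sdiff_subset
  rw [M.b_compl hB] at h5
  exact ⟨hB, by omega, by omega, by omega⟩

theorem exists_side (h : Std5 M) : ∃ S, SideS M S := by
  classical
  have hA := h.card
  by_cases hF : ∃ X, Four M X
  swap
  · refine ⟨M.A, Finset.Subset.refl _, Or.inl rfl, hA, ?_⟩
    intro B hB hb h1 h2
    rw [Finset.inter_eq_right.2 hB] at h1
    by_contra hc
    exact hF ⟨B, h.toStd.isFour hB hb (by omega) (by omega)⟩
  · obtain ⟨X, hX⟩ := hF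
    obtain ⟨S, hS, hmin⟩ := Finset.exists_min_image (univ.filter (Four M)) Finset.card ⟨X, by simpa using hX⟩
    simp only [mem_filter, mem_univ, true_and] at hS hmin
    obtain ⟨s1, s2, s3, s4⟩ := hS
    have hSA : S ≠ M.A := by
      intro q
      rw [q, M.b_A] at s2
      omega
    have hbig : 6 ≤ S.card := by
      by_contra hc
      have hp := M.parity s1
      obtain ⟨d, hd1, hd2⟩ := M.small_face h.c3 h.pl s1 hSA (by omega) (by omega)
        (Finset.card_pos.1 (by omega))
      have := h.ln5 d (s1 (hd1 d (CMap.SC.refl M d)))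
      omega
    refine ⟨S, s1, Or.inr s2, hbig, ?_⟩
    intro B hB hb h1 h2
    by_contra hc
    push Not at hc
    obtain ⟨c1, c2⟩ := hc
    have fB := h.toStd.isFour hB hb (by omega) (by omega)
    have hB' : M.A \ B ⊆ M.A := Finset.sdiff_subset
    have hBB : M.A \ (M.A \ B) = B := Finset.sdiff_sdiff_eq_self hB
    have fB' : Four M (M.A \ B) := ⟨hB', by rw [M.b_compl hB]; exact fB.2.1, fB.2.2.2, by rw [hBB]; exact fB.2.2.1⟩
    have m1 := hmin B fB
    have m2 := hmin _ fB'
    have k0 := card_compl_eq hB
    have k1 : (S ∩ B).card + (S \ B).card = S.card := by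
      have := Finset.card_sdiff_add_card_inter S B
      omega
    have k2 : (S ∩ B).card + (B \ S).card = B.card := by
      have := Finset.card_sdiff_add_card_inter B S
      rw [Finset.inter_comm] at this
      omega
    have us : S ∪ B ⊆ M.A := Finset.union_subset s1 hB
    have k3 : (S ∪ B).card + (S ∩ B).card = S.card + B.card := Finset.card_union_add_card_inter _ _
    have k4 := card_compl_eq us
    have q1s : S ∩ B ⊆ M.A := Finset.inter_subset_left.trans s1
    have q2s : S \ B ⊆ M.A := Finset.sdiff_subset.trans s1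
    have q3s : B \ S ⊆ M.A := Finset.sdiff_subset.trans hB
    have k5 := card_compl_eq q1s
    have k6 := card_compl_eq q2s
    have k7 := card_compl_eq q3s
    have f1 := h.toStd.four q1s h1 (by omega)
    have f2 := h.toStd.four q2s h2 (by omega)
    have f3 := h.toStd.four q3s (by omega) (by omega)
    have f4 := h.toStd.four us (by omega) (by omega)
    have sm := M.b_submod S B
    have ps := M.b_posi S B
    have bB := fB.2.1
    have g1 : (S ∩ B).card ≤ 2 := by
      by_contra q
      have := hmin _ (h.toStd.isFour q1s (by omega) (by omega) (by omega))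
      omega
    have g2 : (S \ B).card ≤ 2 := by
      by_contra q
      have := hmin _ (h.toStd.isFour q2s (by omega) (by omega) (by omega))
      omega
    omega

end Pool.Agent.H24
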