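import Pool.Agent.H24.ExtSq

set_option autoImplicit false
set_option linter.unusedSectionVars false
set_option linter.unusedVariables false

namespace Pool.Agent.H24

open Finset Equiv.Perm

variable {V : Type} [Fintype V] [DecidableEq V]

namespace CMap

variable (M : CMap V)

theorem ins_bound (h3 : M.C3) {C : Finset V} (hC : C ⊆ M.A) (hne : C.Nonempty) (hCA : C ≠ M.A) :
    (M.ins C).card + 3 ≤ 3 * C.card := by
  have h1 := M.card_ins_add C
  have h2 := h3 C hC hne hCA
  omega

theorem no_loop (h3 : M.C3) (hA : 2 ≤ M.A.card) {d : V × Fin 3} (hd : d.1 ∈ M.A) :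
    (M.al d).1 ≠ d.1 := by
  intro he
  have h1 := M.ins_bound h3 (C := {d.1}) (by simpa using hd) (by simp)
    (by intro h; rw [← h] at hA; simp at hA)
  have h2 : ({d, M.al d} : Finset (V × Fin 3)) ⊆ M.ins {d.1} := by
    intro e he'
    simp only [mem_insert, mem_singleton] at he'
    rw [mem_ins]
    rcases he' with rfl | rfl
    · simp [he]
    · rw [M.inv]; simp [he]
  have h3 := Finset.card_le_card h2
  rw [Finset.card_pair (M.nofix d hd).symm] at h3
  rw [Finset.card_singleton] at h1
  omega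

theorem no_par (h3 : M.C3) (hA : 3 ≤ M.A.card) {d e : V × Fin 3} (hd : d.1 ∈ M.A)
    (h1 : d.1 = e.1) (h2 : (M.al d).1 = (M.al e).1) : d = e := by
  by_contra hne
  have hl := M.no_loop h3 (by omega) hd
  have hle := M.no_loop h3 (by omega) (d := e) (by rw [← h1]; exact hd)
  have hb := M.ins_bound h3 (C := {d.1, (M.al d).1})
    (by intro v hv; simp only [mem_insert, mem_singleton] at hv; rcases hv with rfl | rfl
        · exact hd
        · exact M.act _ hd) (by simp)
    (by intro h; rw [← h] at hA; have := Finset.card_le_two (a := d.1) (b := (M.al d).1); omega)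
  have hs : ({d, M.al d, e, M.al e} : Finset (V × Fin 3)) ⊆ M.ins {d.1, (M.al d).1} := by
    intro f hf
    simp only [mem_insert, mem_singleton] at hf
    rw [mem_ins]
    rcases hf with rfl | rfl | rfl | rfl
    · simp
    · rw [M.inv]; simp
    · rw [← h1, ← h2]; simp
    · rw [M.inv, ← h1, ← h2]; simp
  have h4 : ({d, M.al d, e, M.al e} : Finset (V × Fin 3)).card = 4 := by
    have a1 : d ≠ M.al d := (M.nofix d hd).symm
    have a2 : d ≠ M.al e := by
      intro q
      have := congrArg Prod.fst q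
      rw [h1] at this
      exact hle this.symm
    have a3 : M.al d ≠ e := by
      intro q
      have := congrArg Prod.fst q
      rw [← h1] at this
      exact hl this
    have a4 : M.al d ≠ M.al e := fun q => hne (M.al_inj q)
    have a5 : e ≠ M.al e := (M.nofix e (by rw [← h1]; exact hd)).symm
    rw [Finset.card_insert_of_notMem, Finset.card_insert_of_notMem, Finset.card_pair a5]
    · simp [a3, a4]
    · simp [a1, hne, a2]
  have h5 := Finset.card_le_card hs
  have h6 : ({d.1, (M.al d).1} : Finset V).card ≤ 2 := Finset.card_le_two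
  omega

/-- face length -/
noncomputable def ln (d : V × Fin 3) : ℕ := Function.minimalPeriod M.ph d

theorem card_fc (d : V × Fin 3) : (M.fc d).card = M.ln d := by
  classical
  have : M.fc d = (Finset.range (M.ln d)).image (fun i => M.ph^[i] d) := by
    ext e
    rw [mem_fc, Finset.mem_image]
    constructor
    · intro h
      obtain ⟨i, hi⟩ := SameCycle.exists_nat_pow_eq h
      refine ⟨i % M.ln d, ?_, ?_⟩
      · rw [Finset.mem_range]
        apply Nat.mod_lt
        apply Function.minimalPeriod_pos_of_mem_periodicPts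
        exact Function.Injective.mem_periodicPts M.ph.injective d
      · show M.ph^[i % M.ln d] d = e
        unfold ln
        rw [Function.iterate_mod_minimalPeriod_eq, ← Equiv.Perm.coe_pow, hi]
    · rintro ⟨i, _, rfl⟩
      exact ⟨i, by rw [← Equiv.Perm.coe_pow]; rfl⟩
  rw [this, Finset.card_image_of_injOn, Finset.card_range]
  intro i hi j hj hij
  simp only [coe_range, Set.mem_Iio] at hi hj
  exact Function.iterate_injOn_Iio_minimalPeriod hi hj hij

theorem ph_ln (d : V × Fin 3) : M.ph^[M.ln d] d = d := by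
  unfold ln
  exact Function.iterate_minimalPeriod

theorem ln_le {d : V × Fin 3} {n : ℕ} (hn : 0 < n) (h : M.ph^[n] d = d) : M.ln d ≤ n :=
  Function.IsPeriodicPt.minimalPeriod_le hn h

theorem ln_pos (d : V × Fin 3) : 0 < M.ln d := by
  apply Function.minimalPeriod_pos_of_mem_periodicPts
  exact Function.Injective.mem_periodicPts M.ph.injective d

theorem ln_SC {d e : V × Fin 3} (h : M.SC d e) : M.ln d = M.ln e := by
  rw [← card_fc, ← card_fc, (M.fc_eq).2 h]

theorem SC_iter (d : V × Fin 3) (i : ℕ) : M.SC d (M.ph^[i] d) := ⟨i, by rw [← Equiv.Perm.coe_pow]; rfl⟩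

theorem al_ph (d : V × Fin 3) : M.al d = sg (sg (M.ph d)) := by
  rw [ph_apply, sg3]

theorem ln_ge3 (h3 : M.C3) (hA : 3 ≤ M.A.card) {d : V × Fin 3} (hd : d.1 ∈ M.A) : 3 ≤ M.ln d := by
  have h0 := M.ln_pos d
  have h1 : M.ln d ≠ 1 := by
    intro h
    have := M.ph_ln d
    rw [h, Function.iterate_one] at this
    have e := M.al_ph d
    rw [this] at e
    have := M.no_loop h3 (by omega) hd
    rw [e] at this
    exact this rfl
  have h2 : M.ln d ≠ 2 := by
    intro h
    have h4 := M.ph_ln d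
    rw [h] at h4
    have h4' : M.ph (M.ph d) = d := h4
    have e1 := M.al_ph d
    have e2 := M.al_ph (M.ph d)
    rw [h4'] at e2
    -- edges at d.1 : d and sg sg d, both to (ph d).1
    have e3 : M.al (sg (sg d)) = M.ph d := by rw [← e2, M.inv]
    have := M.no_par h3 hA (d := d) (e := sg (sg d)) hd rfl (by rw [e3, e1]; rfl)
    exact sg2_ne d this.symm
  omega

theorem fc_le (h3 : M.C3) (hpl : M.Pl) {S : Finset V} (hS : S ⊆ M.A) {d : V × Fin 3}
    (h : ∀ e, M.SC d e → e.1 ∈ S) : M.ln d ≤ S.card := by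
  rw [← card_fc]
  apply Finset.card_le_card_of_injOn Prod.fst
  · intro e he
    exact h e (M.mem_fc.1 he)
  · intro e he f hf hef
    have he' := M.mem_fc.1 he
    have hf' := M.mem_fc.1 hf
    exact M.fc_vertex h3 hpl (hS (h e he')) hef (he'.symm.trans hf')

theorem patch_whole (hpl : M.Pl) {d0 : V × Fin 3} (hd0 : d0.1 ∈ M.A) :
    M.A.card + 2 ≤ 2 * (M.KF M.A d0).card := by
  have h1 := M.patch_aux hpl (Finset.Subset.refl M.A) ⟨_, hd0⟩ d0 hd0
    (fun H _ _ _ d hd hd2 => absurd hd hd2)
  have h2 := M.card_ins_add M.A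
  rw [M.b_A] at h2
  omega

theorem patch_part (h3 : M.C3) (hpl : M.Pl) {S : Finset V} (hS : S ⊆ M.A) (hne : S.Nonempty)
    (hb : M.b S ≤ 5) {d0 : V × Fin 3} (hd0 : d0.1 ∈ M.A) (hd0' : d0.1 ∉ S) :
    S.card + 2 ≤ 2 * (M.KF S d0).card + M.b S := by
  classical
  have h1 := M.patch_aux hpl hS hne d0 hd0 (by
    intro H hH h1 h2
    have hcn : M.Conn (M.A \ S) :=
      M.conn_of_b h3 Finset.sdiff_subset (by rw [M.b_compl hS]; exact hb)
    have hv : ∀ d e : V × Fin 3, d.1 ∈ M.A → d.1 ∉ S → e.1 = d.1 → H e = H d := by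
      intro d e hd hdS hde
      have a1 := h1 d hd hdS
      have a2 := h1 (sg d) hd hdS
      rcases dart_cases hde with rfl | rfl | rfl
      · rfl
      · exact a1.symm
      · rw [← a2, a1]
    set R := (M.A \ S).filter (fun v => H (v, 0) = 0) with hR
    have hRA : R = M.A \ S := by
      by_contra hne
      obtain ⟨f, hf1, hf2, hf3⟩ := hcn R (Finset.filter_subset _ _)
        ⟨d0.1, by
          rw [hR, Finset.mem_filter, Finset.mem_sdiff]
          exact ⟨⟨hd0, hd0'⟩, by rw [hv d0 (d0.1, 0) hd0 hd0' rfl, h2]⟩⟩ hne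
      apply hf3
      rw [hR, Finset.mem_filter, Finset.mem_sdiff] at hf1 ⊢
      rw [Finset.mem_sdiff] at hf2
      refine ⟨hf2, ?_⟩
      rw [hv (M.al f) ((M.al f).1, 0) hf2.1 hf2.2 rfl, hH f hf1.1.1, ← h1 f hf1.1.1 hf1.1.2,
        ← hv f (f.1, 0) hf1.1.1 hf1.1.2 rfl]
      exact hf1.2
    intro d hd hdS
    have : d.1 ∈ R := by rw [hRA, Finset.mem_sdiff]; exact ⟨hd, hdS⟩
    rw [hR, Finset.mem_filter] at this
    rw [← hv d (d.1, 0) hd hdS rfl]
    exact this.2)
  have h2 := M.card_ins_add S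
  omega

/-- a small set with few leaving edges contains a short face -/
theorem small_face (h3 : M.C3) (hpl : M.Pl) {S : Finset V} (hS : S ⊆ M.A) (hSA : S ≠ M.A)
    (hb : M.b S ≤ 4) (hc : M.b S < S.card + 2) (hne : S.Nonempty) :
    ∃ d : V × Fin 3, (∀ e, M.SC d e → e.1 ∈ S) ∧ M.ln d ≤ S.card := by
  have : ∃ v ∈ M.A, v ∉ S := by
    by_contra hcon
    push Not at hcon
    exact hSA (Finset.Subset.antisymm hS hcon)
  obtain ⟨v, hv, hvS⟩ := this
  have h1 := M.patch_part h3 hpl hS hne (by omega) (d0 := (v, 0)) hv hvS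
  have h2 : 0 < (M.KF S (v, 0)).card := by omega
  obtain ⟨f, hf⟩ := Finset.card_pos.1 h2
  obtain ⟨d, ⟨_, h4, _⟩, _⟩ := M.mem_KF.1 hf
  exact ⟨d, h4, M.fc_le h3 hpl hS h4⟩

end CMap

/-- codes from base darts -/
def mk (M : CMap V) (G : Gd) (D : ℕ → V × Fin 3) (k : ℕ) : V × Fin 3 :=
  if k < 3 * G.m then sg^[k % 3] (D (k / 3)) else M.al (sg^[G.p k % 3] (D (G.p k / 3)))

theorem sgi_fst (d : V × Fin 3) (n : ℕ) : (sg^[n] d).1 = d.1 := by
  induction n with
  | zero => rfl
  | succ n ih => rw [Function.iterate_succ_apply', sg_fst, ih]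

theorem sgi_inj {d : V × Fin 3} {i j : ℕ} (hi : i < 3) (hj : j < 3) (h : sg^[i] d = sg^[j] d) : i = j := by
  have h1 := sg_ne d
  have h2 := sg2_ne d
  have h3 := sg_ne (sg d)
  interval_cases i <;> interval_cases j <;> simp [Function.iterate_succ_apply'] at h ⊢
  · exact h1 h.symm
  · exact h2 h.symm
  · exact h1 h
  · exact h3 h.symm
  · exact h2 h
  · exact h3 h

theorem mkEmb (M : CMap V) (G : Gd) (hG : G.Ok) (D : ℕ → V × Fin 3)
    (c1 : ∀ x < G.m, (D x).1 ∈ M.A) (c2 : ∀ x < G.m, ∀ y < G.m, (D x).1 = (D y).1 → x = y)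
    (c3 : ∀ k < 3 * G.m, G.p k < 3 * G.m → k < G.p k → M.al (mk M G D k) = mk M G D (G.p k))
    (c4 : ∀ j < G.N, 3 * G.m ≤ j → ∀ x < G.m, (mk M G D j).1 ≠ (D x).1) : Emb M G (mk M G D) := by
  have hN : G.N = 3 * G.m + G.t := rfl
  have mki : ∀ k < 3 * G.m, mk M G D k = sg^[k % 3] (D (k / 3)) := by
    intro k hk; unfold mk; rw [if_pos hk]
  have mkt : ∀ k, 3 * G.m ≤ k → G.p k < 3 * G.m → mk M G D k = M.al (mk M G D (G.p k)) := by
    intro k hk hk2
    rw [mki _ hk2]
    unfold mk; rw [if_neg (by omega)]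
  refine ⟨?_, ?_, ?_, ?_, ?_⟩
  · intro k hk
    rw [mki k hk, mki _ (s3_lt hk), s3_div]
    have h1 : s3 k % 3 = (k % 3 + 1) % 3 := by unfold s3; omega
    rw [h1]
    have h2 : k % 3 = 0 ∨ k % 3 = 1 ∨ k % 3 = 2 := by omega
    rcases h2 with q | q | q
    · rw [q]; rfl
    · rw [q]; rfl
    · rw [q]
      show D (k / 3) = sg (sg (sg (D (k / 3))))
      rw [sg3]
  · intro k hk
    have g := hG.h1 k hk
    by_cases hk3 : k < 3 * G.m
    · by_cases hp3 : G.p k < 3 * G.m
      · rcases lt_or_gt_of_ne g.2.2.1 with q | q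
        · have := c3 (G.p k) hp3 (by rw [g.2.1]; exact hk3) (by rw [g.2.1]; exact q)
          rw [g.2.1] at this
          rw [← this, M.inv]
        · exact c3 k hk3 hp3 q
      · have g2 := (hG.h1 _ g.1).2.2.2 (not_lt.1 hp3)
        rw [mkt (G.p k) (not_lt.1 hp3) g2, g.2.1]
    · have g2 := g.2.2.2 (not_lt.1 hk3)
      rw [mkt k (not_lt.1 hk3) g2, M.inv]
  · intro k hk l hl he
    rw [mki k hk, mki l hl] at he
    have h1 := congrArg Prod.fst he
    rw [sgi_fst, sgi_fst] at h1
    have h2 := c2 _ (by omega) _ (by omega) h1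
    rw [h2] at he
    have h3 := sgi_inj (Nat.mod_lt _ (by norm_num)) (Nat.mod_lt _ (by norm_num)) he
    omega
  · intro k hk
    by_cases hk3 : k < 3 * G.m
    · rw [mki k hk3, sgi_fst]
      exact c1 _ (by omega)
    · have g2 := (hG.h1 k hk).2.2.2 (not_lt.1 hk3)
      rw [mkt k (not_lt.1 hk3) g2]
      apply M.act
      rw [mki _ g2, sgi_fst]
      exact c1 _ (by omega)
  · intro j hj hj2 k hk
    rw [mki k hk, sgi_fst]
    exact c4 j hj hj2 _ (by omega)

/-- terminals lie outside when the configuration has at most four of them -/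
theorem term_out (M : CMap V) (G : Gd) (hG : G.Ok) (D : ℕ → V × Fin 3) (h3 : M.C3)
    (hm : 0 < G.m) (hcard : G.m < M.A.card) (ht : G.t ≤ 4)
    (c1 : ∀ x < G.m, (D x).1 ∈ M.A) (c2 : ∀ x < G.m, ∀ y < G.m, (D x).1 = (D y).1 → x = y)
    (c3 : ∀ k < 3 * G.m, G.p k < 3 * G.m → k < G.p k → M.al (mk M G D k) = mk M G D (G.p k)) :
    ∀ j < G.N, 3 * G.m ≤ j → ∀ x < G.m, (mk M G D j).1 ≠ (D x).1 := by
  classical
  have hN : G.N = 3 * G.m + G.t := rfl
  have mki : ∀ k < 3 * G.m, mk M G D k = sg^[k % 3] (D (k / 3)) := by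
    intro k hk; unfold mk; rw [if_pos hk]
  have mkt : ∀ k, 3 * G.m ≤ k → G.p k < 3 * G.m → mk M G D k = M.al (mk M G D (G.p k)) := by
    intro k hk hk2
    rw [mki _ hk2]
    unfold mk; rw [if_neg (by omega)]
  have inj : ∀ k < 3 * G.m, ∀ l < 3 * G.m, mk M G D k = mk M G D l → k = l := by
    intro k hk l hl he
    rw [mki k hk, mki l hl] at he
    have h1 := congrArg Prod.fst he
    rw [sgi_fst, sgi_fst] at h1
    have h2 := c2 _ (by omega) _ (by omega) h1
    rw [h2] at he
    have h3 := sgi_inj (Nat.mod_lt _ (by norm_num)) (Nat.mod_lt _ (by norm_num)) he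
    omega
  intro j hj hj2 x hx he
  have gj := hG.h1 j hj
  have gp := gj.2.2.2 hj2
  set C : Finset V := (Finset.range G.m).image (fun x => (D x).1) with hC
  have hCc : C.card = G.m := by
    rw [hC, Finset.card_image_of_injOn, Finset.card_range]
    intro a ha b hb hab
    simp only [coe_range, Set.mem_Iio] at ha hb
    exact c2 a ha b hb hab
  have hCA : C ⊆ M.A := by
    intro v hv
    rw [hC, Finset.mem_image] at hv
    obtain ⟨y, hy, rfl⟩ := hv
    exact c1 y (Finset.mem_range.1 hy)
  have hmem : ∀ y < G.m, (D y).1 ∈ C := by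
    intro y hy
    rw [hC]; exact Finset.mem_image.2 ⟨y, Finset.mem_range.2 hy, rfl⟩
  have hb := M.ins_bound h3 hCA ⟨_, hmem 0 hm⟩ (by intro q; rw [← q, hCc] at hcard; omega)
  have hmm : ∀ k < 3 * G.m, (mk M G D k).1 ∈ C := by
    intro k hk
    rw [mki k hk, sgi_fst]
    exact hmem _ (by omega)
  -- the dart mk j is an inner dart code l
  have hl : ∃ l < 3 * G.m, mk M G D l = mk M G D j := by
    have h1 : (mk M G D j).1 = (D x).1 := he
    rcases dart_cases h1 with q | q | q
    · exact ⟨3 * x, by omega, by rw [mki _ (by omega), q]; simp⟩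
    · refine ⟨3 * x + 1, by omega, ?_⟩
      rw [mki _ (by omega), q, show (3 * x + 1) % 3 = 1 by omega, show (3 * x + 1) / 3 = x by omega]
      rfl
    · refine ⟨3 * x + 2, by omega, ?_⟩
      rw [mki _ (by omega), q, show (3 * x + 2) % 3 = 2 by omega, show (3 * x + 2) / 3 = x by omega]
      rfl
  obtain ⟨l, hl3, hle⟩ := hl
  have alin : ∀ k < 3 * G.m, G.p k < 3 * G.m → M.al (mk M G D k) = mk M G D (G.p k) := by
    intro k hk hp3
    have g := hG.h1 k (by omega)
    rcases lt_or_gt_of_ne g.2.2.1 with q | q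
    · have := c3 (G.p k) hp3 (by rw [g.2.1]; exact hk) (by rw [g.2.1]; exact q)
      rw [g.2.1] at this
      rw [← this, M.inv]
    · exact c3 k hk hp3 q
  have hall : M.al (mk M G D l) = mk M G D (G.p j) := by
    rw [hle, mkt j hj2 gp, M.inv]
  have hlp : 3 * G.m ≤ G.p l := by
    by_contra hc
    have h1 := alin l hl3 (not_le.1 hc)
    rw [hall] at h1
    have h2 := inj _ gp _ (not_le.1 hc) h1
    have g := hG.h1 l (by omega)
    have : G.p (G.p j) = G.p (G.p l) := by rw [h2]
    rw [gj.2.1, g.2.1] at this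
    omega
  have hne : l ≠ G.p j := by
    intro q
    rw [← q] at hall
    have := M.nofix (mk M G D l) (by rw [mki l hl3, sgi_fst]; exact c1 _ (by omega))
    exact this hall
  -- codes of inner darts
  let K : Finset ℕ := (Finset.range (3 * G.m)).filter (fun k => G.p k < 3 * G.m)
  have hKc : K.card = 3 * G.m - G.t := by
    have h1 : (Finset.range (3 * G.m)).filter (fun k => ¬ G.p k < 3 * G.m) =
        ((Finset.range G.N).filter (fun k => 3 * G.m ≤ k)).image G.p := by
      ext k
      simp only [mem_filter, mem_range, mem_image]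
      constructor
      · rintro ⟨h1, h2⟩
        have g := hG.h1 k (by omega)
        exact ⟨G.p k, ⟨g.1, not_lt.1 h2⟩, g.2.1⟩
      · rintro ⟨a, ⟨h1, h2⟩, rfl⟩
        have g := hG.h1 a h1
        refine ⟨g.2.2.2 h2, ?_⟩
        rw [g.2.1]; omega
    have h2 : (((Finset.range G.N).filter (fun k => 3 * G.m ≤ k)).image G.p).card = G.t := by
      rw [Finset.card_image_of_injOn]
      · have : (Finset.range G.N).filter (fun k => 3 * G.m ≤ k) = Finset.Ico (3 * G.m) G.N := by
          ext k; simp only [mem_filter, mem_range, mem_Ico]; omega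
        rw [this, Nat.card_Ico]; omega
      · intro a ha b hb hab
        simp only [coe_filter, mem_range, Set.mem_ofPred_eq] at ha hb
        have g := hG.h1 a ha.1
        have g' := hG.h1 b hb.1
        have : G.p (G.p a) = G.p (G.p b) := by rw [hab]
        rw [g.2.1, g'.2.1] at this
        exact this
    have h3 := Finset.card_filter_add_card_filter_not (s := Finset.range (3 * G.m)) (fun k => G.p k < 3 * G.m)
    rw [h1, h2, Finset.card_range] at h3
    show (Finset.filter (fun k => G.p k < 3 * G.m) (Finset.range (3 * G.m))).card = _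
    omega
  have hKl : l ∉ K := by simp only [K, mem_filter, mem_range]; omega
  have hKp : G.p j ∉ K := by
    simp only [K, mem_filter, mem_range]
    rw [gj.2.1]; omega
  have hsub : (insert l (insert (G.p j) K)).image (mk M G D) ⊆ M.ins C := by
    intro e he'
    rw [Finset.mem_image] at he'
    obtain ⟨k, hk, rfl⟩ := he'
    rw [CMap.mem_ins]
    simp only [mem_insert, K, mem_filter, mem_range] at hk
    rcases hk with rfl | rfl | ⟨hk1, hk2⟩
    · exact ⟨hmm _ hl3, by rw [hall]; exact hmm _ gp⟩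
    · refine ⟨hmm _ gp, ?_⟩
      rw [← hall, M.inv]; exact hmm _ hl3
    · exact ⟨hmm k hk1, by rw [alin k hk1 hk2]; exact hmm _ hk2⟩
  have hcard2 : ((insert l (insert (G.p j) K)).image (mk M G D)).card = 3 * G.m - G.t + 2 := by
    rw [Finset.card_image_of_injOn]
    · rw [Finset.card_insert_of_notMem, Finset.card_insert_of_notMem hKp, hKc]
      simp only [mem_insert, not_or]
      exact ⟨hne, hKl⟩
    · intro a ha b hb hab
      have hlt : ∀ a ∈ (insert l (insert (G.p j) K)), a < 3 * G.m := by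
        intro a ha
        simp only [mem_insert, K, mem_filter, mem_range] at ha
        rcases ha with rfl | rfl | ⟨ha, _⟩
        · exact hl3
        · exact gp
        · exact ha
      exact inj a (hlt a ha) b (hlt b hb) hab
  have hfin := Finset.card_le_card hsub
  have hKle : K.card ≤ 3 * G.m := by
    refine (Finset.card_filter_le _ _).trans ?_
    rw [Finset.card_range]
  omega

end Pool.Agent.H24
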