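import Pool.Agent.H24.Big

set_option autoImplicit false
set_option linter.unusedSectionVars false
set_option linter.unusedVariables false
set_option maxRecDepth 100000

namespace Pool.Agent.H24

open Finset Equiv.Perm

variable {V : Type} [Fintype V] [DecidableEq V]

/-- standing assumptions after removing triangles -/
structure Std (M : CMap V) : Prop where
  c3 : M.C3
  pl : M.Pl
  n3 : ∀ B ⊆ M.A, M.b B = 3 → B.card ≤ 1 ∨ (M.A \ B).card ≤ 1
  card : 6 ≤ M.A.card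
  ln4 : ∀ d : V × Fin 3, d.1 ∈ M.A → 4 ≤ M.ln d

theorem std_of {M : CMap V} (h3 : M.C3) (hpl : M.Pl) (hNB : M.NB) (hA : 6 ≤ M.A.card)
    (hno : ∀ d : V × Fin 3, d.1 ∈ M.A → M.ln d ≠ 3) : Std M := by
  have small : ∀ B ⊆ M.A, M.b B = 3 → B.card ≤ 4 → B ≠ M.A → B.card ≤ 1 := by
    intro B hB hb hc hne
    by_contra hcon
    have hp := M.parity hB
    have h1 : B.card = 3 := by omega
    obtain ⟨d, hd1, hd2⟩ := M.small_face h3 hpl hB hne (by omega) (by omega)
      (Finset.card_pos.1 (by omega))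
    have hdA : d.1 ∈ M.A := hB (hd1 d (CMap.SC.refl M d))
    have := M.ln_ge3 h3 (by omega) hdA
    exact hno d hdA (by omega)
  have hneA : ∀ B ⊆ M.A, M.b B = 3 → B ≠ M.A := by
    intro B hB hb q
    rw [q, M.b_A] at hb
    omega
  refine ⟨h3, hpl, ?_, hA, ?_⟩
  · intro B hB hb
    rcases hNB B hB hb with q | q
    · exact Or.inl (small B hB hb q (hneA B hB hb))
    · right
      have hb' : M.b (M.A \ B) = 3 := by rw [M.b_compl hB, hb]
      exact small _ Finset.sdiff_subset hb' q (hneA _ Finset.sdiff_subset hb')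
  · intro d hd
    have h1 := M.ln_ge3 h3 (by omega) hd
    have h2 := hno d hd
    omega

/-- in a standard map a set with two elements on each side has at least four leaving darts -/
theorem Std.four {M : CMap V} (h : Std M) {B : Finset V} (hB : B ⊆ M.A) (h1 : 2 ≤ B.card)
    (h2 : 2 ≤ (M.A \ B).card) : 4 ≤ M.b B := by
  have h3 := h.c3 B hB (Finset.card_pos.1 (by omega)) (by
    intro q
    rw [q, Finset.sdiff_self, Finset.card_empty] at h2
    omega)
  by_contra hc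
  have := h.n3 B hB (by omega)
  omega

theorem sq_emb {M : CMap V} (h : Std M) {d : V × Fin 3}
    (hd : d.1 ∈ M.A) (hl : M.ln d = 4) : Emb M gSq (mk M gSq (fun x => M.ph^[x] d)) := by
  have hA := h.card
  have i4 : M.ph (M.ph (M.ph (M.ph d))) = d := by
    have := M.ph_ln d
    rw [hl] at this
    exact this
  have a3 : M.al (M.ph (M.ph (M.ph d))) = sg (sg d) := by rw [M.al_ph, i4]
  have a3' : M.al (sg (sg d)) = M.ph (M.ph (M.ph d)) := by rw [← a3, M.inv]
  have c1 : ∀ x < gSq.m, (M.ph^[x] d).1 ∈ M.A := by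
    intro x _
    exact (M.SC_act (M.SC_iter d x)).1 hd
  have c2 : ∀ x < gSq.m, ∀ y < gSq.m, (M.ph^[x] d).1 = (M.ph^[y] d).1 → x = y := by
    intro x hx y hy he
    by_contra hc
    exact face_vert_ne h.c3 h.pl hd hl (i := x) (j := y) hx hy hc he
  have c3 : ∀ k < 3 * gSq.m, gSq.p k < 3 * gSq.m → k < gSq.p k →
      M.al (mk M gSq (fun x => M.ph^[x] d) k) = mk M gSq (fun x => M.ph^[x] d) (gSq.p k) := by
    intro k hk h1 h2
    have hk' : k < 12 := hk
    interval_cases k <;> first | (exfalso; revert h1 h2; decide) | skip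
    · exact M.al_ph d
    · exact a3'
    · exact M.al_ph _
    · exact M.al_ph _
  exact mkEmb M gSq gSq_ok _ c1 c2 c3
    (term_out M gSq gSq_ok _ h.c3 (by decide) (by have : gSq.m = 4 := rfl; omega) (by decide) c1 c2 c3)

theorem sq_loc : ∀ t0 t1 t2 t3 : Bool,
    gSq.loc (Xt gSq (tf 12 [t0, t1, t2, t3]) (fun x => if x < 2 then
      (if t0 = t1 then t0 else if t2 = t3 then t2 else true) else
      (if t2 = t3 then t2 else if t0 = t1 then t0 else true))) =
    gSq.loc' (Xt gSq (tf 12 [t0, t1, t2, t3]) (fun x => if x < 2 then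
      (if t0 = t1 then t0 else if t2 = t3 then t2 else true) else
      (if t2 = t3 then t2 else if t0 = t1 then t0 else true))) +
      (if t0 = t1 ∧ t2 = t3 ∧ t0 ≠ t2 then 2 else 0) := by decide +kernel

section
variable {M M' : CMap V} {ε : ℕ → V × Fin 3}

theorem sq_cut (h : Emb M gSq ε) (hr : Red M M' gSq ε) {B : Finset V} (hB : B ⊆ M'.A) :
    ∃ y : ℕ → Bool, M.b (Bext M gSq ε B y) = M'.b B +
      (if (decide ((ε 12).1 ∈ B) = decide ((ε 13).1 ∈ B) ∧ decide ((ε 14).1 ∈ B) = decide ((ε 15).1 ∈ B) ∧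
        decide ((ε 12).1 ∈ B) ≠ decide ((ε 14).1 ∈ B)) then 2 else 0) ∧
      ((decide ((ε 12).1 ∈ B) = decide ((ε 13).1 ∈ B) ∧ decide ((ε 14).1 ∈ B) = decide ((ε 15).1 ∈ B) ∧
        decide ((ε 12).1 ∈ B) ≠ decide ((ε 14).1 ∈ B)) →
        (y 0 = decide ((ε 12).1 ∈ B) ∧ y 1 = decide ((ε 12).1 ∈ B) ∧ y 2 = decide ((ε 14).1 ∈ B) ∧
          y 3 = decide ((ε 14).1 ∈ B))) := by
  set t0 := decide ((ε 12).1 ∈ B) with ht0
  set t1 := decide ((ε 13).1 ∈ B) with ht1
  set t2 := decide ((ε 14).1 ∈ B) with ht2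
  set t3 := decide ((ε 15).1 ∈ B) with ht3
  refine ⟨fun x => if x < 2 then (if t0 = t1 then t0 else if t2 = t3 then t2 else true) else
      (if t2 = t3 then t2 else if t0 = t1 then t0 else true), ?_, ?_⟩
  · have h1 := cut_transfer h gSq_ok hr hB (fun x => if x < 2 then
      (if t0 = t1 then t0 else if t2 = t3 then t2 else true) else
      (if t2 = t3 then t2 else if t0 = t1 then t0 else true))
    have h2 := Xp_tf4 (ε := ε) (G := gSq) (by decide) (by decide) B (fun x => if x < 2 then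
      (if t0 = t1 then t0 else if t2 = t3 then t2 else true) else
      (if t2 = t3 then t2 else if t0 = t1 then t0 else true))
    rw [loc_congr gSq_ok h2, loc'_congr gSq_ok h2] at h1
    have h3 := sq_loc t0 t1 t2 t3
    have e0 : (3 * gSq.m) = 12 := rfl
    simp only [e0] at h1
    rw [← ht0, ← ht1, ← ht2, ← ht3] at h1
    omega
  · rintro ⟨q1, q2, q3⟩
    simp [q1, q2]

theorem emb_ne' {G : Gd} (h : Emb M G ε) {a b : ℕ} (ha : a < 3 * G.m) (hb : b < 3 * G.m)
    (hab : a / 3 ≠ b / 3) : (ε a).1 ≠ (ε b).1 := fun q => hab (h.vert ha hb q)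

theorem sq_c3 (h : Emb M gSq ε) (hr : Red M M' gSq ε) (hS : Std M) :
    M'.C3 ∨ ∃ Z ⊆ M.A, M.b Z = 4 ∧ (ε 0).1 ∈ Z ∧ (ε 3).1 ∈ Z ∧ (ε 12).1 ∈ Z ∧ (ε 13).1 ∈ Z ∧
      (ε 6).1 ∉ Z ∧ (ε 9).1 ∉ Z ∧ (ε 14).1 ∉ Z ∧ (ε 15).1 ∉ Z := by
  by_contra hcon
  push Not at hcon
  obtain ⟨hnc, hcon⟩ := hcon
  unfold CMap.C3 at hnc
  push Not at hnc
  obtain ⟨B, hB, hne, hne2, hb⟩ := hnc
  obtain ⟨y, hy1, hy2⟩ := sq_cut h hr hB
  have hs := Bext_sub (M := M) (G := gSq) (ε := ε) B y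
  have hn1 := Bext_nonempty h hr hB y hne
  have hn2 := Bext_ne h hr hB y hne2
  split_ifs at hy1 with hbad
  swap
  · exact C3_lt hS.c3 hs hn1 hn2 (by omega)
  obtain ⟨y0, y1, y2, y3⟩ := hy2 hbad
  set C := Bext M gSq ε B y with hC
  have hN : gSq.N = 16 := rfl
  have hm : 3 * gSq.m = 12 := rfl
  -- membership
  have mem : ∀ k < 12, ((ε k).1 ∈ C ↔ y (k / 3) = true) := by
    intro k hk
    rw [hC, Bext_mem h hr hB y (k := k) (by omega)]
    unfold Xp
    have : gSq.isK k = false := by revert k; decide +kernel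
    rw [this]; simp
  have memt : ∀ k, 12 ≤ k → k < 16 → ((ε k).1 ∈ C ↔ (ε k).1 ∈ B) := by
    intro k hk hk2
    rw [hC, Bext_mem h hr hB y (k := k) (by omega)]
    unfold Xp
    rw [isK_term (G := gSq) (by omega)]
    simp
  have m0 := mem 0 (by omega)
  have m3 := mem 3 (by omega)
  have m6 := mem 6 (by omega)
  have m9 := mem 9 (by omega)
  have m12 := memt 12 (by omega) (by omega)
  have m13 := memt 13 (by omega) (by omega)
  have m14 := memt 14 (by omega) (by omega)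
  have m15 := memt 15 (by omega) (by omega)
  norm_num at m0 m3 m6 m9
  rw [y0] at m0
  rw [y1] at m3
  rw [y2] at m6
  rw [y3] at m9
  simp only [decide_eq_true_eq] at m0 m3 m6 m9
  have hbb : ((ε 12).1 ∈ B ↔ (ε 13).1 ∈ B) ∧ ((ε 14).1 ∈ B ↔ (ε 15).1 ∈ B) ∧
      ((ε 12).1 ∈ B ↔ ¬ (ε 14).1 ∈ B) := by
    obtain ⟨b1, b2, b3⟩ := hbad
    rw [decide_eq_decide] at b1 b2
    refine ⟨b1, b2, ?_⟩
    by_cases q1 : (ε 12).1 ∈ B <;> by_cases q2 : (ε 14).1 ∈ B <;> simp [q1, q2] at b3 ⊢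
  have n03 : (ε 0).1 ≠ (ε 3).1 := emb_ne' h (by omega) (by omega) (by omega)
  have n69 : (ε 6).1 ≠ (ε 9).1 := emb_ne' h (by omega) (by omega) (by omega)
  have nm : ∀ k < 16, (ε k).1 ∉ C → (ε k).1 ∈ M.A \ C := fun k hk z =>
      Finset.mem_sdiff.2 ⟨h.act k hk, z⟩
  by_cases q : (ε 12).1 ∈ B
  · have q14 := hbb.2.2.1 q
    have q13 := hbb.1.1 q
    have q15 : (ε 15).1 ∉ B := fun z => q14 (hbb.2.1.2 z)
    have e6 : (ε 6).1 ∉ C := fun z => q14 (m6.1 z)
    have e9 : (ε 9).1 ∉ C := fun z => q14 (m9.1 z)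
    have h4 := hS.four hs (two_le_card (m0.2 q) (m3.2 q) n03)
      (two_le_card (nm 6 (by omega) e6) (nm 9 (by omega) e9) n69)
    exact q15 (m15.1 (hcon C hs (by omega) (m0.2 q) (m3.2 q) (m12.2 q) (m13.2 q13) e6 e9
      (fun z => q14 (m14.1 z))))
  · have q14 : (ε 14).1 ∈ B := by by_contra z; exact q (hbb.2.2.2 z)
    have q13 : (ε 13).1 ∉ B := fun z => q (hbb.1.2 z)
    have q15 := hbb.2.1.1 q14
    obtain ⟨p1, p2, p3⟩ := pick_side (M := M) hs
    have e0 : (ε 0).1 ∉ C := fun z => q (m0.1 z)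
    have e3 : (ε 3).1 ∉ C := fun z => q (m3.1 z)
    have h4 := hS.four hs (two_le_card (m6.2 q14) (m9.2 q14) n69)
      (two_le_card (nm 0 (by omega) e0) (nm 3 (by omega) e3) n03)
    have nn : ∀ v, v ∈ C → v ∉ M.A \ C := fun v hv z => (Finset.mem_sdiff.1 z).2 hv
    exact (nn _ (m15.2 q15)) (hcon (M.A \ C) p1 (by omega) (nm 0 (by omega) e0) (nm 3 (by omega) e3)
      (nm 12 (by omega) (fun z => q (m12.1 z))) (nm 13 (by omega) (fun z => q13 (m13.1 z)))
      (nn _ (m6.2 q14)) (nn _ (m9.2 q14)) (nn _ (m14.2 q14)))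

end

end Pool.Agent.H24
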