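import Pool.Agent.H24.Tables

set_option autoImplicit false
set_option linter.unusedSectionVars false
set_option linter.unusedVariables false
set_option maxRecDepth 100000

namespace Pool.Agent.H24

def tab_g55 : List (List ℕ) := [
  [0, 1, 0, 2, 1, 2, 0, 2, 0, 1, 0, 0, 1, 1],
  [2, 1, 0, 2, 0, 1, 0, 1, 0, 1, 0, 0, 1, 2],
  [0, 1, 0, 2, 1, 2, 0, 2, 0, 1, 0, 0, 2, 1],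
  [0, 1, 0, 2, 1, 2, 0, 1, 0, 1, 0, 0, 2, 2],
  [0, 1, 2, 1, 2, 0, 1, 2, 0, 1, 0, 1, 0, 1],
  [0, 1, 2, 1, 2, 0, 2, 1, 0, 1, 0, 1, 0, 2],
  [0, 1, 0, 2, 1, 2, 0, 2, 0, 1, 0, 1, 2, 1],
  [0, 1, 0, 2, 1, 2, 0, 1, 0, 1, 0, 1, 2, 2],
  [0, 1, 2, 1, 2, 0, 1, 2, 0, 1, 0, 2, 0, 1],
  [0, 1, 0, 2, 1, 0, 2, 1, 0, 1, 0, 2, 0, 2],
  [2, 1, 0, 2, 0, 1, 2, 0, 0, 1, 0, 2, 1, 1],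
  [2, 1, 0, 2, 0, 1, 0, 1, 0, 1, 0, 2, 1, 2],
  [0, 1, 2, 0, 2, 1, 0, 2, 0, 1, 1, 0, 1, 0],
  [0, 2, 0, 2, 1, 2, 0, 1, 0, 1, 1, 0, 1, 2],
  [0, 2, 0, 2, 1, 2, 0, 1, 0, 1, 1, 0, 2, 0],
  [0, 1, 0, 2, 1, 2, 0, 1, 0, 1, 1, 0, 2, 2],
  [0, 1, 2, 0, 2, 0, 1, 2, 0, 1, 1, 1, 0, 0],
  [0, 1, 2, 0, 2, 0, 2, 1, 0, 1, 1, 1, 0, 2],
  [0, 1, 2, 0, 2, 0, 1, 2, 0, 1, 1, 1, 2, 0],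
  [1, 2, 0, 2, 0, 2, 1, 0, 0, 1, 1, 1, 2, 2],
  [0, 2, 0, 2, 1, 0, 2, 1, 0, 1, 1, 2, 0, 0],
  [0, 1, 0, 2, 1, 0, 2, 1, 0, 1, 1, 2, 0, 2],
  [0, 1, 2, 0, 2, 1, 0, 2, 0, 1, 1, 2, 1, 0],
  [1, 2, 0, 2, 0, 1, 2, 0, 0, 1, 1, 2, 1, 2],
  [0, 1, 0, 1, 2, 1, 0, 2, 0, 1, 2, 0, 1, 0],
  [0, 1, 0, 1, 2, 1, 0, 2, 0, 1, 2, 0, 1, 1],
  [0, 1, 2, 0, 1, 2, 1, 2, 0, 1, 2, 0, 2, 0],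
  [0, 1, 0, 1, 2, 1, 0, 2, 0, 1, 2, 0, 2, 1],
  [0, 1, 0, 1, 2, 0, 1, 2, 0, 1, 2, 1, 0, 0],
  [0, 1, 0, 1, 2, 0, 1, 2, 0, 1, 2, 1, 0, 1],
  [0, 1, 0, 1, 2, 0, 1, 2, 0, 1, 2, 1, 2, 0],
  [0, 1, 2, 0, 1, 2, 0, 2, 0, 1, 2, 1, 2, 1],
  [1, 2, 0, 1, 2, 0, 1, 2, 0, 1, 2, 2, 0, 0],
  [0, 1, 0, 1, 2, 0, 1, 2, 0, 1, 2, 2, 0, 1],
  [0, 1, 2, 0, 2, 1, 0, 2, 0, 1, 2, 2, 1, 0],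
  [0, 1, 2, 0, 2, 1, 0, 2, 0, 1, 2, 2, 1, 1]]
theorem chk_g55 : tab_g55.all (fun cl => g55.chk cl (fun _ => 0)) = true := by decide +kernel

def tab_g56 : List (List ℕ) := [
  [0, 2, 1, 0, 1, 2, 1, 0, 2, 1, 0, 1, 1, 0, 1, 1],
  [0, 2, 1, 0, 2, 0, 2, 0, 1, 1, 0, 1, 1, 0, 1, 2],
  [0, 2, 1, 0, 1, 2, 1, 0, 2, 1, 0, 1, 1, 0, 2, 1],
  [0, 2, 1, 0, 2, 0, 2, 0, 1, 1, 0, 1, 1, 0, 2, 2],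
  [0, 2, 1, 0, 1, 2, 0, 1, 2, 1, 0, 1, 1, 1, 0, 1],
  [0, 2, 1, 0, 1, 2, 0, 2, 1, 1, 0, 1, 1, 1, 0, 2],
  [1, 0, 2, 0, 2, 0, 2, 1, 0, 1, 0, 1, 1, 1, 2, 1],
  [0, 2, 1, 0, 2, 0, 2, 0, 1, 1, 0, 1, 1, 1, 2, 2],
  [0, 2, 1, 0, 1, 2, 0, 1, 2, 1, 0, 1, 1, 2, 0, 1],
  [0, 2, 1, 0, 1, 2, 0, 2, 1, 1, 0, 1, 1, 2, 0, 2],
  [1, 0, 2, 0, 2, 0, 1, 2, 0, 1, 0, 1, 1, 2, 1, 1],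
  [1, 0, 2, 0, 2, 0, 1, 2, 0, 1, 0, 1, 1, 2, 1, 2],
  [0, 2, 1, 0, 2, 0, 1, 0, 2, 1, 0, 1, 2, 0, 1, 1],
  [0, 2, 1, 0, 2, 0, 1, 0, 1, 1, 0, 1, 2, 0, 1, 2],
  [0, 2, 1, 0, 2, 1, 2, 0, 2, 1, 0, 1, 2, 0, 2, 1],
  [0, 2, 1, 0, 2, 0, 1, 0, 1, 1, 0, 1, 2, 0, 2, 2],
  [0, 2, 1, 0, 2, 1, 0, 1, 2, 1, 0, 1, 2, 1, 0, 1],
  [0, 2, 1, 0, 2, 1, 0, 2, 1, 1, 0, 1, 2, 1, 0, 2],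
  [1, 2, 1, 0, 2, 0, 2, 1, 0, 1, 0, 1, 2, 1, 2, 1],
  [1, 2, 1, 0, 2, 0, 2, 1, 0, 1, 0, 1, 2, 1, 2, 2],
  [0, 2, 1, 0, 2, 1, 0, 1, 2, 1, 0, 1, 2, 2, 0, 1],
  [0, 2, 1, 0, 2, 1, 0, 2, 1, 1, 0, 1, 2, 2, 0, 2],
  [0, 2, 1, 0, 2, 0, 1, 0, 2, 1, 0, 1, 2, 2, 1, 1],
  [0, 2, 1, 0, 2, 0, 1, 0, 1, 1, 0, 1, 2, 2, 1, 2],
  [0, 2, 1, 0, 1, 2, 1, 0, 2, 1, 0, 2, 1, 0, 1, 1],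
  [2, 0, 2, 0, 1, 0, 2, 0, 1, 1, 0, 2, 1, 0, 1, 2],
  [0, 2, 1, 0, 1, 2, 1, 0, 2, 1, 0, 2, 1, 0, 2, 1],
  [1, 0, 2, 1, 2, 0, 2, 1, 0, 1, 0, 2, 1, 0, 2, 2],
  [0, 2, 1, 0, 1, 2, 0, 1, 2, 1, 0, 2, 1, 1, 0, 1],
  [0, 2, 1, 0, 1, 2, 0, 2, 1, 1, 0, 2, 1, 1, 0, 2],
  [1, 0, 2, 0, 2, 0, 2, 1, 0, 1, 0, 2, 1, 1, 2, 1],
  [1, 0, 2, 0, 2, 0, 2, 1, 0, 1, 0, 2, 1, 1, 2, 2],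
  [0, 2, 1, 0, 1, 2, 0, 1, 2, 1, 0, 2, 1, 2, 0, 1],
  [0, 2, 1, 0, 1, 2, 0, 2, 1, 1, 0, 2, 1, 2, 0, 2],
  [1, 0, 2, 0, 2, 0, 1, 2, 0, 1, 0, 2, 1, 2, 1, 1],
  [1, 0, 2, 0, 2, 0, 1, 2, 0, 1, 0, 2, 1, 2, 1, 2],
  [1, 0, 2, 1, 0, 1, 2, 0, 2, 1, 0, 2, 2, 0, 1, 1],
  [0, 2, 1, 0, 2, 1, 2, 0, 1, 1, 0, 2, 2, 0, 1, 2],
  [1, 0, 2, 1, 0, 1, 2, 0, 2, 1, 0, 2, 2, 0, 2, 1],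
  [0, 2, 1, 0, 2, 1, 2, 0, 1, 1, 0, 2, 2, 0, 2, 2],
  [0, 2, 1, 0, 2, 1, 0, 1, 2, 1, 0, 2, 2, 1, 0, 1],
  [0, 2, 1, 0, 2, 1, 0, 2, 1, 1, 0, 2, 2, 1, 0, 2],
  [1, 0, 2, 1, 2, 0, 2, 1, 0, 1, 0, 2, 2, 1, 2, 1],
  [1, 0, 2, 1, 2, 0, 2, 1, 0, 1, 0, 2, 2, 1, 2, 2],
  [0, 2, 1, 0, 2, 1, 0, 1, 2, 1, 0, 2, 2, 2, 0, 1],
  [0, 2, 1, 0, 2, 1, 0, 2, 1, 1, 0, 2, 2, 2, 0, 2],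
  [1, 0, 2, 0, 2, 1, 0, 2, 0, 1, 0, 2, 2, 2, 1, 1],
  [1, 0, 2, 1, 2, 0, 1, 2, 0, 1, 0, 2, 2, 2, 1, 2],
  [0, 2, 0, 2, 1, 2, 1, 0, 2, 1, 1, 0, 1, 0, 1, 1],
  [0, 2, 0, 1, 2, 0, 2, 0, 1, 1, 1, 0, 1, 0, 1, 2],
  [1, 0, 2, 1, 2, 0, 2, 1, 0, 1, 1, 0, 1, 0, 2, 1],
  [0, 2, 0, 1, 2, 0, 2, 0, 1, 1, 1, 0, 1, 0, 2, 2],
  [0, 2, 0, 2, 1, 2, 0, 1, 2, 1, 1, 0, 1, 1, 0, 1],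
  [0, 2, 0, 2, 1, 2, 0, 2, 1, 1, 1, 0, 1, 1, 0, 2],
  [1, 0, 2, 1, 2, 0, 2, 1, 0, 1, 1, 0, 1, 1, 2, 1],
  [0, 2, 0, 1, 2, 0, 2, 0, 1, 1, 1, 0, 1, 1, 2, 2],
  [0, 2, 0, 2, 1, 2, 0, 1, 2, 1, 1, 0, 1, 2, 0, 1],
  [0, 2, 0, 2, 1, 2, 0, 2, 1, 1, 1, 0, 1, 2, 0, 2],
  [1, 0, 2, 1, 2, 0, 1, 2, 0, 1, 1, 0, 1, 2, 1, 1],
  [1, 0, 2, 1, 2, 0, 1, 2, 0, 1, 1, 0, 1, 2, 1, 2],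
  [0, 2, 0, 1, 2, 0, 1, 0, 2, 1, 1, 0, 2, 0, 1, 1],
  [0, 2, 0, 1, 2, 0, 1, 0, 1, 1, 1, 0, 2, 0, 1, 2],
  [0, 2, 0, 1, 2, 1, 2, 0, 2, 1, 1, 0, 2, 0, 2, 1],
  [0, 2, 0, 1, 2, 0, 1, 0, 1, 1, 1, 0, 2, 0, 2, 2],
  [0, 2, 0, 1, 2, 1, 0, 1, 2, 1, 1, 0, 2, 1, 0, 1],
  [0, 2, 0, 1, 2, 1, 0, 2, 1, 1, 1, 0, 2, 1, 0, 2],
  [1, 0, 2, 1, 2, 0, 2, 1, 0, 1, 1, 0, 2, 1, 2, 1],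
  [1, 0, 2, 1, 2, 0, 2, 1, 0, 1, 1, 0, 2, 1, 2, 2],
  [0, 2, 0, 1, 2, 1, 0, 1, 2, 1, 1, 0, 2, 2, 0, 1],
  [0, 2, 0, 1, 2, 1, 0, 2, 1, 1, 1, 0, 2, 2, 0, 2],
  [0, 2, 0, 1, 2, 0, 1, 0, 2, 1, 1, 0, 2, 2, 1, 1],
  [0, 2, 0, 1, 2, 0, 1, 0, 1, 1, 1, 0, 2, 2, 1, 2],
  [1, 0, 2, 1, 0, 2, 1, 0, 2, 1, 1, 2, 1, 0, 1, 1],
  [0, 2, 0, 1, 2, 0, 2, 0, 1, 1, 1, 2, 1, 0, 1, 2],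
  [1, 0, 2, 1, 0, 2, 1, 0, 2, 1, 1, 2, 1, 0, 2, 1],
  [0, 2, 0, 1, 2, 0, 2, 0, 1, 1, 1, 2, 1, 0, 2, 2],
  [1, 0, 2, 1, 0, 2, 0, 1, 2, 1, 1, 2, 1, 1, 0, 1],
  [2, 0, 2, 1, 0, 2, 0, 1, 0, 1, 1, 2, 1, 1, 0, 2],
  [1, 0, 2, 0, 2, 0, 2, 1, 0, 1, 1, 2, 1, 1, 2, 1],
  [0, 2, 0, 1, 2, 0, 2, 0, 1, 1, 1, 2, 1, 1, 2, 2],
  [1, 0, 2, 0, 2, 0, 1, 2, 0, 1, 1, 2, 1, 2, 0, 1],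
  [2, 0, 2, 1, 0, 2, 0, 2, 1, 1, 1, 2, 1, 2, 0, 2],
  [1, 0, 2, 0, 2, 0, 1, 2, 0, 1, 1, 2, 1, 2, 1, 1],
  [1, 0, 2, 0, 2, 0, 1, 2, 0, 1, 1, 2, 1, 2, 1, 2],
  [0, 2, 0, 1, 2, 0, 1, 0, 2, 1, 1, 2, 2, 0, 1, 1],
  [0, 2, 0, 1, 2, 0, 1, 0, 1, 1, 1, 2, 2, 0, 1, 2],
  [1, 0, 2, 1, 0, 1, 2, 0, 2, 1, 1, 2, 2, 0, 2, 1],
  [0, 2, 0, 1, 2, 0, 1, 0, 1, 1, 1, 2, 2, 0, 2, 2],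
  [1, 0, 2, 0, 2, 1, 0, 2, 0, 1, 1, 2, 2, 1, 0, 1],
  [2, 0, 2, 1, 0, 1, 0, 1, 0, 1, 1, 2, 2, 1, 0, 2],
  [1, 0, 2, 1, 2, 0, 2, 1, 0, 1, 1, 2, 2, 1, 2, 1],
  [1, 0, 2, 1, 2, 0, 2, 1, 0, 1, 1, 2, 2, 1, 2, 2],
  [1, 0, 2, 0, 2, 1, 0, 2, 0, 1, 1, 2, 2, 2, 0, 1],
  [2, 0, 2, 1, 0, 1, 0, 1, 0, 1, 1, 2, 2, 2, 0, 2],
  [0, 2, 0, 1, 2, 0, 1, 0, 2, 1, 1, 2, 2, 2, 1, 1],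
  [0, 2, 0, 1, 2, 0, 1, 0, 1, 1, 1, 2, 2, 2, 1, 2],
  [0, 2, 0, 2, 1, 2, 1, 0, 2, 1, 2, 0, 1, 0, 1, 1],
  [0, 2, 0, 2, 1, 2, 1, 0, 1, 1, 2, 0, 1, 0, 1, 2],
  [1, 0, 1, 2, 0, 2, 1, 0, 2, 1, 2, 0, 1, 0, 2, 1],
  [0, 2, 0, 2, 1, 0, 2, 0, 1, 1, 2, 0, 1, 0, 2, 2],
  [0, 2, 0, 2, 1, 2, 0, 1, 2, 1, 2, 0, 1, 1, 0, 1],
  [0, 2, 0, 2, 1, 2, 0, 2, 1, 1, 2, 0, 1, 1, 0, 2],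
  [1, 2, 0, 1, 2, 0, 2, 1, 0, 1, 2, 0, 1, 1, 2, 1],
  [0, 2, 0, 2, 1, 0, 2, 0, 1, 1, 2, 0, 1, 1, 2, 2],
  [0, 2, 0, 2, 1, 2, 0, 1, 2, 1, 2, 0, 1, 2, 0, 1],
  [0, 2, 0, 2, 1, 2, 0, 2, 1, 1, 2, 0, 1, 2, 0, 2],
  [1, 2, 0, 1, 2, 0, 1, 2, 0, 1, 2, 0, 1, 2, 1, 1],
  [1, 2, 0, 1, 2, 0, 1, 2, 0, 1, 2, 0, 1, 2, 1, 2],
  [0, 2, 0, 2, 1, 0, 1, 0, 2, 1, 2, 0, 2, 0, 1, 1],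
  [0, 2, 0, 1, 2, 1, 2, 0, 1, 1, 2, 0, 2, 0, 1, 2],
  [1, 0, 1, 2, 0, 1, 2, 0, 2, 1, 2, 0, 2, 0, 2, 1],
  [0, 2, 0, 1, 2, 1, 2, 0, 1, 1, 2, 0, 2, 0, 2, 2],
  [0, 2, 0, 1, 2, 1, 0, 1, 2, 1, 2, 0, 2, 1, 0, 1],
  [0, 2, 0, 1, 2, 1, 0, 2, 1, 1, 2, 0, 2, 1, 0, 2],
  [1, 2, 0, 1, 2, 0, 2, 1, 0, 1, 2, 0, 2, 1, 2, 1],
  [1, 2, 0, 1, 2, 0, 2, 1, 0, 1, 2, 0, 2, 1, 2, 2],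
  [0, 2, 0, 1, 2, 1, 0, 1, 2, 1, 2, 0, 2, 2, 0, 1],
  [0, 2, 0, 1, 2, 1, 0, 2, 1, 1, 2, 0, 2, 2, 0, 2],
  [0, 2, 0, 2, 1, 0, 1, 0, 2, 1, 2, 0, 2, 2, 1, 1],
  [1, 2, 0, 1, 2, 0, 1, 2, 0, 1, 2, 0, 2, 2, 1, 2],
  [1, 0, 1, 2, 0, 2, 1, 0, 2, 1, 2, 1, 1, 0, 1, 1],
  [2, 0, 1, 2, 0, 2, 1, 0, 1, 1, 2, 1, 1, 0, 1, 2],
  [1, 0, 1, 2, 0, 2, 1, 0, 2, 1, 2, 1, 1, 0, 2, 1],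
  [0, 2, 0, 2, 1, 0, 2, 0, 1, 1, 2, 1, 1, 0, 2, 2],
  [1, 0, 1, 2, 0, 2, 0, 1, 2, 1, 2, 1, 1, 1, 0, 1],
  [1, 2, 0, 2, 0, 2, 0, 1, 0, 1, 2, 1, 1, 1, 0, 2],
  [2, 0, 1, 2, 1, 0, 2, 1, 0, 1, 2, 1, 1, 1, 2, 1],
  [0, 2, 0, 2, 1, 0, 2, 0, 1, 1, 2, 1, 1, 1, 2, 2],
  [1, 0, 1, 2, 0, 2, 0, 1, 2, 1, 2, 1, 1, 2, 0, 1],
  [2, 0, 1, 2, 0, 2, 0, 2, 1, 1, 2, 1, 1, 2, 0, 2],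
  [1, 0, 1, 2, 0, 2, 0, 2, 0, 1, 2, 1, 1, 2, 1, 1],
  [2, 0, 1, 2, 1, 0, 1, 2, 0, 1, 2, 1, 1, 2, 1, 2],
  [0, 2, 0, 2, 1, 0, 1, 0, 2, 1, 2, 1, 2, 0, 1, 1],
  [2, 0, 1, 2, 0, 1, 2, 0, 1, 1, 2, 1, 2, 0, 1, 2],
  [1, 0, 1, 2, 0, 1, 2, 0, 2, 1, 2, 1, 2, 0, 2, 1],
  [2, 0, 1, 2, 0, 1, 2, 0, 1, 1, 2, 1, 2, 0, 2, 2],
  [2, 0, 1, 2, 0, 1, 0, 2, 0, 1, 2, 1, 2, 1, 0, 1],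
  [2, 0, 1, 2, 0, 1, 0, 1, 0, 1, 2, 1, 2, 1, 0, 2],
  [2, 0, 1, 2, 1, 0, 2, 1, 0, 1, 2, 1, 2, 1, 2, 1],
  [2, 0, 1, 2, 0, 1, 0, 1, 0, 1, 2, 1, 2, 1, 2, 2],
  [1, 0, 1, 2, 0, 1, 0, 2, 0, 1, 2, 1, 2, 2, 0, 1],
  [2, 0, 1, 2, 0, 1, 0, 1, 0, 1, 2, 1, 2, 2, 0, 2],
  [0, 2, 0, 2, 1, 0, 1, 0, 2, 1, 2, 1, 2, 2, 1, 1],
  [2, 0, 1, 2, 1, 0, 1, 2, 0, 1, 2, 1, 2, 2, 1, 2]]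
theorem chk_g56 : tab_g56.all (fun cl => g56.chk cl (fun _ => 0)) = true := by decide +kernel


theorem mem_g55' : (List.range 3).all (fun a => (List.range 3).all (fun b => (List.range 3).all (fun c =>
    (List.range 3).all (fun d => a == d || b == c || tab_g55.any (fun cl => cl.drop 8 == [0, 1, a, b, c, d]))))) = true := by
  decide +kernel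
theorem mem_g56' : (List.range 3).all (fun a => (List.range 3).all (fun b => (List.range 3).all (fun c =>
    (List.range 3).all (fun d => (List.range 3).all (fun e => (List.range 3).all (fun f =>
      a == b || c == 0 || d == e || f == 0 ||
        tab_g56.any (fun cl => cl.drop 9 == [1, a, b, c, d, e, f]))))))) = true := by
  decide +kernel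

theorem mem_g55 {a b c d : ℕ} (ha : a < 3) (hb : b < 3) (hc : c < 3) (hd : d < 3) (h1 : a ≠ d) (h2 : b ≠ c) :
    ∃ cl ∈ tab_g55, cl.drop 8 = [0, 1, a, b, c, d] := by
  have h := mem_g55'
  rw [List.all_eq_true] at h
  have h := h a (List.mem_range.2 ha)
  rw [List.all_eq_true] at h
  have h := h b (List.mem_range.2 hb)
  rw [List.all_eq_true] at h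
  have h := h c (List.mem_range.2 hc)
  rw [List.all_eq_true] at h
  have h := h d (List.mem_range.2 hd)
  simp only [Bool.or_eq_true, beq_iff_eq] at h
  rcases h with (h | h) | h
  · exact absurd h h1
  · exact absurd h h2
  · rw [List.any_eq_true] at h
    obtain ⟨cl, hcl, h⟩ := h
    exact ⟨cl, hcl, by simpa using h⟩

theorem mem_g56 {a b c d e f : ℕ} (ha : a < 3) (hb : b < 3) (hc : c < 3) (hd : d < 3) (he : e < 3) (hf : f < 3)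
    (h1 : a ≠ b) (h2 : c ≠ 0) (h3 : d ≠ e) (h4 : f ≠ 0) :
    ∃ cl ∈ tab_g56, cl.drop 9 = [1, a, b, c, d, e, f] := by
  have h := mem_g56'
  rw [List.all_eq_true] at h
  have h := h a (List.mem_range.2 ha)
  rw [List.all_eq_true] at h
  have h := h b (List.mem_range.2 hb)
  rw [List.all_eq_true] at h
  have h := h c (List.mem_range.2 hc)
  rw [List.all_eq_true] at h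
  have h := h d (List.mem_range.2 hd)
  rw [List.all_eq_true] at h
  have h := h e (List.mem_range.2 he)
  rw [List.all_eq_true] at h
  have h := h f (List.mem_range.2 hf)
  simp only [Bool.or_eq_true, beq_iff_eq] at h
  rcases h with (((h | h) | h) | h) | h
  · exact absurd h h1
  · exact absurd h h2
  · exact absurd h h3
  · exact absurd h h4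
  · rw [List.any_eq_true] at h
    obtain ⟨cl, hcl, h⟩ := h
    exact ⟨cl, hcl, by simpa using h⟩


end Pool.Agent.H24
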