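import Pool.Agent.H24.GadCol

set_option autoImplicit false
set_option linter.unusedSectionVars false
set_option linter.unusedVariables false
set_option maxRecDepth 100000

namespace Pool.Agent.H24

def gTri : Gd := ⟨4, 4, [5, 12, 6, 8, 13, 0, 2, 9, 3, 7, 14, 15, 1, 4, 10, 11], [0, 0, 0, 0, 0, 0, 0, 0, 0, 0, 0, 0, 13, 12, 15, 14], [], [16, 12, 12, 12, 12, 16, 12, 16, 12, 16, 14, 14, 0, 0, 0, 0]⟩
theorem gTri_ok : gTri.Ok :=
  ⟨by decide +kernel, by decide +kernel, by decide +kernel, by decide +kernel, by decide +kernel, by decide +kernel⟩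
theorem gTri_pl : elim 100 gTri.plrows gTri.plconcl = true := by decide +kernel
theorem gTri_kt : ∀ k < 3 * gTri.m, gTri.isK k = true → 3 * gTri.m ≤ gTri.p' k := by decide +kernel

def gTwo : Gd := ⟨6, 4, [5, 18, 6, 8, 19, 0, 2, 16, 3, 14, 20, 15, 17, 21, 9, 11, 7, 12, 1, 4, 10, 13], [0, 0, 0, 0, 0, 0, 0, 0, 0, 0, 0, 0, 0, 0, 0, 0, 0, 0, 19, 18, 21, 20], [], [22, 18, 18, 18, 18, 22, 18, 22, 18, 22, 20, 20, 20, 20, 22, 20, 22, 20, 0, 0, 0, 0]⟩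
theorem gTwo_ok : gTwo.Ok :=
  ⟨by decide +kernel, by decide +kernel, by decide +kernel, by decide +kernel, by decide +kernel, by decide +kernel⟩
theorem gTwo_pl : elim 100 gTwo.plrows gTwo.plconcl = true := by decide +kernel
theorem gTwo_kt : ∀ k < 3 * gTwo.m, gTwo.isK k = true → 3 * gTwo.m ≤ gTwo.p' k := by decide +kernel

def gSq : Gd := ⟨4, 4, [5, 12, 9, 8, 13, 0, 11, 14, 3, 2, 15, 6, 1, 4, 7, 10], [0, 0, 0, 0, 0, 0, 0, 0, 0, 0, 0, 0, 13, 12, 15, 14], [], [12, 12, 16, 16, 12, 12, 14, 14, 16, 16, 14, 14, 0, 0, 0, 0]⟩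
theorem gSq_ok : gSq.Ok :=
  ⟨by decide +kernel, by decide +kernel, by decide +kernel, by decide +kernel, by decide +kernel, by decide +kernel⟩
theorem gSq_pl : elim 100 gSq.plrows gSq.plconcl = true := by decide +kernel
theorem gSq_kt : ∀ k < 3 * gSq.m, gSq.isK k = true → 3 * gSq.m ≤ gSq.p' k := by decide +kernel

def g55 : Gd := ⟨8, 6, [5, 21, 12, 8, 24, 0, 11, 25, 3, 14, 26, 6, 2, 17, 9, 20, 27, 13, 23, 28, 15, 1, 29, 18, 4, 7, 10, 16, 19, 22], [0, 0, 0, 0, 0, 0, 0, 0, 0, 0, 0, 0, 0, 0, 0, 0, 0, 0, 0, 0, 0, 0, 0, 0, 25, 24, 29, 28, 27, 26], [], [30, 26, 26, 24, 24, 30, 30, 24, 24, 26, 26, 30, 26, 30, 26, 27, 27, 30, 30, 27, 27, 26, 26, 30, 0, 0, 0, 0, 0, 0]⟩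
theorem g55_ok : g55.Ok :=
  ⟨by decide +kernel, by decide +kernel, by decide +kernel, by decide +kernel, by decide +kernel, by decide +kernel⟩
theorem g55_pl : elim 100 g55.plrows g55.plconcl = true := by decide +kernel
theorem g55_kt : ∀ k < 3 * g55.m, g55.isK k = true → 3 * g55.m ≤ g55.p' k := by decide +kernel

def g56 : Gd := ⟨9, 7, [5, 24, 12, 8, 27, 0, 11, 28, 3, 14, 29, 6, 2, 17, 9, 20, 30, 13, 23, 31, 15, 26, 32, 18, 1, 33, 21, 4, 7, 10, 16, 19, 22, 25], [27, 33, 30, 0, 0, 0, 0, 0, 0, 0, 0, 0, 0, 0, 0, 0, 0, 0, 0, 0, 0, 0, 0, 0, 0, 0, 0, 0, 29, 28, 2, 32, 31, 1], [0], [0, 0, 0, 34, 27, 27, 28, 28, 34, 34, 28, 28, 30, 30, 34, 34, 30, 30, 31, 31, 34, 34, 31, 31, 33, 33, 34, 0, 0, 0, 0, 0, 0, 0]⟩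
theorem g56_ok : g56.Ok :=
  ⟨by decide +kernel, by decide +kernel, by decide +kernel, by decide +kernel, by decide +kernel, by decide +kernel⟩
theorem g56_pl : elim 100 g56.plrows g56.plconcl = true := by decide +kernel
theorem g56_kt : ∀ k < 3 * g56.m, g56.isK k = true → 3 * g56.m ≤ g56.p' k := by decide +kernel

def tab_gTri : List (List ℕ) := [
  [1, 2, 0, 2, 0, 1, 0, 1],
  [1, 0, 2, 1, 0, 1, 0, 2],
  [1, 2, 0, 2, 0, 1, 1, 0],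
  [1, 0, 2, 0, 0, 1, 1, 2],
  [1, 0, 2, 1, 0, 1, 2, 0],
  [1, 0, 2, 0, 0, 1, 2, 1]]
theorem chk_gTri : tab_gTri.all (fun cl => gTri.chk cl (fun _ => 0)) = true := by decide +kernel

def tab_gTwo : List (List ℕ) := [
  [1, 0, 2, 1, 2, 0, 0, 1, 0, 1],
  [1, 0, 2, 2, 0, 1, 0, 1, 0, 2],
  [1, 0, 2, 0, 2, 1, 0, 1, 1, 0],
  [1, 0, 2, 2, 0, 1, 0, 1, 1, 2],
  [1, 0, 2, 0, 2, 1, 0, 1, 2, 0],
  [1, 0, 2, 0, 2, 1, 0, 1, 2, 1]]
theorem chk_gTwo : tab_gTwo.all (fun cl => gTwo.chk cl (fun _ => 0)) = true := by decide +kernel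

def tab_gSq : List (List ℕ) := [
  [1, 0, 2, 0, 0, 1, 0, 2],
  [1, 2, 0, 2, 0, 1, 1, 0],
  [1, 0, 2, 0, 0, 1, 1, 2],
  [1, 0, 1, 2, 0, 1, 2, 0],
  [1, 0, 1, 2, 0, 1, 2, 1]]
theorem chk_gSq : tab_gSq.all (fun cl => gSq.chk cl (fun _ => 0)) = true := by decide +kernel

theorem mem_gTri : ∀ a < 3, ∀ b < 3, a ≠ b → ∃ cl ∈ tab_gTri, cl.drop 4 = [0, 1, a, b] := by decide +kernel
theorem mem_gTwo : ∀ a < 3, ∀ b < 3, a ≠ b → ∃ cl ∈ tab_gTwo, cl.drop 6 = [0, 1, a, b] := by decide +kernel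
theorem mem_gSq : ∀ a < 3, ∀ b < 3, (a ≠ b ∧ ¬ (a = 0 ∧ b = 1)) → ∃ cl ∈ tab_gSq, cl.drop 4 = [0, 1, a, b] := by
  decide +kernel

end Pool.Agent.H24
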