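import Pool.Agent.H24.Exc

set_option autoImplicit false
set_option linter.unusedSectionVars false
set_option linter.unusedVariables false

namespace Pool.Agent.H24

open Finset Equiv.Perm

variable {V : Type} [Fintype V] [DecidableEq V]

/-- one reduction step -/
def Step (M : CMap V) : Prop := ∃ M' : CMap V, M'.C3 ∧ M'.Pl ∧ 2 ≤ M'.A.card ∧ M'.A.card < M.A.card ∧
  (Col M' → Col M) ∧ (IsExc M' → Col M ∨ IsExc M)

/-- no big three-edge cut -/
def CMap.NB (M : CMap V) : Prop := ∀ B ⊆ M.A, M.b B = 3 → B.card ≤ 4 ∨ (M.A \ B).card ≤ 4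

/-- pattern functions -/
def Xt (G : Gd) (t y : ℕ → Bool) (k : ℕ) : Bool := if G.isK k then t k else y (k / 3)

def tf (s : ℕ) (l : List Bool) (k : ℕ) : Bool := l.getD (k - s) false

theorem Xp_eq (G : Gd) {V : Type} [Fintype V] [DecidableEq V] (ε : ℕ → V × Fin 3) (B : Finset V) (y : ℕ → Bool) :
    Xp G ε B y = Xt G (fun k => decide ((ε k).1 ∈ B)) y := rfl

theorem loc_congr {G : Gd} (hG : G.Ok) {X X' : ℕ → Bool} (h : ∀ k < G.N, X k = X' k) : G.loc X = G.loc X' := by
  unfold Gd.loc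
  apply Finset.sum_congr rfl
  intro k hk
  rw [Finset.mem_range] at hk
  rw [h k hk, h _ (hG.h1 k hk).1]

theorem loc'_congr {G : Gd} (hG : G.Ok) {X X' : ℕ → Bool} (h : ∀ k < G.N, X k = X' k) : G.loc' X = G.loc' X' := by
  unfold Gd.loc'
  apply Finset.sum_congr rfl
  intro k hk
  rw [Finset.mem_range] at hk
  by_cases hK : G.isK k = true
  · rw [h k hk, h _ (hG.h2 k hk hK).2.1]
  · simp [hK]

theorem C3_lt {M : CMap V} (h3 : M.C3) {B : Finset V} (hB : B ⊆ M.A) (hne : B.Nonempty) (hne2 : B ≠ M.A)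
    (hb : M.b B ≤ 2) : False := by
  have := h3 B hB hne hne2
  omega

/-- a proper nonempty set with at most three leaving edges has exactly three, and is odd -/
theorem b3_facts {M : CMap V} (h3 : M.C3) {B : Finset V} (hB : B ⊆ M.A) (hne : B.Nonempty)
    (hne2 : B ≠ M.A) (hb : M.b B ≤ 3) : M.b B = 3 ∧ B.card % 2 = 1 ∧ (M.A \ B).card % 2 = 1 := by
  have h1 := h3 B hB hne hne2
  have h2 : M.b B = 3 := by omega
  have h4 := M.parity hB
  have h5 := M.parity (B := M.A \ B) Finset.sdiff_subset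
  rw [M.b_compl hB] at h5
  refine ⟨h2, by omega, by omega⟩

/-- the triangle configuration -/
def triD (M : CMap V) (d : V × Fin 3) (x : ℕ) : V × Fin 3 :=
  if x = 0 then d else if x = 1 then M.ph d else if x = 2 then M.ph (M.ph d) else M.al (sg (M.ph (M.ph d)))

theorem iter3 {M : CMap V} {d : V × Fin 3} (h : M.ln d = 3) : M.ph (M.ph (M.ph d)) = d := by
  have := M.ph_ln d
  rw [h] at this
  exact this

theorem ph_ne_of_ln {M : CMap V} {d : V × Fin 3} {n i j : ℕ} (h : M.ln d = n) (hi : i < n) (hj : j < n)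
    (he : M.ph^[i] d = M.ph^[j] d) : i = j := by
  subst h
  exact Function.iterate_injOn_Iio_minimalPeriod (f := M.ph) (x := d) hi hj he

theorem face_vert_ne {M : CMap V} (h3 : M.C3) (hpl : M.Pl) {d : V × Fin 3} (hd : d.1 ∈ M.A) {n i j : ℕ}
    (h : M.ln d = n) (hi : i < n) (hj : j < n) (hij : i ≠ j) : (M.ph^[i] d).1 ≠ (M.ph^[j] d).1 := by
  intro he
  have h1 : (M.ph^[i] d).1 ∈ M.A := (M.SC_act (M.SC_iter d i)).1 hd
  have h2 := M.fc_vertex h3 hpl h1 he ((M.SC_iter d i).symm.trans (M.SC_iter d j))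
  exact hij (ph_ne_of_ln h hi hj h2)

theorem tri_emb {M : CMap V} (h3 : M.C3) (hpl : M.Pl) (hA : 5 ≤ M.A.card) {d : V × Fin 3}
    (hd : d.1 ∈ M.A) (hl : M.ln d = 3) : Emb M gTri (mk M gTri (triD M d)) := by
  have i3 := iter3 hl
  have hd1 : (M.ph d).1 ∈ M.A := (M.ph_act d).2 hd
  have hd2 : (M.ph (M.ph d)).1 ∈ M.A := (M.ph_act _).2 hd1
  have n01 : d.1 ≠ (M.ph d).1 := face_vert_ne h3 hpl hd hl (i := 0) (j := 1) (by omega) (by omega) (by omega)
  have n02 : d.1 ≠ (M.ph (M.ph d)).1 :=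
    face_vert_ne h3 hpl hd hl (i := 0) (j := 2) (by omega) (by omega) (by omega)
  have n12 : (M.ph d).1 ≠ (M.ph (M.ph d)).1 :=
    face_vert_ne h3 hpl hd hl (i := 1) (j := 2) (by omega) (by omega) (by omega)
  have a0 : M.al d = sg (sg (M.ph d)) := M.al_ph d
  have a1 : M.al (M.ph d) = sg (sg (M.ph (M.ph d))) := M.al_ph _
  have a2 : M.al (M.ph (M.ph d)) = sg (sg d) := by rw [M.al_ph, i3]
  have a1' : M.al (sg (sg (M.ph (M.ph d)))) = M.ph d := by rw [← a1, M.inv]
  have a2' : M.al (sg (sg d)) = M.ph (M.ph d) := by rw [← a2, M.inv]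
  have n3 : ∀ e : V × Fin 3, e.1 = d.1 ∨ e.1 = (M.ph d).1 ∨ e.1 = (M.ph (M.ph d)).1 →
      (M.al (sg (M.ph (M.ph d)))).1 ≠ e.1 := by
    intro e he q
    rcases he with he | he | he
    · have := M.no_par h3 (by omega) (d := sg (M.ph (M.ph d))) (e := M.ph (M.ph d)) hd2 rfl
        (by rw [q, he, a2]; rfl)
      exact sg_ne _ this
    · have := M.no_par h3 (by omega) (d := sg (M.ph (M.ph d))) (e := sg (sg (M.ph (M.ph d)))) hd2 rfl
        (by rw [q, he, a1'])
      exact sg_ne _ (sg_inj this).symm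
    · exact M.no_loop h3 (by omega) (d := sg (M.ph (M.ph d))) hd2 (by rw [q, he]; rfl)
  have c1 : ∀ x < gTri.m, (triD M d x).1 ∈ M.A := by
    intro x hx
    have hx' : x < 4 := hx
    interval_cases x
    · exact hd
    · exact hd1
    · exact hd2
    · exact M.act _ hd2
  have c2 : ∀ x < gTri.m, ∀ y < gTri.m, (triD M d x).1 = (triD M d y).1 → x = y := by
    intro x hx y hy he
    have hx' : x < 4 := hx
    have hy' : y < 4 := hy
    have m0 := n3 d (by simp)
    have m1 := n3 (M.ph d) (by simp)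
    have m2 := n3 (M.ph (M.ph d)) (by simp)
    interval_cases x <;> interval_cases y <;> first | rfl | (exfalso; simp [triD] at he) <;>
      first | exact n01 he | exact n01 he.symm | exact n02 he | exact n02 he.symm | exact n12 he |
        exact n12 he.symm | exact m0 he | exact m0 he.symm | exact m1 he | exact m1 he.symm |
        exact m2 he | exact m2 he.symm
  have c3 : ∀ k < 3 * gTri.m, gTri.p k < 3 * gTri.m → k < gTri.p k →
      M.al (mk M gTri (triD M d) k) = mk M gTri (triD M d) (gTri.p k) := by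
    intro k hk h1 h2
    have hk' : k < 12 := hk
    interval_cases k <;> first | (exfalso; revert h1 h2; decide) | skip
    · exact a0
    · exact a2'
    · exact a1
    · rfl
  exact mkEmb M gTri gTri_ok _ c1 c2 c3
    (term_out M gTri gTri_ok _ h3 (by decide) (by have : gTri.m = 4 := rfl; omega) (by decide) c1 c2 c3)

theorem tri_loc : ∀ t0 t1 t2 t3 : Bool,
    gTri.loc (Xt gTri (tf 12 [t0, t1, t2, t3]) (fun x => if x < 3 then
      (if t0 = t1 then t0 else if t2 = t3 then t2 else true) else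
      (if t2 = t3 then t2 else if t0 = t1 then t0 else true))) =
    gTri.loc' (Xt gTri (tf 12 [t0, t1, t2, t3]) (fun x => if x < 3 then
      (if t0 = t1 then t0 else if t2 = t3 then t2 else true) else
      (if t2 = t3 then t2 else if t0 = t1 then t0 else true))) +
      (if t0 = t1 ∧ t2 = t3 ∧ t0 ≠ t2 then 1 else 0) := by decide +kernel

section
variable {M M' : CMap V} {ε : ℕ → V × Fin 3}

theorem Xp_tf4 {G : Gd} (hN4 : G.t = 4) (hk : G.kept = []) (B : Finset V) (y : ℕ → Bool) :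
    ∀ k < G.N, Xp G ε B y k = Xt G (tf (3 * G.m) [decide ((ε (3 * G.m)).1 ∈ B), decide ((ε (3 * G.m + 1)).1 ∈ B),
      decide ((ε (3 * G.m + 2)).1 ∈ B), decide ((ε (3 * G.m + 3)).1 ∈ B)]) y k := by
  intro k hkN
  have hN : G.N = 3 * G.m + G.t := rfl
  rw [Xp_eq]
  unfold Xt
  by_cases hK : G.isK k = true
  · rw [if_pos hK, if_pos hK]
    have hk3 : 3 * G.m ≤ k := by
      by_contra hc
      unfold Gd.isK at hK
      rw [hk] at hK
      simp at hK
      omega
    have : k = 3 * G.m ∨ k = 3 * G.m + 1 ∨ k = 3 * G.m + 2 ∨ k = 3 * G.m + 3 := by omega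
    unfold tf
    rcases this with rfl | rfl | rfl | rfl
    · simp
    · simp
    · simp
    · simp
  · rw [if_neg hK, if_neg hK]

theorem tri_cut (h : Emb M gTri ε) (hr : Red M M' gTri ε) {B : Finset V} (hB : B ⊆ M'.A) :
    ∃ y : ℕ → Bool, M.b (Bext M gTri ε B y) = M'.b B +
      (if (decide ((ε 12).1 ∈ B) = decide ((ε 13).1 ∈ B) ∧ decide ((ε 14).1 ∈ B) = decide ((ε 15).1 ∈ B) ∧
        decide ((ε 12).1 ∈ B) ≠ decide ((ε 14).1 ∈ B)) then 1 else 0) ∧
      ((decide ((ε 12).1 ∈ B) = decide ((ε 13).1 ∈ B) ∧ decide ((ε 14).1 ∈ B) = decide ((ε 15).1 ∈ B) ∧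
        decide ((ε 12).1 ∈ B) ≠ decide ((ε 14).1 ∈ B)) →
        (y 0 = decide ((ε 12).1 ∈ B) ∧ y 1 = decide ((ε 12).1 ∈ B) ∧ y 2 = decide ((ε 12).1 ∈ B) ∧
          y 3 = decide ((ε 14).1 ∈ B))) := by
  set t0 := decide ((ε 12).1 ∈ B) with ht0
  set t1 := decide ((ε 13).1 ∈ B) with ht1
  set t2 := decide ((ε 14).1 ∈ B) with ht2
  set t3 := decide ((ε 15).1 ∈ B) with ht3
  refine ⟨fun x => if x < 3 then (if t0 = t1 then t0 else if t2 = t3 then t2 else true) else
      (if t2 = t3 then t2 else if t0 = t1 then t0 else true), ?_, ?_⟩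
  · have h1 := cut_transfer h gTri_ok hr hB (fun x => if x < 3 then
      (if t0 = t1 then t0 else if t2 = t3 then t2 else true) else
      (if t2 = t3 then t2 else if t0 = t1 then t0 else true))
    have h2 := Xp_tf4 (ε := ε) (G := gTri) (by decide) (by decide) B (fun x => if x < 3 then
      (if t0 = t1 then t0 else if t2 = t3 then t2 else true) else
      (if t2 = t3 then t2 else if t0 = t1 then t0 else true))
    rw [loc_congr gTri_ok h2, loc'_congr gTri_ok h2] at h1
    have h3 := tri_loc t0 t1 t2 t3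
    have e0 : (3 * gTri.m) = 12 := rfl
    simp only [e0] at h1
    rw [← ht0, ← ht1, ← ht2, ← ht3] at h1
    omega
  · rintro ⟨q1, q2, q3⟩
    simp [q1, q2]

/-- choose between a set and its complement -/
theorem pick_side {Z : Finset V} (hZ : Z ⊆ M.A) : (M.A \ Z) ⊆ M.A ∧ M.b (M.A \ Z) = M.b Z ∧
    M.A \ (M.A \ Z) = Z := by
  refine ⟨Finset.sdiff_subset, M.b_compl hZ, ?_⟩
  rw [Finset.sdiff_sdiff_eq_self hZ]

theorem four_le_card {Z : Finset V} {a b c d : V} (ha : a ∈ Z) (hb : b ∈ Z) (hc : c ∈ Z) (hd : d ∈ Z)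
    (h1 : a ≠ b) (h2 : a ≠ c) (h3 : a ≠ d) (h4 : b ≠ c) (h5 : b ≠ d) (h6 : c ≠ d) : 4 ≤ Z.card := by
  have : ({a, b, c, d} : Finset V).card = 4 := by
    rw [Finset.card_insert_of_notMem, Finset.card_insert_of_notMem, Finset.card_pair h6]
    · simp [h4, h5]
    · simp [h1, h2, h3]
  rw [← this]
  apply Finset.card_le_card
  intro x hx
  simp only [mem_insert, mem_singleton] at hx
  rcases hx with rfl | rfl | rfl | rfl <;> assumption

theorem two_le_card {Z : Finset V} {a b : V} (ha : a ∈ Z) (hb : b ∈ Z) (h1 : a ≠ b) : 2 ≤ Z.card := by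
  rw [← Finset.card_pair h1]
  apply Finset.card_le_card
  intro x hx
  simp only [mem_insert, mem_singleton] at hx
  rcases hx with rfl | rfl <;> assumption

theorem emb_ne (h : Emb M gTri ε) {a b : ℕ} (ha : a < 12) (hb : b < 12) (hab : a / 3 ≠ b / 3) :
    (ε a).1 ≠ (ε b).1 := fun q => hab (h.vert (G := gTri) ha hb q)

theorem tri_c3 (h : Emb M gTri ε) (hr : Red M M' gTri ε) (h3 : M.C3) (hpl : M.Pl) (hNB : M.NB)
    (hA : 6 ≤ M.A.card) :
    M'.C3 ∨ (8 ≤ M.A.card ∧ ∃ e : V × Fin 3, e.1 = (ε 9).1 ∧ M.ln e = 3) := by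
  by_contra hcon
  push Not at hcon
  obtain ⟨hnc, hcon⟩ := hcon
  unfold CMap.C3 at hnc
  push Not at hnc
  obtain ⟨B, hB, hne, hne2, hb⟩ := hnc
  obtain ⟨y, hy1, hy2⟩ := tri_cut h hr hB
  have hs := Bext_sub (M := M) (G := gTri) (ε := ε) B y
  have hn1 := Bext_nonempty h hr hB y hne
  have hn2 := Bext_ne h hr hB y hne2
  split_ifs at hy1 with hbad
  swap
  · exact C3_lt h3 hs hn1 hn2 (by omega)
  obtain ⟨y0, y1, y2, y3⟩ := hy2 hbad
  obtain ⟨hb3, ho1, ho2⟩ := b3_facts h3 hs hn1 hn2 (by omega)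
  set C := Bext M gTri ε B y with hC
  -- membership
  have mem : ∀ k < 12, ((ε k).1 ∈ C ↔ y (k / 3) = true) := by
    intro k hk
    rw [hC, Bext_mem h hr hB y (k := k) (by have : gTri.N = 16 := rfl; omega)]
    unfold Xp
    have : gTri.isK k = false := by revert k; decide +kernel
    rw [this]; simp
  have memt : ∀ k, 12 ≤ k → k < 16 → ((ε k).1 ∈ C ↔ (ε k).1 ∈ B) := by
    intro k hk hk2
    rw [hC, Bext_mem h hr hB y (k := k) (by have : gTri.N = 16 := rfl; omega)]
    unfold Xp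
    rw [isK_term (G := gTri) (by have : 3 * gTri.m = 12 := rfl; omega)]
    simp
  -- the side containing the triangle
  have key : ∀ Z : Finset V, Z ⊆ M.A → M.b Z = 3 → Z.card % 2 = 1 → (M.A \ Z).card % 2 = 1 →
      (ε 0).1 ∈ Z → (ε 3).1 ∈ Z → (ε 6).1 ∈ Z → (ε 12).1 ∈ Z → (ε 9).1 ∉ Z → (ε 14).1 ∉ Z → False := by
    intro Z hZ hZb hZo hZo' m0 m3 m6 m12 m9 m14
    have t12 := fun k hk => h.term 12 (by decide) (by decide) k hk
    have t14 := fun k hk => h.term 14 (by decide) (by decide) k hk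
    have h4 := four_le_card m0 m3 m6 m12 (emb_ne h (by omega) (by omega) (by omega))
      (emb_ne h (by omega) (by omega) (by omega)) (t12 0 (by decide)).symm
      (emb_ne h (by omega) (by omega) (by omega)) (t12 3 (by decide)).symm (t12 6 (by decide)).symm
    have a9 : (ε 9).1 ∈ M.A \ Z := Finset.mem_sdiff.2 ⟨h.act 9 (by decide), m9⟩
    have a14 : (ε 14).1 ∈ M.A \ Z := Finset.mem_sdiff.2 ⟨h.act 14 (by decide), m14⟩
    have h5 := two_le_card a9 a14 (t14 9 (by decide)).symm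
    have h6 := hNB Z hZ hZb
    have h7 : (M.A \ Z).card = 3 := by omega
    have h8 : Z.card + (M.A \ Z).card = M.A.card := by
      rw [Finset.card_sdiff_of_subset hZ]
      have := Finset.card_le_card hZ
      omega
    -- the complement contains a short face
    obtain ⟨e, he1, he2⟩ := M.small_face h3 hpl (S := M.A \ Z) Finset.sdiff_subset
      (by intro q; have : (ε 0).1 ∈ M.A \ Z := by rw [q]; exact hZ m0
          exact (Finset.mem_sdiff.1 this).2 m0)
      (by rw [M.b_compl hZ]; omega) (by rw [M.b_compl hZ, hZb]; omega) ⟨_, a9⟩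
    have heA : e.1 ∈ M.A := (Finset.mem_sdiff.1 (he1 e (CMap.SC.refl M e))).1
    have hl3 : M.ln e = 3 := by
      have := M.ln_ge3 h3 (by omega) heA
      omega
    -- all vertices of the complement are on this face
    have himg : (M.fc e).image Prod.fst = M.A \ Z := by
      apply Finset.eq_of_subset_of_card_le
      · intro v hv
        rw [Finset.mem_image] at hv
        obtain ⟨f, hf, rfl⟩ := hv
        exact he1 f (M.mem_fc.1 hf)
      · rw [Finset.card_image_of_injOn, M.card_fc, hl3, h7]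
        intro a ha b hb hab
        have ha' := M.mem_fc.1 ha
        have hb' := M.mem_fc.1 hb
        exact M.fc_vertex h3 hpl ((M.SC_act ha').1 heA) hab (ha'.symm.trans hb')
    rw [← himg, Finset.mem_image] at a9
    obtain ⟨f, hf, hf1⟩ := a9
    exact hcon (by omega) f hf1 (by rw [← M.ln_SC (M.mem_fc.1 hf), hl3])
  have m0 := mem 0 (by omega)
  have m3 := mem 3 (by omega)
  have m6 := mem 6 (by omega)
  have m9 := mem 9 (by omega)
  have m12 := memt 12 (by omega) (by omega)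
  have m14 := memt 14 (by omega) (by omega)
  norm_num at m0 m3 m6 m9
  rw [y0] at m0
  rw [y1] at m3
  rw [y2] at m6
  rw [y3] at m9
  simp only [decide_eq_true_eq] at m0 m3 m6 m9
  have hb3' : ((ε 12).1 ∈ B ↔ ¬ (ε 14).1 ∈ B) := by
    have := hbad.2.2
    by_cases q1 : (ε 12).1 ∈ B <;> by_cases q2 : (ε 14).1 ∈ B <;> simp [q1, q2] at this ⊢
  by_cases q : (ε 12).1 ∈ B
  · have q2 := hb3'.1 q
    exact key C hs hb3 ho1 ho2 (m0.2 q) (m3.2 q) (m6.2 q) (m12.2 q) (fun z => q2 (m9.1 z))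
      (fun z => q2 (m14.1 z))
  · have q2 : (ε 14).1 ∈ B := by by_contra z; exact q (hb3'.2 z)
    obtain ⟨p1, p2, p3⟩ := pick_side (M := M) hs
    have nm : ∀ k < 16, (ε k).1 ∉ C → (ε k).1 ∈ M.A \ C := fun k hk z =>
      Finset.mem_sdiff.2 ⟨h.act k hk, z⟩
    refine key (M.A \ C) p1 (by rw [p2]; exact hb3) ho2 (by rw [p3]; exact ho1)
      (nm 0 (by omega) (fun z => q (m0.1 z))) (nm 3 (by omega) (fun z => q (m3.1 z)))
      (nm 6 (by omega) (fun z => q (m6.1 z))) (nm 12 (by omega) (fun z => q (m12.1 z))) ?_ ?_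
    · intro z; exact (Finset.mem_sdiff.1 z).2 (m9.2 q2)
    · intro z; exact (Finset.mem_sdiff.1 z).2 (m14.2 q2)

end

end Pool.Agent.H24
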