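import Pool.Agent.H24.Tri

set_option autoImplicit false
set_option linter.unusedSectionVars false
set_option linter.unusedVariables false

namespace Pool.Agent.H24

open Finset Equiv.Perm

variable {V : Type} [Fintype V] [DecidableEq V]
variable {M M' : CMap V}

def twoD (M : CMap V) (d e : V × Fin 3) (x : ℕ) : V × Fin 3 :=
  if x = 0 then d else if x = 1 then M.ph d else if x = 2 then M.ph (M.ph d)
  else if x = 3 then M.ph e else if x = 4 then M.ph (M.ph e) else e

theorem two_emb (h3 : M.C3) (hpl : M.Pl) (hA : 7 ≤ M.A.card) {d e : V × Fin 3}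
    (hd : d.1 ∈ M.A) (hl : M.ln d = 3) (hl' : M.ln e = 3)
    (he : e.1 = (M.al (sg (M.ph (M.ph d)))).1) : Emb M gTwo (mk M gTwo (twoD M d e)) := by
  have hE := tri_emb h3 hpl (by omega) hd hl
  have i3 := iter3 hl
  have j3 := iter3 hl'
  have hd1 : (M.ph d).1 ∈ M.A := (M.ph_act d).2 hd
  have hd2 : (M.ph (M.ph d)).1 ∈ M.A := (M.ph_act _).2 hd1
  have heA : e.1 ∈ M.A := by rw [he]; exact M.act _ hd2
  have he1 : (M.ph e).1 ∈ M.A := (M.ph_act e).2 heA
  have he2 : (M.ph (M.ph e)).1 ∈ M.A := (M.ph_act _).2 he1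
  have n01 : d.1 ≠ (M.ph d).1 := face_vert_ne h3 hpl hd hl (i := 0) (j := 1) (by omega) (by omega) (by omega)
  have n02 : d.1 ≠ (M.ph (M.ph d)).1 :=
    face_vert_ne h3 hpl hd hl (i := 0) (j := 2) (by omega) (by omega) (by omega)
  have n12 : (M.ph d).1 ≠ (M.ph (M.ph d)).1 :=
    face_vert_ne h3 hpl hd hl (i := 1) (j := 2) (by omega) (by omega) (by omega)
  have e01 : e.1 ≠ (M.ph e).1 := face_vert_ne h3 hpl heA hl' (i := 0) (j := 1) (by omega) (by omega) (by omega)
  have e02 : e.1 ≠ (M.ph (M.ph e)).1 :=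
    face_vert_ne h3 hpl heA hl' (i := 0) (j := 2) (by omega) (by omega) (by omega)
  have e12 : (M.ph e).1 ≠ (M.ph (M.ph e)).1 :=
    face_vert_ne h3 hpl heA hl' (i := 1) (j := 2) (by omega) (by omega) (by omega)
  have a0 : M.al d = sg (sg (M.ph d)) := M.al_ph d
  have a1 : M.al (M.ph d) = sg (sg (M.ph (M.ph d))) := M.al_ph _
  have a2 : M.al (M.ph (M.ph d)) = sg (sg d) := by rw [M.al_ph, i3]
  have a2' : M.al (sg (sg d)) = M.ph (M.ph d) := by rw [← a2, M.inv]
  have b0 : M.al e = sg (sg (M.ph e)) := M.al_ph e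
  have b1 : M.al (M.ph e) = sg (sg (M.ph (M.ph e))) := M.al_ph _
  have b2 : M.al (M.ph (M.ph e)) = sg (sg e) := by rw [M.al_ph, j3]
  have b2' : M.al (sg (sg e)) = M.ph (M.ph e) := by rw [← b2, M.inv]
  have b0' : M.al (sg (sg (M.ph e))) = e := by rw [← b0, M.inv]
  set β := M.al (sg (M.ph (M.ph d))) with hβ
  -- terminals of the triangle configuration
  have T0 : (M.al (sg d)).1 ≠ β.1 := by
    intro q
    exact hE.term 12 (by decide) (by decide) 9 (by decide) q
  have T1 : (M.al (sg (M.ph d))).1 ≠ β.1 := by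
    intro q
    exact hE.term 13 (by decide) (by decide) 9 (by decide) q
  have T2 : ∀ x < 4, (M.al (sg β)).1 ≠ (triD M d x).1 := by
    intro x hx q
    refine hE.term 14 (by decide) (by decide) (3 * x) (by have : 3 * gTri.m = 12 := rfl; omega) ?_
    interval_cases x <;> exact q
  have T3 : ∀ x < 4, (M.al (sg (sg β))).1 ≠ (triD M d x).1 := by
    intro x hx q
    refine hE.term 15 (by decide) (by decide) (3 * x) (by have : 3 * gTri.m = 12 := rfl; omega) ?_
    interval_cases x <;> exact q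
  have hb : β = sg e := by
    rcases dart_cases he.symm with q | q | q
    · exfalso
      -- e = β : the face contains the third vertex
      have r1 : M.ph e = sg (sg (M.ph (M.ph d))) := by
        rw [← q, CMap.ph_apply, hβ, M.inv]
      have r2 : M.ph (M.ph e) = sg (M.ph d) := by
        rw [r1, ← a1, M.ph_al]
      have r3 : M.al (sg (M.ph d)) = sg (sg e) := by rw [← r2, b2]
      exact T1 (by rw [r3, q]; rfl)
    · exact q
    · exfalso
      have r1 : sg β = e := by rw [q, sg3]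
      have r2 : M.ph (sg (M.ph (M.ph d))) = e := by rw [CMap.ph_apply, ← hβ, r1]
      have r3 : M.ph (M.ph e) = sg (M.ph (M.ph d)) := by
        apply M.ph.injective
        rw [r2, j3]
      have r4 : M.ph (sg (sg d)) = sg (M.ph (M.ph d)) := by rw [← a2, M.ph_al]
      have r5 : M.ph e = sg (sg d) := by
        apply M.ph.injective
        rw [r4, r3]
      have r6 : M.al e = sg d := by rw [b0, r5, sg3]
      have r7 : M.al (sg d) = e := by rw [← r6, M.inv]
      exact T0 (by rw [r7, he])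
  have hsβ : sg β = sg (sg e) := by rw [hb]
  have hssβ : sg (sg β) = e := by rw [hb, sg3]
  rw [hsβ, b2'] at T2
  rw [hssβ, b0] at T3
  have m : ∀ x < 3, (triD M d x).1 ≠ e.1 := by
    intro x hx q
    have := hE.vert (k := 3 * x) (l := 9) (by have : 3 * gTri.m = 12 := rfl; omega) (by decide)
      (by rw [he] at q; interval_cases x <;> exact q)
    omega
  have m0 := m 0 (by omega)
  have m1 := m 1 (by omega)
  have m2 := m 2 (by omega)
  have s0 := T2 0 (by omega)
  have s1 := T2 1 (by omega)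
  have s2 := T2 2 (by omega)
  have u0 := T3 0 (by omega)
  have u1 := T3 1 (by omega)
  have u2 := T3 2 (by omega)
  simp only [triD, sg_fst] at m0 m1 m2 s0 s1 s2 u0 u1 u2
  norm_num at m0 m1 m2 s0 s1 s2 u0 u1 u2
  have c1 : ∀ x < gTwo.m, (twoD M d e x).1 ∈ M.A := by
    intro x hx
    have hx' : x < 6 := hx
    interval_cases x
    · exact hd
    · exact hd1
    · exact hd2
    · exact he1
    · exact he2
    · exact heA
  have c2 : ∀ x < gTwo.m, ∀ y < gTwo.m, (twoD M d e x).1 = (twoD M d e y).1 → x = y := by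
    have main : ∀ x y : ℕ, x < y → y < 6 → (twoD M d e x).1 ≠ (twoD M d e y).1 := by
      intro x y hxy hy he'
      interval_cases y <;> interval_cases x <;> simp [twoD] at he'
      · exact n01 he'
      · exact n02 he'
      · exact n12 he'
      · exact u0 he'.symm
      · exact u1 he'.symm
      · exact u2 he'.symm
      · exact s0 he'.symm
      · exact s1 he'.symm
      · exact s2 he'.symm
      · exact e12 he'
      · exact m0 he'
      · exact m1 he'
      · exact m2 he'
      · exact e01 he'.symm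
      · exact e02 he'.symm
    intro x hx y hy he'
    rcases lt_trichotomy x y with q | q | q
    · exact absurd he' (main x y q hy)
    · exact q
    · exact absurd he'.symm (main y x q hx)
  have c3 : ∀ k < 3 * gTwo.m, gTwo.p k < 3 * gTwo.m → k < gTwo.p k →
      M.al (mk M gTwo (twoD M d e) k) = mk M gTwo (twoD M d e) (gTwo.p k) := by
    intro k hk h1 h2
    have hk' : k < 18 := hk
    interval_cases k <;> first | (exfalso; revert h1 h2; decide) | skip
    · exact a0
    · exact a2'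
    · exact a1
    · show M.al (sg (M.ph (M.ph d))) = sg e
      rw [← hβ, hb]
    · exact b1
    · show M.al (sg (sg (M.ph e))) = e
      exact b0'
    · exact b2
  exact mkEmb M gTwo gTwo_ok _ c1 c2 c3
    (term_out M gTwo gTwo_ok _ h3 (by decide) (by have : gTwo.m = 6 := rfl; omega) (by decide) c1 c2 c3)

theorem two_loc : ∀ t0 t1 t2 t3 : Bool,
    gTwo.loc (Xt gTwo (tf 18 [t0, t1, t2, t3]) (fun x => if x < 3 then
      (if t0 = t1 then t0 else if t2 = t3 then t2 else true) else
      (if t2 = t3 then t2 else if t0 = t1 then t0 else true))) =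
    gTwo.loc' (Xt gTwo (tf 18 [t0, t1, t2, t3]) (fun x => if x < 3 then
      (if t0 = t1 then t0 else if t2 = t3 then t2 else true) else
      (if t2 = t3 then t2 else if t0 = t1 then t0 else true))) +
      (if t0 = t1 ∧ t2 = t3 ∧ t0 ≠ t2 then 1 else 0) := by decide +kernel

variable {ε : ℕ → V × Fin 3}

theorem two_cut' (h : Emb M gTwo ε) (hr : Red M M' gTwo ε) {B : Finset V} (hB : B ⊆ M'.A) :
    ∃ y : ℕ → Bool, M.b (Bext M gTwo ε B y) = M'.b B +
      (if (decide ((ε 18).1 ∈ B) = decide ((ε 19).1 ∈ B) ∧ decide ((ε 20).1 ∈ B) = decide ((ε 21).1 ∈ B) ∧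
        decide ((ε 18).1 ∈ B) ≠ decide ((ε 20).1 ∈ B)) then 1 else 0) ∧
      ((decide ((ε 18).1 ∈ B) = decide ((ε 19).1 ∈ B) ∧ decide ((ε 20).1 ∈ B) = decide ((ε 21).1 ∈ B) ∧
        decide ((ε 18).1 ∈ B) ≠ decide ((ε 20).1 ∈ B)) →
        ((∀ x < 3, y x = decide ((ε 18).1 ∈ B)) ∧ (∀ x, 3 ≤ x → y x = decide ((ε 20).1 ∈ B)))) := by
  set t0 := decide ((ε 18).1 ∈ B) with ht0
  set t1 := decide ((ε 19).1 ∈ B) with ht1
  set t2 := decide ((ε 20).1 ∈ B) with ht2
  set t3 := decide ((ε 21).1 ∈ B) with ht3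
  refine ⟨fun x => if x < 3 then (if t0 = t1 then t0 else if t2 = t3 then t2 else true) else
      (if t2 = t3 then t2 else if t0 = t1 then t0 else true), ?_, ?_⟩
  · have h1 := cut_transfer h gTwo_ok hr hB (fun x => if x < 3 then
      (if t0 = t1 then t0 else if t2 = t3 then t2 else true) else
      (if t2 = t3 then t2 else if t0 = t1 then t0 else true))
    have h2 := Xp_tf4 (ε := ε) (G := gTwo) (by decide) (by decide) B (fun x => if x < 3 then
      (if t0 = t1 then t0 else if t2 = t3 then t2 else true) else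
      (if t2 = t3 then t2 else if t0 = t1 then t0 else true))
    rw [loc_congr gTwo_ok h2, loc'_congr gTwo_ok h2] at h1
    have h3 := two_loc t0 t1 t2 t3
    have e0 : (3 * gTwo.m) = 18 := rfl
    simp only [e0] at h1
    rw [← ht0, ← ht1, ← ht2, ← ht3] at h1
    omega
  · rintro ⟨q1, q2, q3⟩
    refine ⟨?_, ?_⟩
    · intro x hx
      simp [q1, hx]
    · intro x hx
      have : ¬ x < 3 := by omega
      simp [q2, this]

theorem two_c3 (h : Emb M gTwo ε) (hr : Red M M' gTwo ε) (h3 : M.C3) (hNB : M.NB) : M'.C3 := by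
  by_contra hnc
  unfold CMap.C3 at hnc
  push Not at hnc
  obtain ⟨B, hB, hne, hne2, hb⟩ := hnc
  obtain ⟨y, hy1, hy2⟩ := two_cut' h hr hB
  have hs := Bext_sub (M := M) (G := gTwo) (ε := ε) B y
  have hn1 := Bext_nonempty h hr hB y hne
  have hn2 := Bext_ne h hr hB y hne2
  split_ifs at hy1 with hbad
  swap
  · exact C3_lt h3 hs hn1 hn2 (by omega)
  obtain ⟨y0, y1⟩ := hy2 hbad
  obtain ⟨hb3, ho1, ho2⟩ := b3_facts h3 hs hn1 hn2 (by omega)
  set C := Bext M gTwo ε B y with hC
  have mem : ∀ k < 18, ((ε k).1 ∈ C ↔ y (k / 3) = true) := by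
    intro k hk
    rw [hC, Bext_mem h hr hB y (k := k) (by have : gTwo.N = 22 := rfl; omega)]
    unfold Xp
    have : gTwo.isK k = false := by revert k; decide +kernel
    rw [this]; simp
  have memt : ∀ k, 18 ≤ k → k < 22 → ((ε k).1 ∈ C ↔ (ε k).1 ∈ B) := by
    intro k hk hk2
    rw [hC, Bext_mem h hr hB y (k := k) (by have : gTwo.N = 22 := rfl; omega)]
    unfold Xp
    rw [isK_term (G := gTwo) (by have : 3 * gTwo.m = 18 := rfl; omega)]
    simp
  have ne : ∀ a < 18, ∀ b < 18, a / 3 ≠ b / 3 → (ε a).1 ≠ (ε b).1 := by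
    intro a ha b hb hab q
    exact hab (h.vert (G := gTwo) ha hb q)
  have t18 := fun k hk => h.term 18 (by decide) (by decide) k hk
  have t20 := fun k hk => h.term 20 (by decide) (by decide) k hk
  have key : ∀ Z Z' : Finset V, (ε 0).1 ∈ Z → (ε 3).1 ∈ Z → (ε 6).1 ∈ Z → (ε 18).1 ∈ Z →
      (ε 9).1 ∈ Z' → (ε 12).1 ∈ Z' → (ε 15).1 ∈ Z' → (ε 20).1 ∈ Z' → 4 ≤ Z.card ∧ 4 ≤ Z'.card := by
    intro Z Z' a0 a1 a2 a3 b0 b1 b2 b3
    exact ⟨four_le_card a0 a1 a2 a3 (ne _ (by omega) _ (by omega) (by omega))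
      (ne _ (by omega) _ (by omega) (by omega)) (t18 0 (by decide)).symm
      (ne _ (by omega) _ (by omega) (by omega)) (t18 3 (by decide)).symm (t18 6 (by decide)).symm,
      four_le_card b0 b1 b2 b3 (ne _ (by omega) _ (by omega) (by omega))
      (ne _ (by omega) _ (by omega) (by omega)) (t20 9 (by decide)).symm
      (ne _ (by omega) _ (by omega) (by omega)) (t20 12 (by decide)).symm (t20 15 (by decide)).symm⟩
  have hb3' : ((ε 18).1 ∈ B ↔ ¬ (ε 20).1 ∈ B) := by
    have := hbad.2.2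
    by_cases q1 : (ε 18).1 ∈ B <;> by_cases q2 : (ε 20).1 ∈ B <;> simp [q1, q2] at this ⊢
  have nm : ∀ k < 22, (ε k).1 ∉ C → (ε k).1 ∈ M.A \ C := fun k hk z =>
      Finset.mem_sdiff.2 ⟨h.act k hk, z⟩
  have m0 := mem 0 (by omega)
  have m3 := mem 3 (by omega)
  have m6 := mem 6 (by omega)
  have m9 := mem 9 (by omega)
  have m12 := mem 12 (by omega)
  have m15 := mem 15 (by omega)
  have m18 := memt 18 (by omega) (by omega)
  have m20 := memt 20 (by omega) (by omega)
  rw [y0 _ (by norm_num), decide_eq_true_eq] at m0 m3 m6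
  rw [y1 _ (by norm_num), decide_eq_true_eq] at m9 m12 m15
  have hfin : 4 ≤ C.card ∧ 4 ≤ (M.A \ C).card := by
    by_cases q : (ε 18).1 ∈ B
    · have q2 := hb3'.1 q
      exact key C (M.A \ C) (m0.2 q) (m3.2 q) (m6.2 q) (m18.2 q) (nm 9 (by omega) (fun z => q2 (m9.1 z)))
        (nm 12 (by omega) (fun z => q2 (m12.1 z))) (nm 15 (by omega) (fun z => q2 (m15.1 z)))
        (nm 20 (by omega) (fun z => q2 (m20.1 z)))
    · have q2 : (ε 20).1 ∈ B := by by_contra z; exact q (hb3'.2 z)
      have := key (M.A \ C) C (nm 0 (by omega) (fun z => q (m0.1 z))) (nm 3 (by omega) (fun z => q (m3.1 z)))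
        (nm 6 (by omega) (fun z => q (m6.1 z))) (nm 18 (by omega) (fun z => q (m18.1 z)))
        (m9.2 q2) (m12.2 q2) (m15.2 q2) (m20.2 q2)
      exact ⟨this.2, this.1⟩
  have := hNB C hs hb3
  omega

theorem conn_of_C3 {M : CMap V} (h3 : M.C3) : M.Conn M.A := M.conn_A h3

/-- a facial triangle gives a reduction step -/
theorem tri_step (h3 : M.C3) (hpl : M.Pl) (hNB : M.NB) (hA : 6 ≤ M.A.card) {d : V × Fin 3}
    (hd : d.1 ∈ M.A) (hl : M.ln d = 3) : Step M := by
  have hE := tri_emb h3 hpl (by omega) hd hl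
  obtain ⟨M', hr⟩ := exists_red M gTri _ hE gTri_ok
  have hc := red_card hE hr
  have f1 : ((Finset.range gTri.m).filter (fun x => gTri.isK (3 * x) = false)).card = 4 := by decide +kernel
  rw [f1] at hc
  have hpl' := red_planar hE gTri_ok hr hpl 100 gTri_pl
  rcases tri_c3 hE hr h3 hpl hNB hA with hc3 | ⟨hA8, e, he, hel⟩
  · exact ⟨M', hc3, hpl', by omega, by omega, ext_tri hE hr, exc_tri hE hr hpl (conn_of_C3 hc3)⟩
  · have hE2 := two_emb h3 hpl (by omega) hd hl hel he
    obtain ⟨M2, hr2⟩ := exists_red M gTwo _ hE2 gTwo_ok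
    have hc2 := red_card hE2 hr2
    have f2 : ((Finset.range gTwo.m).filter (fun x => gTwo.isK (3 * x) = false)).card = 6 := by decide +kernel
    rw [f2] at hc2
    have hc3 := two_c3 hE2 hr2 h3 hNB
    exact ⟨M2, hc3, red_planar hE2 gTwo_ok hr2 hpl 100 gTwo_pl, by omega, by omega, ext_two hE2 hr2,
      exc_two hE2 hr2 hpl (conn_of_C3 hc3)⟩

end Pool.Agent.H24
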